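import Pool.Agent.H86.ZN.CtxE
import Pool.Agent.H86.Z1.Mid
import Pool.Agent.H86.Z1.Sv

/-!
# Project ZN: the middle zone (`k = 0`)

`vq m 0 t = 1`, `vq m 1 t = t/m` (`vq_zero`, `vq_one`), `wk m 0 t = 1`, `Nk 0 t = t`.

Proof sketches.
* `mid_link`: `mid` for `x = t/m` and `x = t/m + y/m = (t + y)/m`, `0 ≤ y ≤ 1`: `F m x = 1 + Ft m (t + y)/m`, `Ft m (t + y) = F m y` (periodic, `Ft m 0 = 0`, `F m 1 = 0`), `F m 1 = 0` (`F_one` or `F_symm`, `F_zero`).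
  `face` : `Face m 1` (`Face` of `Face.lean`: `FQ m 1` is `Ft m`, `Ft_isSub`; or from the definition: `0 ≤ α, β ≤ 1`, `1 ≤ α + β`: `F 1 + F (α + β - 1) ≤ F α + F β`).
* `ctx_chain0`: `Chain` with `w = 1`, `N = t`: links for `loR 1 m ≤ t`, `t + 1 ≤ upR 1 m = m/2`; `Face m (t/m)` by `Z1.sv` (`285 m ≤ 1000 t`, `2 t ≤ m`; `loR 1 = 8/27 > .285`); `F m (t/m) = 1` (`mid`), `Sq m 1 t = m/t`;
  `vq m 1 p3 = p3/m ≤ 1`.
* `zz_one`: `zz_step` for `k = 0` (same proof, with `ctx_of_chain` and `ctx_chain0`).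
-/

set_option autoImplicit false

namespace Pool.Agent.H86.ZN

open Finset Pool.Agent.H14RC Pool.Agent.H86.FM Pool.Agent.H86.Z1

theorem mid_link {m : ℕ} (hm : 1000000 ≤ m) {t : ℕ} (h0 : (m : ℝ) / 4 + 5 ≤ t) (h1 : (t : ℝ) + 1 ≤ 3 * m / 4 - 5) :
    Link m ((t : ℝ) / m) (((t : ℝ) + 1) / m) 1 t ∧ F m ((t : ℝ) / m) = 1 := by
  have hmR : (1000000 : ℝ) ≤ m := by exact_mod_cast hm
  have hm0 : (0 : ℝ) < m := by linarith
  have hm2 : 2 ≤ m := by omega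
  have key : ∀ y : ℝ, 0 ≤ y → y ≤ 1 → F m (((t : ℝ) + y) / m) = 1 + F m y / m := by
    intro y hy0 hy1
    rw [mid hm (x := ((t : ℝ) + y) / m)]
    · have e : (m : ℝ) * (((t : ℝ) + y) / m) = y + ((t : ℤ) : ℝ) := by
        push_cast
        field_simp
        ring
      rw [e, Ft_add_int, Ft_of_mem hm2 hy0 hy1]
    · rw [le_div_iff₀ hm0]
      have e : (1 / 4 + 5 / (m : ℝ)) * m = m / 4 + 5 := by field_simp
      rw [e]
      linarith
    · rw [div_le_iff₀ hm0]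
      have e : (3 / 4 - 5 / (m : ℝ)) * m = 3 * m / 4 - 5 := by field_simp
      rw [e]
      linarith
  have hF : F m ((t : ℝ) / m) = 1 := by
    have h := key 0 le_rfl zero_le_one
    rw [add_zero, F_zero hm2, zero_div, add_zero] at h
    exact h
  refine ⟨⟨face_one hm2, ?_, ?_, ?_, ?_, ?_, ?_⟩, hF⟩
  · have : (0 : ℝ) < (t : ℝ) := by linarith
    exact_mod_cast this
  · have : (t : ℝ) + 1 ≤ m := by linarith
    exact_mod_cast this
  · field_simp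
  · field_simp
  · rw [hF, F_one hm2]
    ring
  · intro y hy0 hy1
    rw [← add_div, key y hy0 hy1, hF]

private theorem mem_range {m : ℕ} (hm : 100000000 ≤ m) {t : ℕ} (h0 : (8 : ℝ) / 27 * m ≤ t) (h1 : (t : ℝ) < m / 2) :
    (m : ℝ) / 4 + 5 ≤ t ∧ (t : ℝ) + 1 ≤ 3 * m / 4 - 5 := by
  have hmR : (100000000 : ℝ) ≤ m := by exact_mod_cast hm
  constructor <;> linarith

theorem ctx_chain0 {s1 s2 ρ2 ρL ρR ρ3 a0 : ℝ} (P : Prm 0 s1 s2 ρ2 ρL ρR ρ3 a0) :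
    ∃ M : ℕ, ∀ m : ℕ, M ≤ m → ∀ p0 p2 pL pP pQ pR p3 : ℕ, Idx 0 m p0 p2 pL pP pQ pR p3 s1 s2 ρ2 ρL ρR ρ3 →
      Chain m (vq m (0 + 1)) (wk m 0) (Nk 0) ((0 + 1) * p0) ((0 + 1) * p3) ∧
      (∀ t, (0 + 1) * p2 ≤ t → t ≤ (0 + 1) * p3 → Face m (vq m (0 + 1) t)) ∧
      (∀ t, (0 + 1) * p2 ≤ t → t ≤ (0 + 1) * p3 → F m (vq m (0 + 1) t) = vq m (0 + 1) t * Sq m (0 + 1) t) ∧
      vq m (0 + 1) ((0 + 1) * p3) ≤ wk m 0 ((0 + 1) * p0) := by
  refine ⟨100000000, ?_⟩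
  intro m hm p0 p2 pL pP pQ pR p3 I
  have hmR : (100000000 : ℝ) ≤ m := by exact_mod_cast hm
  have hm0 : (0 : ℝ) < m := by linarith
  have hm2 : 2 ≤ m := by omega
  have hlo : loR (0 + 1) = 8 / 27 := by
    unfold loR
    norm_num
  have hupr : upR (0 + 1) = 1 / 2 := by
    unfold upR
    norm_num
  have hv : ∀ t : ℕ, vq m (0 + 1) t = (t : ℝ) / m := fun t => vq_one m t
  have hw : ∀ t : ℕ, wk m 0 t = 1 := fun t => vq_zero m _
  have hN : ∀ t : ℕ, Nk 0 t = t := fun t => Nat.div_one t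
  have hρ3 : ρ3 < 1 / 2 := by rw [← hupr]; exact P.h7
  have hρ2 : (8 : ℝ) / 27 < ρ2 := by rw [← hlo]; exact P.h1
  have hp0 : (8 : ℝ) / 27 * m ≤ p0 := by rw [← hlo]; exact I.x0
  have hp2 : (8 : ℝ) / 27 * m ≤ p2 := by
    have h := mul_le_mul_of_nonneg_right hρ2.le hm0.le
    have h' := I.x2
    linarith
  have hp3 : (p3 : ℝ) < m / 2 := by
    have h := mul_lt_mul_of_pos_right hρ3 hm0
    have h' := I.x3'
    linarith
  have hval : ∀ t : ℕ, (0 + 1) * p2 ≤ t → t ≤ (0 + 1) * p3 →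
      F m ((t : ℝ) / m) = 1 ∧ (8 : ℝ) / 27 * m ≤ t ∧ (t : ℝ) < m / 2 := by
    intro t h1 h2
    have h3 : (p2 : ℝ) ≤ t := by
      have : p2 ≤ t := by omega
      exact_mod_cast this
    have h4 : (t : ℝ) ≤ p3 := by
      have : t ≤ p3 := by omega
      exact_mod_cast this
    have h5 := mem_range hm (t := t) (by linarith) (by linarith)
    exact ⟨(mid_link (by omega) h5.1 h5.2).2, by linarith, by linarith⟩
  refine ⟨⟨?_, ?_, ?_⟩, ?_, ?_, ?_⟩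
  · intro t h1 h2
    have h3 : (p0 : ℝ) ≤ t := by
      have : p0 ≤ t := by omega
      exact_mod_cast this
    have h4 : (t : ℝ) ≤ p3 := by
      have : t ≤ p3 := by omega
      exact_mod_cast this
    have h5 := mem_range hm (t := t) (by linarith) (by linarith)
    have h6 := (mid_link (by omega) h5.1 h5.2).1
    rw [hv, hv, hw, hN]
    push_cast
    exact h6
  · intro s t _ _ _
    rw [hw, hw]
  · intro s t _ hst _
    rw [hN, hN]
    exact hst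
  · intro t h1 h2
    obtain ⟨h3, h4, h5⟩ := hval t h1 h2
    rw [hv]
    refine ⟨?_, ?_, ?_⟩
    · have : (0 : ℝ) < t := by linarith
      positivity
    · rw [div_le_one hm0]
      linarith
    · intro α β hα hα' hβ hβ' hs
      rw [h3]
      refine sv hm ?_ ?_ hα hα' hβ hβ' hs
      · have : (285 : ℝ) * m ≤ 1000 * t := by linarith
        exact_mod_cast this
      · have : (2 : ℝ) * t ≤ m := by linarith
        exact_mod_cast this
  · intro t h1 h2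
    obtain ⟨h3, h4, h5⟩ := hval t h1 h2
    have ht : (0 : ℝ) < t := by linarith
    have hS : Sq m (0 + 1) t = (m : ℝ) / t := by
      unfold Sq
      simp [Nat.mod_one]
    rw [hv, h3, hS]
    field_simp
  · rw [hv, hw, div_le_one hm0]
    push_cast
    linarith

theorem ctx_exists0 {s1 s2 : ℝ} (h1 : loR (0 + 1) < s1) (h2 : s1 < s2) (h3 : s2 < upR (0 + 1)) :
    ∃ M : ℕ, ∀ m : ℕ, M ≤ m → ∃ (t0 t2 t3 pL pP pQ pR : ℕ) (a0 ε e : ℝ), ZCtx m 0 t0 t2 t3 pL pP pQ pR a0 ε e ∧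
      (pP : ℝ) ≤ s1 * m ∧ s2 * m ≤ (pQ : ℝ) := by
  obtain ⟨ρ2, ρL, ρR, ρ3, a0, P⟩ := prm_exists h1 h2 h3
  exact ctx_of_chain P (ctx_chain0 P)

end Pool.Agent.H86.ZN
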