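import Pool.Agent.H86.FM.Reals
import Pool.Agent.H86.Z1.QC

/-!
# Project ZN (MP_13a5e6_an, all zones): faces and the quasi-periodic extension

`Face m v`: the exchange inequality for `v`. `FQ m v` is the quasi-periodic extension of `F m` from `[0, v]` (increment `F m v` per period `v`).
Model: `Pool/Agent/H86/Z1/Fv.lean` (the case `v = q/m`, `F v = 1`).

Proof sketches.
* `face_one`: `F 1 = 0` and `Ft_isSub`: `F (α + β - 1) = Ft (α + β) ≤ Ft α + Ft β`.
* `FQ_mem`: the floor is `0` for `X < v`; for `X = v` both sides are `F v` (`F 0 = 0`).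
* `FQ_qsub`: `FQ (X + v) = FQ X + F v` (`Int.floor_add_one`). Subadditive: `X = a + n v`, `Y = b + k v`, `0 ≤ a, b < v`; `a + b ≤ v`: `F_add`; `a + b ≥ v`: `Face.ex`.
* `FQ_tuple`: shift by `-n v`, `qcarry` (`QC.lean`), `F_tuple` on `[0, v]`. `FQ_tuple'`: `n = ⌊mean/v⌋`.
* `FQ_mono_neg`: with `y = n v - y'`, `0 ≤ y' < v`: `FQ v (-y) = -n F v + F y'`, and `F y' = FQ w (-y + n v) ≤ FQ w (-y) + n FQ w v = FQ w (-y) + n F v`.
* `FQ_mono_pos`: `y = n v + y'`: `FQ w y ≤ n F v + F y'`.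
* `FQ_mul`: `FQ w (m x) ≤ m FQ w x = m F x` (sum of `m` copies, `QSub.sum`).
* `F_le_FQ`: `X = n v + y`, `F X ≤ n F v + F y` (`F_add`, induction).
* `FQ_lower`, `FQ_upper`: `0 ≤ F ≤ m/(m-1) ≤ 2`.
* `F_le_T`: `x < v`: `n = ⌊m x / v⌋ ≤ m - 1`, `F_tuple` for the tuple with `n` entries `v`, one entry `m x - n v`, zeros; bounds `0`, `v`. `x = v`: `T v (m v) = m v + m F v`.
-/

set_option autoImplicit false

namespace Pool.Agent.H86.ZN

open Finset Pool.Agent.H14RC Pool.Agent.H86.FM Pool.Agent.H86.Z1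

/-- The exchange inequality for `v`. -/
structure Face (m : ℕ) (v : ℝ) : Prop where
  pos : 0 < v
  le : v ≤ 1
  ex : ∀ α β : ℝ, 0 ≤ α → α ≤ v → 0 ≤ β → β ≤ v → v ≤ α + β → F m v + F m (α + β - v) ≤ F m α + F m β

/-- The quasi-periodic extension of `F m` from `[0, v]`. -/
noncomputable def FQ (m : ℕ) (v X : ℝ) : ℝ := (⌊X / v⌋ : ℝ) * F m v + F m (X - (⌊X / v⌋ : ℝ) * v)

/-- `m` times the cost of the tuples with face `v` (zeros, copies of `v`, a remainder) of sum `X`. -/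
noncomputable def TT (m : ℕ) (v X : ℝ) : ℝ := m * v + FQ m v X

private theorem Face_rem {v : ℝ} (hv : 0 < v) (x : ℝ) :
    ∃ (n : ℤ) (a : ℝ), x = a + n * v ∧ 0 ≤ a ∧ a < v := by
  refine ⟨⌊x / v⌋, x - ⌊x / v⌋ * v, by ring, ?_, ?_⟩
  · have h := (le_div_iff₀ hv).1 (Int.floor_le (x / v))
    linarith
  · have h := (div_lt_iff₀ hv).1 (Int.lt_floor_add_one (x / v))
    linarith

private theorem Face_int {m : ℕ} {v : ℝ} (hv : 0 < v) (x : ℝ) (n : ℤ) :
    FQ m v (x + n * v) = FQ m v x + n * F m v := by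
  have h1 : (x + n * v) / v = x / v + n := by
    rw [add_div, mul_div_cancel_right₀ _ hv.ne']
  unfold FQ
  rw [h1, Int.floor_add_intCast]
  push_cast
  have h2 : x + n * v - ((⌊x / v⌋ : ℝ) + n) * v = x - (⌊x / v⌋ : ℝ) * v := by ring
  rw [h2]
  ring

private theorem Face_nsmul {v κ : ℝ} {g : ℝ → ℝ} (hg : QSub v κ g) (n : ℕ) (x : ℝ) :
    g (n * x) ≤ n * g x := by
  have h := hg.sum (Finset.range n) (fun _ => x)
  simpa using h

theorem face_one {m : ℕ} (hm : 2 ≤ m) : Face m 1 := by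
  refine ⟨one_pos, le_rfl, ?_⟩
  intro α β hα hα' hβ hβ' hs
  have h1 : Ft m (α + β - 1) = Ft m (α + β) := by
    have h := Ft_add_int m (α + β) (-1)
    push_cast at h
    exact h
  have h2 := (Ft_isSub hm).sub α β
  rw [F_one hm, ← Ft_of_mem hm (x := α + β - 1) (by linarith) (by linarith), h1,
    ← Ft_of_mem hm hα hα', ← Ft_of_mem hm hβ hβ']
  linarith

theorem FQ_mem {m : ℕ} (hm : 2 ≤ m) {v X : ℝ} (hv : 0 < v) (h0 : 0 ≤ X) (h1 : X ≤ v) : FQ m v X = F m X := by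
  rcases lt_or_eq_of_le h1 with h | h
  · have h2 : ⌊X / v⌋ = 0 := by
      rw [Int.floor_eq_zero_iff]
      exact ⟨by positivity, (div_lt_one hv).2 h⟩
    unfold FQ
    rw [h2]
    simp
  · subst h
    have h2 : X / X = 1 := div_self hv.ne'
    unfold FQ
    rw [h2, Int.floor_one]
    simp only [Int.cast_one, one_mul, sub_self]
    rw [F_zero hm, add_zero]

theorem FQ_qsub {m : ℕ} (hm : 2 ≤ m) {v : ℝ} (hv : Face m v) : QSub v (F m v) (FQ m v) := by
  have hv0 := hv.pos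
  have hv1 := hv.le
  refine ⟨?_, ?_, ?_⟩
  · rw [FQ_mem hm hv0 le_rfl hv0.le, F_zero hm]
  · intro x
    have h := Face_int (m := m) hv0 x 1
    simpa using h
  · intro X Y
    obtain ⟨n, a, rfl, ha0, ha1⟩ := Face_rem hv0 X
    obtain ⟨k, b, rfl, hb0, hb1⟩ := Face_rem hv0 Y
    have e : a + n * v + (b + k * v) = (a + b) + ((n + k : ℤ) : ℝ) * v := by
      push_cast
      ring
    rw [e, Face_int hv0, Face_int hv0, Face_int hv0, FQ_mem hm hv0 ha0 ha1.le,
      FQ_mem hm hv0 hb0 hb1.le]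
    have key : FQ m v (a + b) ≤ F m a + F m b := by
      rcases le_total (a + b) v with h | h
      · rw [FQ_mem hm hv0 (by linarith) h]
        exact F_add hm ha0 hb0 (by linarith)
      · have e2 : a + b = (a + b - v) + ((1 : ℤ) : ℝ) * v := by
          push_cast
          ring
        rw [e2, Face_int hv0, FQ_mem hm hv0 (by linarith) (by linarith)]
        have h3 := hv.ex a b ha0 ha1.le hb0 hb1.le h
        push_cast
        linarith
    push_cast
    linarith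

theorem FQ_tuple {m : ℕ} (hm : 2 ≤ m) {v : ℝ} (hv : Face m v) (z : Fin m → ℝ) {lo hi : ℝ}
    (hz : ∀ i, lo ≤ z i ∧ z i ≤ hi) (n : ℤ) (h0 : (n : ℝ) * v ≤ (∑ i, z i) / m) (h1 : (∑ i, z i) / m ≤ ((n : ℝ) + 1) * v) :
    FQ m v ((∑ i, z i) / m) ≤ (∑ i, FQ m v (z i)) / m + (min (((n : ℝ) + 1) * v) hi - max ((n : ℝ) * v) lo) := by
  have hv0 := hv.pos
  have hv1 := hv.le
  have hmR : (0 : ℝ) < m := by
    have : 0 < m := by omega
    exact_mod_cast this
  have hsum : ∑ i, (z i - n * v) = ∑ i, z i - m * (n * v) := by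
    rw [Finset.sum_sub_distrib, Finset.sum_const, Finset.card_univ, Fintype.card_fin, nsmul_eq_mul]
  have h0' : (n : ℝ) * v * m ≤ ∑ i, z i := (le_div_iff₀ hmR).mp h0
  have h1' : ∑ i, z i ≤ ((n : ℝ) + 1) * v * m := (div_le_iff₀ hmR).mp h1
  obtain ⟨w, hw1, hw2, hw3⟩ := qcarry hv0 (FQ_qsub hm hv) (m := m) (by omega)
    (fun i => z i - n * v) (lo := lo - n * v) (hi := hi - n * v)
    (fun i => ⟨by linarith [(hz i).1], by linarith [(hz i).2]⟩)
    (by rw [hsum]; linarith) (by rw [hsum]; linarith)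
  have hper : ∀ x : ℝ, FQ m v (x - n * v) = FQ m v x - n * F m v := by
    intro x
    have h := Face_int (m := m) hv0 (x - n * v) n
    rw [sub_add_cancel] at h
    linarith
  have hw3' : ∑ i, FQ m v (w i) ≤ ∑ i, FQ m v (z i) - m * (n * F m v) := by
    refine hw3.trans (le_of_eq ?_)
    rw [Finset.sum_congr rfl fun i _ => hper (z i), Finset.sum_sub_distrib, Finset.sum_const,
      Finset.card_univ, Fintype.card_fin, nsmul_eq_mul]
  have hw01 : ∀ i, 0 ≤ w i ∧ w i ≤ v := fun i =>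
    ⟨(le_max_left _ _).trans (hw1 i).1, (hw1 i).2.trans (min_le_left _ _)⟩
  have hFt : F m ((∑ i, w i) / m) ≤ (∑ i, F m (w i)) / m +
      (min v (hi - n * v) - max 0 (lo - n * v)) :=
    F_tuple hm w (le_max_left _ _) ((min_le_left _ _).trans hv1) hw1
  have hsw : (∑ i, w i) / m = (∑ i, z i) / m - n * v := by
    rw [hw2, hsum, sub_div, mul_div_cancel_left₀ _ hmR.ne']
  have hFw : ∑ i, F m (w i) = ∑ i, FQ m v (w i) :=
    Finset.sum_congr rfl fun i _ => (FQ_mem hm hv0 (hw01 i).1 (hw01 i).2).symm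
  have hmean : F m ((∑ i, w i) / m) = FQ m v ((∑ i, z i) / m) - n * F m v := by
    rw [hsw, ← FQ_mem hm hv0 (by linarith) (by linarith), hper]
  rw [hmean, hFw] at hFt
  have hdiv : (∑ i, FQ m v (w i)) / m ≤ (∑ i, FQ m v (z i)) / m - n * F m v := by
    have h := div_le_div_of_nonneg_right hw3' hmR.le
    rwa [sub_div, mul_div_cancel_left₀ _ hmR.ne'] at h
  have e1 : min v (hi - n * v) = min (((n : ℝ) + 1) * v) hi - n * v := by
    rw [← min_sub_sub_right]
    congr 1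
    ring
  have e2 : max (0 : ℝ) (lo - n * v) = max ((n : ℝ) * v) lo - n * v := by
    rw [← max_sub_sub_right]
    congr 1
    ring
  rw [e1, e2] at hFt
  linarith

theorem FQ_tuple' {m : ℕ} (hm : 2 ≤ m) {v : ℝ} (hv : Face m v) (z : Fin m → ℝ) {lo hi : ℝ}
    (hz : ∀ i, lo ≤ z i ∧ z i ≤ hi) :
    FQ m v ((∑ i, z i) / m) ≤ (∑ i, FQ m v (z i)) / m + (hi - lo) := by
  have hv0 := hv.pos
  have h1 := (le_div_iff₀ hv0).1 (Int.floor_le ((∑ i, z i) / m / v))
  have h2 := (div_lt_iff₀ hv0).1 (Int.lt_floor_add_one ((∑ i, z i) / m / v))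
  have h3 := FQ_tuple hm hv z hz _ h1 h2.le
  have h4 := min_le_right (((⌊(∑ i, z i) / m / v⌋ : ℝ) + 1) * v) hi
  have h5 := le_max_right ((⌊(∑ i, z i) / m / v⌋ : ℝ) * v) lo
  linarith

/-- The multiples of `v` for a bigger face. -/
private theorem Face_nat {m : ℕ} (hm : 2 ≤ m) {v w : ℝ} (hv : 0 < v) (hw : Face m w) (hvw : v ≤ w)
    {k : ℤ} (hk : 0 ≤ k) : FQ m w (k * v) ≤ k * F m v := by
  obtain ⟨n, rfl⟩ := Int.eq_ofNat_of_zero_le hk
  have h := Face_nsmul (FQ_qsub hm hw) n v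
  rw [FQ_mem hm hw.pos hv.le hvw] at h
  simpa using h

theorem FQ_mono_neg {m : ℕ} (hm : 2 ≤ m) {v w y : ℝ} (hv : Face m v) (hw : Face m w) (hvw : v ≤ w) (hy : 0 ≤ y) :
    FQ m v (-y) ≤ FQ m w (-y) := by
  have hv0 := hv.pos
  obtain ⟨k, a, hk, ha0, ha1⟩ := Face_rem hv0 (-y)
  have hk0 : 0 ≤ -k := by
    by_contra hcon
    have h1 : (0 : ℤ) < k := by omega
    have h2 : (0 : ℝ) < k := by exact_mod_cast h1
    have h3 := mul_pos h2 hv0
    linarith
  have h1 := Face_nat hm hv0 hw hvw hk0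
  have h2 := (FQ_qsub hm hw).sub (-y) (((-k : ℤ) : ℝ) * v)
  have h3 : -y + ((-k : ℤ) : ℝ) * v = a := by
    push_cast
    linarith
  rw [h3, FQ_mem hm hw.pos ha0 (by linarith)] at h2
  have h4 : FQ m v (-y) = F m a + k * F m v := by
    rw [hk, Face_int hv0, FQ_mem hm hv0 ha0 ha1.le]
  rw [h4]
  push_cast at h1 h2
  linarith

theorem FQ_mono_pos {m : ℕ} (hm : 2 ≤ m) {v w y : ℝ} (hv : Face m v) (hw : Face m w) (hvw : v ≤ w) (hy : 0 ≤ y) :
    FQ m w y ≤ FQ m v y := by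
  have hv0 := hv.pos
  obtain ⟨k, a, hk, ha0, ha1⟩ := Face_rem hv0 y
  have hk0 : 0 ≤ k := by
    by_contra hcon
    have h1 : k ≤ -1 := by omega
    have h2 : (k : ℝ) ≤ -1 := by exact_mod_cast h1
    nlinarith
  have h1 := Face_nat hm hv0 hw hvw hk0
  have h2 := (FQ_qsub hm hw).sub a ((k : ℝ) * v)
  rw [← hk, FQ_mem hm hw.pos ha0 (by linarith)] at h2
  have h4 : FQ m v y = F m a + k * F m v := by
    rw [hk, Face_int hv0, FQ_mem hm hv0 ha0 ha1.le]
  rw [h4]
  linarith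

theorem FQ_mul {m : ℕ} (hm : 2 ≤ m) {w x : ℝ} (hw : Face m w) (h0 : 0 ≤ x) (h1 : x ≤ w) : FQ m w (m * x) ≤ m * F m x := by
  have h := Face_nsmul (FQ_qsub hm hw) m x
  rwa [FQ_mem hm hw.pos h0 h1] at h

theorem F_le_FQ {m : ℕ} (hm : 2 ≤ m) {v X : ℝ} (hv : 0 < v) (hv1 : v ≤ 1) (h0 : 0 ≤ X) (h1 : X ≤ 1) : F m X ≤ FQ m v X := by
  obtain ⟨k, a, hk, ha0, ha1⟩ := Face_rem hv X
  have hk0 : 0 ≤ k := by
    by_contra hcon
    have h1 : k ≤ -1 := by omega
    have h2 : (k : ℝ) ≤ -1 := by exact_mod_cast h1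
    nlinarith
  have h4 : FQ m v X = F m a + k * F m v := by
    rw [hk, Face_int hv, FQ_mem hm hv ha0 ha1.le]
  rw [h4, ← Ft_of_mem hm h0 h1, ← Ft_of_mem hm ha0 (by linarith), ← Ft_of_mem hm hv.le hv1]
  obtain ⟨n, rfl⟩ := Int.eq_ofNat_of_zero_le hk0
  have h5 := (Ft_isSub hm).sum (Finset.range n) (fun _ => v)
  have h6 := (Ft_isSub hm).sub a ((n : ℝ) * v)
  simp only [Finset.sum_const, Finset.card_range, nsmul_eq_mul] at h5
  rw [hk]
  push_cast
  linarith

theorem FQ_lower {m : ℕ} (hm : 2 ≤ m) {v D : ℝ} (hv : 0 < v) (hv1 : v ≤ 1) (hD : 0 ≤ D) :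
    -(D / v * F m v + F m v) ≤ FQ m v (-D) := by
  obtain ⟨k, a, hk, ha0, ha1⟩ := Face_rem hv (-D)
  have h4 : FQ m v (-D) = F m a + k * F m v := by
    rw [hk, Face_int hv, FQ_mem hm hv ha0 ha1.le]
  have h5 := F_nonneg hm hv.le hv1
  have h6 := F_nonneg hm ha0 (by linarith)
  have h7 : -(D / v + 1) ≤ k := by
    have h8 : D = -a - k * v := by linarith
    have h9 : D / v = -(a / v) - k := by
      rw [h8]
      field_simp
    have h10 : a / v ≤ 1 := (div_le_one hv).2 ha1.le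
    have h11 : 0 ≤ a / v := div_nonneg ha0 hv.le
    linarith
  rw [h4]
  have h12 := mul_le_mul_of_nonneg_right h7 h5
  linarith

theorem FQ_upper {m : ℕ} (hm : 2 ≤ m) {v X : ℝ} (hv : 0 < v) (hv1 : v ≤ 1) : FQ m v X ≤ X / v * F m v + 2 := by
  obtain ⟨k, a, hk, ha0, ha1⟩ := Face_rem hv X
  have h4 : FQ m v X = F m a + k * F m v := by
    rw [hk, Face_int hv, FQ_mem hm hv ha0 ha1.le]
  have h5 := F_nonneg hm hv.le hv1
  have h6 : F m a ≤ 2 := by
    refine (F_le_sup hm ha0 (by linarith)).trans ?_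
    have hm2 : (2 : ℝ) ≤ m := by exact_mod_cast hm
    rw [div_le_iff₀ (by linarith)]
    linarith
  have h7 : (k : ℝ) ≤ X / v := by
    rw [le_div_iff₀ hv]
    linarith
  rw [h4]
  have h12 := mul_le_mul_of_nonneg_right h7 h5
  linarith

private theorem Face_sum {m n : ℕ} (hn : n + 1 ≤ m) (v r : ℝ) (g : ℝ → ℝ) (hg : g 0 = 0) :
    ∑ i : Fin m, g (if (i : ℕ) < n then v else if (i : ℕ) = n then r else 0) = n * g v + g r := by
  rw [Fin.sum_univ_eq_sum_range (fun i => g (if i < n then v else if i = n then r else 0)) m]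
  have hsplit : range m = range (n + (1 + (m - 1 - n))) := by congr 1; omega
  rw [hsplit, sum_range_add, sum_range_add]
  have e1 : ∑ i ∈ range n, g (if i < n then v else if i = n then r else 0) = n * g v := by
    rw [sum_congr rfl (g := fun _ => g v)]
    · simp
    · intro i hi
      rw [if_pos (mem_range.1 hi)]
  have e2 : ∑ i ∈ range 1, g (if n + i < n then v else if n + i = n then r else 0) = g r := by
    rw [sum_range_one, if_neg (by omega), if_pos (by omega)]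
  have e3 : ∑ i ∈ range (m - 1 - n), g (if n + (1 + i) < n then v else if n + (1 + i) = n then r else 0)
      = 0 := by
    refine Finset.sum_eq_zero fun i _ => ?_
    rw [if_neg (by omega), if_neg (by omega), hg]
  rw [e1, e2, e3, add_zero]

theorem F_le_T {m : ℕ} (hm : 2 ≤ m) {v x : ℝ} (hv : 0 < v) (hv1 : v ≤ 1) (h0 : 0 ≤ x) (h1 : x ≤ v) :
    m * F m x ≤ TT m v (m * x) := by
  have hm2 : (2 : ℝ) ≤ m := by exact_mod_cast hm
  have hmR : (0 : ℝ) < m := by linarith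
  obtain ⟨k, a, hk, ha0, ha1⟩ := Face_rem hv (m * x)
  have hk0 : 0 ≤ k := by
    by_contra hcon
    have h1 : k ≤ -1 := by omega
    have h2 : (k : ℝ) ≤ -1 := by exact_mod_cast h1
    have h3 : 0 ≤ (m : ℝ) * x := by positivity
    nlinarith
  have h4 : FQ m v (m * x) = F m a + k * F m v := by
    rw [hk, Face_int hv, FQ_mem hm hv ha0 ha1.le]
  obtain ⟨n, rfl⟩ := Int.eq_ofNat_of_zero_le hk0
  simp only [Int.cast_natCast] at hk h4
  unfold TT
  rw [h4]
  rcases Nat.lt_or_ge n m with hn | hn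
  · have hz : ∀ i : Fin m, (0 : ℝ) ≤ (if (i : ℕ) < n then v else if (i : ℕ) = n then a else 0) ∧
        (if (i : ℕ) < n then v else if (i : ℕ) = n then a else 0) ≤ v := by
      intro i
      split_ifs
      · exact ⟨hv.le, le_rfl⟩
      · exact ⟨ha0, ha1.le⟩
      · exact ⟨le_rfl, hv.le⟩
    have h5 := F_tuple hm _ le_rfl hv1 hz
    have h6 := Face_sum (m := m) (n := n) (by omega) v a id rfl
    simp only [id] at h6
    rw [h6, Face_sum (by omega) v a (F m) (F_zero hm)] at h5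
    have h7 : ((n : ℝ) * v + a) / m = x := by
      rw [div_eq_iff hmR.ne']
      linarith
    rw [h7] at h5
    have h8 := mul_le_mul_of_nonneg_left h5 hmR.le
    have h9 : (m : ℝ) * (((n : ℝ) * F m v + F m a) / m + (v - 0)) = (n : ℝ) * F m v + F m a + m * v := by
      rw [sub_zero]
      field_simp
    linarith
  · have hnR : (m : ℝ) ≤ n := by exact_mod_cast hn
    have h5 : (m : ℝ) * x ≤ m * v := mul_le_mul_of_nonneg_left h1 hmR.le
    have h6 : (m : ℝ) * v ≤ n * v := mul_le_mul_of_nonneg_right hnR hv.le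
    have h7 : (m : ℝ) * x = m * v := by linarith
    have h8 : x = v := mul_left_cancel₀ hmR.ne' h7
    have h9 : a = 0 := by linarith
    have h10 : (m : ℝ) * F m v ≤ n * F m v := mul_le_mul_of_nonneg_right hnR (F_nonneg hm hv.le hv1)
    rw [h9, F_zero hm, h8]
    have h11 : 0 ≤ (m : ℝ) * v := by positivity
    linarith

end Pool.Agent.H86.ZN
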