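import Pool.Agent.H86.FM.Group
import Pool.Agent.H86.ZN.Face

/-!
# Project ZN: the group inequality for `FQ`

Proof sketches.
* `G_ge_mul`: `G_scale` with `x = 1` (`G 1 = 0`): `l * log (1/l) ≤ G l`; `c0 = exp (-κ)`.
* `group_FQ`: `κ = 5 + 4/v0`, `c0` from `G_ge_mul` (and `c0 ≤ v0`). `s = ∑ d i`. If `s ≤ v`: `group` (`s ≤ 1`) and `FQ_mem`. If `s > v`: `∑ F (d i) ≥ κ s`, `FQ v s ≤ (s/v) F v + 2 ≤ 2 s/v0 + 2 s/v0`
  (`FQ_upper`, `F v ≤ 2`, `1 ≤ s/v0`), `m b ≤ 5 s` (`A.card ≥ m/5`).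
-/

set_option autoImplicit false

namespace Pool.Agent.H86.ZN

open Finset Pool.Agent.H14RC Pool.Agent.H86.FM Pool.Agent.H86.Z1

theorem G_ge_mul (κ : ℝ) : ∃ c0 : ℝ, 0 < c0 ∧ c0 ≤ 1 ∧ ∀ x : ℝ, 0 ≤ x → x ≤ c0 → κ * x ≤ G x := by
  refine ⟨min 1 (Real.exp (-κ)), lt_min one_pos (Real.exp_pos _), min_le_left _ _, ?_⟩
  intro x hx0 hx1
  rcases hx0.eq_or_lt with h | h
  · rw [← h, G_zero, mul_zero]
  · have hx2 : x ≤ 1 := hx1.trans (min_le_left _ _)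
    have hx3 : x ≤ Real.exp (-κ) := hx1.trans (min_le_right _ _)
    have h1 := G_scale h hx2 zero_le_one le_rfl
    rw [mul_one, mul_one] at h1
    have h2 : κ ≤ Real.log (1 / x) := by
      rw [Real.le_log_iff_exp_le (by positivity), le_div_iff₀ h]
      have h3 := mul_le_mul_of_nonneg_left hx3 (Real.exp_pos κ).le
      rw [← Real.exp_add, add_neg_cancel, Real.exp_zero] at h3
      exact h3
    have h4 : 0 ≤ G 1 := G_nonneg zero_le_one le_rfl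
    have h5 : κ * x ≤ x * Real.log (1 / x) := by
      rw [mul_comm x]
      exact mul_le_mul_of_nonneg_right h2 h.le
    have h6 : 0 ≤ x * G 1 := mul_nonneg h.le h4
    linarith

theorem group_FQ {v0 : ℝ} (hv0 : 0 < v0) : ∃ c0 : ℝ, 0 < c0 ∧ c0 ≤ v0 ∧ c0 ≤ 1 ∧ ∀ c : ℝ, c ≤ c0 → ∀ m : ℕ, 1000000 ≤ m →
    ∀ v : ℝ, Face m v → v0 ≤ v → ∀ (A : Finset (Fin m)) (d : Fin m → ℝ) (b : ℝ), 0 ≤ b →
      (∀ i ∈ A, b ≤ d i ∧ d i ≤ c) → (m : ℝ) / 5 + 15 ≤ A.card →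
      FQ m v (∑ i ∈ A, d i) + m * b ≤ ∑ i ∈ A, F m (d i) := by
  obtain ⟨c1, hc1, hc1', hG⟩ := G_ge_mul (5 + 4 / v0)
  refine ⟨min c1 v0, lt_min hc1 hv0, min_le_right _ _, (min_le_left _ _).trans hc1', ?_⟩
  intro c hc m hm v hF hv A d b hb hd hcard
  have hm2 : 2 ≤ m := by omega
  have hmR : (1000000 : ℝ) ≤ m := by exact_mod_cast hm
  have hm0 : (0 : ℝ) < m := by linarith
  have hs0 : 0 ≤ ∑ i ∈ A, d i := Finset.sum_nonneg fun i hi => hb.trans (hd i hi).1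
  rcases le_or_gt (∑ i ∈ A, d i) v with hs | hs
  · rw [FQ_mem hm2 hF.pos hs0 hs]
    exact group (by omega) A d hb (fun i hi => (hd i hi).1) (hs.trans hF.le) hcard
  · have h1 : (5 + 4 / v0) * ∑ i ∈ A, d i ≤ ∑ i ∈ A, F m (d i) := by
      rw [Finset.mul_sum]
      refine Finset.sum_le_sum fun i hi => ?_
      have h0 : 0 ≤ d i := hb.trans (hd i hi).1
      have hdc : d i ≤ c1 := ((hd i hi).2.trans hc).trans (min_le_left _ _)
      exact (hG (d i) h0 hdc).trans (G_le_F (by omega) h0 (hdc.trans hc1'))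
    have h2 : (A.card : ℝ) * b ≤ ∑ i ∈ A, d i := by
      have h := Finset.card_nsmul_le_sum A d b (fun i hi => (hd i hi).1)
      rwa [nsmul_eq_mul] at h
    have h3 : (m : ℝ) * b ≤ 5 * ∑ i ∈ A, d i := by
      have h : ((m : ℝ) / 5) * b ≤ A.card * b := mul_le_mul_of_nonneg_right (by linarith) hb
      linarith
    have h4 := FQ_upper (X := ∑ i ∈ A, d i) hm2 hF.pos hF.le
    have h5 : F m v ≤ 2 := by
      refine (F_le_sup hm2 hF.pos.le hF.le).trans ?_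
      rw [div_le_iff₀ (by linarith)]
      linarith
    have h6 : (∑ i ∈ A, d i) / v ≤ (∑ i ∈ A, d i) / v0 := div_le_div_of_nonneg_left hs0 hv0 hv
    have h7 : 1 ≤ (∑ i ∈ A, d i) / v0 := by
      rw [le_div_iff₀ hv0]
      linarith
    have h8 : (∑ i ∈ A, d i) / v * F m v ≤ (∑ i ∈ A, d i) / v0 * 2 :=
      mul_le_mul h6 h5 (F_nonneg hm2 hF.pos.le hF.le) (by linarith)
    have h9 : (5 + 4 / v0) * ∑ i ∈ A, d i = 5 * (∑ i ∈ A, d i) + 4 * ((∑ i ∈ A, d i) / v0) := by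
      ring
    linarith

end Pool.Agent.H86.ZN
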