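import Pool.Agent.H86.ZN.Chain
import Pool.Agent.H86.ZN.Grp

/-!
# Project ZN: the minimum of the functions `TT (v t)` over a chain of faces

Model: `Pool/Agent/H86/Z1/Th.lean`, `Z1/Exch.lean`.

Proof sketches.
* `Thc_le`, `le_Thc`: `Finset.inf'_le`, `Finset.le_inf'`.
* `Thc_cell`: `TT (v (s+1)) X ≤ TT (v p) X` for all `p` in `[t2, t3]`: for `p ≥ s+1` by `T_le` for the links `s+1, s+2, ...` (`X ≤ (N (s+1) + 1) v (s+1) = N (s+1) v (s+2) ≤ N p' v (p'+1)`: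
  `Nmono`, `mono`, `Link.joint`), for `p ≤ s+1` by `T_ge` for the links `s, s-1, ...` (`X ≥ N s v (s+1) ≥ N p' v (p'+1)`).
* `exch_chain`: `t` with `v t ≤ hi ≤ v (t+1)`, `t2 ≤ t < t3` (there is one, `v t2 ≤ hi ≤ v t3`); `exch_few` or `exch_many`.
* `exch_pos`: the same for `lo = 0`, `A = ∅`, with the information which face is used (it is needed for `ccB`): some `p` in `[t2, t3]` with `TT (v p) (∑ x) ≤ ∑ F + m hi` and
  `m F μ ≤ TT (v p) (m μ)` for all `0 ≤ μ ≤ hi` (`F_le_T'` for `p = t`, `F_le_T` for `p = t+1`).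
-/

set_option autoImplicit false

namespace Pool.Agent.H86.ZN

open Finset Pool.Agent.H14RC Pool.Agent.H86.FM Pool.Agent.H86.Z1

noncomputable def Thc (m : ℕ) (v : ℕ → ℝ) (t2 t3 : ℕ) (X : ℝ) : ℝ :=
  if h : (Finset.Icc t2 t3).Nonempty then (Finset.Icc t2 t3).inf' h (fun t => TT m (v t) X) else 0

theorem Thc_le {m : ℕ} {v : ℕ → ℝ} {t2 t3 t : ℕ} (h2 : t2 ≤ t) (h3 : t ≤ t3) (X : ℝ) : Thc m v t2 t3 X ≤ TT m (v t) X := by
  have hmem : t ∈ Finset.Icc t2 t3 := Finset.mem_Icc.2 ⟨h2, h3⟩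
  have hne : (Finset.Icc t2 t3).Nonempty := ⟨t, hmem⟩
  unfold Thc
  rw [dif_pos hne]
  exact Finset.inf'_le (fun t => TT m (v t) X) hmem

theorem le_Thc {m : ℕ} {v : ℕ → ℝ} {t2 t3 : ℕ} (h : t2 ≤ t3) {X C : ℝ} (hC : ∀ t, t2 ≤ t → t ≤ t3 → C ≤ TT m (v t) X) :
    C ≤ Thc m v t2 t3 X := by
  have hne : (Finset.Icc t2 t3).Nonempty := ⟨t2, Finset.mem_Icc.2 ⟨le_rfl, h⟩⟩
  unfold Thc
  rw [dif_pos hne]
  refine Finset.le_inf' hne _ fun t ht => ?_
  rw [Finset.mem_Icc] at ht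
  exact hC t ht.1 ht.2

/-- The products `N t * v (t+1)` increase. -/
private theorem ThG_mono {m : ℕ} (hm : 2 ≤ m) {v w : ℕ → ℝ} {N : ℕ → ℕ} {t2 t3 : ℕ} (h : Chain m v w N t2 t3)
    (hface : ∀ t, t2 ≤ t → t ≤ t3 → Face m (v t)) {s t : ℕ} (hs : t2 ≤ s) (hst : s ≤ t) (ht : t < t3) :
    (N s : ℝ) * v (s + 1) ≤ (N t : ℝ) * v (t + 1) := by
  have h1 : (N s : ℝ) ≤ N t := by exact_mod_cast h.Nmono s t hs hst ht
  have h2 : v (s + 1) ≤ v (t + 1) := h.mono hm (by omega) (by omega) (by omega)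
  exact mul_le_mul h1 h2 (hface (s + 1) (by omega) (by omega)).pos.le (Nat.cast_nonneg _)

theorem Thc_cell {m : ℕ} (hm : 2 ≤ m) {v w : ℕ → ℝ} {N : ℕ → ℕ} {t2 t3 : ℕ} (h : Chain m v w N t2 t3)
    (hface : ∀ t, t2 ≤ t → t ≤ t3 → Face m (v t)) {s : ℕ} (hs : t2 ≤ s) (hs' : s + 2 ≤ t3) {X : ℝ}
    (h0 : (N s : ℝ) * v (s + 1) ≤ X) (h1 : X ≤ ((N (s + 1) : ℝ) + 1) * v (s + 1)) :
    Thc m v t2 t3 X = TT m (v (s + 1)) X := by
  have hX0 : 0 ≤ X :=
    le_trans (mul_nonneg (Nat.cast_nonneg _) (hface (s + 1) (by omega) (by omega)).pos.le) h0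
  have hX1 : X ≤ (N (s + 1) : ℝ) * v (s + 1 + 1) := by
    rw [← ((h.link (s + 1) (by omega) (by omega)).joint hm).1]
    exact h1
  -- upwards
  have up : ∀ j : ℕ, s + 1 + j ≤ t3 → TT m (v (s + 1)) X ≤ TT m (v (s + 1 + j)) X := by
    intro j
    induction j with
    | zero => intro _; exact le_rfl
    | succ j ih =>
      intro hj
      refine (ih (by omega)).trans ?_
      have hX2 : X ≤ (N (s + 1 + j) : ℝ) * v (s + 1 + j + 1) :=
        hX1.trans (ThG_mono hm h hface (by omega) (by omega) (by omega))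
      exact T_le hm (h.link (s + 1 + j) (by omega) (by omega)) (hface _ (by omega) (by omega))
        (hface _ (by omega) (by omega)) hX0 hX2
  -- downwards
  have down : ∀ j : ℕ, j ≤ s + 1 - t2 → TT m (v (s + 1)) X ≤ TT m (v (s + 1 - j)) X := by
    intro j
    induction j with
    | zero => intro _; exact le_rfl
    | succ j ih =>
      intro hj
      refine (ih (by omega)).trans ?_
      obtain ⟨q, hq⟩ : ∃ q, s + 1 - j = q + 1 := ⟨s - j, by omega⟩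
      have hq' : s + 1 - (j + 1) = q := by omega
      rw [hq, hq']
      have hX2 : (N q : ℝ) * v (q + 1) ≤ X :=
        (ThG_mono hm h hface (by omega) (by omega : q ≤ s) (by omega)).trans h0
      exact T_ge hm (h.link q (by omega) (by omega)) (hface _ (by omega) (by omega))
        (hface _ (by omega) (by omega)) hX2
  refine le_antisymm (Thc_le (by omega) (by omega) X) (le_Thc (by omega) fun t ht ht' => ?_)
  rcases le_total (s + 1) t with h2 | h2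
  · obtain ⟨j, rfl⟩ := Nat.exists_eq_add_of_le h2
    exact up j ht'
  · have := down (s + 1 - t) (by omega)
    rwa [show s + 1 - (s + 1 - t) = t by omega] at this

/-- The layer of `hi`. -/
private theorem ThG_layer {v : ℕ → ℝ} {t2 t3 : ℕ} (h23 : t2 < t3) {hi : ℝ} (h1 : v t2 ≤ hi) (h2 : hi ≤ v t3) :
    ∃ t, t2 ≤ t ∧ t < t3 ∧ v t ≤ hi ∧ hi ≤ v (t + 1) := by
  have key : ∀ j : ℕ, t2 + j ≤ t3 → hi ≤ v (t2 + j) → 0 < j →
      ∃ t, t2 ≤ t ∧ t < t3 ∧ v t ≤ hi ∧ hi ≤ v (t + 1) := by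
    intro j
    induction j with
    | zero => intro _ _ h; omega
    | succ j ih =>
      intro hj hh _
      rcases le_total (v (t2 + j)) hi with h3 | h3
      · exact ⟨t2 + j, by omega, by omega, h3, hh⟩
      · rcases Nat.eq_zero_or_pos j with h0 | h0
        · subst h0
          exact ⟨t2, le_rfl, h23, h1, hh⟩
        · exact ih (by omega) h3 h0
  refine key (t3 - t2) (by omega) ?_ (by omega)
  rwa [show t2 + (t3 - t2) = t3 by omega]

theorem exch_chain {m : ℕ} (hm : 2 ≤ m) {v w : ℕ → ℝ} {N : ℕ → ℕ} {t2 t3 : ℕ} (h : Chain m v w N t2 t3)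
    (hface : ∀ t, t2 ≤ t → t ≤ t3 → Face m (v t)) (h23 : t2 < t3)
    (x : Fin m → ℝ) (A : Finset (Fin m)) {lo hi : ℝ} (hx : ∀ i, 0 ≤ x i ∧ x i ≤ hi) (h1 : v t2 ≤ hi) (h2 : hi ≤ v t3)
    (hAv : ∀ i ∈ A, x i ≤ v t2)
    (hA : ∀ t, t2 ≤ t → t ≤ t3 → FQ m (v t) (∑ i ∈ A, x i) + m * lo ≤ ∑ i ∈ A, F m (x i)) :
    Thc m v t2 t3 (∑ i, x i) ≤ ∑ i, F m (x i) + m * (hi - lo) := by
  obtain ⟨t, ht, ht', h3, h4⟩ := ThG_layer h23 h1 h2
  have hmono : v t2 ≤ v t := h.mono hm le_rfl ht (by omega)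
  have hAt : ∀ i ∈ A, x i ≤ v t := fun i hi => (hAv i hi).trans hmono
  rcases le_or_gt (univ.filter (fun i => v t < x i)).card (N t) with hc | hc
  · exact (Thc_le ht (by omega) _).trans (exch_few hm (h.link t ht ht') (hface t ht (by omega)) x A hx
      h3 h4 hAt (hA t ht (by omega)) hc)
  · exact (Thc_le (by omega : t2 ≤ t + 1) (by omega) _).trans (exch_many hm (h.link t ht ht')
      (hface t ht (by omega)) (hface (t + 1) (by omega) (by omega)) x A hx h3 h4 hAt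
      (hA (t + 1) (by omega) (by omega)) hc)

theorem exch_pos {m : ℕ} (hm : 2 ≤ m) {v w : ℕ → ℝ} {N : ℕ → ℕ} {t2 t3 : ℕ} (h : Chain m v w N t2 t3)
    (hface : ∀ t, t2 ≤ t → t ≤ t3 → Face m (v t)) (h23 : t2 < t3)
    (x : Fin m → ℝ) {hi : ℝ} (hx : ∀ i, 0 ≤ x i ∧ x i ≤ hi) (h1 : v t2 ≤ hi) (h2 : hi ≤ v t3) :
    ∃ p, t2 ≤ p ∧ p ≤ t3 ∧ TT m (v p) (∑ i, x i) ≤ ∑ i, F m (x i) + m * hi ∧
      ∀ μ : ℝ, 0 ≤ μ → μ ≤ hi → m * F m μ ≤ TT m (v p) (m * μ) := by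
  obtain ⟨t, ht, ht', h3, h4⟩ := ThG_layer h23 h1 h2
  have hA : ∀ t, t2 ≤ t → t ≤ t3 →
      FQ m (v t) (∑ i ∈ (∅ : Finset (Fin m)), x i) + m * (0 : ℝ) ≤ ∑ i ∈ (∅ : Finset (Fin m)), F m (x i) := by
    intro t ht ht'
    rw [Finset.sum_empty, Finset.sum_empty, (FQ_qsub hm (hface t ht ht')).zero, mul_zero, add_zero]
  have hAt : ∀ i ∈ (∅ : Finset (Fin m)), x i ≤ v t := by
    intro i hi
    simp at hi
  rcases le_or_gt (univ.filter (fun i => v t < x i)).card (N t) with hc | hc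
  · have e := exch_few hm (h.link t ht ht') (hface t ht (by omega)) x ∅ hx
      h3 h4 hAt (hA t ht (by omega)) hc
    rw [sub_zero] at e
    exact ⟨t, ht, by omega, e, fun μ m0 m1 =>
      F_le_T' hm (h.link t ht ht') (hface t ht (by omega)) m0 (m1.trans h4)⟩
  · have e := exch_many hm (h.link t ht ht')
      (hface t ht (by omega)) (hface (t + 1) (by omega) (by omega)) x ∅ hx h3 h4 hAt
      (hA (t + 1) (by omega) (by omega)) hc
    rw [sub_zero] at e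
    have hf := hface (t + 1) (by omega) (by omega)
    exact ⟨t + 1, by omega, by omega, e, fun μ m0 m1 => F_le_T hm hf.pos hf.le m0 (m1.trans h4)⟩

end Pool.Agent.H86.ZN
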