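import Pool.Agent.H86.ZN.Cells
import Pool.Agent.H86.ZN.ThG

/-!
# Project ZN: existence of cell functions, comparison of the tapered function with `Th`

Proof sketches.
* `exists_cells`: `U j = U0 + ∑_{i<j} c i`, tends to infinity since `c i ≥ c 0 > 0`. For `X ≥ U0` let `j` be the largest index with `U j ≤ X` (`Nat.find` of the first `j` with `X < U (j+1)`),
  `g X = e0 + ∑_{i<j} F (c i) + F (X - U j)`; anything for `X < U0`. `val`: for `y < c j` the index of `U j + y` is `j`; for `y = c j` it is `j+1` and `F 0 = 0`.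
* `cells_left` (constant cells to the left of a node): if `c i = f` for `i < J` then `g (U J - y) = g (U J) + FQ f (-y)` for `0 ≤ y ≤ J f`. (`U (J-n) = U J - n f`, `g (U (J-n)) = g (U J) - n F f`.)
* `cells_right`: if `c i = f` for `i ≥ J` then `g (U J + y) = g (U J) + FQ f y` for `y ≥ 0`.
* `cell_down`: `h` has cells `f i` between nodes `A i`, `i0 ≤ i ≤ i1` (`A (i+1) = A i + f i`, `h (A i + y) = h (A i) + F y` on `[0, f i]`), `f i ≥ f` faces: `h (A i1 - y) ≥ h (A i1) + FQ f (-y)` for
  `A i0 ≤ A i1 - y`: as `Chain.down_ge` (induction on `i1`, `FQ_mono_neg`, `FQ (-(y1 + y2)) ≤ FQ (-y1) + FQ (-y2)`).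
* `cell_up`: `f i ≤ f` faces: `h (A i0 + y) ≥ h (A i0) + FQ f y` for `A i0 + y ≤ A i1`: `FQ f (∑ f i + y') ≤ ∑ F (f i) + F y'`.
-/

set_option autoImplicit false

namespace Pool.Agent.H86.ZN

open Finset Pool.Agent.H14RC Pool.Agent.H86.FM Pool.Agent.H86.Z1

private theorem FQ_zero {m : ℕ} (hm : 2 ≤ m) (f : ℝ) : FQ m f 0 = 0 := by
  unfold FQ
  simp [F_zero hm]

private theorem FQ_neg {m : ℕ} (hm : 2 ≤ m) {w D : ℝ} (hw : Face m w) (h0 : 0 ≤ D) (h1 : D ≤ w) :
    FQ m w (-D) = F m (w - D) - F m w := by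
  have h := (FQ_qsub hm hw).per (-D)
  rw [show -D + w = w - D by ring, FQ_mem hm hw.pos (by linarith) (by linarith)] at h
  linarith

theorem exists_cells {m : ℕ} (hm : 2 ≤ m) (c : ℕ → ℝ) (hface : ∀ j, Face m (c j)) (hmono : ∀ i j, i ≤ j → c i ≤ c j)
    (U0 e0 : ℝ) : ∃ (g : ℝ → ℝ) (U : ℕ → ℝ), Cells m g U c ∧ U 0 = U0 ∧ g U0 = e0 := by
  classical
  obtain ⟨U, hU⟩ : ∃ U : ℕ → ℝ, U = fun j => U0 + ∑ i ∈ range j, c i := ⟨_, rfl⟩
  have hU0 : U 0 = U0 := by simp [hU]
  have hstep : ∀ j, U (j + 1) = U j + c j := by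
    intro j
    simp only [hU, sum_range_succ]
    ring
  have hUm : ∀ i j, i ≤ j → U i ≤ U j := by
    intro i j hij
    induction j, hij using Nat.le_induction with
    | base => exact le_rfl
    | succ j _ ih =>
      rw [hstep]
      have := (hface j).pos
      linarith
  have hUlow : ∀ j : ℕ, U0 + j * c 0 ≤ U j := by
    intro j
    induction j with
    | zero => simp [hU0]
    | succ j ih =>
      rw [hstep]
      have := hmono 0 j (by omega)
      push_cast
      linarith
  have hex : ∀ X : ℝ, ∃ n : ℕ, X < U (n + 1) := by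
    intro X
    obtain ⟨n, hn⟩ := exists_nat_gt ((X - U0) / c 0)
    refine ⟨n, ?_⟩
    have hc := (hface 0).pos
    rw [div_lt_iff₀ hc] at hn
    have h1 := hUlow (n + 1)
    push_cast at h1
    nlinarith
  obtain ⟨g, hg⟩ : ∃ g : ℝ → ℝ, g = fun X => e0 + ∑ i ∈ range (Nat.find (hex X)), F m (c i) +
      F m (X - U (Nat.find (hex X))) := ⟨_, rfl⟩
  have hval : ∀ (j : ℕ) (y : ℝ), 0 ≤ y → y < c j →
      g (U j + y) = e0 + ∑ i ∈ range j, F m (c i) + F m y := by
    intro j y h0 h1
    have hfind : Nat.find (hex (U j + y)) = j := by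
      rw [Nat.find_eq_iff]
      refine ⟨by rw [hstep]; linarith, fun n hn => ?_⟩
      have := hUm (n + 1) j (by omega)
      push Not
      linarith
    rw [hg]
    simp only
    rw [hfind, add_sub_cancel_left]
  have hnode : ∀ j : ℕ, g (U j) = e0 + ∑ i ∈ range j, F m (c i) := by
    intro j
    have h := hval j 0 le_rfl (hface j).pos
    rw [add_zero, F_zero hm, add_zero] at h
    exact h
  refine ⟨g, U, ⟨hface, hmono, hstep, ?_⟩, hU0, ?_⟩
  · intro j y h0 h1
    rcases lt_or_eq_of_le h1 with h | h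
    · rw [hval j y h0 h, hnode]
    · rw [h, ← hstep, hnode, hnode, sum_range_succ]
      ring
  · rw [← hU0, hnode]
    simp

theorem cells_left {m : ℕ} (hm : 2 ≤ m) {g : ℝ → ℝ} {U c : ℕ → ℝ} (h : Cells m g U c) {J : ℕ} {f : ℝ}
    (hf : ∀ i, i < J → c i = f) {y : ℝ} (h0 : 0 ≤ y) (h1 : y ≤ J * f) : g (U J - y) = g (U J) + FQ m f (-y) := by
  induction J generalizing y with
  | zero =>
    have hy : y = 0 := by
      simp only [Nat.cast_zero, zero_mul] at h1
      linarith
    rw [hy, neg_zero, FQ_zero hm, sub_zero, add_zero]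
  | succ J ih =>
    have hc : c J = f := hf J (by omega)
    have hfc : Face m f := by rw [← hc]; exact h.face J
    have hs := h.step J
    rw [hc] at hs
    have hn : g (U (J + 1)) = g (U J) + F m f := by
      rw [hs]
      exact h.val J f hfc.pos.le (by rw [hc])
    rcases le_or_gt y f with hy | hy
    · rw [FQ_neg hm hfc h0 hy, hn]
      have e : U (J + 1) - y = U J + (f - y) := by rw [hs]; ring
      rw [e, h.val J (f - y) (by linarith) (by rw [hc]; linarith)]
      ring
    · have h2 := ih (fun i hi => hf i (by omega)) (y := y - f) (by linarith) (by push_cast at h1; linarith)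
      have e : U (J + 1) - y = U J - (y - f) := by rw [hs]; ring
      have h3 := (FQ_qsub hm hfc).per (-y)
      rw [show -y + f = -(y - f) by ring] at h3
      rw [e, h2, hn, h3]
      ring

theorem cells_right {m : ℕ} (hm : 2 ≤ m) {g : ℝ → ℝ} {U c : ℕ → ℝ} (h : Cells m g U c) {J : ℕ} {f : ℝ}
    (hf : ∀ i, J ≤ i → c i = f) {y : ℝ} (h0 : 0 ≤ y) : g (U J + y) = g (U J) + FQ m f y := by
  have hc : c J = f := hf J le_rfl
  have hfc : Face m f := by rw [← hc]; exact h.face J
  have key : ∀ (n J : ℕ), (∀ i, J ≤ i → c i = f) → ∀ y : ℝ, 0 ≤ y → y ≤ n * f →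
      g (U J + y) = g (U J) + FQ m f y := by
    intro n
    induction n with
    | zero =>
      intro J _ y h0 h1
      have hy : y = 0 := by
        simp only [Nat.cast_zero, zero_mul] at h1
        linarith
      rw [hy, FQ_zero hm, add_zero, add_zero]
    | succ n ih =>
      intro J hf y h0 h1
      have hc : c J = f := hf J le_rfl
      rcases le_or_gt y f with hy | hy
      · rw [h.val J y h0 (by rw [hc]; exact hy), FQ_mem hm hfc.pos h0 hy]
      · have hs := h.step J
        rw [hc] at hs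
        have hn : g (U (J + 1)) = g (U J) + F m f := by
          rw [hs]
          exact h.val J f hfc.pos.le (by rw [hc])
        have h2 := ih (J + 1) (fun i hi => hf i (by omega)) (y - f) (by linarith)
          (by push_cast at h1; linarith)
        have e : U J + y = U (J + 1) + (y - f) := by rw [hs]; ring
        have h3 := (FQ_qsub hm hfc).per (y - f)
        rw [sub_add_cancel] at h3
        rw [e, h2, hn, h3]
        ring
  obtain ⟨n, hn⟩ := exists_nat_gt (y / f)
  rw [div_lt_iff₀ hfc.pos] at hn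
  exact key n J hf y h0 hn.le

theorem cell_down {m : ℕ} (hm : 2 ≤ m) {h : ℝ → ℝ} {A f : ℕ → ℝ} {i0 i1 : ℕ} (hi : i0 ≤ i1)
    (hA : ∀ i, i0 ≤ i → i < i1 → A (i + 1) = A i + f i) (hface : ∀ i, i0 ≤ i → i < i1 → Face m (f i))
    (hval : ∀ i, i0 ≤ i → i < i1 → ∀ y, 0 ≤ y → y ≤ f i → h (A i + y) = h (A i) + F m y)
    {f0 : ℝ} (hf0 : Face m f0) (hle : ∀ i, i0 ≤ i → i < i1 → f0 ≤ f i) {y : ℝ} (h0 : 0 ≤ y) (h1 : A i0 ≤ A i1 - y) :
    h (A i1) + FQ m f0 (-y) ≤ h (A i1 - y) := by
  induction i1, hi using Nat.le_induction generalizing y with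
  | base =>
    have hy : y = 0 := by linarith
    rw [hy, neg_zero, FQ_zero hm, sub_zero, add_zero]
  | succ i1 hi ih =>
    have hfc := hface i1 hi (by omega)
    have hs := hA i1 hi (by omega)
    have hl := hle i1 hi (by omega)
    have hv := hval i1 hi (by omega)
    have hn : h (A (i1 + 1)) = h (A i1) + F m (f i1) := by
      rw [hs]
      exact hv (f i1) hfc.pos.le le_rfl
    rcases le_or_gt y (f i1) with hy | hy
    · have e : A (i1 + 1) - y = A i1 + (f i1 - y) := by rw [hs]; ring
      have h2 := FQ_mono_neg hm hf0 hfc hl h0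
      rw [FQ_neg hm hfc h0 hy] at h2
      rw [e, hv (f i1 - y) (by linarith) (by linarith), hn]
      linarith
    · have h2 := ih (fun i a b => hA i a (by omega)) (fun i a b => hface i a (by omega))
        (fun i a b => hval i a (by omega)) (fun i a b => hle i a (by omega))
        (y := y - f i1) (by linarith) (by rw [hs] at h1; linarith)
      have e : A (i1 + 1) - y = A i1 - (y - f i1) := by rw [hs]; ring
      have h3 := (FQ_qsub hm hf0).sub (-(y - f i1)) (-(f i1))
      rw [show -(y - f i1) + -(f i1) = -y by ring] at h3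
      have h4 := FQ_mono_neg hm hf0 hfc hl hfc.pos.le
      rw [FQ_neg hm hfc hfc.pos.le le_rfl, sub_self, F_zero hm] at h4
      rw [e, hn]
      linarith

theorem cell_up {m : ℕ} (hm : 2 ≤ m) {h : ℝ → ℝ} {A f : ℕ → ℝ} {i0 i1 : ℕ} (hi : i0 ≤ i1)
    (hA : ∀ i, i0 ≤ i → i < i1 → A (i + 1) = A i + f i) (hface : ∀ i, i0 ≤ i → i < i1 → Face m (f i))
    (hval : ∀ i, i0 ≤ i → i < i1 → ∀ y, 0 ≤ y → y ≤ f i → h (A i + y) = h (A i) + F m y)
    {f0 : ℝ} (hf0 : Face m f0) (hle : ∀ i, i0 ≤ i → i < i1 → f i ≤ f0) {y : ℝ} (h0 : 0 ≤ y) (h1 : A i0 + y ≤ A i1) :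
    h (A i0) + FQ m f0 y ≤ h (A i0 + y) := by
  obtain ⟨k, rfl⟩ := Nat.exists_eq_add_of_le hi
  clear hi
  induction k generalizing i0 y with
  | zero =>
    have hy : y = 0 := by
      rw [add_zero] at h1
      linarith
    rw [hy, FQ_zero hm, add_zero, add_zero]
  | succ k ih =>
    have hfc := hface i0 le_rfl (by omega)
    have hs := hA i0 le_rfl (by omega)
    have hl := hle i0 le_rfl (by omega)
    have hv := hval i0 le_rfl (by omega)
    rcases le_or_gt y (f i0) with hy | hy
    · rw [hv y h0 hy, FQ_mem hm hf0.pos h0 (by linarith)]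
    · have hn : h (A (i0 + 1)) = h (A i0) + F m (f i0) := by
        rw [hs]
        exact hv (f i0) hfc.pos.le le_rfl
      have ek : i0 + (k + 1) = i0 + 1 + k := by ring
      rw [ek] at hA hface hval hle h1
      have h2 := ih (i0 := i0 + 1) (y := y - f i0) (by linarith)
        (fun i a b => hA i (by omega) b) (fun i a b => hface i (by omega) b)
        (fun i a b => hval i (by omega) b) (fun i a b => hle i (by omega) b)
        (by rw [hs]; linarith)
      have e : A i0 + y = A (i0 + 1) + (y - f i0) := by rw [hs]; ring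
      have h3 := (FQ_qsub hm hf0).sub (f i0) (y - f i0)
      rw [FQ_mem hm hf0.pos hfc.pos.le hl, add_sub_cancel] at h3
      rw [e]
      linarith

end Pool.Agent.H86.ZN
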