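import Pool.Agent.H86.ZN.Link

/-!
# Project ZN: functions made of cells, and the relaxed convexity across nodes

Proof sketches.
* `Cells.up`: strong induction (number of cells below `U j + y`; every cell has length `≥ c 0 > 0`): if `y ≤ c j` `val`; otherwise
  `g (U j + y) = g (U (j+1) + (y - c j)) ≥ g (U j) + F (c j) + F (y - c j) ≥ g (U j) + F y` (`F_add`, `y ≤ 1`).
* `carry0`: model `qcarry_down` of `Pool/Agent/H86/Z1/QC.lean`: as long as some `z i < 0` there is `j` with `z j > 0`; replace `z i` by `0` and `z j` by `z i + z j ∈ [-a, h]`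
  and induct on the set (`Finset` version over `s`, erase `i`).
* `ccA`: `A = U (j+2)`, `f = c (j+2)`, `f' = c (j+1)`, `f'' = c j`, `g0 y = g (A + y) - g A`. Values: `g0 y = F y` on `[0, f]`; `g0 (-y) = F (f' - y) - F f'` on `[0, f']`;
  `g0 (-f' - y) = -F f' - F f'' + F (f'' - y)` on `[0, f'']`. `carry0` for `g0`: `u = -y`, `0 ≤ y ≤ f'`, `w ≤ h ≤ f'`: if `w ≥ y`: `Face.ex` for `f'` (`α = w`, `β = f' - y`); if `w < y`: `F_add`.
  `u = -f' - y`, `0 ≤ y ≤ f''` (then `h ≤ f''`): if `w ≤ y`: `F_add`; if `w > y`: `g0 (w + u) = F (w - y) - F f'` and `Face.ex` for `f''`. Then all entries are in `[0, h]`, `h ≤ f`: `F_tuple`.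
* `ccB`: `A = U (j+1)`, `f' = c j`, `μ = mean - A ∈ [0, c (j+1)]`, `ζ i = max (z i - A) 0`, `y i = max (A - z i) 0 ∈ [0, a]`, `Y = ∑ y i`, so `m μ = ∑ ζ i - Y`.
  `m F μ ≤ TT V (m μ) ≤ TT V (∑ ζ) + FQ V (-Y) ≤ TT V (∑ ζ) + FQ Ws (-Y)` (`hup`, `FQ_qsub`, `FQ_mono_neg`), `FQ Ws (-Y) ≤ (∑ FQ Ws (-(m y i)))/m + m a` (`FQ_tuple'` for the tuple `-(m y i)`,
  bounds `-(m a)`, `0`, mean `-Y`), and `FQ Ws (-(m y i))/m ≤ F (f' - y i) - F f'` (`hneg`; it is `0 ≤ 0` for `y i = 0`). Finally `g (z i) - g A ≥ F (ζ i) + (F (f' - y i) - F f')`: for `z i ≥ A` it is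
  `Cells.up` (`ζ i ≤ h ≤ 1`), for `z i < A` it is `val` for the cell `j` (`a ≤ f'`).
-/

set_option autoImplicit false

namespace Pool.Agent.H86.ZN

open Finset Pool.Agent.H14RC Pool.Agent.H86.FM Pool.Agent.H86.Z1

structure Cells (m : ℕ) (g : ℝ → ℝ) (U c : ℕ → ℝ) : Prop where
  face : ∀ j, Face m (c j)
  mono : ∀ i j, i ≤ j → c i ≤ c j
  step : ∀ j, U (j + 1) = U j + c j
  val : ∀ j y, 0 ≤ y → y ≤ c j → g (U j + y) = g (U j) + F m y

private theorem Cells.up_aux {m : ℕ} (hm : 2 ≤ m) {g : ℝ → ℝ} {U c : ℕ → ℝ} (h : Cells m g U c) (n : ℕ) :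
    ∀ (j : ℕ) (y : ℝ), 0 ≤ y → y ≤ 1 → y ≤ n * c 0 → g (U j) + F m y ≤ g (U j + y) := by
  induction n with
  | zero =>
    intro j y h0 _ h2
    have hy : y = 0 := by
      simp at h2
      linarith
    subst hy
    rw [F_zero hm, add_zero, add_zero]
  | succ n ih =>
    intro j y h0 h1 h2
    have hc0 := h.mono 0 j (Nat.zero_le j)
    have hcp := (h.face j).pos
    rcases le_total y (c j) with hy | hy
    · rw [h.val j y h0 hy]
    · push_cast at h2
      have h3 := ih (j + 1) (y - c j) (by linarith) (by linarith) (by linarith)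
      have h4 := h.val j (c j) hcp.le le_rfl
      have h5 := F_add hm (x := c j) (y := y - c j) hcp.le (by linarith) (by linarith)
      have e1 : c j + (y - c j) = y := by ring
      have e2 : U (j + 1) + (y - c j) = U j + y := by
        rw [h.step j]
        ring
      rw [e1] at h5
      rw [e2] at h3
      rw [← h.step j] at h4
      linarith

theorem Cells.up {m : ℕ} (hm : 2 ≤ m) {g : ℝ → ℝ} {U c : ℕ → ℝ} (h : Cells m g U c) (j : ℕ) {y : ℝ} (h0 : 0 ≤ y)
    (h1 : y ≤ 1) : g (U j) + F m y ≤ g (U j + y) := by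
  have hcp := (h.face 0).pos
  obtain ⟨n, hn⟩ := exists_nat_ge (y / c 0)
  rw [div_le_iff₀ hcp] at hn
  exact Cells.up_aux hm h n j y h0 h1 hn

private theorem carry0_aux {g : ℝ → ℝ} (g0 : g 0 = 0) {a h : ℝ} (hh : 0 ≤ h)
    (hloc : ∀ u w : ℝ, -a ≤ u → u ≤ 0 → 0 ≤ w → w ≤ h → g (u + w) ≤ g u + g w)
    {ι : Type*} [DecidableEq ι] (n : ℕ) :
    ∀ (s : Finset ι) (z : ι → ℝ), s.card = n → (∀ i ∈ s, -a ≤ z i ∧ z i ≤ h) → 0 ≤ ∑ i ∈ s, z i →
    ∃ z' : ι → ℝ, (∀ i ∈ s, 0 ≤ z' i ∧ z' i ≤ h) ∧ ∑ i ∈ s, z' i = ∑ i ∈ s, z i ∧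
      ∑ i ∈ s, g (z' i) ≤ ∑ i ∈ s, g (z i) := by
  induction n with
  | zero =>
    intro s z hc _ _
    have hs : s = ∅ := Finset.card_eq_zero.mp hc
    subst hs
    exact ⟨z, by simp, rfl, le_refl _⟩
  | succ n ih =>
    intro s z hc hz hs
    by_cases hall : ∀ i ∈ s, 0 ≤ z i
    · exact ⟨z, fun i hi => ⟨hall i hi, (hz i hi).2⟩, rfl, le_refl _⟩
    · push Not at hall
      obtain ⟨i, hi, hi1⟩ := hall
      have hex : ∃ j ∈ s, 0 < z j := by
        by_contra hcon
        push Not at hcon
        have h2 : ∑ k ∈ s, z k < ∑ _k ∈ s, (0 : ℝ) := Finset.sum_lt_sum hcon ⟨i, hi, hi1⟩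
        rw [Finset.sum_const_zero] at h2
        linarith
      obtain ⟨j, hj, hj1⟩ := hex
      have hij : j ≠ i := by
        rintro rfl
        linarith
      have hj' : j ∈ s.erase i := Finset.mem_erase.mpr ⟨hij, hj⟩
      have hsi := Finset.add_sum_erase s z hi
      have hgi := Finset.add_sum_erase s (fun k => g (z k)) hi
      have hcard : (s.erase i).card = n := by
        rw [Finset.card_erase_of_mem hi, hc]
        rfl
      set z1 : ι → ℝ := Function.update z j (z i + z j) with hz1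
      have hz1j : z1 j = z i + z j := by rw [hz1, Function.update_self]
      have hz1o : ∀ k, k ≠ j → z1 k = z k := fun k hk => by rw [hz1, Function.update_of_ne hk]
      have hsum1 : ∑ k ∈ s.erase i, z1 k = ∑ k ∈ s, z k := by
        have e1 := Finset.add_sum_erase (s.erase i) z1 hj'
        have e2 := Finset.add_sum_erase (s.erase i) z hj'
        have e3 : ∑ k ∈ (s.erase i).erase j, z1 k = ∑ k ∈ (s.erase i).erase j, z k :=
          Finset.sum_congr rfl fun k hk => hz1o k (Finset.ne_of_mem_erase hk)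
        rw [hz1j] at e1
        linarith
      have hgsum1 : ∑ k ∈ s.erase i, g (z1 k) ≤ ∑ k ∈ s, g (z k) := by
        have e1 := Finset.add_sum_erase (s.erase i) (fun k => g (z1 k)) hj'
        have e2 := Finset.add_sum_erase (s.erase i) (fun k => g (z k)) hj'
        have e3 : ∑ k ∈ (s.erase i).erase j, g (z1 k) = ∑ k ∈ (s.erase i).erase j, g (z k) :=
          Finset.sum_congr rfl fun k hk => by rw [hz1o k (Finset.ne_of_mem_erase hk)]
        simp only [hz1j] at e1
        have e5 := hloc (z i) (z j) (hz i hi).1 hi1.le hj1.le (hz j hj).2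
        linarith
      obtain ⟨z2, h21, h22, h23⟩ := ih (s.erase i) z1 hcard (by
        intro k hk
        by_cases hkj : k = j
        · subst hkj
          rw [hz1j]
          have e1 := hz i hi
          have e2 := hz k hj
          exact ⟨by linarith [e1.1], by linarith [e2.2]⟩
        · rw [hz1o k hkj]
          exact hz k (Finset.mem_of_mem_erase hk)) (by
        rw [hsum1]
        exact hs)
      refine ⟨Function.update z2 i 0, ?_, ?_, ?_⟩
      · intro k hk
        by_cases hki : k = i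
        · subst hki
          rw [Function.update_self]
          exact ⟨le_refl _, hh⟩
        · rw [Function.update_of_ne hki]
          exact h21 k (Finset.mem_erase.mpr ⟨hki, hk⟩)
      · have e1 := Finset.add_sum_erase s (Function.update z2 i 0) hi
        have e3 : ∑ k ∈ s.erase i, Function.update z2 i 0 k = ∑ k ∈ s.erase i, z2 k :=
          Finset.sum_congr rfl fun k hk => Function.update_of_ne (Finset.ne_of_mem_erase hk) _ _
        rw [Function.update_self] at e1
        linarith
      · have e1 := Finset.add_sum_erase s (fun k => g (Function.update z2 i 0 k)) hi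
        have e3 : ∑ k ∈ s.erase i, g (Function.update z2 i 0 k) = ∑ k ∈ s.erase i, g (z2 k) :=
          Finset.sum_congr rfl fun k hk => by rw [Function.update_of_ne (Finset.ne_of_mem_erase hk)]
        simp only [Function.update_self, g0] at e1
        linarith

theorem carry0 {g : ℝ → ℝ} (g0 : g 0 = 0) {a h : ℝ} (ha : 0 ≤ a) (hh : 0 ≤ h)
    (hloc : ∀ u w : ℝ, -a ≤ u → u ≤ 0 → 0 ≤ w → w ≤ h → g (u + w) ≤ g u + g w)
    {ι : Type*} [DecidableEq ι] (s : Finset ι) (z : ι → ℝ) (hz : ∀ i ∈ s, -a ≤ z i ∧ z i ≤ h) (hs : 0 ≤ ∑ i ∈ s, z i) :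
    ∃ z' : ι → ℝ, (∀ i ∈ s, 0 ≤ z' i ∧ z' i ≤ h) ∧ ∑ i ∈ s, z' i = ∑ i ∈ s, z i ∧
      ∑ i ∈ s, g (z' i) ≤ ∑ i ∈ s, g (z i) :=
  carry0_aux g0 hh hloc s.card s z rfl hz hs

theorem ccA {m : ℕ} (hm : 2 ≤ m) {g : ℝ → ℝ} {U c : ℕ → ℝ} (h : Cells m g U c) (j : ℕ) (z : Fin m → ℝ) {a b : ℝ}
    (ha : 0 ≤ a) (hb : 0 ≤ b) (hz : ∀ i, U (j + 2) - a ≤ z i ∧ z i ≤ U (j + 2) + b)
    (h0 : U (j + 2) ≤ (∑ i, z i) / m) (h1 : (∑ i, z i) / m ≤ U (j + 2) + c (j + 2))
    (hbc : b ≤ c (j + 1)) (hac : a ≤ c (j + 1) ∨ (a ≤ c (j + 1) + c j ∧ b ≤ c j)) :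
    g ((∑ i, z i) / m) ≤ (∑ i, g (z i)) / m + (a + b) := by
  classical
  have hm0 : (0 : ℝ) < m := by
    have : 0 < m := by omega
    exact_mod_cast this
  set A : ℝ := U (j + 2) with hA
  set f : ℝ := c (j + 2) with hf
  set f' : ℝ := c (j + 1) with hf'
  set f'' : ℝ := c j with hf''
  have hff : f' ≤ f := h.mono (j + 1) (j + 2) (by omega)
  have hff' : f'' ≤ f' := h.mono j (j + 1) (by omega)
  have F2 := h.face (j + 2)
  have F1 := h.face (j + 1)
  have F0 := h.face j
  rw [← hf] at F2
  rw [← hf'] at F1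
  rw [← hf''] at F0
  have hA1 : A = U (j + 1) + f' := h.step (j + 1)
  have hA0 : U (j + 1) = U j + f'' := h.step j
  have v1 : g A = g (U (j + 1)) + F m f' := by
    rw [hA1]
    exact h.val (j + 1) f' F1.pos.le le_rfl
  have v0 : g (U (j + 1)) = g (U j) + F m f'' := by
    rw [hA0]
    exact h.val j f'' F0.pos.le le_rfl
  set g0 : ℝ → ℝ := fun y => g (A + y) - g A with hg0
  have V1 : ∀ y, 0 ≤ y → y ≤ f → g0 y = F m y := by
    intro y hy0 hy1
    have := h.val (j + 2) y hy0 hy1
    simp only [hg0]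
    rw [hA]
    linarith
  have V2 : ∀ y, 0 ≤ y → y ≤ f' → g0 (-y) = F m (f' - y) - F m f' := by
    intro y hy0 hy1
    have e := h.val (j + 1) (f' - y) (by linarith) (by linarith)
    have e1 : A + -y = U (j + 1) + (f' - y) := by
      rw [hA1]
      ring
    simp only [hg0]
    rw [e1, e, v1]
    ring
  have V3 : ∀ y, 0 ≤ y → y ≤ f'' → g0 (-f' - y) = -F m f' - F m f'' + F m (f'' - y) := by
    intro y hy0 hy1
    have e := h.val j (f'' - y) (by linarith) (by linarith)
    have e1 : A + (-f' - y) = U j + (f'' - y) := by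
      rw [hA1, hA0]
      ring
    simp only [hg0]
    rw [e1, e, v1, v0]
    ring
  have g00 : g0 0 = 0 := by simp [hg0]
  have hloc : ∀ u w : ℝ, -a ≤ u → u ≤ 0 → 0 ≤ w → w ≤ b → g0 (u + w) ≤ g0 u + g0 w := by
    intro u w hu hu0 hw hwb
    have hw1 := V1 w hw (by linarith)
    rcases le_total (-u) f' with hy | hy
    · have hu1 := V2 (-u) (by linarith) hy
      rw [neg_neg] at hu1
      rcases le_total (-u) w with hc | hc
      · have e1 := V1 (u + w) (by linarith) (by linarith)
        have e2 := F1.ex w (f' - -u) hw (by linarith) (by linarith) (by linarith) (by linarith)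
        have e3 : w + (f' - -u) - f' = u + w := by ring
        rw [e3] at e2
        linarith
      · have e1 := V2 (-(u + w)) (by linarith) (by linarith)
        rw [neg_neg] at e1
        have e2 := F_add hm (x := f' - -u) (y := w) (by linarith) hw (by linarith [F1.le])
        have e3 : f' - -u + w = f' - -(u + w) := by ring
        rw [e3] at e2
        linarith
    · have hy' : 0 ≤ -u - f' := by linarith
      rcases eq_or_lt_of_le hy' with hz0 | hz0
      · -- `u = -f'`
        have hu2 : u = -f' := by linarith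
        have hu1 := V2 f' (by linarith [F1.pos]) le_rfl
        rw [← hu2, sub_self, F_zero hm] at hu1
        have e1 := V2 (f' - w) (by linarith) (by linarith)
        have e3 : -(f' - w) = u + w := by
          rw [hu2]
          ring
        have e4 : f' - (f' - w) = w := by ring
        rw [e3, e4] at e1
        linarith
      · rcases hac with h2 | ⟨h2, h3⟩
        · exfalso
          linarith
        · have hu1 := V3 (-u - f') (by linarith) (by linarith)
          have e0 : -f' - (-u - f') = u := by ring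
          rw [e0] at hu1
          rcases le_total w (-u - f') with hc | hc
          · have e1 := V3 (-u - f' - w) (by linarith) (by linarith)
            have e2 : -f' - (-u - f' - w) = u + w := by ring
            rw [e2] at e1
            have e3 := F_add hm (x := f'' - (-u - f')) (y := w) (by linarith) hw (by linarith [F0.le])
            have e4 : f'' - (-u - f') + w = f'' - (-u - f' - w) := by ring
            rw [e4] at e3
            linarith
          · have e1 := V2 (-(u + w)) (by linarith) (by linarith)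
            rw [neg_neg] at e1
            have e2 := F0.ex w (f'' - (-u - f')) hw (by linarith) (by linarith) (by linarith) (by linarith)
            have e3 : w + (f'' - (-u - f')) - f'' = f' - -(u + w) := by ring
            rw [e3] at e2
            linarith
  have hs1 : ∑ i, (z i - A) = ∑ i, z i - m * A := by
    rw [Finset.sum_sub_distrib, Finset.sum_const, Finset.card_univ, Fintype.card_fin, nsmul_eq_mul]
  have h0' : A * m ≤ ∑ i, z i := (le_div_iff₀ hm0).mp h0
  obtain ⟨z', k1, k2, k3⟩ := carry0 g00 ha hb hloc Finset.univ (fun i => z i - A)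
    (fun i _ => ⟨by linarith [(hz i).1], by linarith [(hz i).2]⟩) (by
      rw [hs1]
      linarith)
  rw [hs1] at k2
  have hft := F_tuple hm z' le_rfl (by linarith [F1.le] : b ≤ 1) (fun i => k1 i (Finset.mem_univ i))
  rw [k2] at hft
  have e1 : (∑ i, z i - m * A) / m = (∑ i, z i) / m - A := by
    field_simp
  rw [e1] at hft
  have e2 := V1 ((∑ i, z i) / m - A) (by linarith) (by linarith)
  have e3 : g0 ((∑ i, z i) / m - A) = g ((∑ i, z i) / m) - g A := by
    simp only [hg0]
    congr 2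
    ring
  have e4 : ∑ i, F m (z' i) = ∑ i, g0 (z' i) :=
    Finset.sum_congr rfl fun i _ => (V1 (z' i) (k1 i (Finset.mem_univ i)).1
      (by linarith [(k1 i (Finset.mem_univ i)).2])).symm
  have e5 : ∑ i, g0 (z i - A) = ∑ i, g (z i) - m * g A := by
    have : ∀ i ∈ (Finset.univ : Finset (Fin m)), g0 (z i - A) = g (z i) - g A := by
      intro i _
      simp only [hg0]
      congr 2
      ring
    rw [Finset.sum_congr rfl this, Finset.sum_sub_distrib, Finset.sum_const, Finset.card_univ, Fintype.card_fin,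
      nsmul_eq_mul]
  have e6 : (∑ i, F m (z' i)) / m ≤ (∑ i, g (z i)) / m - g A := by
    rw [e4]
    have : (∑ i, g0 (z' i)) / m ≤ (∑ i, g (z i) - m * g A) / m := by
      apply div_le_div_of_nonneg_right _ hm0.le
      rw [← e5]
      exact k3
    refine this.trans (le_of_eq ?_)
    field_simp
  linarith

theorem ccB {m : ℕ} (hm : 2 ≤ m) {g : ℝ → ℝ} {U c : ℕ → ℝ} (h : Cells m g U c) (j : ℕ) (z : Fin m → ℝ) {a b : ℝ}
    (ha : 0 ≤ a) (hac : a ≤ c j) (hb : 0 ≤ b) (hb1 : b ≤ 1) (hz : ∀ i, U (j + 1) - a ≤ z i ∧ z i ≤ U (j + 1) + b)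
    (h0 : U (j + 1) ≤ (∑ i, z i) / m) (h1 : (∑ i, z i) / m ≤ U (j + 1) + c (j + 1))
    {Ws V : ℝ} (hWs : Face m Ws) (hV : Face m V) (hVW : V ≤ Ws)
    (hneg : ∀ y : ℝ, 0 ≤ y → y ≤ a → FQ m Ws (-(m * y)) / m ≤ F m (c j - y) - F m (c j))
    (hpos : TT m V (∑ i, max (z i - U (j + 1)) 0) ≤ ∑ i, F m (max (z i - U (j + 1)) 0) + m * b)
    (hup : m * F m ((∑ i, z i) / m - U (j + 1)) ≤ TT m V (m * ((∑ i, z i) / m - U (j + 1)))) :
    m * g ((∑ i, z i) / m) ≤ ∑ i, g (z i) + m * (a + b) := by
  classical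
  have hm0 : (0 : ℝ) < m := by
    have : 0 < m := by omega
    exact_mod_cast this
  set A : ℝ := U (j + 1) with hA
  set f' : ℝ := c j with hf'
  have F0 := h.face j
  rw [← hf'] at F0
  have hA0 : A = U j + f' := h.step j
  have v0 : g A = g (U j) + F m f' := by
    rw [hA0]
    exact h.val j f' F0.pos.le le_rfl
  set μ : ℝ := (∑ i, z i) / m - A with hμ
  have hmean : g ((∑ i, z i) / m) = g A + F m μ := by
    have e := h.val (j + 1) μ (by linarith) (by linarith)
    rw [← e, ← hA]
    congr 1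
    rw [hμ]
    ring
  set Y : ℝ := ∑ i, max (A - z i) 0 with hY
  have hY0 : 0 ≤ Y := Finset.sum_nonneg fun i _ => le_max_right _ _
  have hmμ : m * μ = ∑ i, max (z i - A) 0 + -Y := by
    have e1 : m * μ = ∑ i, (z i - A) := by
      rw [Finset.sum_sub_distrib, Finset.sum_const, Finset.card_univ, Fintype.card_fin, nsmul_eq_mul, hμ]
      field_simp
    have e2 : ∀ i ∈ (Finset.univ : Finset (Fin m)), z i - A = max (z i - A) 0 - max (A - z i) 0 := by
      intro i _
      rcases le_total (z i) A with hc | hc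
      · rw [max_eq_right (by linarith), max_eq_left (by linarith)]
        ring
      · rw [max_eq_left (by linarith), max_eq_right (by linarith)]
        ring
    rw [e1, Finset.sum_congr rfl e2, Finset.sum_sub_distrib, hY]
    ring
  have s1 : FQ m V (m * μ) ≤ FQ m V (∑ i, max (z i - A) 0) + FQ m V (-Y) := by
    rw [hmμ]
    exact (FQ_qsub hm hV).sub _ _
  have s2 := FQ_mono_neg hm hV hWs hVW hY0
  have s3 := FQ_tuple' hm hWs (fun i => -(m * max (A - z i) 0)) (lo := -(m * a)) (hi := 0) (by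
    intro i
    have e1 : max (A - z i) 0 ≤ a := max_le (by linarith [(hz i).1]) ha
    have e2 : 0 ≤ max (A - z i) 0 := le_max_right _ _
    exact ⟨by nlinarith, by nlinarith⟩)
  have e3 : (∑ i, -((m : ℝ) * max (A - z i) 0)) / m = -Y := by
    rw [Finset.sum_neg_distrib, ← Finset.mul_sum, ← hY]
    field_simp
  rw [e3] at s3
  have s4 : (∑ i, FQ m Ws (-(m * max (A - z i) 0))) / m ≤ ∑ i, (F m (f' - max (A - z i) 0) - F m f') := by
    rw [Finset.sum_div]
    apply Finset.sum_le_sum
    intro i _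
    exact hneg _ (le_max_right _ _) (max_le (by linarith [(hz i).1]) ha)
  have s5 : ∑ i, (F m (max (z i - A) 0) + (F m (f' - max (A - z i) 0) - F m f')) ≤ ∑ i, (g (z i) - g A) := by
    apply Finset.sum_le_sum
    intro i _
    rcases le_total A (z i) with hc | hc
    · rw [max_eq_left (by linarith : (0 : ℝ) ≤ z i - A), max_eq_right (by linarith : A - z i ≤ 0), sub_zero]
      have e := Cells.up hm h (j + 1) (y := z i - A) (by linarith) (by linarith [(hz i).2])
      rw [← hA] at e
      have e2 : A + (z i - A) = z i := by ring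
      rw [e2] at e
      linarith
    · rw [max_eq_right (by linarith : z i - A ≤ 0), max_eq_left (by linarith : (0 : ℝ) ≤ A - z i), F_zero hm]
      have e := h.val j (f' - (A - z i)) (by linarith [(hz i).1]) (by linarith)
      have e2 : U j + (f' - (A - z i)) = z i := by
        rw [hA0]
        ring
      rw [e2] at e
      linarith
  rw [Finset.sum_add_distrib, Finset.sum_sub_distrib (fun i => g (z i)), Finset.sum_const, Finset.card_univ,
    Fintype.card_fin, nsmul_eq_mul] at s5
  unfold TT at hpos hup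
  rw [hmean]
  have s6 : m * (g A + F m μ) = m * g A + m * F m μ := by ring
  rw [s6]
  linarith

end Pool.Agent.H86.ZN
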