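import Pool.Agent.H86.ZN.Link

/-!
# Project ZN: chains of links

Proof sketches.
* `FQ_neg_mem`: `FQ w (-D) = F (w - D) - F w` for `0 ≤ D ≤ w` (`QSub.per`, `FQ_mem`).
* `lt_succ`, `mono`: `v (t+1) = v t + w t/m` (`Link.joint`).
* `down_le`: induction on `s`: for `b` in the last layer, `b = v t + y/m`, `0 ≤ y ≤ w t ≤ W`. If `D ≤ y`: `F (b - D/m) = F (v t) + F (y - D)/m`, `F b = F (v t) + F y/m`, and
  `F W + F (y - D) ≤ F y + F (W - D)` (`Face.ex` with `α = y`, `β = W - D`). If `D > y`: induction hypothesis for `b' = v t`, `D' = D - y`: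
  `F (b - D/m) ≤ F (v t) + FQ W (-(D - y))/m`, `F (v t) = F b - F y/m`, `FQ W (-D + y) ≤ FQ W (-D) + F y`.
* `down_ge`: induction on `s`, `w = w (s-1)`: `D ≤ w`: `F (v s - D/m) - F (v s) = (F (w - D) - F w)/m = FQ w (-D)/m ≥ FQ W (-D)/m` (`FQ_mono_neg`). `D > w`: induction hypothesis for
  `v (s-1)`, `D - w`, and `FQ W (-D) ≤ FQ W (-(D-w)) + FQ W (-w)`, `FQ W (-w) ≤ FQ w (-w) = -F w`.
* `face_of_chain`: by symmetry `b ≤ α`. If `α ≤ v j1`: `hbase`. Otherwise `v j < α ≤ v (j+1)`, `j1 ≤ j < s`. Claim, for `t` from `j+1` to `s`: for all `b` with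
  `v t - α ≤ b ≤ v t`: `F (v t) - F α ≤ F b - F (b - (v t - α))`. `t = j+1`: `α = v j + y/m`, `D = w j - y`: `hom` for `j`, `FQ (w j) (-D) = F y - F (w j)`. Step `t → t+1`:
  `b1 = b - w t/m ≤ v t`: `hom` for `t` with `D = w t`: `F b1 ≤ F b - F (w t)/m`, `F (v (t+1)) = F (v t) + F (w t)/m`, and the claim for `b1`.
-/

set_option autoImplicit false

namespace Pool.Agent.H86.ZN

open Finset Pool.Agent.H14RC Pool.Agent.H86.FM Pool.Agent.H86.Z1

structure Chain (m : ℕ) (v w : ℕ → ℝ) (N : ℕ → ℕ) (t0 t3 : ℕ) : Prop where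
  link : ∀ t, t0 ≤ t → t < t3 → Link m (v t) (v (t + 1)) (w t) (N t)
  wmono : ∀ s t, t0 ≤ s → s ≤ t → t < t3 → w s ≤ w t
  Nmono : ∀ s t, t0 ≤ s → s ≤ t → t < t3 → N s ≤ N t

theorem FQ_neg_mem {m : ℕ} (hm : 2 ≤ m) {w D : ℝ} (hw : Face m w) (h0 : 0 ≤ D) (h1 : D ≤ w) :
    FQ m w (-D) = F m (w - D) - F m w := by
  have h2 := (FQ_qsub hm hw).per (-D)
  have h3 : -D + w = w - D := by ring
  rw [h3, FQ_mem hm hw.pos (by linarith) (by linarith)] at h2
  linarith

private theorem mR {m : ℕ} (hm : 2 ≤ m) : (0 : ℝ) < m := by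
  have : 0 < m := by omega
  exact_mod_cast this

private theorem step_eq {m : ℕ} (hm : 2 ≤ m) {v w : ℕ → ℝ} {N : ℕ → ℕ} {t0 t3 : ℕ} (h : Chain m v w N t0 t3) {t : ℕ}
    (h0 : t0 ≤ t) (h1 : t < t3) : v (t + 1) = v t + w t / m ∧ F m (v (t + 1)) = F m (v t) + F m (w t) / m :=
  ⟨((h.link t h0 h1).joint hm).2.2.2, ((h.link t h0 h1).joint hm).2.2.1⟩

private theorem FQ_neg_self {m : ℕ} (hm : 2 ≤ m) {w : ℝ} (hw : Face m w) : FQ m w (-w) = - F m w := by
  rw [FQ_neg_mem hm hw hw.pos.le (le_refl w), sub_self, F_zero hm]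
  ring

theorem Chain.lt_succ {m : ℕ} (hm : 2 ≤ m) {v w : ℕ → ℝ} {N : ℕ → ℕ} {t0 t3 : ℕ} (h : Chain m v w N t0 t3) {t : ℕ}
    (h0 : t0 ≤ t) (h1 : t < t3) : v t < v (t + 1) := by
  rw [(step_eq hm h h0 h1).1]
  have := div_pos (h.link t h0 h1).face.pos (mR hm)
  linarith

theorem Chain.mono {m : ℕ} (hm : 2 ≤ m) {v w : ℕ → ℝ} {N : ℕ → ℕ} {t0 t3 : ℕ} (h : Chain m v w N t0 t3) {s t : ℕ}
    (h0 : t0 ≤ s) (hst : s ≤ t) (h1 : t ≤ t3) : v s ≤ v t := by
  induction t, hst using Nat.le_induction with
  | base => exact le_refl _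
  | succ t ht ih => exact (ih (by omega)).trans (h.lt_succ hm (by omega) (by omega)).le

theorem Chain.down_le {m : ℕ} (hm : 2 ≤ m) {v w : ℕ → ℝ} {N : ℕ → ℕ} {t0 t3 : ℕ} (h : Chain m v w N t0 t3) {W : ℝ}
    (hW : Face m W) {s : ℕ} (hs0 : t0 ≤ s) (hs : s ≤ t3) (hwW : ∀ t, t0 ≤ t → t < s → w t ≤ W) {b D : ℝ} (hD : 0 ≤ D)
    (hb : b ≤ v s) (hbD : v t0 ≤ b - D / m) : F m (b - D / m) ≤ F m b + FQ m W (-D) / m := by
  have hm0 := mR hm
  have hq := FQ_qsub hm hW
  induction s, hs0 using Nat.le_induction generalizing b D with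
  | base =>
    have h1 : 0 ≤ D / m := div_nonneg hD hm0.le
    have h2 : D / m = 0 := by linarith
    have h3 : D = 0 := by
      rcases div_eq_zero_iff.1 h2 with h4 | h4
      · exact h4
      · exact absurd h4 hm0.ne'
    rw [h3]
    simp [hq.zero]
  | succ s hs0 ih =>
    have ih' := fun (b D : ℝ) (hD : 0 ≤ D) (hb : b ≤ v s) (hbD : v t0 ≤ b - D / m) =>
      ih (by omega) (fun t ht0 ht => hwW t ht0 (by omega)) hD hb hbD
    rcases le_or_gt b (v s) with h1 | h1
    · exact ih' b D hD h1 hbD
    · have hl := h.link s hs0 (by omega)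
      have e1 := (step_eq hm h hs0 (by omega : s < t3)).1
      have hwW' := hwW s hs0 (by omega)
      have hy0 : 0 ≤ m * (b - v s) := mul_nonneg hm0.le (by linarith)
      have hy1 : m * (b - v s) ≤ w s := by
        have h2 : b - v s ≤ w s / m := by linarith
        rw [le_div_iff₀ hm0] at h2
        linarith
      set y := m * (b - v s) with hy
      have eb : b = v s + y / m := by
        rw [hy]
        field_simp
        ring
      have hFb := hl.ex y hy0 hy1
      rw [← eb] at hFb
      have hFy : FQ m W y = F m y := FQ_mem hm hW.pos hy0 (hy1.trans hwW')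
      rcases le_or_gt D y with h2 | h2
      · have h3 := hl.ex (y - D) (by linarith) (by linarith)
        have h4 : v s + (y - D) / m = b - D / m := by
          rw [eb]
          ring
        rw [h4] at h3
        have h5 := hq.sub y (-D)
        have h6 : y + -D = y - D := by ring
        rw [h6, hFy, FQ_mem hm hW.pos (by linarith) (by linarith)] at h5
        have h7 := div_le_div_of_nonneg_right h5 hm0.le
        rw [add_div] at h7
        rw [h3, hFb]
        linarith
      · have h4 : v s - (D - y) / m = b - D / m := by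
          rw [eb]
          ring
        have h3 := ih' (v s) (D - y) (by linarith) (le_refl _) (by rw [h4]; exact hbD)
        rw [h4] at h3
        have h5 := hq.sub (-D) y
        have h6 : -D + y = -(D - y) := by ring
        rw [h6, hFy] at h5
        have h7 := div_le_div_of_nonneg_right h5 hm0.le
        rw [add_div] at h7
        rw [hFb]
        linarith

theorem Chain.down_ge {m : ℕ} (hm : 2 ≤ m) {v w : ℕ → ℝ} {N : ℕ → ℕ} {t0 t3 : ℕ} (h : Chain m v w N t0 t3) {W : ℝ}
    (hW : Face m W) {s : ℕ} (hs0 : t0 ≤ s) (hs : s ≤ t3) (hwW : ∀ t, t0 ≤ t → t < s → W ≤ w t) {D : ℝ} (hD : 0 ≤ D)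
    (hbD : v t0 ≤ v s - D / m) : FQ m W (-D) / m ≤ F m (v s - D / m) - F m (v s) := by
  have hm0 := mR hm
  have hq := FQ_qsub hm hW
  induction s, hs0 using Nat.le_induction generalizing D with
  | base =>
    have h1 : 0 ≤ D / m := div_nonneg hD hm0.le
    have h2 : D / m = 0 := by linarith
    have h3 : D = 0 := by
      rcases div_eq_zero_iff.1 h2 with h4 | h4
      · exact h4
      · exact absurd h4 hm0.ne'
    rw [h3]
    simp [hq.zero]
  | succ s hs0 ih =>
    have hl := h.link s hs0 (by omega)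
    obtain ⟨e1, e2⟩ := step_eq hm h hs0 (by omega : s < t3)
    have hwW' := hwW s hs0 (by omega)
    rcases le_or_gt D (w s) with h1 | h1
    · have h3 := hl.ex (w s - D) (by linarith) (by linarith)
      have h4 : v s + (w s - D) / m = v (s + 1) - D / m := by
        rw [e1]
        ring
      rw [h4] at h3
      have h5 := FQ_mono_neg hm hW hl.face hwW' hD
      rw [FQ_neg_mem hm hl.face hD h1] at h5
      have h7 := div_le_div_of_nonneg_right h5 hm0.le
      rw [sub_div] at h7
      rw [h3, e2]
      linarith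
    · have h4 : v s - (D - w s) / m = v (s + 1) - D / m := by
        rw [e1]
        ring
      have h3 := ih (by omega) (fun t ht0 ht => hwW t ht0 (by omega)) (D := D - w s) (by linarith)
        (by rw [h4]; exact hbD)
      rw [h4] at h3
      have h5 := FQ_mono_neg hm hW hl.face hwW' hl.face.pos.le
      rw [FQ_neg_self hm hl.face] at h5
      have h6 := hq.sub (-(D - w s)) (-(w s))
      have h8 : -(D - w s) + -(w s) = -D := by ring
      rw [h8] at h6
      have h9 : FQ m W (-D) ≤ FQ m W (-(D - w s)) - F m (w s) := by linarith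
      have h7 := div_le_div_of_nonneg_right h9 hm0.le
      rw [sub_div] at h7
      rw [e2]
      linarith

theorem face_of_chain {m : ℕ} (hm : 2 ≤ m) {v w : ℕ → ℝ} {N : ℕ → ℕ} {t0 t3 : ℕ} (h : Chain m v w N t0 t3) {j1 s : ℕ}
    (hj : t0 ≤ j1) (hjs : j1 < s) (hs : s ≤ t3) (h0 : 0 < v s) (h1 : v s ≤ 1)
    (hom : ∀ j, j1 ≤ j → j < s → ∀ b D : ℝ, 0 ≤ b → b ≤ v (j + 1) → 0 ≤ D → D ≤ m * b →
      F m (b - D / m) ≤ F m b + FQ m (w j) (-D) / m)
    (hbase : ∀ α β : ℝ, 0 ≤ α → α ≤ v j1 → 0 ≤ β → β ≤ v j1 → v s ≤ α + β →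
      F m (v s) + F m (α + β - v s) ≤ F m α + F m β) : Face m (v s) := by
  have hm0 := mR hm
  have key : ∀ α β : ℝ, 0 ≤ α → α ≤ v s → 0 ≤ β → β ≤ α → v s ≤ α + β →
      F m (v s) + F m (α + β - v s) ≤ F m α + F m β := by
    intro α β hα0 hα1 hβ0 hβα hs'
    rcases le_or_gt α (v j1) with h2 | h2
    · exact hbase α β hα0 h2 hβ0 (hβα.trans h2) hs'
    · obtain ⟨j, hj1, hj2, hj3, hj4⟩ : ∃ j, j1 ≤ j ∧ j < s ∧ v j < α ∧ α ≤ v (j + 1) := by
        by_contra hcon
        push Not at hcon
        have h3 : ∀ t, j1 ≤ t → t ≤ s → v t < α := by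
          intro t ht
          induction t, ht using Nat.le_induction with
          | base => intro _; exact h2
          | succ t ht ih =>
            intro hts
            exact hcon t ht (by omega) (ih (by omega))
        exact absurd (h3 s hjs.le (le_refl s)) (not_lt.2 hα1)
      have hl := h.link j (by omega) (by omega)
      obtain ⟨e1, e2⟩ := step_eq hm h (by omega : t0 ≤ j) (by omega : j < t3)
      have hP : ∀ t, j + 1 ≤ t → t ≤ s → ∀ b : ℝ, v t - α ≤ b → b ≤ v t →
          F m (v t) - F m α ≤ F m b - F m (b - (v t - α)) := by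
        intro t ht
        induction t, ht using Nat.le_induction with
        | base =>
          intro _ b hb0 hb1
          have hy0 : 0 ≤ m * (α - v j) := mul_nonneg hm0.le (by linarith)
          have hy1 : m * (α - v j) ≤ w j := by
            have h3 : α - v j ≤ w j / m := by linarith
            rw [le_div_iff₀ hm0] at h3
            linarith
          set y := m * (α - v j) with hy
          have eα : α = v j + y / m := by
            rw [hy]
            field_simp
            ring
          have hFα := hl.ex y hy0 hy1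
          rw [← eα] at hFα
          have hD : (w j - y) / m = v (j + 1) - α := by
            rw [e1, eα]
            ring
          have hb : w j - y ≤ m * b := by
            have h3 : (w j - y) / m ≤ b := by rw [hD]; exact hb0
            rw [div_le_iff₀ hm0] at h3
            linarith
          have h3 := hom j hj1 hj2 b (w j - y) (by
            have : 0 ≤ v (j + 1) - α := by linarith
            linarith) hb1 (by linarith) hb
          rw [FQ_neg_mem hm hl.face (by linarith) (by linarith), hD] at h3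
          have h4 : w j - (w j - y) = y := by ring
          rw [h4, sub_div] at h3
          rw [e2, hFα]
          linarith
        | succ t ht ih =>
          intro hts b hb0 hb1
          obtain ⟨f1, f2⟩ := step_eq hm h (by omega : t0 ≤ t) (by omega : t < t3)
          have hlt := h.link t (by omega) (by omega)
          have hα' : α ≤ v t := hj4.trans (h.mono hm (by omega) ht (by omega))
          have hwm : 0 < w t / m := div_pos hlt.face.pos hm0
          have hb' : w t ≤ m * b := by
            have h3 : w t / m ≤ b := by linarith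
            rw [div_le_iff₀ hm0] at h3
            linarith
          have h3 := hom t (by omega) (by omega) b (w t) (by linarith) hb1 hlt.face.pos.le hb'
          rw [FQ_neg_self hm hlt.face, neg_div] at h3
          have h4 := ih (by omega) (b - w t / m) (by linarith) (by linarith)
          have h5 : b - w t / m - (v t - α) = b - (v (t + 1) - α) := by
            rw [f1]
            ring
          rw [h5] at h4
          rw [f2]
          linarith
      have h3 := hP s (by omega) (le_refl s) β (by linarith) (by linarith)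
      have h4 : β - (v s - α) = α + β - v s := by ring
      rw [h4] at h3
      linarith
  refine ⟨h0, h1, fun α β hα0 hα1 hβ0 hβ1 hs' => ?_⟩
  rcases le_total β α with h2 | h2
  · exact key α β hα0 hα1 hβ0 h2 hs'
  · have h3 := key β α hβ0 hβ1 hα0 h2 (by linarith)
    rw [add_comm β α] at h3
    linarith

end Pool.Agent.H86.ZN
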