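import Pool.Agent.H86.FM.Base

/-!
# Project ZN: the maximality argument

Proof sketch: `H x = max (F x) (g (m x)/m)` for `xL ≤ x ≤ xR`, `F x` otherwise; `H ≤ F` by `le_F_of`. Tuple with mean `x`: if `H x = F x`: `F_tuple`. Otherwise `m F x < g (m x)`, so
`xL + ε ≤ x ≤ xR - ε` (`hin`); `htri`: first alternative: divide by `m`. Second: `hi - lo < ε`, so all `x i` are in `[xL, xR]`: `hnear`.
(`H 0 = F 0 = 0`, `H 1 = 0`: `0 < xL`, `xR < 1`.) Bounded: `hbd`.
-/

set_option autoImplicit false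

namespace Pool.Agent.H86.ZN

open Finset Pool.Agent.H14RC Pool.Agent.H86.FM

theorem max_argument {m : ℕ} (hm : 2 ≤ m) {g : ℝ → ℝ} {xL xR ε : ℝ} (hL : 0 < xL) (hR : xR < 1) (hε : 0 < ε)
    (hbd : ∃ B : ℝ, ∀ x : ℝ, xL ≤ x → x ≤ xR → g (m * x) ≤ B)
    (hin : ∀ x : ℝ, xL ≤ x → x ≤ xR → m * F m x < g (m * x) → xL + ε ≤ x ∧ x ≤ xR - ε)
    (htri : ∀ (x : Fin m → ℝ) (lo hi : ℝ), 0 ≤ lo → hi ≤ 1 → (∀ i, lo ≤ x i ∧ x i ≤ hi) →
      xL + ε ≤ (∑ i, x i) / m → (∑ i, x i) / m ≤ xR - ε →
      g (m * ((∑ i, x i) / m)) ≤ ∑ i, F m (x i) + m * (hi - lo) ∨ hi - lo < ε)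
    (hnear : ∀ (x : Fin m → ℝ) (lo hi : ℝ), (∀ i, lo ≤ x i ∧ x i ≤ hi) → xL ≤ lo → hi ≤ xR → hi - lo < ε →
      xL + ε ≤ (∑ i, x i) / m → (∑ i, x i) / m ≤ xR - ε →
      g (m * ((∑ i, x i) / m)) ≤ ∑ i, F m (x i) + m * (hi - lo) ∨
      g (m * ((∑ i, x i) / m)) ≤ (∑ i, g (m * x i)) / m + m * (hi - lo)) :
    ∀ x : ℝ, xL ≤ x → x ≤ xR → g (m * x) ≤ m * F m x := by
  classical
  have hm0 : (0 : ℝ) < m := by
    have : 0 < m := by omega
    exact_mod_cast this
  have hm2 : (2 : ℝ) ≤ m := by exact_mod_cast hm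
  let H : ℝ → ℝ := fun x => if xL ≤ x ∧ x ≤ xR then max (F m x) (g (m * x) / m) else F m x
  have hHF : ∀ x, F m x ≤ H x := by
    intro x
    show F m x ≤ if xL ≤ x ∧ x ≤ xR then max (F m x) (g (m * x) / m) else F m x
    split_ifs
    · exact le_max_left _ _
    · exact le_refl _
  have hHg : ∀ x, xL ≤ x → x ≤ xR → g (m * x) / m ≤ H x := by
    intro x h1 h2
    show g (m * x) / m ≤ if xL ≤ x ∧ x ≤ xR then max (F m x) (g (m * x) / m) else F m x
    rw [if_pos ⟨h1, h2⟩]
    exact le_max_right _ _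
  have hHin : ∀ x, xL ≤ x → x ≤ xR → H x = max (F m x) (g (m * x) / m) := by
    intro x h1 h2
    show (if xL ≤ x ∧ x ≤ xR then max (F m x) (g (m * x) / m) else F m x) = _
    rw [if_pos ⟨h1, h2⟩]
  have hHout : ∀ x, ¬(xL ≤ x ∧ x ≤ xR) → H x = F m x := by
    intro x h
    show (if xL ≤ x ∧ x ≤ xR then max (F m x) (g (m * x) / m) else F m x) = _
    rw [if_neg h]
  intro x hx1 hx2
  have key : H x ≤ F m x := by
    refine le_F_of hm (f := H) ?_ ?_ ?_ ?_ (hL.le.trans hx1) (hx2.trans hR.le)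
    · rw [hHout 0 (by rintro ⟨h, -⟩; linarith)]
      exact (F_zero hm).le
    · rw [hHout 1 (by rintro ⟨-, h⟩; linarith)]
      exact (F_one hm).le
    · obtain ⟨B, hB⟩ := hbd
      refine ⟨max 2 (B / m), fun t ht0 ht1 => ?_⟩
      have hF2 : F m t ≤ 2 := by
        refine (F_le_sup hm ht0 ht1).trans ?_
        rw [div_le_iff₀ (by linarith)]
        linarith
      by_cases h : xL ≤ t ∧ t ≤ xR
      · rw [hHin t h.1 h.2]
        exact max_le (hF2.trans (le_max_left _ _))
          ((div_le_div_of_nonneg_right (hB t h.1 h.2) hm0.le).trans (le_max_right _ _))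
      · rw [hHout t h]
        exact hF2.trans (le_max_left _ _)
    · intro z lo hi hlo hhi hz
      have hsumH : (∑ i, F m (z i)) / m ≤ (∑ i, H (z i)) / m :=
        div_le_div_of_nonneg_right (Finset.sum_le_sum fun i _ => hHF (z i)) hm0.le
      have hXlo : lo ≤ (∑ i, z i) / m := by
        rw [le_div_iff₀ hm0]
        have h : ∑ _i : Fin m, lo ≤ ∑ i, z i := Finset.sum_le_sum fun i _ => (hz i).1
        rw [Finset.sum_const, Finset.card_univ, Fintype.card_fin, nsmul_eq_mul] at h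
        linarith
      have hXhi : (∑ i, z i) / m ≤ hi := by
        rw [div_le_iff₀ hm0]
        have h : ∑ i, z i ≤ ∑ _i : Fin m, hi := Finset.sum_le_sum fun i _ => (hz i).2
        rw [Finset.sum_const, Finset.card_univ, Fintype.card_fin, nsmul_eq_mul] at h
        linarith
      have hfst : g (m * ((∑ i, z i) / m)) ≤ ∑ i, F m (z i) + m * (hi - lo) →
          g (m * ((∑ i, z i) / m)) / m ≤ (∑ i, H (z i)) / m + (hi - lo) := by
        intro h
        have h1 := div_le_div_of_nonneg_right h hm0.le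
        rw [add_div, mul_div_cancel_left₀ _ hm0.ne'] at h1
        linarith
      by_cases hc : xL ≤ (∑ i, z i) / m ∧ (∑ i, z i) / m ≤ xR
      · rw [hHin _ hc.1 hc.2]
        have hFX : F m ((∑ i, z i) / m) ≤ (∑ i, H (z i)) / m + (hi - lo) :=
          (F_tuple hm z hlo hhi hz).trans (by linarith)
        refine max_le hFX ?_
        by_cases h3 : (m : ℝ) * F m ((∑ i, z i) / m) < g (m * ((∑ i, z i) / m))
        · obtain ⟨e1, e2⟩ := hin _ hc.1 hc.2 h3
          rcases htri z lo hi hlo hhi hz e1 e2 with h | h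
          · exact hfst h
          · have hxl : xL ≤ lo := by linarith
            have hxr : hi ≤ xR := by linarith
            rcases hnear z lo hi hz hxl hxr h e1 e2 with h4 | h4
            · exact hfst h4
            · have h5 := div_le_div_of_nonneg_right h4 hm0.le
              rw [add_div, mul_div_cancel_left₀ _ hm0.ne'] at h5
              have h6 : (∑ i, g (m * z i)) / m ≤ ∑ i, H (z i) := by
                rw [Finset.sum_div]
                exact Finset.sum_le_sum fun i _ =>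
                  hHg (z i) (hxl.trans (hz i).1) ((hz i).2.trans hxr)
              have h7 := div_le_div_of_nonneg_right h6 hm0.le
              linarith
        · have h4 : g (m * ((∑ i, z i) / m)) / m ≤ F m ((∑ i, z i) / m) := by
            rw [div_le_iff₀ hm0]
            linarith
          exact h4.trans hFX
      · rw [hHout _ hc]
        exact (F_tuple hm z hlo hhi hz).trans (by linarith)
  have h1 := (hHg x hx1 hx2).trans key
  rw [div_le_iff₀ hm0] at h1
  linarith

end Pool.Agent.H86.ZN
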