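import Pool.Agent.H86.ZN.Cells
import Pool.Agent.H86.ZN.ThG

/-!
# Project ZN: near trivial tuples

The cells `c j` of `g` are nodes `v s` of a chain, all of them faces.

Proof sketch of `near_cells`. `A = U (j+2)`, `f = c (j+2)`, `f' = c (j+1)`, `f'' = c j`, `R = hi - lo ≤ f + a0`, `b = hi - A ≥ 0`.
* `lo ≥ A`: `ζ i = z i - A ∈ [lo - A, hi - A] ⊆ [0, 1]` (`hi - A ≤ (mean - A) + R`; all bounded by `v t3 ≤ 1`: `hi - A = b`, if `b > 1`? use: `mean - A ≤ f` and `lo ≤ mean`, so
  `hi - A ≤ f + R`, which may exceed `1`; but `F_tuple` is only needed on `[0,1]`: `hle2` gives `f + f + a0 ≤ 1`), `g (z i) ≥ g A + F (ζ i)` (`Cells.up`), `F_tuple`.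
* `lo < A`: `a = A - lo > 0`, `a + b = R`.
  - `b ≤ f'`: `ccA`: if `a > f'` then `b < f + a0 - f' ≤ f''` and `a ≤ f + a0 ≤ f' + f''` (`hratio`).
  - `b > f'`: `a < f + a0 - f' ≤ 2 a0` (`hjump`), `a ≤ f'` (`hlow`). `ccB` with index `j + 1`, `Ws = w t0` (face by `Link.face`), `V = v p` from `exch_pos` (for the tuple `max (z i - A) 0 ∈ [0, b]`,
    `v t2 ≤ f' < b ≤ f + a0 ≤ v t3`), `V ≤ v t3 ≤ w t0` (`hW`), `hneg` by `Chain.down_ge` (`f' = v s`, `D = m y`, `v t0 ≤ v s - 2 a0`, all layers `≥ w t0`).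
-/

set_option autoImplicit false

namespace Pool.Agent.H86.ZN

open Finset Pool.Agent.H14RC Pool.Agent.H86.FM Pool.Agent.H86.Z1

theorem near_cells {m : ℕ} (hm : 2 ≤ m) {g : ℝ → ℝ} {U c : ℕ → ℝ} (hg : Cells m g U c)
    {v w : ℕ → ℝ} {N : ℕ → ℕ} {t0 t2 t3 : ℕ} (hch : Chain m v w N t0 t3) (h02 : t0 ≤ t2) (h23 : t2 < t3)
    (hface : ∀ t, t2 ≤ t → t ≤ t3 → Face m (v t)) {a0 : ℝ} (ha0 : 0 < a0) (hW : v t3 ≤ w t0)
    (hcv : ∀ j, ∃ s, t2 ≤ s ∧ s ≤ t3 ∧ c j = v s) (hlow : ∀ j, v t0 + 2 * a0 ≤ c j) (hhigh : ∀ j, c j + a0 ≤ v t3)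
    (hle2 : ∀ j, 2 * c j + a0 ≤ 1) (hjump : ∀ j, c (j + 1) ≤ c j + a0) (hratio : ∀ j, c (j + 2) + a0 ≤ c (j + 1) + c j)
    (z : Fin m → ℝ) {lo hi : ℝ} (hz : ∀ i, lo ≤ z i ∧ z i ≤ hi) (j : ℕ) (h0 : U (j + 2) ≤ (∑ i, z i) / m)
    (h1 : (∑ i, z i) / m ≤ U (j + 2) + c (j + 2)) (hR : hi - lo ≤ c (j + 2) + a0) :
    g ((∑ i, z i) / m) ≤ (∑ i, g (z i)) / m + (hi - lo) := by
  have hm0 : (0 : ℝ) < m := by
    have : 0 < m := by omega
    exact_mod_cast this
  have hcard : (Finset.univ : Finset (Fin m)).card = m := by simp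
  have hMlo : lo ≤ (∑ i, z i) / m := by
    rw [le_div_iff₀ hm0]
    have h2 : ∑ _i : Fin m, lo ≤ ∑ i, z i := Finset.sum_le_sum fun i _ => (hz i).1
    rw [Finset.sum_const, hcard, nsmul_eq_mul] at h2
    linarith
  have hMhi : (∑ i, z i) / m ≤ hi := by
    rw [div_le_iff₀ hm0]
    have h2 : ∑ i, z i ≤ ∑ _i : Fin m, hi := Finset.sum_le_sum fun i _ => (hz i).2
    rw [Finset.sum_const, hcard, nsmul_eq_mul] at h2
    linarith
  rcases le_or_gt (U (j + 2)) lo with hlA | hlA
  · -- all the entries are above the node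
    have hb1 : hi - U (j + 2) ≤ 1 := by
      have := hle2 (j + 2)
      linarith
    have hmean : (∑ i, (z i - U (j + 2))) / m = (∑ i, z i) / m - U (j + 2) := by
      rw [Finset.sum_sub_distrib, Finset.sum_const, hcard, nsmul_eq_mul]
      field_simp
    have key := F_tuple hm (fun i => z i - U (j + 2)) (lo := lo - U (j + 2)) (hi := hi - U (j + 2))
      (by linarith) hb1 (fun i => ⟨by linarith [(hz i).1], by linarith [(hz i).2]⟩)
    have hv := hg.val (j + 2) ((∑ i, z i) / m - U (j + 2)) (by linarith) (by linarith)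
    rw [show U (j + 2) + ((∑ i, z i) / m - U (j + 2)) = (∑ i, z i) / m by ring] at hv
    have hsum : (∑ i, F m (z i - U (j + 2))) + m * g (U (j + 2)) ≤ ∑ i, g (z i) := by
      have h2 : ∑ i : Fin m, (F m (z i - U (j + 2)) + g (U (j + 2))) ≤ ∑ i, g (z i) := by
        refine Finset.sum_le_sum fun i _ => ?_
        have h3 := hg.up hm (j + 2) (y := z i - U (j + 2)) (by linarith [(hz i).1])
          (by linarith [(hz i).2])
        rw [show U (j + 2) + (z i - U (j + 2)) = z i by ring] at h3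
        linarith
      rw [Finset.sum_add_distrib, Finset.sum_const, hcard, nsmul_eq_mul] at h2
      exact h2
    have hsum' : (∑ i, F m (z i - U (j + 2))) / m + g (U (j + 2)) ≤ (∑ i, g (z i)) / m := by
      rw [le_div_iff₀ hm0, add_mul, div_mul_cancel₀ _ hm0.ne']
      linarith
    rw [hmean] at key
    rw [hv]
    linarith
  · -- some entries may be below the node
    have ha : 0 ≤ U (j + 2) - lo := by linarith
    have hb : 0 ≤ hi - U (j + 2) := by linarith
    have hzz : ∀ i, U (j + 2) - (U (j + 2) - lo) ≤ z i ∧ z i ≤ U (j + 2) + (hi - U (j + 2)) := fun i =>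
      ⟨by linarith [(hz i).1], by linarith [(hz i).2]⟩
    rcases le_or_gt (hi - U (j + 2)) (c (j + 1)) with hbf | hbf
    · have hac : (U (j + 2) - lo) ≤ c (j + 1) ∨
          ((U (j + 2) - lo) ≤ c (j + 1) + c j ∧ (hi - U (j + 2)) ≤ c j) := by
        rcases le_or_gt (U (j + 2) - lo) (c (j + 1)) with h2 | h2
        · exact Or.inl h2
        · right
          have h3 := hratio j
          exact ⟨by linarith, by linarith⟩
      have key := ccA hm hg j z ha hb hzz h0 h1 hbf hac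
      linarith
    · have hj := hjump (j + 1)
      have hj' : c (j + 2) ≤ c (j + 1) + a0 := hj
      have ha2 : U (j + 2) - lo ≤ 2 * a0 := by linarith
      have hlk := hch.link t0 le_rfl (by omega)
      have hv0 : 0 ≤ v t0 := by
        have h2 : (m : ℝ) * v t0 = N t0 * w t0 := hlk.hv
        have h3 : 0 ≤ (N t0 : ℝ) * w t0 := mul_nonneg (Nat.cast_nonneg _) hlk.face.pos.le
        by_contra hcon
        push Not at hcon
        have h4 : (m : ℝ) * v t0 < 0 := mul_neg_of_pos_of_neg hm0 hcon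
        linarith
      have hac : U (j + 2) - lo ≤ c (j + 1) := by
        have := hlow (j + 1)
        linarith
      have hb3 : hi - U (j + 2) ≤ v t3 := by
        have := hhigh (j + 2)
        linarith
      have hb1 : hi - U (j + 2) ≤ 1 := hb3.trans (hW.trans hlk.face.le)
      have hch2 : Chain m v w N t2 t3 :=
        ⟨fun t h2 h3 => hch.link t (by omega) h3, fun s t h2 h3 h4 => hch.wmono s t (by omega) h3 h4,
          fun s t h2 h3 h4 => hch.Nmono s t (by omega) h3 h4⟩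
      obtain ⟨s, hs2, hs3, hcs⟩ := hcv (j + 1)
      have hvt2 : v t2 ≤ hi - U (j + 2) := by
        have h2 : v t2 ≤ v s := hch.mono hm h02 hs2 hs3
        rw [← hcs] at h2
        linarith
      have hx : ∀ i, 0 ≤ max (z i - U (j + 2)) 0 ∧ max (z i - U (j + 2)) 0 ≤ hi - U (j + 2) := fun i =>
        ⟨le_max_right _ _, max_le (by linarith [(hz i).2]) hb⟩
      obtain ⟨p, hp2, hp3, hT, hup⟩ := exch_pos hm hch2 hface h23 (fun i => max (z i - U (j + 2)) 0) hx hvt2 hb3
      have hVW : v p ≤ w t0 := (hch.mono hm (by omega : t0 ≤ p) hp3 le_rfl).trans hW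
      have hneg : ∀ y : ℝ, 0 ≤ y → y ≤ U (j + 2) - lo →
          FQ m (w t0) (-(m * y)) / m ≤ F m (c (j + 1) - y) - F m (c (j + 1)) := by
        intro y hy0 hy1
        have h2 := hch.down_ge hm hlk.face (s := s) (by omega) hs3
          (fun t h3 h4 => hch.wmono t0 t le_rfl h3 (by omega)) (D := m * y) (mul_nonneg hm0.le hy0)
          (by
            rw [mul_div_cancel_left₀ _ hm0.ne', ← hcs]
            have := hlow (j + 1)
            linarith)
        rw [mul_div_cancel_left₀ _ hm0.ne', ← hcs] at h2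
        exact h2
      have key := ccB hm hg (j + 1) z ha hac hb hb1 hzz h0 h1 hlk.face (hface p hp2 hp3) hVW hneg hT
        (hup ((∑ i, z i) / m - U (j + 2)) (by linarith) (by linarith))
      have h2 : g ((∑ i, z i) / m) ≤ (∑ i, g (z i) + m * (U (j + 2) - lo + (hi - U (j + 2)))) / m := by
        rw [le_div_iff₀ hm0]
        linarith
      rw [add_div, mul_div_cancel_left₀ _ hm0.ne'] at h2
      linarith

end Pool.Agent.H86.ZN
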