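import Pool.Agent.H86.ZN.ZZ
import Pool.Agent.H86.ZN.Near
import Pool.Agent.H86.ZN.Build
import Pool.Agent.H86.ZN.Max

/-!
# Project ZN: everything that is used (for fixed `m`) to prove zone `k+1`

Zone `k` is known (`chain`, nodes `v t = vq m (k+1) t`), the nodes `t2 ≤ t ≤ t3` are faces. The new nodes are `u t = vq m (k+2) t`, the cell of `u t` has the face `vq m (k+1) (t - t/(k+2)) = wk m (k+1) t`.
The function `g` of `ZoneA.lean` has the true cells between `u ((k+2) pP)` and `u ((k+2) pQ)`, constant cells `vq m (k+1) ((k+1) pL)` to the left and `vq m (k+1) ((k+1) pR)` to the right.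
-/

set_option autoImplicit false

namespace Pool.Agent.H86.ZN

open Finset Pool.Agent.H14RC Pool.Agent.H86.FM

structure ZCtx (m k t0 t2 t3 pL pP pQ pR : ℕ) (a0 ε e : ℝ) : Prop where
  hm : 1000000 ≤ m
  chain : Chain m (vq m (k + 1)) (wk m k) (Nk k) t0 t3
  h02 : t0 ≤ t2
  face : ∀ t, t2 ≤ t → t ≤ t3 → Face m (vq m (k + 1) t)
  val : ∀ t, t2 ≤ t → t ≤ t3 → F m (vq m (k + 1) t) = vq m (k + 1) t * Sq m (k + 1) t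
  hW : vq m (k + 1) t3 ≤ wk m k t0
  i1 : t2 + 1 ≤ (k + 1) * pL
  i2 : pL < pP
  i3 : pP < pQ
  i4 : pQ < pR
  i5 : (k + 1) * (pR + 1) + 1 ≤ t3
  i6 : 1 ≤ pL
  a0pos : 0 < a0
  a1 : vq m (k + 1) t0 + 2 * a0 ≤ vq m (k + 1) ((k + 1) * pL)
  a2 : vq m (k + 1) ((k + 1) * pR) + a0 ≤ vq m (k + 1) t3
  a3 : 2 * vq m (k + 1) ((k + 1) * pR) + a0 ≤ 1
  a4 : vq m (k + 1) ((k + 1) * pP) ≤ vq m (k + 1) ((k + 1) * pL) + a0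
  a5 : vq m (k + 1) ((k + 1) * pR) ≤ vq m (k + 1) ((k + 1) * pQ) + a0
  a6 : ∀ t, t2 ≤ t → t < t3 → vq m (k + 1) (t + 1) ≤ vq m (k + 1) t + a0
  a7 : 2 * a0 ≤ vq m (k + 1) ((k + 1) * pL)
  eps : 0 < ε
  he0 : 0 ≤ e
  he : e + 6 / m ≤ 1
  uR1 : vq m (k + 2) ((k + 2) * pR) < 1 / 2
  exc : ∀ t, (k + 2) * pL ≤ t → t < (k + 2) * pR → ∀ x, vq m (k + 2) t ≤ x → x ≤ vq m (k + 2) (t + 1) →
    m * (wk m (k + 1) t + x * Sq m (k + 1) (t - t / (k + 2))) ≤ m * G x + e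
  lineL : ∀ x, vq m (k + 2) ((k + 2) * pL) ≤ x → x ≤ vq m (k + 2) ((k + 2) * pP) →
    G (vq m (k + 2) ((k + 2) * pP)) - (vq m (k + 2) ((k + 2) * pP) - x) * Sq m (k + 1) ((k + 1) * pL) ≤ G x
  lineL' : ∀ x, vq m (k + 2) ((k + 2) * pL) ≤ x → x < vq m (k + 2) ((k + 2) * pL) + ε →
    x ≤ vq m (k + 2) ((k + 2) * pP) ∧
    m * (G (vq m (k + 2) ((k + 2) * pP)) - (vq m (k + 2) ((k + 2) * pP) - x) * Sq m (k + 1) ((k + 1) * pL)) +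
      vq m (k + 1) ((k + 1) * pL) + e + 6 / m ≤ m * G x
  lineR : ∀ x, vq m (k + 2) ((k + 2) * pQ) ≤ x → x ≤ vq m (k + 2) ((k + 2) * pR) →
    G (vq m (k + 2) ((k + 2) * pQ)) + (x - vq m (k + 2) ((k + 2) * pQ)) * Sq m (k + 1) ((k + 1) * pR) ≤ G x
  lineR' : ∀ x, x ≤ vq m (k + 2) ((k + 2) * pR) → vq m (k + 2) ((k + 2) * pR) - ε < x →
    vq m (k + 2) ((k + 2) * pQ) ≤ x ∧
    m * (G (vq m (k + 2) ((k + 2) * pQ)) + (x - vq m (k + 2) ((k + 2) * pQ)) * Sq m (k + 1) ((k + 1) * pR)) +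
      vq m (k + 1) ((k + 1) * pR) + e + 6 / m ≤ m * G x
  tri : ∀ (x : Fin m → ℝ) (lo hi : ℝ), 0 ≤ lo → hi ≤ 1 → (∀ i, lo ≤ x i ∧ x i ≤ hi) →
    vq m (k + 2) ((k + 2) * pL) + ε ≤ (∑ i, x i) / m → (∑ i, x i) / m ≤ vq m (k + 2) ((k + 2) * pR) - ε →
    m * G ((∑ i, x i) / m) + 2 ≤ ∑ i, F m (x i) + m * (hi - lo) ∨ hi - lo < ε ∨
    (vq m (k + 1) t2 ≤ hi ∧ hi ≤ vq m (k + 1) t3 ∧ ∃ A : Finset (Fin m), (∀ i ∈ A, x i ≤ vq m (k + 1) t2) ∧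
      ∀ t, t2 ≤ t → t ≤ t3 → FQ m (vq m (k + 1) t) (∑ i ∈ A, x i) + m * lo ≤ ∑ i ∈ A, F m (x i))
  near : ∀ (x : Fin m → ℝ) (lo hi : ℝ), vq m (k + 2) ((k + 2) * pL) ≤ lo → hi ≤ vq m (k + 2) ((k + 2) * pR) →
    (∀ i, lo ≤ x i ∧ x i ≤ hi) → hi - lo < ε → ∀ t, t2 ≤ t → t ≤ t3 → vq m (k + 1) t + a0 ≤ m * (hi - lo) →
    m * G ((∑ i, x i) / m) + vq m (k + 1) t + e + 6 / m ≤ ∑ i, F m (x i) + m * (hi - lo)

end Pool.Agent.H86.ZN
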