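import Pool.Agent.H86.Z1.GB

/-!
# Project ZN: the zones

Zone `k` is `{r^(k+1) : loR k < r < upR k}`, there `G (r^(k+1)) = (k+1) r^k`.

Proof sketches.
* `upR_anti`, `loR_mono`: `(1+1/n)^n` is strictly increasing, `(1+1/n)^(n+1)` strictly decreasing (Bernoulli, `one_add_mul_le_pow`; see also `Core`).
* `loR_lt_upR`: `loR k < loR (k+1) < ...`; e.g. `(1 + 1/(k+1))^(k+2) > (1+1/(k+1))^(k+1) ≥ (1+1/k)^k`.
* `lo_up_pow` (helper42): `loR k^(k-1) / upR k^k = (1 + 1/(k(k+2)))^(k²) / (1 + 1/(k+1))^(k-2)`; `(1 + 1/(k(k+2)))^k ≥ 1 + 1/(k+2)` (Bernoulli), so the numerator is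
  `≥ (1 + 1/(k+2))^k = (1+1/(k+2))^(k+2) / (1+1/(k+2))^2 ≥ (1+1/(k+1))^(k+1) / (1+1/(k+1))^2 = (1+1/(k+1))^(k-1) >` denominator.
* `G_pow`: `G_eq_pow` of `Core` (`r ≤ upR k ≤ 1/2`, so `r^(k+1) ≤ 1/4`).
* `G_slope_ge`: `y ≤ r^(k+1)`, `loR k < r ≤ upR k`. If `y` is in the closed zone `k` (`y = s^(k+1)`, `loR k ≤ s ≤ r`): `G x ≤ a k x ≤ a k y - (y - x) k/s` (`a_concave`, tangent; e.g. with `x = q^(k+1)`:
  `(k+1) q^k ≤ (k+1) s^k - (s^(k+1) - q^(k+1)) k/s`, i.e. `k q^(k+1) - (k+1) q^k s + s^(k+1) ≥ 0`). If `y < loR k^(k+1)`: concavity of `G` (`G_conc3`): the slope on `[x, y]` is at least the slope on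
  `[loR k^(k+1), r^(k+1)]`, which is `≥ k/r` by the first case.
* `G_slope_le`: `r^(k+1) ≤ x ≤ y ≤ 1`, `loR k ≤ r < upR k`: concavity: the slope on `[x,y]` is at most the slope on `[r^(k+1), s^(k+1)]` for every `s` in `(r, upR k)` with `s^(k+1) ≤ y`..., which is `≤ k/r`
  (`G (s^(k+1)) = (k+1) s^k ≤ (k+1) r^k + (s^(k+1) - r^(k+1)) k/r`). (Also directly: `G y ≤ a k y ≤ a k x + ...` if `x` is in the zone.)
* `G_mono_half`: `G` is nondecreasing on `[0, 1/2]` (concave and symmetric).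
-/

set_option autoImplicit false

namespace Pool.Agent.H86.ZN

open Finset Pool.Agent.H14RC

noncomputable def loR (k : ℕ) : ℝ := (((k : ℝ) + 1) / ((k : ℝ) + 2)) ^ (k + 2)

noncomputable def upR (k : ℕ) : ℝ := ((k : ℝ) / ((k : ℝ) + 1)) ^ k

theorem loR_pos (k : ℕ) : 0 < loR k := by
  unfold loR
  positivity

/-- Strict Bernoulli, lower side. -/
private theorem bern_neg (n : ℕ) (hn : 1 ≤ n) {s : ℝ} (h0 : 0 < s) (h1 : s ≤ 1) :
    1 - ((n : ℝ) + 1) * s < (1 - s) ^ (n + 1) := by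
  have h2 := one_add_mul_le_pow (a := -s) (by linarith) n
  have h3 : (1 - s) ^ (n + 1) = (1 + -s) ^ n * (1 - s) := by
    rw [pow_succ]
    ring_nf
  have h4 : (1 + (n : ℝ) * -s) * (1 - s) ≤ (1 + -s) ^ n * (1 - s) :=
    mul_le_mul_of_nonneg_right h2 (by linarith)
  have hn' : (1 : ℝ) ≤ n := by exact_mod_cast hn
  have h5 : 0 < (n : ℝ) * (s * s) := by positivity
  rw [h3]
  nlinarith

/-- Strict Bernoulli, upper side. -/
private theorem bern_pos (n : ℕ) (hn : 1 ≤ n) {s : ℝ} (h0 : 0 < s) :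
    1 + ((n : ℝ) + 1) * s < (1 + s) ^ (n + 1) := by
  have h2 := one_add_mul_le_pow (a := s) (by linarith) n
  have h3 : (1 + s) ^ (n + 1) = (1 + s) ^ n * (1 + s) := pow_succ _ _
  have h4 : (1 + (n : ℝ) * s) * (1 + s) ≤ (1 + s) ^ n * (1 + s) :=
    mul_le_mul_of_nonneg_right h2 (by linarith)
  have hn' : (1 : ℝ) ≤ n := by exact_mod_cast hn
  have h5 : 0 < (n : ℝ) * (s * s) := by positivity
  rw [h3]
  nlinarith

private theorem loR_succ (k : ℕ) : loR k < loR (k + 1) := by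
  unfold loR
  have hk0 : (0 : ℝ) ≤ k := Nat.cast_nonneg k
  set t : ℝ := 1 / (((k : ℝ) + 1) * (k + 3)) with ht
  have ht0 : 0 < t := by positivity
  set A : ℝ := ((k : ℝ) + 1) / (k + 2) with hA
  have hA0 : 0 < A := by positivity
  have e1 : (((k + 1 : ℕ) : ℝ) + 1) / (((k + 1 : ℕ) : ℝ) + 2) = A * (1 + t) := by
    rw [hA, ht]
    push_cast
    field_simp
    ring
  have h1 := bern_pos (k + 2) (by omega) ht0
  have e2 : 1 + (((k + 2 : ℕ) : ℝ) + 1) * t = 1 / A := by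
    rw [hA, ht]
    push_cast
    field_simp
    ring
  rw [e2] at h1
  rw [e1, mul_pow]
  have h2 : 1 < A * (1 + t) ^ (k + 2 + 1) := by
    rw [div_lt_iff₀ hA0] at h1
    linarith
  have h3 : A ^ (k + 1 + 2) * (1 + t) ^ (k + 1 + 2) = A ^ (k + 2) * (A * (1 + t) ^ (k + 2 + 1)) := by
    have : k + 1 + 2 = k + 2 + 1 := by omega
    rw [this, pow_succ A (k + 2)]
    ring
  rw [h3]
  have h4 : 0 < A ^ (k + 2) := by positivity
  nlinarith

private theorem upR_succ (k : ℕ) : upR (k + 1) < upR k := by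
  rcases Nat.eq_zero_or_pos k with h | h
  · subst h
    unfold upR
    norm_num
  · unfold upR
    have hk0 : (1 : ℝ) ≤ k := by exact_mod_cast h
    set s : ℝ := 1 / ((k : ℝ) + 1) ^ 2 with hs
    have hs0 : 0 < s := by positivity
    have hs1 : s ≤ 1 := by
      rw [hs, div_le_one (by positivity)]
      nlinarith
    set B : ℝ := (((k + 1 : ℕ) : ℝ)) / (((k + 1 : ℕ) : ℝ) + 1) with hB
    have hB0 : 0 < B := by positivity
    have e1 : (k : ℝ) / (k + 1) = B * (1 - s) := by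
      rw [hB, hs]
      push_cast
      field_simp
      ring
    have h1 := bern_neg k h hs0 hs1
    have e2 : 1 - ((k : ℝ) + 1) * s = B * (1 - s) := by
      rw [← e1, hs]
      field_simp
      ring
    have hc : 0 < 1 - s := by
      have : 0 < B * (1 - s) := by
        rw [← e1]
        positivity
      exact (mul_pos_iff_of_pos_left hB0).1 this
    rw [e2, pow_succ] at h1
    have h2 : B < (1 - s) ^ k := lt_of_mul_lt_mul_right h1 hc.le
    rw [e1, mul_pow, pow_succ]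
    exact mul_lt_mul_of_pos_left h2 (by positivity)

theorem loR_mono {j k : ℕ} (h : j < k) : loR j < loR k := by
  induction k, h using Nat.le_induction with
  | base => exact loR_succ j
  | succ k _ ih => exact ih.trans (loR_succ k)

theorem upR_anti {j k : ℕ} (h : j < k) : upR k < upR j := by
  induction k, h using Nat.le_induction with
  | base => exact upR_succ j
  | succ k _ ih => exact (upR_succ k).trans ih

private theorem loR_lt_self (k : ℕ) : loR k < upR k := by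
  have h1 : loR k < upR (k + 1) := by
    unfold loR upR
    have e : (((k + 1 : ℕ) : ℝ)) / (((k + 1 : ℕ) : ℝ) + 1) = ((k : ℝ) + 1) / (k + 2) := by
      push_cast
      ring
    rw [e, pow_succ _ (k + 1)]
    have h2 : ((k : ℝ) + 1) / (k + 2) < 1 := by
      rw [div_lt_one (by positivity)]
      linarith
    have h3 : 0 < (((k : ℝ) + 1) / (k + 2)) ^ (k + 1) := by positivity
    nlinarith
  exact h1.trans (upR_succ k)

theorem loR_lt_upR (j k : ℕ) : loR j < upR k := by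
  rcases lt_trichotomy j k with h | h | h
  · exact (loR_mono h).trans (loR_lt_self k)
  · rw [h]
    exact loR_lt_self k
  · exact (loR_lt_self j).trans (upR_anti h)

theorem upR_le {k : ℕ} (hk : 1 ≤ k) : upR k ≤ 1 / 2 := by
  have h1 : upR 1 = 1 / 2 := by
    unfold upR
    norm_num
  rcases Nat.eq_or_lt_of_le hk with h | h
  · rw [← h, h1]
  · rw [← h1]
    exact (upR_anti h).le

theorem upR_le' {k : ℕ} (hk : 2 ≤ k) : upR k ≤ 4 / 9 := by
  have h1 : upR 2 = 4 / 9 := by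
    unfold upR
    norm_num
  rcases Nat.eq_or_lt_of_le hk with h | h
  · rw [← h, h1]
  · rw [← h1]
    exact (upR_anti h).le

theorem lo_up_pow {k : ℕ} (hk : 1 ≤ k) : upR (k + 1) ^ (k + 1) < loR (k + 1) ^ k := by
  obtain ⟨j, rfl⟩ : ∃ j, k = j + 1 := ⟨k - 1, by omega⟩
  unfold upR loR
  have hj0 : (0 : ℝ) ≤ j := Nat.cast_nonneg j
  set A : ℝ := (((j + 1 + 1 : ℕ) : ℝ)) / (((j + 1 + 1 : ℕ) : ℝ) + 1) with hA
  set B : ℝ := ((((j + 1 + 1 : ℕ) : ℝ)) + 1) / (((j + 1 + 1 : ℕ) : ℝ) + 2) with hB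
  set t : ℝ := 1 / (((j : ℝ) + 2) * (j + 4)) with ht
  set C : ℝ := ((j : ℝ) + 4) / (j + 3) with hC
  set s : ℝ := 1 / ((j : ℝ) + 4) ^ 2 with hs
  have hA0 : 0 < A := by positivity
  have hB0 : 0 < B := by positivity
  have ht0 : 0 < t := by positivity
  have hC0 : 0 < C := by positivity
  have hs0 : 0 < s := by positivity
  have hs1 : s ≤ 1 := by
    rw [hs, div_le_one (by positivity)]
    nlinarith
  have eB : B = A * (1 + t) := by
    rw [hA, hB, ht]
    push_cast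
    field_simp
    ring
  have eBC : B * C = 1 := by
    rw [hB, hC]
    push_cast
    field_simp
    ring
  -- `C ^ j < (1 + t) ^ ((j+2)*(j+2))`
  have h1 := one_add_mul_le_pow (a := t) (by linarith) (j + 2)
  have e1 : 1 + (((j + 2 : ℕ) : ℝ)) * t = C * (1 - s) := by
    rw [hC, hs, ht]
    push_cast
    field_simp
    ring
  rw [e1] at h1
  have hCs : 0 ≤ C * (1 - s) := mul_nonneg hC0.le (by linarith)
  have h2 : (C * (1 - s)) ^ (j + 2) ≤ ((1 + t) ^ (j + 2)) ^ (j + 2) := pow_le_pow_left₀ hCs h1 _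
  have h3 := one_add_mul_le_pow (a := -s) (by linarith) (j + 2)
  have h4 : C ^ (j + 2) * (1 + ((j + 2 : ℕ) : ℝ) * -s) ≤ (C * (1 - s)) ^ (j + 2) := by
    rw [mul_pow]
    have h5 : (1 + -s) = 1 - s := by ring
    rw [h5] at h3
    exact mul_le_mul_of_nonneg_left h3 (by positivity)
  have h5 : C ^ j < C ^ (j + 2) * (1 + ((j + 2 : ℕ) : ℝ) * -s) := by
    have e2 : C ^ (j + 2) * (1 + ((j + 2 : ℕ) : ℝ) * -s) = C ^ j * (C ^ 2 * (1 - ((j : ℝ) + 2) * s)) := by
      rw [pow_add]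
      push_cast
      ring
    have e3 : C ^ 2 * (1 - ((j : ℝ) + 2) * s) = ((j : ℝ) ^ 2 + 7 * j + 14) / (j + 3) ^ 2 := by
      rw [hC, hs]
      field_simp
      ring
    have h6 : 1 < ((j : ℝ) ^ 2 + 7 * j + 14) / (j + 3) ^ 2 := by
      rw [lt_div_iff₀ (by positivity)]
      nlinarith
    rw [e2, e3]
    have h7 : 0 < C ^ j := by positivity
    nlinarith
  have h6 : C ^ j < (1 + t) ^ ((j + 2) * (j + 2)) := by
    rw [pow_mul]
    linarith
  have h7 : 1 < (1 + t) ^ ((j + 2) * (j + 2)) * B ^ j := by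
    have h8 : C ^ j * B ^ j < (1 + t) ^ ((j + 2) * (j + 2)) * B ^ j :=
      mul_lt_mul_of_pos_right h6 (by positivity)
    rwa [← mul_pow, mul_comm C B, eBC, one_pow] at h8
  have e4 : (A ^ (j + 1 + 1)) ^ (j + 1 + 1) = A ^ ((j + 2) * (j + 2)) := by
    rw [← pow_mul]
  have e5 : (B ^ (j + 1 + 1 + 2)) ^ (j + 1) =
      A ^ ((j + 2) * (j + 2)) * ((1 + t) ^ ((j + 2) * (j + 2)) * B ^ j) := by
    have e6 : (j + 1 + 1 + 2) * (j + 1) = (j + 2) * (j + 2) + j := by ring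
    rw [← pow_mul, e6, pow_add]
    conv_lhs => rw [eB]
    rw [mul_pow, ← eB]
    ring
  rw [e4, e5]
  have h9 : 0 < A ^ ((j + 2) * (j + 2)) := by positivity
  nlinarith

/-- Weighted AM-GM. -/
private theorem amgm (k : ℕ) {q r : ℝ} (hq : 0 ≤ q) (hr : 0 ≤ r) :
    ((k : ℝ) + 1) * q ^ k * r ≤ k * q ^ (k + 1) + r ^ (k + 1) := by
  induction k with
  | zero => simp
  | succ k ih =>
    have h1 := mul_le_mul_of_nonneg_right ih hr
    have h2 : 0 ≤ ((k : ℝ) + 1) * q ^ k * (q - r) ^ 2 := by positivity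
    push_cast
    have e1 : q ^ (k + 1 + 1) = q ^ k * q * q := by rw [pow_succ, pow_succ]
    have e2 : q ^ (k + 1) = q ^ k * q := pow_succ _ _
    have e3 : r ^ (k + 1 + 1) = r ^ (k + 1) * r := pow_succ _ _
    rw [e1, e2, e3]
    rw [e2] at h1
    nlinarith

/-- The tangent of `a k`. -/
private theorem a_tangent {k : ℕ} {r y : ℝ} (hr : 0 < r) (hy : 0 ≤ y) :
    a k y ≤ ((k : ℝ) + 1) * r ^ k + (y - r ^ (k + 1)) * (k / r) := by
  obtain ⟨q, hq0, hq⟩ := exists_root k hy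
  rw [← hq, a_pow k hq0]
  have h1 := amgm k hq0 hr.le
  have h2 : ((k : ℝ) + 1) * q ^ k ≤ (k * q ^ (k + 1) + r ^ (k + 1)) / r := by
    rw [le_div_iff₀ hr]
    exact h1
  have h3 : (k * q ^ (k + 1) + r ^ (k + 1)) / r =
      ((k : ℝ) + 1) * r ^ k + (q ^ (k + 1) - r ^ (k + 1)) * (k / r) := by
    field_simp
    ring
  rw [← h3]
  exact h2

theorem G_pow {k : ℕ} (hk : 1 ≤ k) {r : ℝ} (h0 : loR k ≤ r) (h1 : r ≤ upR k) : G (r ^ (k + 1)) = ((k : ℝ) + 1) * r ^ k := by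
  have hr0 : 0 < r := lt_of_lt_of_le (loR_pos k) h0
  have hr1 : r ≤ 1 / 2 := h1.trans (upR_le hk)
  refine G_eq_pow k h0 h1 ?_
  have h2 : r ^ (k + 1) ≤ r ^ 1 := pow_le_pow_of_le_one hr0.le (by linarith) (by omega)
  rw [pow_one] at h2
  linarith

private theorem pow_le_half {k : ℕ} (hk : 1 ≤ k) {r : ℝ} (h0 : 0 < r) (h1 : r ≤ upR k) : r ^ (k + 1) ≤ 1 / 2 := by
  have hr1 : r ≤ 1 / 2 := h1.trans (upR_le hk)
  have h2 : r ^ (k + 1) ≤ r ^ 1 := pow_le_pow_of_le_one h0.le (by linarith) (by omega)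
  rw [pow_one] at h2
  linarith

theorem G_slope_ge {k : ℕ} (hk : 1 ≤ k) {r : ℝ} (h0 : loR k < r) (h1 : r ≤ upR k) {x y : ℝ} (hx : 0 ≤ x) (hxy : x ≤ y)
    (hy : y ≤ r ^ (k + 1)) : (y - x) * (k / r) ≤ G y - G x := by
  have hr0 : 0 < r := (loR_pos k).trans h0
  have hz1 := pow_le_half hk hr0 h1
  have hG := G_pow hk h0.le h1
  have key : ∀ u : ℝ, 0 ≤ u → u ≤ r ^ (k + 1) → (r ^ (k + 1) - u) * (k / r) ≤ G (r ^ (k + 1)) - G u := by
    intro u hu0 hu1
    have h2 := G_le k hu0 (by linarith : u ≤ 1)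
    have h3 := a_tangent (k := k) hr0 hu0
    rw [hG]
    linarith
  rcases eq_or_lt_of_le hy with h2 | h2
  · rw [h2]
    exact key x hx (hxy.trans hy)
  · have h3 := key y (hx.trans hxy) hy
    have h4 := G_conc3 hx hxy hy (by linarith : r ^ (k + 1) ≤ 1)
    have h5 : 0 < r ^ (k + 1) - y := by linarith
    have h6 : (y - x) * ((r ^ (k + 1) - y) * (k / r)) ≤ (y - x) * (G (r ^ (k + 1)) - G y) :=
      mul_le_mul_of_nonneg_left h3 (by linarith)
    have h7 : (r ^ (k + 1) - y) * ((y - x) * (k / r)) ≤ (r ^ (k + 1) - y) * (G y - G x) := by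
      linarith
    exact le_of_mul_le_mul_left h7 h5

theorem G_slope_le {k : ℕ} (hk : 1 ≤ k) {r : ℝ} (h0 : loR k ≤ r) (h1 : r < upR k) {x y : ℝ} (hx : r ^ (k + 1) ≤ x) (hxy : x ≤ y)
    (hy : y ≤ 1) : G y - G x ≤ (y - x) * (k / r) := by
  have hr0 : 0 < r := lt_of_lt_of_le (loR_pos k) h0
  have hG := G_pow hk h0 h1.le
  have hz0 : 0 ≤ r ^ (k + 1) := by positivity
  have key : G y - G (r ^ (k + 1)) ≤ (y - r ^ (k + 1)) * (k / r) := by
    have h2 := G_le k (by linarith : 0 ≤ y) hy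
    have h3 := a_tangent (k := k) (y := y) hr0 (by linarith)
    rw [hG]
    linarith
  rcases eq_or_lt_of_le (hx.trans hxy) with h2 | h2
  · have h3 : x = y := by linarith
    rw [h3]
    simp
  · have h4 := G_conc3 hz0 hx hxy hy
    have h5 : 0 < y - r ^ (k + 1) := by linarith
    have h6 : (y - x) * (G y - G (r ^ (k + 1))) ≤ (y - x) * ((y - r ^ (k + 1)) * (k / r)) :=
      mul_le_mul_of_nonneg_left key (by linarith)
    have h7 : (y - r ^ (k + 1)) * (G y - G x) ≤ (y - r ^ (k + 1)) * ((y - x) * (k / r)) := by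
      linarith
    exact le_of_mul_le_mul_left h7 h5

theorem G_mono_half {x y : ℝ} (hx : 0 ≤ x) (hxy : x ≤ y) (hy : y ≤ 1 / 2) : G x ≤ G y := by
  rcases eq_or_lt_of_le hxy with h | h
  · rw [h]
  · have h1 := G_conc3 hx hxy (by linarith : y ≤ 1 - x) (by linarith)
    rw [G_symm] at h1
    have h2 : 0 < 1 - x - x := by linarith
    have h3 : (1 - x - x) * G x ≤ (1 - x - x) * G y := by linarith
    exact le_of_mul_le_mul_left h3 h2

end Pool.Agent.H86.ZN
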