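import Pool.Agent.H86.ZN.QCube
import Pool.Agent.H86.ZN.Par

/-!
# Project ZN: the excess of the quasi-cube lines over `G`

Proof sketch of `excess`. `f = vq m (k+1) s`, `s = t - t/(k+2)`, has `k+1` sides `s_i/m`, `s_i = p` or `p+1`, `p = t/(k+2)` (if `s % (k+1) = 0` and `t % (k+2) = k+1` then all sides are `p+1`), and
`x = s_0 f` with `s_0 ∈ [p/m, (p+1)/m]` (`vq_rec`, `vq_rec'`: `x ≥ (p/m) f`, `x ≤ ((p+1)/m) f`). With `ρ = p/m`, `h = 1/m`, all the `k+2` numbers `s_j` are in `[ρ, ρ+h]`, their product is `x = g^(k+2)`,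
`g ∈ [ρ, ρ+h]`, and `f + x Sq = x ∑ 1/s_j`. `1/s = (1/g)(1 - L + ...)`, `L = log (s/g)`, `∑ L = 0`, `|L| ≤ h/ρ`: `∑ 1/s_j ≤ (k+2)/g + C h²`, and `G x = (k+2) g^(k+1) = x (k+2)/g` (`G_pow` for `k+1`).
Alternative without logarithms: `B_le_G`-type estimate of `Pool/Agent/H42/BX`, or: for `a` copies of `ρ`, `b` copies of `ρ+h` and one `s_0` write `1/s - 1/g = (g-s)/(s g)` and bound
`∑ (g - s_j)/(s_j g) = ∑ (g-s_j)/g² + ∑ (g-s_j)²/(s_j g²)`, where `∑ (g - s_j) ≤ 0` by AM-GM (`g` is the geometric mean). This is the shortest proof: the first sum is `≤ 0`, the second `≤ (k+2) h²/ρ³`.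
-/

set_option autoImplicit false

namespace Pool.Agent.H86.ZN

open Finset Pool.Agent.H14RC

private theorem exc_inv {ρ σ g s : ℝ} (hρ : 0 < ρ) (hs0 : ρ ≤ s) (hs1 : s ≤ σ) (hg0 : ρ ≤ g) (hg1 : g ≤ σ) :
    1 / s ≤ 1 / g + (g - s) / g ^ 2 + (σ - ρ) ^ 2 / ρ ^ 3 := by
  have hs : 0 < s := lt_of_lt_of_le hρ hs0
  have hg : 0 < g := lt_of_lt_of_le hρ hg0
  have e : 1 / s = 1 / g + (g - s) / g ^ 2 + (g - s) ^ 2 / (s * g ^ 2) := by
    field_simp
    ring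
  have h1 : (g - s) ^ 2 ≤ (σ - ρ) ^ 2 := sq_le_sq' (by linarith) (by linarith)
  have h2 : ρ ^ 3 ≤ s * g ^ 2 := by
    have h3 : ρ * ρ ^ 2 ≤ s * g ^ 2 :=
      mul_le_mul hs0 (pow_le_pow_left₀ hρ.le hg0 2) (by positivity) hs.le
    calc ρ ^ 3 = ρ * ρ ^ 2 := by ring
      _ ≤ _ := h3
  have h3 : (g - s) ^ 2 / (s * g ^ 2) ≤ (σ - ρ) ^ 2 / ρ ^ 3 := div_le_div₀ (by positivity) h1 (by positivity) h2
  rw [e]
  linarith

private theorem exc_amgm {a b : ℕ} {ρ σ s g : ℝ} (hρ : 0 < ρ) (hσ : 0 < σ) (hs : 0 < s) (hg : 0 < g)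
    (hprod : s * (ρ ^ a * σ ^ b) = g ^ (a + b + 1)) : ((a : ℝ) + b + 1) * g ≤ s + a * ρ + b * σ := by
  have h0 := Real.log_le_sub_one_of_pos (x := s / g) (by positivity)
  have h1 := Real.log_le_sub_one_of_pos (x := ρ / g) (by positivity)
  have h2 := Real.log_le_sub_one_of_pos (x := σ / g) (by positivity)
  rw [Real.log_div hs.ne' hg.ne'] at h0
  rw [Real.log_div hρ.ne' hg.ne'] at h1
  rw [Real.log_div hσ.ne' hg.ne'] at h2
  have h3 : Real.log s + (a * Real.log ρ + b * Real.log σ) = ((a : ℝ) + b + 1) * Real.log g := by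
    have h := congrArg Real.log hprod
    rw [Real.log_mul hs.ne' (by positivity), Real.log_mul (by positivity) (by positivity), Real.log_pow, Real.log_pow,
      Real.log_pow] at h
    push_cast at h
    exact h
  have h1' := mul_le_mul_of_nonneg_left h1 (Nat.cast_nonneg (α := ℝ) a)
  have h2' := mul_le_mul_of_nonneg_left h2 (Nat.cast_nonneg (α := ℝ) b)
  have h4 : ((a : ℝ) + b + 1) ≤ (s + a * ρ + b * σ) / g := by
    have e : (s + a * ρ + b * σ) / g = s / g + a * (ρ / g) + b * (σ / g) := by ring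
    rw [e]
    linarith
  rw [le_div_iff₀ hg] at h4
  exact h4

private theorem exc_core {a b : ℕ} {ρ σ s g : ℝ} (hρ : 0 < ρ) (hs0 : ρ ≤ s) (hs1 : s ≤ σ) (hg0 : ρ ≤ g) (hg1 : g ≤ σ)
    (hprod : s * (ρ ^ a * σ ^ b) = g ^ (a + b + 1)) :
    1 / s + a * (1 / ρ) + b * (1 / σ) ≤ ((a : ℝ) + b + 1) / g + ((a : ℝ) + b + 1) * ((σ - ρ) ^ 2 / ρ ^ 3) := by
  have hs : 0 < s := lt_of_lt_of_le hρ hs0
  have hg : 0 < g := lt_of_lt_of_le hρ hg0
  have hσ : 0 < σ := lt_of_lt_of_le hs hs1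
  have hρσ : ρ ≤ σ := hs0.trans hs1
  have h0 := exc_inv hρ hs0 hs1 hg0 hg1
  have h1 := mul_le_mul_of_nonneg_left (exc_inv hρ (le_refl ρ) hρσ hg0 hg1) (Nat.cast_nonneg (α := ℝ) a)
  have h2 := mul_le_mul_of_nonneg_left (exc_inv hρ hρσ (le_refl σ) hg0 hg1) (Nat.cast_nonneg (α := ℝ) b)
  have h3 := exc_amgm hρ hσ hs hg hprod
  have h4 : (g - s) / g ^ 2 + a * ((g - ρ) / g ^ 2) + b * ((g - σ) / g ^ 2) ≤ 0 := by
    have e : (g - s) / g ^ 2 + a * ((g - ρ) / g ^ 2) + b * ((g - σ) / g ^ 2) =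
        (((a : ℝ) + b + 1) * g - (s + a * ρ + b * σ)) / g ^ 2 := by ring
    rw [e]
    exact div_nonpos_of_nonpos_of_nonneg (by linarith) (by positivity)
  have e2 : ((a : ℝ) + b + 1) / g = 1 / g + a * (1 / g) + b * (1 / g) := by ring
  rw [e2]
  linarith

private theorem exc_sides {k m t : ℕ} (hm : 1 ≤ m) (hp : 1 ≤ t / (k + 2)) : ∃ a b : ℕ, a + b = k + 1 ∧
    vq m (k + 1) (t - t / (k + 2)) =
      (((t / (k + 2) : ℕ) : ℝ) / m) ^ a * ((((t / (k + 2) : ℕ) : ℝ) + 1) / m) ^ b ∧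
    Sq m (k + 1) (t - t / (k + 2)) =
      a * (1 / (((t / (k + 2) : ℕ) : ℝ) / m)) + b * (1 / ((((t / (k + 2) : ℕ) : ℝ) + 1) / m)) := by
  have hmR : (0 : ℝ) < m := by exact_mod_cast hm
  set p : ℕ := t / (k + 2) with hpdef
  set i : ℕ := t % (k + 2) with hidef
  have hpR : (0 : ℝ) < p := by exact_mod_cast hp
  have hi : i < k + 2 := Nat.mod_lt _ (by omega)
  have ht : t = (k + 2) * p + i := (Nat.div_add_mod t (k + 2)).symm
  have hs : t - p = i + (k + 1) * p := by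
    have : (k + 2) * p = (k + 1) * p + p := by ring
    omega
  rw [hs]
  rcases Nat.lt_or_ge i (k + 1) with h | h
  · refine ⟨k + 1 - i, i, by omega, ?_, ?_⟩
    · unfold vq qc
      rw [Nat.add_mul_div_left _ _ (by omega), Nat.add_mul_mod_self_left, Nat.div_eq_of_lt h, Nat.mod_eq_of_lt h,
        Nat.zero_add]
      push_cast
      rw [div_pow, div_pow, div_mul_div_comm, ← pow_add]
      congr 2
      omega
    · unfold Sq
      rw [Nat.add_mul_div_left _ _ (by omega), Nat.add_mul_mod_self_left, Nat.div_eq_of_lt h, Nat.mod_eq_of_lt h,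
        Nat.zero_add, one_div_div, one_div_div]
  · have hi' : i = k + 1 := by omega
    have hs2 : i + (k + 1) * p = 0 + (k + 1) * (p + 1) := by rw [hi']; ring
    refine ⟨0, k + 1, by omega, ?_, ?_⟩
    · rw [hs2]
      unfold vq qc
      rw [Nat.add_mul_div_left _ _ (by omega), Nat.add_mul_mod_self_left, Nat.zero_div, Nat.zero_mod, Nat.zero_add,
        Nat.sub_zero, pow_zero, pow_zero, one_mul, mul_one, div_pow]
      push_cast
      rfl
    · rw [hs2]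
      unfold Sq
      rw [Nat.add_mul_div_left _ _ (by omega), Nat.add_mul_mod_self_left, Nat.zero_div, Nat.zero_mod, Nat.zero_add,
        Nat.sub_zero, one_div_div, one_div_div]
      push_cast
      ring

theorem excess (k : ℕ) : ∃ C : ℝ, 0 < C ∧ ∀ m : ℕ, 1 ≤ m → ∀ t : ℕ,
    loR (k + 1) * m ≤ (t / (k + 2) : ℕ) → ((t / (k + 2) : ℕ) : ℝ) + 1 ≤ upR (k + 1) * m → ∀ x : ℝ,
    vq m (k + 2) t ≤ x → x ≤ vq m (k + 2) (t + 1) →
    vq m (k + 1) (t - t / (k + 2)) + x * Sq m (k + 1) (t - t / (k + 2)) ≤ G x + C / (m : ℝ) ^ 2 := by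
  have hlo := loR_pos (k + 1)
  refine ⟨((k : ℝ) + 2) / loR (k + 1) ^ 3, by positivity, ?_⟩
  intro m hm t hl hu x hx0 hx1
  have hmR : (0 : ℝ) < m := by exact_mod_cast hm
  have hp0 : (0 : ℝ) < ((t / (k + 2) : ℕ) : ℝ) := lt_of_lt_of_le (by positivity) hl
  have hp : 1 ≤ t / (k + 2) := by
    have : 0 < t / (k + 2) := by exact_mod_cast hp0
    omega
  obtain ⟨a, b, hab, hf, hS⟩ := exc_sides (k := k) hm hp
  have hr1 : m * vq m (k + 2) t = ((t / (k + 2) : ℕ) : ℝ) * vq m (k + 1) (t - t / (k + 2)) := vq_rec hm (k + 1) t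
  have hr2 : m * vq m (k + 2) (t + 1) = (((t / (k + 2) : ℕ) : ℝ) + 1) * vq m (k + 1) (t - t / (k + 2)) :=
    vq_rec' hm (k + 1) t
  set f : ℝ := vq m (k + 1) (t - t / (k + 2)) with hfdef
  set p : ℝ := ((t / (k + 2) : ℕ) : ℝ) with hpdef
  rw [hS]
  set ρ : ℝ := p / m with hρdef
  set σ : ℝ := (p + 1) / m with hσdef
  have hρ : 0 < ρ := by positivity
  have hσ : 0 < σ := by positivity
  have hfpos : 0 < f := by rw [hf]; positivity
  have hx0' : ρ * f ≤ x := by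
    have : vq m (k + 2) t = ρ * f := by
      rw [hρdef]
      field_simp
      linarith
    linarith
  have hx1' : x ≤ σ * f := by
    have : vq m (k + 2) (t + 1) = σ * f := by
      rw [hσdef]
      field_simp
      linarith
    linarith
  have hxpos : 0 < x := lt_of_lt_of_le (by positivity) hx0'
  set s : ℝ := x / f with hsdef
  have hs0 : ρ ≤ s := by rw [hsdef, le_div_iff₀ hfpos]; exact hx0'
  have hs1 : s ≤ σ := by rw [hsdef, div_le_iff₀ hfpos]; exact hx1'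
  have hsf : s * f = x := by rw [hsdef]; field_simp
  have hs : 0 < s := lt_of_lt_of_le hρ hs0
  have hρσ : ρ ≤ σ := hs0.trans hs1
  obtain ⟨g, hg0, hg⟩ := exists_root (k + 1) hxpos.le
  have hprod : s * (ρ ^ a * σ ^ b) = g ^ (a + b + 1) := by
    rw [← hf, hsf, hab, hg]
  have hgρ : ρ ≤ g := by
    have h1 : ρ ^ (k + 1 + 1) ≤ g ^ (k + 1 + 1) := by
      rw [hg, ← hsf, hf]
      have h2 : ρ ^ a * ρ ^ b ≤ ρ ^ a * σ ^ b :=
        mul_le_mul_of_nonneg_left (pow_le_pow_left₀ hρ.le hρσ b) (by positivity)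
      have h3 : ρ * (ρ ^ a * ρ ^ b) ≤ s * (ρ ^ a * σ ^ b) := mul_le_mul hs0 h2 (by positivity) hs.le
      calc ρ ^ (k + 1 + 1) = ρ * (ρ ^ a * ρ ^ b) := by rw [← pow_add, hab]; ring
        _ ≤ _ := h3
    exact (pow_le_pow_iff_left₀ hρ.le hg0 (by omega)).1 h1
  have hgσ : g ≤ σ := by
    have h1 : g ^ (k + 1 + 1) ≤ σ ^ (k + 1 + 1) := by
      rw [hg, ← hsf, hf]
      have h2 : ρ ^ a * σ ^ b ≤ σ ^ a * σ ^ b :=
        mul_le_mul_of_nonneg_right (pow_le_pow_left₀ hρ.le hρσ a) (by positivity)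
      have h3 : s * (ρ ^ a * σ ^ b) ≤ σ * (σ ^ a * σ ^ b) := mul_le_mul hs1 h2 (by positivity) hσ.le
      calc _ ≤ σ * (σ ^ a * σ ^ b) := h3
        _ = σ ^ (k + 1 + 1) := by rw [← pow_add, hab]; ring
    exact (pow_le_pow_iff_left₀ hg0 hσ.le (by omega)).1 h1
  have hgpos : 0 < g := lt_of_lt_of_le hρ hgρ
  have hcore := exc_core hρ hs0 hs1 hgρ hgσ hprod
  have habR : (a : ℝ) + b + 1 = (k : ℝ) + 2 := by
    have : ((a + b : ℕ) : ℝ) = ((k + 1 : ℕ) : ℝ) := by rw [hab]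
    push_cast at this
    linarith
  rw [habR] at hcore
  have hlρ : loR (k + 1) ≤ ρ := by rw [hρdef, le_div_iff₀ hmR]; exact hl
  have hσu : σ ≤ upR (k + 1) := by rw [hσdef, div_le_iff₀ hmR]; exact hu
  have hG : G x = ((k : ℝ) + 2) * (x / g) := by
    have h1 := G_pow (k := k + 1) (by omega) (hlρ.trans hgρ) (hgσ.trans hσu)
    rw [hg] at h1
    rw [h1]
    have h2 : g ^ (k + 1) = x / g := by
      rw [eq_div_iff hgpos.ne', ← hg]
      ring
    rw [h2]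
    push_cast
    ring
  have hx1'' : x ≤ 1 := by
    have h1 : σ ≤ 1 := hσu.trans ((upR_le (k := k + 1) (by omega)).trans (by norm_num))
    rw [← hg]
    exact pow_le_one₀ hg0 (hgσ.trans h1)
  have hlhs : f + x * (a * (1 / ρ) + b * (1 / σ)) = x * (1 / s + a * (1 / ρ) + b * (1 / σ)) := by
    have : f = x * (1 / s) := by
      rw [← hsf]
      field_simp
    rw [mul_add x, mul_add x, mul_add x, ← this]
    ring
  rw [hlhs, hG]
  have h5 : (σ - ρ) ^ 2 / ρ ^ 3 ≤ (1 / loR (k + 1) ^ 3) / (m : ℝ) ^ 2 := by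
    have e : σ - ρ = 1 / m := by rw [hσdef, hρdef]; ring
    rw [e, div_pow, one_pow, div_div, div_div, mul_comm ((m : ℝ) ^ 2)]
    apply one_div_le_one_div_of_le (by positivity)
    exact mul_le_mul_of_nonneg_right (pow_le_pow_left₀ hlo.le hlρ 3) (by positivity)
  have h6 := mul_le_mul_of_nonneg_left hcore hxpos.le
  have h7 : x * (((k : ℝ) + 2) * ((σ - ρ) ^ 2 / ρ ^ 3)) ≤ ((k : ℝ) + 2) / loR (k + 1) ^ 3 / (m : ℝ) ^ 2 := by
    have h8 : ((k : ℝ) + 2) * ((σ - ρ) ^ 2 / ρ ^ 3) ≤ ((k : ℝ) + 2) * ((1 / loR (k + 1) ^ 3) / (m : ℝ) ^ 2) :=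
      mul_le_mul_of_nonneg_left h5 (by positivity)
    have h9 : 0 ≤ ((k : ℝ) + 2) * ((σ - ρ) ^ 2 / ρ ^ 3) := by positivity
    calc x * (((k : ℝ) + 2) * ((σ - ρ) ^ 2 / ρ ^ 3)) ≤ 1 * (((k : ℝ) + 2) * ((σ - ρ) ^ 2 / ρ ^ 3)) :=
          mul_le_mul_of_nonneg_right hx1'' h9
      _ ≤ ((k : ℝ) + 2) * ((1 / loR (k + 1) ^ 3) / (m : ℝ) ^ 2) := by rw [one_mul]; exact h8
      _ = _ := by ring
  have h10 : x * (((k : ℝ) + 2) / g + ((k : ℝ) + 2) * ((σ - ρ) ^ 2 / ρ ^ 3)) =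
      ((k : ℝ) + 2) * (x / g) + x * (((k : ℝ) + 2) * ((σ - ρ) ^ 2 / ρ ^ 3)) := by ring
  rw [h10] at h6
  linarith

end Pool.Agent.H86.ZN
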