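import Pool.Agent.H86.ZN.OmZone

/-!
# Project ZN: the nodes of zone `k` with side ratio above `loR (k+1)` are faces

Proof sketch. `d = (σ - loR (k+1))/4`; `om_zone` with `loR (k+1) + d`; `j1 = (k+1) p1` with `(loR (k+1) + d) m ≤ p1 ≤ (loR (k+1) + d) m + 1`; `s = t`. `face_of_chain` (chain from `chain_of_ZZ`, `t0 = j1`).
`hbase` (`face_base`): `e = v j1 = (p1/m)^(k+1)`, `ρe = p1/m ≤ loR (k+1) + 2d`, `V = v t ≥ σ^(k+1)` (`vq_lower`), `α, β ≤ e`, `α + β ≥ V`: concavity: `G α + G β ≥ G e + G (α + β - e)`;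
`G (α + β - e) - G (α + β - V) ≥ (V - e) k/ρe` (`G_slope_ge`, `α + β - e ≤ e`), `G V - G e ≤ (ρm^(k+1) - e) k/ρe + (V - ρm^(k+1)) k/ρm` with `ρm = loR (k+1) + 3d` (`G_slope_le` twice). So
`G α + G β - G V - G (α + β - V) ≥ (V - ρm^(k+1)) k (1/ρe - 1/ρm) ≥ c > 0`, and `c ≥ 12/m` for large `m` (`F_le_G` for `V`, `α + β - V`, `G_le_F` for `α`, `β`).
-/

set_option autoImplicit false

namespace Pool.Agent.H86.ZN

open Finset Pool.Agent.H14RC Pool.Agent.H86.FM Pool.Agent.H86.Z1

/-- Concavity: the spread pair has the smaller sum. -/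
private theorem FaceZone_spread {α β E : ℝ} (hα : α ≤ E) (hβ : β ≤ E) (h0 : 0 ≤ α + β - E) (hE : E ≤ 1) :
    G E + G (α + β - E) ≤ G α + G β := by
  set y : ℝ := α + β - E with hy
  have hyE : y ≤ E := by linarith
  rcases hyE.eq_or_lt with h | h
  · have h1 : α = E := by linarith
    have h2 : β = E := by linarith
    rw [h, h1, h2]
  · have hd : 0 < E - y := by linarith
    have key : ∀ z : ℝ, y ≤ z → z ≤ E → (E - z) / (E - y) * G y + (z - y) / (E - y) * G E ≤ G z := by
      intro z hz1 hz2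
      have h1 := G_conc3 h0 hz1 hz2 hE
      rw [div_mul_eq_mul_div, div_mul_eq_mul_div, ← add_div, div_le_iff₀ hd]
      linarith
    have h1 := key α (by linarith) hα
    have h2 := key β (by linarith) hβ
    have h3 : (E - α) / (E - y) * G y + (α - y) / (E - y) * G E +
        ((E - β) / (E - y) * G y + (β - y) / (E - y) * G E) = G E + G y := by
      have h4 : β = y + E - α := by linarith
      rw [h4]
      field_simp
      ring
    linarith

theorem face_base {k : ℕ} (hk : 1 ≤ k) {ρe ρm σ : ℝ} (h1 : loR (k + 1) < ρe) (h2 : ρe < ρm) (h3 : ρm < σ) (h4 : σ ≤ upR (k + 1)) :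
    ∃ M : ℕ, ∀ m : ℕ, M ≤ m → ∀ e V α β : ℝ, loR (k + 1) ^ (k + 1) ≤ e → e ≤ ρe ^ (k + 1) → σ ^ (k + 1) ≤ V → V ≤ 1 / 2 →
      0 ≤ α → α ≤ e → 0 ≤ β → β ≤ e → V ≤ α + β → F m V + F m (α + β - V) ≤ F m α + F m β := by
  have hk0 : (0 : ℝ) < k := by exact_mod_cast (by omega : 0 < k)
  have hlo : loR k < ρe := (loR_mono (Nat.lt_succ_self k)).trans h1
  have hup : ρm < upR k := (h3.trans_le h4).trans (upR_anti (Nat.lt_succ_self k))
  have he0 : 0 < ρe := (loR_pos k).trans hlo
  have hm0 : 0 < ρm := he0.trans h2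
  have hupe : ρe < upR k := h2.trans hup
  set E : ℝ := ρe ^ (k + 1) with hE
  set R : ℝ := ρm ^ (k + 1) with hR
  have hER : E < R := pow_lt_pow_left₀ h2 he0.le (by omega)
  have hRS : R < σ ^ (k + 1) := pow_lt_pow_left₀ h3 hm0.le (by omega)
  have hE0 : 0 < E := by positivity
  set c : ℝ := (σ ^ (k + 1) - R) * (k / ρe - k / ρm) with hc
  have hkk : k / ρm < k / ρe := div_lt_div_of_pos_left hk0 he0 h2
  have hc0 : 0 < c := mul_pos (by linarith) (by linarith)
  obtain ⟨M, hM⟩ := exists_nat_gt (12 / c)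
  refine ⟨max M 2, fun m hm e V α β _ heE hV hV2 hα0 hα hβ0 hβ hV3 => ?_⟩
  have hm1 : M ≤ m := (le_max_left _ _).trans hm
  have hm2 : 2 ≤ m := (le_max_right _ _).trans hm
  have hmR : (0 : ℝ) < m := by exact_mod_cast (by omega : 0 < m)
  have h12 : 12 / (m : ℝ) ≤ c := by
    have h5 : (M : ℝ) ≤ m := by exact_mod_cast hm1
    have h6 : 12 / c < m := hM.trans_le h5
    rw [div_lt_iff₀ hc0] at h6
    rw [div_le_iff₀ hmR]
    linarith
  have hαE : α ≤ E := hα.trans heE
  have hβE : β ≤ E := hβ.trans heE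
  have hVE : E < V := (hER.trans hRS).trans_le hV
  have hE1 : E ≤ 1 / 2 := hVE.le.trans hV2
  have g1 := FaceZone_spread hαE hβE (by linarith) (by linarith)
  have g2 := G_slope_ge hk hlo hupe.le (x := α + β - V) (y := α + β - E) (by linarith) (by linarith)
    (by linarith)
  have g3 := G_slope_le hk hlo.le hupe (x := E) (y := R) le_rfl hER.le (by linarith)
  have g4 := G_slope_le hk (hlo.le.trans h2.le) hup (x := R) (y := V) le_rfl (by linarith)
    (by linarith)
  have f1 := F_le_G hm2 (x := V) (by linarith) (by linarith)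
  have f2 := F_le_G hm2 (x := α + β - V) (by linarith) (by linarith)
  have f3 := G_le_F hm2 hα0 (by linarith : α ≤ 1)
  have f4 := G_le_F hm2 hβ0 (by linarith : β ≤ 1)
  have e1 : α + β - E - (α + β - V) = V - E := by ring
  rw [e1] at g2
  have g5 : c ≤ (V - R) * (k / ρe - k / ρm) :=
    mul_le_mul_of_nonneg_right (by linarith) (by linarith)
  have g6 : (V - E) * (k / ρe) - (R - E) * (k / ρe) - (V - R) * (k / ρm) =
      (V - R) * (k / ρe - k / ρm) := by ring
  have g7 : 6 / (m : ℝ) + 6 / m = 12 / m := by ring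
  linarith

theorem face_zone {k : ℕ} (hk : 1 ≤ k) {σ : ℝ} (hσ : loR (k + 1) < σ) (h : ZZ k (loR (k + 1)) (upR (k + 1))) :
    ∃ M : ℕ, ∀ m : ℕ, M ≤ m → ∀ t : ℕ, σ * m ≤ (Nk k t : ℝ) → (Nk k t : ℝ) + 2 ≤ upR (k + 1) * m →
      Face m (vq m (k + 1) t) := by
  by_cases hup : σ ≤ upR (k + 1)
  · set d : ℝ := (σ - loR (k + 1)) / 4 with hd
    have hd0 : 0 < d := by rw [hd]; linarith
    have hl0 := loR_pos (k + 1)
    obtain ⟨M1, hM1⟩ := om_zone hk (σ := loR (k + 1) + d) (by linarith) h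
    obtain ⟨M2, hM2⟩ := chain_of_ZZ h
    obtain ⟨M3, hM3⟩ := face_base hk (ρe := loR (k + 1) + 2 * d) (ρm := loR (k + 1) + 3 * d) (σ := σ)
      (by linarith) (by linarith) (by rw [hd]; linarith) hup
    obtain ⟨M4, hM4⟩ := exists_nat_gt (1 / d)
    refine ⟨max (max M1 M2) (max (max M3 M4) 2), fun m hm t hl hu => ?_⟩
    have hm1 : M1 ≤ m := ((le_max_left _ _).trans (le_max_left _ _)).trans hm
    have hm2 : M2 ≤ m := ((le_max_right _ _).trans (le_max_left _ _)).trans hm
    have hm3 : M3 ≤ m := ((le_max_left M3 M4).trans ((le_max_left _ 2).trans (le_max_right _ _))).trans hm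
    have hm4 : M4 ≤ m := ((le_max_right M3 M4).trans ((le_max_left _ 2).trans (le_max_right _ _))).trans hm
    have hm5 : 2 ≤ m := ((le_max_right _ _).trans (le_max_right _ _)).trans hm
    have hmR : (0 : ℝ) < m := by exact_mod_cast (by omega : 0 < m)
    have hdm : 1 ≤ d * m := by
      have h5 : (M4 : ℝ) ≤ m := by exact_mod_cast hm4
      have h6 : 1 / d < m := hM4.trans_le h5
      rw [div_lt_iff₀ hd0] at h6
      linarith
    obtain ⟨p, hp⟩ : ∃ p : ℕ, p = ⌈(loR (k + 1) + d) * m⌉₊ := ⟨_, rfl⟩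
    have hp1 : (loR (k + 1) + d) * m ≤ (p : ℝ) := by rw [hp]; exact Nat.le_ceil _
    have hp2 : (p : ℝ) < (loR (k + 1) + d) * m + 1 := by
      rw [hp]
      exact Nat.ceil_lt_add_one (by positivity)
    have hp3 : (p : ℝ) ≤ (loR (k + 1) + 2 * d) * m := by nlinarith
    have hNj : Nk k ((k + 1) * p) = p := by
      unfold Nk
      exact Nat.mul_div_cancel_left p (Nat.succ_pos k)
    have hN : ∀ s t : ℕ, s ≤ t → Nk k s ≤ Nk k t := fun s t hst => Nat.div_le_div_right hst
    have hσm : (loR (k + 1) + 4 * d) * m ≤ (Nk k t : ℝ) := by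
      have : loR (k + 1) + 4 * d = σ := by rw [hd]; ring
      rw [this]
      exact hl
    have hjt : (k + 1) * p < t := by
      by_contra hcon
      have h5 := hN t ((k + 1) * p) (not_lt.1 hcon)
      rw [hNj] at h5
      have h6 : (Nk k t : ℝ) ≤ p := by exact_mod_cast h5
      nlinarith
    have hchain := hM2 m hm2 ((k + 1) * p) t (by rw [hNj]; nlinarith) (by linarith)
    have hvl := vq_lower (m := m) (by omega) (k + 1) t
    have hvu := vq_upper (m := m) (by omega) (k + 1) t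
    have hσ0 : 0 < σ := hl0.trans hσ
    have hVσ : σ ^ (k + 1) ≤ vq m (k + 1) t := by
      refine le_trans (pow_le_pow_left₀ hσ0.le ?_ (k + 1)) hvl
      rw [le_div_iff₀ hmR]
      exact hl
    have hV0 : 0 < vq m (k + 1) t := lt_of_lt_of_le (by positivity) hVσ
    have hV2 : vq m (k + 1) t ≤ 1 / 2 := by
      refine hvu.trans ?_
      have h5 : (((t / (k + 1) : ℕ) : ℝ) + 1) / m ≤ 1 / 2 := by
        rw [div_le_iff₀ hmR]
        have h6 := mul_le_mul_of_nonneg_right (upR_le (k := k + 1) (by omega)) hmR.le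
        have h7 : (Nk k t : ℝ) = ((t / (k + 1) : ℕ) : ℝ) := rfl
        linarith
      have h8 : 0 ≤ (((t / (k + 1) : ℕ) : ℝ) + 1) / m := by positivity
      calc ((((t / (k + 1) : ℕ) : ℝ) + 1) / m) ^ (k + 1) ≤ (1 / 2 : ℝ) ^ (k + 1) :=
            pow_le_pow_left₀ h8 h5 _
        _ ≤ (1 / 2 : ℝ) ^ 1 := pow_le_pow_of_le_one (by norm_num) (by norm_num) (by omega)
        _ = 1 / 2 := pow_one _
    refine face_of_chain hm5 hchain le_rfl hjt le_rfl hV0 (by linarith) ?_ ?_
    · intro j hj1 hj2 b D hb0 hb1 hD0 hD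
      have h5 : (p : ℝ) ≤ (Nk k j : ℝ) := by
        have := hN _ j hj1
        rw [hNj] at this
        exact_mod_cast this
      have h6 : (Nk k j : ℝ) ≤ (Nk k t : ℝ) := by exact_mod_cast hN j t hj2.le
      exact hM1 m hm1 j (by linarith) (by linarith) b D hb0 hb1 hD0 hD
    · intro α β hα0 hα hβ0 hβ hV3
      have hcube := vq_cube (m := m) (by omega) (k := k + 1) (by omega) p
      rw [hcube] at hα hβ
      refine hM3 m hm3 (((p : ℝ) / m) ^ (k + 1)) (vq m (k + 1) t) α β ?_ ?_ hVσ hV2 hα0 hα hβ0 hβ hV3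
      · refine pow_le_pow_left₀ hl0.le ?_ _
        rw [le_div_iff₀ hmR]
        nlinarith
      · refine pow_le_pow_left₀ (by positivity) ?_ _
        rw [div_le_iff₀ hmR]
        exact hp3
  · refine ⟨1, fun m hm t hl hu => ?_⟩
    exfalso
    have hm0 : (0 : ℝ) < m := by
      have : 0 < m := by omega
      exact_mod_cast this
    have h3 : upR (k + 1) * m ≤ σ * m := mul_le_mul_of_nonneg_right (not_le.1 hup).le hm0.le
    linarith

end Pool.Agent.H86.ZN
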