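import Pool.Agent.H86.ZN.CtxP
import Pool.Agent.H86.ZN.FaceZone
import Pool.Agent.H86.ZN.Exc

/-!
# Project ZN: the structural clauses of `ZCtx` for large `m`

Proof sketch. `t0 = (k+1) p0`, `t2 = (k+1) p2`, `t3 = (k+1) p3`, `Nk k ((k+1) p) = p`, `vq m (k+1) ((k+1) p) = (p/m)^(k+1)` (`vq_cube`), `wk m k ((k+1) p) = vq m k (k p) = (p/m)^k` (`layer_cube`, `vq_cube`).
Every clause is a strict inequality of the real parameters plus `O(1/m)`:
* `chain`: `chain_of_ZZ` (`p3 + 1 ≤ upR m`); `face`: `face_zone` with `σ = ρ2` (`Nk k t ≥ Nk k t2 = p2`, `Nk k t + 2 ≤ p3 + 2 ≤ upR m`); `val`: `node_val` with `r1 = loR (k+1)`.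
* `hW`: `(p3/m)^(k+1) ≤ upR^(k+1) < loR^k ≤ (p0/m)^k` (`lo_up_pow`).
* `a1`..`a5`, `a7`: with a modulus: `|(p/m)^(k+1) - ρ^(k+1)| ≤ (k+1)/m` for `|p - ρ m| ≤ 1`, `p/m, ρ ≤ 1` (by induction, or `pow_le_pow_left₀` and continuity of `x^(k+1)` at `ρ`, `Tendsto`).
* `a6`: `Chain.diff` or `vq_rec`, `vq_rec'`: `v (t+1) - v t = wk m k t/m ≤ 1/m`.
* `exc`: `excess` times `m`: `e = C/m`.
-/

set_option autoImplicit false

namespace Pool.Agent.H86.ZN

open Finset Pool.Agent.H14RC Pool.Agent.H86.FM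

theorem ctx_chain {k : ℕ} (hk : 1 ≤ k) {s1 s2 ρ2 ρL ρR ρ3 a0 : ℝ} (P : Prm k s1 s2 ρ2 ρL ρR ρ3 a0)
    (h : ZZ k (loR (k + 1)) (upR (k + 1))) :
    ∃ M : ℕ, ∀ m : ℕ, M ≤ m → ∀ p0 p2 pL pP pQ pR p3 : ℕ, Idx k m p0 p2 pL pP pQ pR p3 s1 s2 ρ2 ρL ρR ρ3 →
      Chain m (vq m (k + 1)) (wk m k) (Nk k) ((k + 1) * p0) ((k + 1) * p3) ∧
      (∀ t, (k + 1) * p2 ≤ t → t ≤ (k + 1) * p3 → Face m (vq m (k + 1) t)) ∧
      (∀ t, (k + 1) * p2 ≤ t → t ≤ (k + 1) * p3 → F m (vq m (k + 1) t) = vq m (k + 1) t * Sq m (k + 1) t) ∧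
      vq m (k + 1) ((k + 1) * p3) ≤ wk m k ((k + 1) * p0) := by
  obtain ⟨M1, hM1⟩ := chain_of_ZZ h
  obtain ⟨M2, hM2⟩ := face_zone hk P.h1 h
  obtain ⟨M3, hM3⟩ := node_val hk (loR_pos (k + 1)) h
  have e3 : 0 < upR (k + 1) - ρ3 := sub_pos.2 P.h7
  obtain ⟨M4, hM4⟩ : ∃ M4 : ℕ, 2 / (upR (k + 1) - ρ3) ≤ (M4 : ℝ) := exists_nat_ge _
  refine ⟨M1 + M2 + M3 + M4 + 1, fun m hm p0 p2 pL pP pQ pR p3 I => ?_⟩
  have hm1 : 1 ≤ m := by omega
  have hm0 : (0 : ℝ) < m := by exact_mod_cast hm1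
  have hbig : 2 ≤ (upR (k + 1) - ρ3) * m := by
    have h1 : (M4 : ℝ) ≤ m := by
      have : M4 ≤ m := by omega
      exact_mod_cast this
    have h2 := hM4.trans h1
    rw [div_le_iff₀ e3] at h2
    linarith
  have hN : ∀ p : ℕ, Nk k ((k + 1) * p) = p := fun p => by
    unfold Nk
    exact Nat.mul_div_cancel_left p (by omega)
  have hNmono : ∀ s t : ℕ, s ≤ t → Nk k s ≤ Nk k t := fun s t hst => Nat.div_le_div_right hst
  have hlo : ∀ t, (k + 1) * p2 ≤ t → ρ2 * m ≤ (Nk k t : ℝ) := by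
    intro t ht
    have h1 := hNmono _ _ ht
    rw [hN] at h1
    have h2 : (p2 : ℝ) ≤ Nk k t := by exact_mod_cast h1
    exact I.x2.trans h2
  have hup : ∀ t, t ≤ (k + 1) * p3 → (Nk k t : ℝ) + 2 ≤ upR (k + 1) * m := by
    intro t ht
    have h1 := hNmono _ _ ht
    rw [hN] at h1
    have h2 : (Nk k t : ℝ) ≤ p3 := by exact_mod_cast h1
    have h3 := I.x3'
    linarith
  refine ⟨?_, ?_, ?_, ?_⟩
  · refine hM1 m (by omega) _ _ ?_ ?_
    · rw [hN]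
      exact I.x0
    · have := hup _ le_rfl
      linarith
  · intro t h1 h2
    exact hM2 m (by omega) t (hlo t h1) (hup t h2)
  · intro t h1 h2
    refine (hM3 m (by omega) t ?_ ?_).1
    · have h3 : loR (k + 1) * m ≤ ρ2 * m := mul_le_mul_of_nonneg_right P.h1.le hm0.le
      exact h3.trans (hlo t h1)
    · have := hup t h2
      linarith
  · have h1 : wk m k ((k + 1) * p0) = ((p0 : ℝ) / m) ^ k := by
      unfold wk
      rw [layer_cube, vq_cube hm1 hk]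
    rw [h1, vq_cube hm1 (by omega)]
    have h2 : (p3 : ℝ) / m ≤ upR (k + 1) := by
      rw [div_le_iff₀ hm0]
      have h3 := hup _ le_rfl
      rw [hN] at h3
      linarith
    have h3 : ((p3 : ℝ) / m) ^ (k + 1) ≤ upR (k + 1) ^ (k + 1) := pow_le_pow_left₀ (by positivity) h2 _
    have h4 : loR (k + 1) ≤ (p0 : ℝ) / m := by
      rw [le_div_iff₀ hm0]
      exact I.x0
    have h5 : loR (k + 1) ^ k ≤ ((p0 : ℝ) / m) ^ k := pow_le_pow_left₀ (loR_pos _).le h4 _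
    exact h3.trans ((lo_up_pow hk).le.trans h5)

private theorem pow_sub_le {x y : ℝ} (hy : 0 ≤ y) (hyx : y ≤ x) (hx : x ≤ 1) (n : ℕ) : x ^ n - y ^ n ≤ n * (x - y) := by
  have hx0 : 0 ≤ x := hy.trans hyx
  induction n with
  | zero => simp
  | succ n ih =>
    have h1 : x ^ n ≤ 1 := pow_le_one₀ hx0 hx
    have h2 : 0 ≤ x ^ n - y ^ n := by
      have := pow_le_pow_left₀ hy hyx n
      linarith
    have h3 : x ^ n * (x - y) ≤ 1 * (x - y) := mul_le_mul_of_nonneg_right h1 (by linarith)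
    have h4 : (x ^ n - y ^ n) * y ≤ (x ^ n - y ^ n) * 1 := mul_le_mul_of_nonneg_left (hyx.trans hx) h2
    have e : x ^ (n + 1) - y ^ (n + 1) = x ^ n * (x - y) + (x ^ n - y ^ n) * y := by ring
    rw [e]
    push_cast
    linarith

private theorem pow_up {x y c : ℝ} {m : ℕ} (hm : (0 : ℝ) < m) (hx0 : 0 ≤ x) (hy : x ≤ y + 1 / m) (hy0 : 0 ≤ y) (hy1 : y + 1 / m ≤ 1)
    (n : ℕ) (hc : (n : ℝ) ≤ c * m) : x ^ n ≤ y ^ n + c := by
  have h1 : x ^ n ≤ (y + 1 / m) ^ n := pow_le_pow_left₀ hx0 hy n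
  have h0 : 0 ≤ 1 / (m : ℝ) := by positivity
  have h2 := pow_sub_le hy0 (by linarith : y ≤ y + 1 / m) hy1 n
  have h3 : (n : ℝ) * (y + 1 / m - y) ≤ c := by
    have e : (n : ℝ) * (y + 1 / m - y) = n / m := by ring
    rw [e, div_le_iff₀ hm]
    exact hc
  linarith

private theorem pow_dn {x y c : ℝ} {m : ℕ} (hm : (0 : ℝ) < m) (hx : y - 1 / m ≤ x) (hy0 : 0 ≤ y - 1 / m) (hy1 : y ≤ 1)
    (n : ℕ) (hc : (n : ℝ) ≤ c * m) : y ^ n - c ≤ x ^ n := by
  have h1 : (y - 1 / m) ^ n ≤ x ^ n := pow_le_pow_left₀ hy0 hx n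
  have h0 : 0 ≤ 1 / (m : ℝ) := by positivity
  have h2 := pow_sub_le hy0 (by linarith : y - 1 / m ≤ y) hy1 n
  have h3 : (n : ℝ) * (y - (y - 1 / m)) ≤ c := by
    have e : (n : ℝ) * (y - (y - 1 / m)) = n / m := by ring
    rw [e, div_le_iff₀ hm]
    exact hc
  linarith

private theorem ev_big {s : ℝ} (hs : 0 < s) (C : ℝ) : ∀ᶠ m : ℕ in Filter.atTop, C ≤ s * (m : ℝ) := by
  have h1 : Filter.Tendsto (fun m : ℕ => s * (m : ℝ)) Filter.atTop Filter.atTop :=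
    Filter.Tendsto.const_mul_atTop hs tendsto_natCast_atTop_atTop
  exact h1.eventually_ge_atTop C

theorem ctx_ineq {k : ℕ} {s1 s2 ρ2 ρL ρR ρ3 a0 : ℝ} (P : Prm k s1 s2 ρ2 ρL ρR ρ3 a0) :
    ∃ M : ℕ, ∀ m : ℕ, M ≤ m → ∀ p0 p2 pL pP pQ pR p3 : ℕ, Idx k m p0 p2 pL pP pQ pR p3 s1 s2 ρ2 ρL ρR ρ3 →
      (k + 1) * p0 ≤ (k + 1) * p2 ∧
      (k + 1) * p2 + 1 ≤ (k + 1) * pL ∧
      pL < pP ∧
      pP < pQ ∧
      pQ < pR ∧
      (k + 1) * (pR + 1) + 1 ≤ (k + 1) * p3 ∧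
      1 ≤ pL ∧
      vq m (k + 1) ((k + 1) * p0) + 2 * a0 ≤ vq m (k + 1) ((k + 1) * pL) ∧
      vq m (k + 1) ((k + 1) * pR) + a0 ≤ vq m (k + 1) ((k + 1) * p3) ∧
      2 * vq m (k + 1) ((k + 1) * pR) + a0 ≤ 1 ∧
      vq m (k + 1) ((k + 1) * pP) ≤ vq m (k + 1) ((k + 1) * pL) + a0 ∧
      vq m (k + 1) ((k + 1) * pR) ≤ vq m (k + 1) ((k + 1) * pQ) + a0 ∧
      (∀ t, (k + 1) * p2 ≤ t → t < (k + 1) * p3 → vq m (k + 1) (t + 1) ≤ vq m (k + 1) t + a0) ∧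
      2 * a0 ≤ vq m (k + 1) ((k + 1) * pL) ∧
      vq m (k + 2) ((k + 2) * pR) < 1 / 2 := by
  have hlo := loR_pos (k + 1)
  have hup : upR (k + 1) ≤ 1 / 2 := upR_le (by omega)
  have h1 := P.h1
  have h2 := P.h2
  have h3 := P.h3
  have h4 := P.h4
  have h5 := P.h5
  have h6 := P.h6
  have h7 := P.h7
  have a0pos := P.a0pos
  have a0le := P.a0le
  have b1 := P.b1
  have b2 := P.b2
  have b3 := P.b3
  have b4 := P.b4
  have b5 := P.b5
  have hρL : 0 < ρL := by linarith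
  have key : ∀ᶠ m : ℕ in Filter.atTop, ∀ p0 p2 pL pP pQ pR p3 : ℕ,
      Idx k m p0 p2 pL pP pQ pR p3 s1 s2 ρ2 ρL ρR ρ3 →
      (k + 1) * p0 ≤ (k + 1) * p2 ∧
      (k + 1) * p2 + 1 ≤ (k + 1) * pL ∧
      pL < pP ∧
      pP < pQ ∧
      pQ < pR ∧
      (k + 1) * (pR + 1) + 1 ≤ (k + 1) * p3 ∧
      1 ≤ pL ∧
      vq m (k + 1) ((k + 1) * p0) + 2 * a0 ≤ vq m (k + 1) ((k + 1) * pL) ∧
      vq m (k + 1) ((k + 1) * pR) + a0 ≤ vq m (k + 1) ((k + 1) * p3) ∧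
      2 * vq m (k + 1) ((k + 1) * pR) + a0 ≤ 1 ∧
      vq m (k + 1) ((k + 1) * pP) ≤ vq m (k + 1) ((k + 1) * pL) + a0 ∧
      vq m (k + 1) ((k + 1) * pR) ≤ vq m (k + 1) ((k + 1) * pQ) + a0 ∧
      (∀ t, (k + 1) * p2 ≤ t → t < (k + 1) * p3 → vq m (k + 1) (t + 1) ≤ vq m (k + 1) t + a0) ∧
      2 * a0 ≤ vq m (k + 1) ((k + 1) * pL) ∧
      vq m (k + 2) ((k + 2) * pR) < 1 / 2 := by
    have hb3 : 0 < (1 - (2 * ρR ^ (k + 1) + a0)) / 2 := by linarith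
    filter_upwards [ev_big hb3 ((k + 1 : ℕ) : ℝ), ev_big (sub_pos.2 h1) 1, ev_big (sub_pos.2 h2) 3, ev_big (sub_pos.2 h3) 2,
      ev_big (sub_pos.2 h5) 2, ev_big (sub_pos.2 h6) 4, ev_big hρL 2,
      ev_big (half_pos (sub_pos.2 b1)) ((k + 1 : ℕ) : ℝ), ev_big (half_pos (sub_pos.2 b2)) ((k + 1 : ℕ) : ℝ),
      ev_big (sub_pos.2 b4) ((k + 1 : ℕ) : ℝ), ev_big (sub_pos.2 b5) ((k + 1 : ℕ) : ℝ), ev_big a0pos 1,
      ev_big (s := (1 : ℝ)) one_pos 4] with m eb3 e1 e2 e3 e5 e6 eL eb1 eb2 eb4 eb5 ea em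
    intro p0 p2 pL pP pQ pR p3 I
    have hmR : (4 : ℝ) ≤ m := by linarith
    have hm0 : (0 : ℝ) < m := by linarith
    have hm1 : 1 ≤ m := by
      have : (1 : ℝ) ≤ (m : ℝ) := by linarith
      exact_mod_cast this
    have hinv0 : 0 < 1 / (m : ℝ) := by positivity
    have hinv : 1 / (m : ℝ) ≤ 1 / 4 := one_div_le_one_div_of_le (by norm_num) hmR
    have i0 := I.x0
    have i0' := I.x0'
    have i2 := I.x2
    have i2' := I.x2'
    have iL := I.xL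
    have iL' := I.xL'
    have iP := I.xP
    have iP' := I.xP'
    have iQ := I.xQ
    have iQ' := I.xQ'
    have iR := I.xR
    have iR' := I.xR'
    have i3 := I.x3
    have i3' := I.x3'
    have s12 : s1 * (m : ℝ) < s2 * m := mul_lt_mul_of_pos_right h4 hm0
    -- natural number inequalities
    have n02 : p0 ≤ p2 := by
      have : (p0 : ℝ) ≤ p2 := by linarith
      exact_mod_cast this
    have n2L : p2 + 1 ≤ pL := by
      have : (p2 : ℝ) + 1 ≤ pL := by linarith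
      exact_mod_cast this
    have nLP : pL < pP := by
      have : (pL : ℝ) < pP := by linarith
      exact_mod_cast this
    have nPQ : pP < pQ := by
      have : (pP : ℝ) < pQ := by linarith
      exact_mod_cast this
    have nQR : pQ < pR := by
      have : (pQ : ℝ) < pR := by linarith
      exact_mod_cast this
    have nR3 : pR + 2 ≤ p3 := by
      have : (pR : ℝ) + 2 ≤ p3 := by linarith
      exact_mod_cast this
    have nL : 1 ≤ pL := by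
      have : (1 : ℝ) ≤ pL := by linarith
      exact_mod_cast this
    -- ratios
    have d : ∀ {p : ℕ} {c : ℝ}, (p : ℝ) ≤ c * m → (p : ℝ) / m ≤ c := fun h => by
      rw [div_le_iff₀ hm0]
      exact h
    have d' : ∀ {p : ℕ} {c : ℝ}, (p : ℝ) ≤ c * m + 1 → (p : ℝ) / m ≤ c + 1 / m := fun {p c} h => by
      rw [div_le_iff₀ hm0, add_mul, one_div_mul_cancel hm0.ne']
      exact h
    have u : ∀ {p : ℕ} {c : ℝ}, c * m ≤ (p : ℝ) → c ≤ (p : ℝ) / m := fun h => by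
      rw [le_div_iff₀ hm0]
      exact h
    have u' : ∀ {p : ℕ} {c : ℝ}, c * m - 1 ≤ (p : ℝ) → c - 1 / m ≤ (p : ℝ) / m := fun {p c} h => by
      rw [le_div_iff₀ hm0, sub_mul, one_div_mul_cancel hm0.ne']
      exact h
    have cube : ∀ p : ℕ, vq m (k + 1) ((k + 1) * p) = ((p : ℝ) / m) ^ (k + 1) := fun p => vq_cube hm1 (by omega) p
    have hr0 : ∀ p : ℕ, 0 ≤ (p : ℝ) / m := fun p => by positivity
    have hρL1 : 1 / (m : ℝ) ≤ ρL := by
      rw [div_le_iff₀ hm0]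
      linarith
    have hρ31 : 1 / (m : ℝ) ≤ ρ3 := by linarith
    have c8 : vq m (k + 1) ((k + 1) * p0) + 2 * a0 ≤ vq m (k + 1) ((k + 1) * pL) := by
      rw [cube, cube]
      have q1 := pow_up hm0 (hr0 p0) (d' i0') hlo.le (by linarith) (k + 1) eb1
      have q2 := pow_dn hm0 (u' iL) (by linarith) (by linarith) (k + 1) eb1
      linarith
    refine ⟨Nat.mul_le_mul_left _ n02, ?_, nLP, nPQ, nQR, ?_, nL, c8, ?_, ?_, ?_, ?_, ?_, ?_, ?_⟩
    · have := Nat.mul_le_mul_left (k + 1) n2L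
      rw [Nat.mul_add] at this
      omega
    · have := Nat.mul_le_mul_left (k + 1) nR3
      rw [Nat.mul_add] at this
      rw [Nat.mul_add]
      omega
    · rw [cube, cube]
      have q1 := pow_up hm0 (hr0 pR) (d' iR') (by linarith) (by linarith) (k + 1) eb2
      have q2 := pow_dn hm0 (u' i3) (by linarith) (by linarith) (k + 1) eb2
      linarith
    · rw [cube]
      have q1 := pow_up hm0 (hr0 pR) (d' iR') (by linarith) (by linarith) (k + 1) eb3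
      linarith
    · rw [cube, cube]
      have q1 : ((pP : ℝ) / m) ^ (k + 1) ≤ s1 ^ (k + 1) := pow_le_pow_left₀ (hr0 pP) (d iP') _
      have q2 := pow_dn hm0 (u' iL) (by linarith) (by linarith) (k + 1) eb4
      linarith
    · rw [cube, cube]
      have q1 := pow_up hm0 (hr0 pR) (d' iR') (by linarith) (by linarith) (k + 1) eb5
      have q2 : s2 ^ (k + 1) ≤ ((pQ : ℝ) / m) ^ (k + 1) := pow_le_pow_left₀ (by linarith) (u iQ) _
      linarith
    · intro t _ ht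
      have r1 := vq_rec hm1 k t
      have r2 := vq_rec' hm1 k t
      have hs : t - t / (k + 1) ≤ k * m := by
        have q1 := layer_mono k ht.le
        rw [layer_cube] at q1
        refine q1.trans (Nat.mul_le_mul_left k ?_)
        have : (p3 : ℝ) ≤ m := by
          have q4 : ρ3 * (m : ℝ) ≤ 1 * m := mul_le_mul_of_nonneg_right (by linarith) hm0.le
          linarith
        exact_mod_cast this
      have hw : vq m k (t - t / (k + 1)) ≤ 1 := by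
        rcases Nat.eq_zero_or_pos k with hk | hk
        · subst hk
          rw [vq_zero]
        · refine (vq_mono hm1 k hs).trans (le_of_eq ?_)
          rw [vq_cube hm1 hk, div_self hm0.ne', one_pow]
      have q1 : m * vq m (k + 1) (t + 1) ≤ m * (vq m (k + 1) t + a0) := by
        rw [r2, mul_add, r1]
        linarith
      exact le_of_mul_le_mul_left q1 hm0
    · have q1 : 0 ≤ vq m (k + 1) ((k + 1) * p0) := by
        rw [cube]
        exact pow_nonneg (hr0 p0) _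
      linarith
    · rw [vq_cube hm1 (by omega)]
      have q1 : (pR : ℝ) / m ≤ 1 / 2 := by
        have : (pR : ℝ) ≤ 1 / 2 * m := by
          have q3 : (pR : ℝ) ≤ p3 := by
            have : (pR : ℝ) + 2 ≤ p3 := by exact_mod_cast nR3
            linarith
          have q4 : ρ3 * (m : ℝ) ≤ 1 / 2 * m := mul_le_mul_of_nonneg_right (by linarith) hm0.le
          linarith
        exact d this
      have q2 : ((pR : ℝ) / m) ^ (k + 2) ≤ (1 / 2) ^ (k + 2) := pow_le_pow_left₀ (hr0 pR) q1 _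
      have q3 : (1 / 2 : ℝ) ^ (k + 2) ≤ (1 / 2) ^ 2 := pow_le_pow_of_le_one (by norm_num) (by norm_num) (by omega)
      norm_num at q3
      linarith
  exact Filter.eventually_atTop.1 key

theorem ctx_exc (k : ℕ) : ∃ C : ℝ, 0 < C ∧
    ∀ s1 s2 ρ2 ρL ρR ρ3 a0 : ℝ, Prm k s1 s2 ρ2 ρL ρR ρ3 a0 →
    ∃ M : ℕ, ∀ m : ℕ, M ≤ m → ∀ p0 p2 pL pP pQ pR p3 : ℕ, Idx k m p0 p2 pL pP pQ pR p3 s1 s2 ρ2 ρL ρR ρ3 →
      ∀ t, (k + 2) * pL ≤ t → t < (k + 2) * pR → ∀ x, vq m (k + 2) t ≤ x → x ≤ vq m (k + 2) (t + 1) →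
      m * (wk m (k + 1) t + x * Sq m (k + 1) (t - t / (k + 2))) ≤ m * G x + C / m := by
  obtain ⟨C, hC, hex⟩ := excess k
  refine ⟨C, hC, fun s1 s2 ρ2 ρL ρR ρ3 a0 P => ?_⟩
  have e1 : 0 < ρL - loR (k + 1) := by linarith [P.h1, P.h2]
  have e2 : 0 < upR (k + 1) - ρR := by linarith [P.h6, P.h7]
  have key : ∀ᶠ m : ℕ in Filter.atTop, ∀ p0 p2 pL pP pQ pR p3 : ℕ,
      Idx k m p0 p2 pL pP pQ pR p3 s1 s2 ρ2 ρL ρR ρ3 →
      ∀ t, (k + 2) * pL ≤ t → t < (k + 2) * pR → ∀ x, vq m (k + 2) t ≤ x → x ≤ vq m (k + 2) (t + 1) →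
      m * (wk m (k + 1) t + x * Sq m (k + 1) (t - t / (k + 2))) ≤ m * G x + C / m := by
    filter_upwards [ev_big e1 1, ev_big e2 1, Filter.eventually_ge_atTop 1] with m h1 h2 hm
    intro p0 p2 pL pP pQ pR p3 I t ht0 ht1 x hx0 hx1
    have hm0 : (0 : ℝ) < m := by exact_mod_cast hm
    have n1 : pL ≤ t / (k + 2) := by
      rw [Nat.le_div_iff_mul_le (by omega), Nat.mul_comm]
      exact ht0
    have n2 : t / (k + 2) + 1 ≤ pR := by
      have : t / (k + 2) < pR := by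
        rw [Nat.div_lt_iff_lt_mul (by omega), Nat.mul_comm]
        exact ht1
      omega
    have n1' : (pL : ℝ) ≤ ((t / (k + 2) : ℕ) : ℝ) := by exact_mod_cast n1
    have n2' : ((t / (k + 2) : ℕ) : ℝ) + 1 ≤ pR := by exact_mod_cast n2
    have h3 := hex m hm t (by linarith [I.xL]) (by linarith [I.xR']) x hx0 hx1
    have h4 := mul_le_mul_of_nonneg_left h3 hm0.le
    have h5 : (m : ℝ) * (G x + C / (m : ℝ) ^ 2) = m * G x + C / m := by
      field_simp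
    rw [h5] at h4
    exact h4
  exact Filter.eventually_atTop.1 key

end Pool.Agent.H86.ZN
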