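import Pool.Agent.H86.ZN.CtxP

/-!
# Project ZN: the line clauses of `ZCtx` for large `m`

`uL = vq m (k+2) ((k+2) pL) = (pL/m)^(k+2)`, `uP`, `uQ`, `uR` similarly (`vq_cube`), `Sq m (k+1) ((k+1) p) = (k+1) (m/p) = (k+1)/(p/m)` (`Sq_cube`).

Proof sketch.
* `lineL`: `G_slope_le` (for `k+1`) with `r = pL/m` (`loR (k+1) ≤ r < upR (k+1)` for large `m`, `r^(k+2) = uL ≤ x`).
* `lineL'` with `+ 2`: `ρm = (ρL + s1)/2`, `um = ρm^(k+2)`; `ε ≤ um - ρL^(k+2)` gives `x ≤ uL + ε ≤ um ≤ uP` for large `m`.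
  `G uP - G x = (G uP - G um) + (G um - G x) ≤ (uP - um) (k+1)/ρm + (um - x) (k+1)/r` (`G_slope_le` twice, `r = pL/m ≤ ρL`), so `G x - (G uP - (uP - x) (k+1)/r) ≥ (uP - um) (k+1) (1/r - 1/ρm) ≥ (uP - um) (k+1) (1/ρL - 1/ρm)`
  `≥ c > 0` (`uP ≥ ((s1 m - 1)/m)^(k+2)`, which tends to `s1^(k+2) > um`), and `m c ≥ 2`.
* `lineR`: `G_slope_ge` with `r = pR/m ≤ upR (k+1)` (`x ≤ uR = r^(k+2)`).
* `lineR'` with `+ 2`: `ρm = (s2 + ρR)/2`, `um = ρm^(k+2)`; `ε ≤ ρR^(k+2) - um` gives `x ≥ uR - ε ≥ um ≥ uQ` for large `m`.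
  `G x - G uQ = (G x - G um) + (G um - G uQ) ≥ (x - um) (k+1)/r + (um - uQ) (k+1)/ρm` (`G_slope_ge` twice, `r = pR/m ≥ ρR`).
-/

set_option autoImplicit false

namespace Pool.Agent.H86.ZN

open Finset Pool.Agent.H14RC Pool.Agent.H86.FM

private theorem ctxB_big {a K m : ℝ} (ha : 0 < a) (h : K ≤ m) (hK : 2 / a ≤ K) : 2 ≤ m * a := by
  have h1 := hK.trans h
  rwa [div_le_iff₀ ha] at h1

theorem ctx_lineL {k : ℕ} {s1 s2 ρ2 ρL ρR ρ3 a0 : ℝ} (P : Prm k s1 s2 ρ2 ρL ρR ρ3 a0) :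
    ∃ ε0 : ℝ, 0 < ε0 ∧ ∀ ε : ℝ, 0 < ε → ε ≤ ε0 →
    ∃ M : ℕ, ∀ m : ℕ, M ≤ m → ∀ p0 p2 pL pP pQ pR p3 : ℕ, Idx k m p0 p2 pL pP pQ pR p3 s1 s2 ρ2 ρL ρR ρ3 →
      (∀ x, vq m (k + 2) ((k + 2) * pL) ≤ x → x ≤ vq m (k + 2) ((k + 2) * pP) →
        G (vq m (k + 2) ((k + 2) * pP)) - (vq m (k + 2) ((k + 2) * pP) - x) * Sq m (k + 1) ((k + 1) * pL) ≤ G x) ∧
      (∀ x, vq m (k + 2) ((k + 2) * pL) ≤ x → x < vq m (k + 2) ((k + 2) * pL) + ε →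
        x ≤ vq m (k + 2) ((k + 2) * pP) ∧
        m * (G (vq m (k + 2) ((k + 2) * pP)) - (vq m (k + 2) ((k + 2) * pP) - x) * Sq m (k + 1) ((k + 1) * pL)) + 2 ≤
          m * G x) := by
  have hL0 : 0 < loR (k + 1) := loR_pos _
  have hup1 : upR (k + 1) ≤ 1 / 2 := upR_le (by omega)
  have h1 := P.h1
  have h2 := P.h2
  have h3 := P.h3
  have h4 := P.h4
  have h5 := P.h5
  have h6 := P.h6
  have h7 := P.h7
  set L := loR (k + 1) with hLdef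
  have hρL0 : 0 < ρL := by linarith
  set ρm := (ρL + s1) / 2 with hρm
  have hρm0 : 0 < ρm := by rw [hρm]; linarith
  have hρm1 : ρL < ρm := by rw [hρm]; linarith
  have hρm2 : ρm < s1 := by rw [hρm]; linarith
  set ρn := (ρm + s1) / 2 with hρn
  have hρn1 : ρm < ρn := by rw [hρn]; linarith
  have hρn0 : 0 < ρn := hρm0.trans hρn1
  have hn : k + 2 ≠ 0 := by omega
  have g1 : ρL ^ (k + 2) < ρm ^ (k + 2) := pow_lt_pow_left₀ hρm1 hρL0.le hn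
  have g2 : ρm ^ (k + 2) < ρn ^ (k + 2) := pow_lt_pow_left₀ hρn1 hρm0.le hn
  have hK0 : (0 : ℝ) < ((k + 1 : ℕ) : ℝ) := by exact_mod_cast Nat.succ_pos k
  have g3 : ((k + 1 : ℕ) : ℝ) / ρm < ((k + 1 : ℕ) : ℝ) / ρL := div_lt_div_of_pos_left hK0 hρL0 hρm1
  set c := (ρn ^ (k + 2) - ρm ^ (k + 2)) * (((k + 1 : ℕ) : ℝ) / ρL - ((k + 1 : ℕ) : ℝ) / ρm) with hc
  have hc0 : 0 < c := mul_pos (by linarith) (by linarith)
  refine ⟨ρm ^ (k + 2) - ρL ^ (k + 2), by linarith, fun ε _ hε2 => ?_⟩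
  have a1 : 0 < ρL - L := by linarith
  have a2 : 0 < s1 - ρm := by linarith
  set K := 2 / (ρL - L) + 2 / (s1 - ρm) + 2 / c + 2 / ρL with hK
  have d1 : 0 < 2 / (ρL - L) := by positivity
  have d2 : 0 < 2 / (s1 - ρm) := by positivity
  have d3 : 0 < 2 / c := by positivity
  have d4 : 0 < 2 / ρL := by positivity
  refine ⟨max 1 ⌈K⌉₊, fun m hm p0 p2 pL pP pQ pR p3 I => ?_⟩
  have hmK : K ≤ m := (Nat.le_ceil K).trans (by exact_mod_cast (le_max_right _ _).trans hm)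
  have hm1 : 1 ≤ m := (le_max_left _ _).trans hm
  have hm0 : (0 : ℝ) < m := by exact_mod_cast (by omega : 0 < m)
  have b1 := ctxB_big a1 hmK (by linarith)
  have b2 := ctxB_big a2 hmK (by linarith)
  have b3 := ctxB_big hc0 hmK (by linarith)
  have b4 := ctxB_big hρL0 hmK (by linarith)
  have iL := I.xL
  have iL' := I.xL'
  have iP := I.xP
  have iP' := I.xP'
  have hpL0 : (0 : ℝ) < pL := by linarith
  rw [vq_cube hm1 (by omega : 1 ≤ k + 2) pL, vq_cube hm1 (by omega : 1 ≤ k + 2) pP,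
    Sq_cube (by omega : 1 ≤ k + 1) pL]
  set r := (pL : ℝ) / m with hr
  have hr0 : 0 < r := by positivity
  have hSq : ((k + 1 : ℕ) : ℝ) * ((m : ℝ) / pL) = ((k + 1 : ℕ) : ℝ) / r := by
    rw [hr]
    field_simp
  rw [hSq]
  have hrL : L ≤ r := by
    rw [hr, le_div_iff₀ hm0]
    linarith
  have hrρ : r ≤ ρL := by
    rw [hr, div_le_iff₀ hm0]
    exact iL'
  have hrup : r < upR (k + 1) := by linarith
  set q := (pP : ℝ) / m with hq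
  have hq0 : 0 ≤ q := by positivity
  have hqn : ρn ≤ q := by
    rw [hq, le_div_iff₀ hm0, hρn]
    linarith
  have hq1 : q ≤ s1 := by
    rw [hq, div_le_iff₀ hm0]
    exact iP'
  have huP1 : q ^ (k + 2) ≤ 1 := pow_le_one₀ hq0 (by linarith)
  have huP2 : ρn ^ (k + 2) ≤ q ^ (k + 2) := pow_le_pow_left₀ hρn0.le hqn _
  have hrL2 : r ^ (k + 2) ≤ ρL ^ (k + 2) := pow_le_pow_left₀ hr0.le hrρ _
  have hk1 : 1 ≤ k + 1 := by omega
  constructor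
  · intro x hx1 hx2
    have s := G_slope_le hk1 (r := r) hrL hrup (x := x) (y := q ^ (k + 2)) hx1 hx2 huP1
    linarith
  · intro x hx1 hx2
    have hxm : x ≤ ρm ^ (k + 2) := by linarith
    refine ⟨by linarith, ?_⟩
    have s := G_slope_le hk1 (r := r) hrL hrup (x := x) (y := ρm ^ (k + 2)) hx1 hxm (by linarith)
    have s' := G_slope_le hk1 (r := ρm) (by linarith) (by linarith) (x := ρm ^ (k + 2)) (y := q ^ (k + 2))
      le_rfl (by linarith) huP1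
    have e1 : ((k + 1 : ℕ) : ℝ) / ρL ≤ ((k + 1 : ℕ) : ℝ) / r := div_le_div_of_nonneg_left hK0.le hr0 hrρ
    have e2 : c ≤ (q ^ (k + 2) - ρm ^ (k + 2)) * (((k + 1 : ℕ) : ℝ) / r - ((k + 1 : ℕ) : ℝ) / ρm) := by
      rw [hc]
      exact mul_le_mul (by linarith) (by linarith) (by linarith) (by linarith)
    have e3 : G (q ^ (k + 2)) - (q ^ (k + 2) - x) * (((k + 1 : ℕ) : ℝ) / r) + c ≤ G x := by
      have e4 : (q ^ (k + 2) - ρm ^ (k + 2)) * (((k + 1 : ℕ) : ℝ) / r - ((k + 1 : ℕ) : ℝ) / ρm) =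
          (q ^ (k + 2) - x) * (((k + 1 : ℕ) : ℝ) / r) - (ρm ^ (k + 2) - x) * (((k + 1 : ℕ) : ℝ) / r) -
            (q ^ (k + 2) - ρm ^ (k + 2)) * (((k + 1 : ℕ) : ℝ) / ρm) := by ring
      rw [e4] at e2
      linarith
    have e5 := mul_le_mul_of_nonneg_left e3 hm0.le
    rw [mul_add] at e5
    linarith

theorem ctx_lineR {k : ℕ} {s1 s2 ρ2 ρL ρR ρ3 a0 : ℝ} (P : Prm k s1 s2 ρ2 ρL ρR ρ3 a0) :
    ∃ ε0 : ℝ, 0 < ε0 ∧ ∀ ε : ℝ, 0 < ε → ε ≤ ε0 →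
    ∃ M : ℕ, ∀ m : ℕ, M ≤ m → ∀ p0 p2 pL pP pQ pR p3 : ℕ, Idx k m p0 p2 pL pP pQ pR p3 s1 s2 ρ2 ρL ρR ρ3 →
      (∀ x, vq m (k + 2) ((k + 2) * pQ) ≤ x → x ≤ vq m (k + 2) ((k + 2) * pR) →
        G (vq m (k + 2) ((k + 2) * pQ)) + (x - vq m (k + 2) ((k + 2) * pQ)) * Sq m (k + 1) ((k + 1) * pR) ≤ G x) ∧
      (∀ x, x ≤ vq m (k + 2) ((k + 2) * pR) → vq m (k + 2) ((k + 2) * pR) - ε < x →
        vq m (k + 2) ((k + 2) * pQ) ≤ x ∧
        m * (G (vq m (k + 2) ((k + 2) * pQ)) + (x - vq m (k + 2) ((k + 2) * pQ)) * Sq m (k + 1) ((k + 1) * pR)) + 2 ≤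
          m * G x) := by
  have hL0 : 0 < loR (k + 1) := loR_pos _
  have h1 := P.h1
  have h2 := P.h2
  have h3 := P.h3
  have h4 := P.h4
  have h5 := P.h5
  have h6 := P.h6
  have h7 := P.h7
  set L := loR (k + 1) with hLdef
  have hs0 : 0 < s2 := by linarith
  have hρR0 : 0 < ρR := by linarith
  set ρm := (s2 + ρR) / 2 with hρm
  have hρm0 : 0 < ρm := by rw [hρm]; linarith
  have hρm1 : s2 < ρm := by rw [hρm]; linarith
  have hρm2 : ρm < ρR := by rw [hρm]; linarith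
  set ρn := (s2 + ρm) / 2 with hρn
  have hρn1 : ρn < ρm := by rw [hρn]; linarith
  have hρn0 : 0 < ρn := by rw [hρn]; linarith
  have hn : k + 2 ≠ 0 := by omega
  have g1 : ρm ^ (k + 2) < ρR ^ (k + 2) := pow_lt_pow_left₀ hρm2 hρm0.le hn
  have g2 : ρn ^ (k + 2) < ρm ^ (k + 2) := pow_lt_pow_left₀ hρn1 hρn0.le hn
  have hK0 : (0 : ℝ) < ((k + 1 : ℕ) : ℝ) := by exact_mod_cast Nat.succ_pos k
  have g3 : ((k + 1 : ℕ) : ℝ) / ρR < ((k + 1 : ℕ) : ℝ) / ρm := div_lt_div_of_pos_left hK0 hρm0 hρm2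
  set c := (ρm ^ (k + 2) - ρn ^ (k + 2)) * (((k + 1 : ℕ) : ℝ) / ρm - ((k + 1 : ℕ) : ℝ) / ρR) with hc
  have hc0 : 0 < c := mul_pos (by linarith) (by linarith)
  refine ⟨ρR ^ (k + 2) - ρm ^ (k + 2), by linarith, fun ε _ hε2 => ?_⟩
  have a1 : 0 < upR (k + 1) - ρR := by linarith
  have a2 : 0 < ρm - s2 := by linarith
  set K := 2 / (upR (k + 1) - ρR) + 2 / (ρm - s2) + 2 / c with hK
  have d1 : 0 < 2 / (upR (k + 1) - ρR) := by positivity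
  have d2 : 0 < 2 / (ρm - s2) := by positivity
  have d3 : 0 < 2 / c := by positivity
  refine ⟨max 1 ⌈K⌉₊, fun m hm p0 p2 pL pP pQ pR p3 I => ?_⟩
  have hmK : K ≤ m := (Nat.le_ceil K).trans (by exact_mod_cast (le_max_right _ _).trans hm)
  have hm1 : 1 ≤ m := (le_max_left _ _).trans hm
  have hm0 : (0 : ℝ) < m := by exact_mod_cast (by omega : 0 < m)
  have b1 := ctxB_big a1 hmK (by linarith)
  have b2 := ctxB_big a2 hmK (by linarith)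
  have b3 := ctxB_big hc0 hmK (by linarith)
  have iQ := I.xQ
  have iQ' := I.xQ'
  have iR := I.xR
  have iR' := I.xR'
  have hpR0 : (0 : ℝ) < pR := lt_of_lt_of_le (mul_pos hρR0 hm0) iR
  rw [vq_cube hm1 (by omega : 1 ≤ k + 2) pQ, vq_cube hm1 (by omega : 1 ≤ k + 2) pR,
    Sq_cube (by omega : 1 ≤ k + 1) pR]
  set r := (pR : ℝ) / m with hr
  have hr0 : 0 < r := by positivity
  have hSq : ((k + 1 : ℕ) : ℝ) * ((m : ℝ) / pR) = ((k + 1 : ℕ) : ℝ) / r := by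
    rw [hr]
    field_simp
  rw [hSq]
  have hrρ : ρR ≤ r := by
    rw [hr, le_div_iff₀ hm0]
    exact iR
  have hrup : r ≤ upR (k + 1) := by
    rw [hr, div_le_iff₀ hm0]
    linarith
  have hrL : L < r := by linarith
  set q := (pQ : ℝ) / m with hq
  have hq0 : 0 ≤ q := by positivity
  have hqn : q ≤ ρn := by
    rw [hq, div_le_iff₀ hm0, hρn]
    linarith
  have huQ0 : 0 ≤ q ^ (k + 2) := by positivity
  have huQ2 : q ^ (k + 2) ≤ ρn ^ (k + 2) := pow_le_pow_left₀ hq0 hqn _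
  have hrR2 : ρR ^ (k + 2) ≤ r ^ (k + 2) := pow_le_pow_left₀ hρR0.le hrρ _
  have hk1 : 1 ≤ k + 1 := by omega
  constructor
  · intro x hx1 hx2
    have s := G_slope_ge hk1 (r := r) hrL hrup (x := q ^ (k + 2)) (y := x) huQ0 hx1 hx2
    linarith
  · intro x hx1 hx2
    have hxm : ρm ^ (k + 2) ≤ x := by linarith
    refine ⟨by linarith, ?_⟩
    have s := G_slope_ge hk1 (r := r) hrL hrup (x := ρm ^ (k + 2)) (y := x) (by positivity) hxm hx1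
    have s' := G_slope_ge hk1 (r := ρm) (by linarith) (by linarith) (x := q ^ (k + 2)) (y := ρm ^ (k + 2))
      huQ0 (by linarith) le_rfl
    have e1 : ((k + 1 : ℕ) : ℝ) / r ≤ ((k + 1 : ℕ) : ℝ) / ρR := div_le_div_of_nonneg_left hK0.le hρR0 hrρ
    have e2 : c ≤ (ρm ^ (k + 2) - q ^ (k + 2)) * (((k + 1 : ℕ) : ℝ) / ρm - ((k + 1 : ℕ) : ℝ) / r) := by
      rw [hc]
      exact mul_le_mul (by linarith) (by linarith) (by linarith) (by linarith)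
    have e3 : G (q ^ (k + 2)) + (x - q ^ (k + 2)) * (((k + 1 : ℕ) : ℝ) / r) + c ≤ G x := by
      have e4 : (ρm ^ (k + 2) - q ^ (k + 2)) * (((k + 1 : ℕ) : ℝ) / ρm - ((k + 1 : ℕ) : ℝ) / r) =
          (x - ρm ^ (k + 2)) * (((k + 1 : ℕ) : ℝ) / r) + (ρm ^ (k + 2) - q ^ (k + 2)) * (((k + 1 : ℕ) : ℝ) / ρm) -
            (x - q ^ (k + 2)) * (((k + 1 : ℕ) : ℝ) / r) := by ring
      rw [e4] at e2
      linarith
    have e5 := mul_le_mul_of_nonneg_left e3 hm0.le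
    rw [mul_add] at e5
    linarith

end Pool.Agent.H86.ZN
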