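import Pool.Agent.H86.ZN.Par

/-!
# Project ZN: Jensen with a quadratic error

Proof sketch: on `[r1^(k+2), r2^(k+2)]` (if `r1 ≤ r2`; otherwise there is no tuple, `m ≥ 1`) `G = a (k+1)` (`G_pow` for `k+1`: every `x` there is `r^(k+2)`, `loR (k+1) ≤ r ≤ upR (k+1)`).
For `x = q^(k+2)` (the mean) and `t = s^(k+2)` (an entry): `(k+2) s^(k+1) ≥ (k+2) q^(k+1) + (s^(k+2) - q^(k+2)) (k+1)/q - C (s^(k+2) - q^(k+2))^2`, because
`(k+1) s^(k+2) - (k+2) q s^(k+1) + q^(k+2) = (s - q)^2 * (polynomial, at most a constant)` and `|s - q| ≤ C' |s^(k+2) - q^(k+2)|` (`s, q ≥ loR > 0`). Sum over the tuple (the linear term vanishes), `|t - x| ≤ Y - a`.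
-/

set_option autoImplicit false

namespace Pool.Agent.H86.ZN

open Finset Pool.Agent.H14RC

/-- `M s^(M+1) - (M+1) q s^M + q^(M+1)` is between `0` and `(M+1)^2 (s-q)^2`. -/
private theorem jen_poly (M : ℕ) {s q : ℝ} (hs0 : 0 ≤ s) (hs1 : s ≤ 1) (hq0 : 0 ≤ q) (hq1 : q ≤ 1) :
    0 ≤ (M : ℝ) * s ^ (M + 1) - ((M : ℝ) + 1) * q * s ^ M + q ^ (M + 1) ∧
      (M : ℝ) * s ^ (M + 1) - ((M : ℝ) + 1) * q * s ^ M + q ^ (M + 1) ≤
        ((M : ℝ) + 1) ^ 2 * (s - q) ^ 2 := by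
  induction M with
  | zero =>
    simp only [Nat.cast_zero, zero_mul, zero_add, pow_one, pow_zero, one_mul, mul_one, one_pow]
    constructor
    · linarith
    · nlinarith [sq_nonneg (s - q)]
  | succ M ih =>
    obtain ⟨ih1, ih2⟩ := ih
    have hrec : ((M + 1 : ℕ) : ℝ) * s ^ (M + 1 + 1) - (((M + 1 : ℕ) : ℝ) + 1) * q * s ^ (M + 1)
          + q ^ (M + 1 + 1)
        = q * ((M : ℝ) * s ^ (M + 1) - ((M : ℝ) + 1) * q * s ^ M + q ^ (M + 1))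
          + ((M : ℝ) + 1) * s ^ M * (s - q) ^ 2 := by
      push_cast
      ring
    rw [hrec]
    have hM : (0 : ℝ) ≤ M := Nat.cast_nonneg M
    have hsM0 : 0 ≤ s ^ M := pow_nonneg hs0 M
    have hsM1 : s ^ M ≤ 1 := pow_le_one₀ hs0 hs1
    have hsq : 0 ≤ (s - q) ^ 2 := sq_nonneg _
    constructor
    · have h1 : 0 ≤ ((M : ℝ) + 1) * s ^ M * (s - q) ^ 2 := by positivity
      have h2 := mul_nonneg hq0 ih1
      linarith
    · have h1 : q * ((M : ℝ) * s ^ (M + 1) - ((M : ℝ) + 1) * q * s ^ M + q ^ (M + 1))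
          ≤ 1 * (((M : ℝ) + 1) ^ 2 * (s - q) ^ 2) := mul_le_mul hq1 ih2 ih1 (by norm_num)
      have h2 : ((M : ℝ) + 1) * s ^ M * (s - q) ^ 2 ≤ ((M : ℝ) + 1) * 1 * (s - q) ^ 2 := by
        apply mul_le_mul_of_nonneg_right _ hsq
        exact mul_le_mul_of_nonneg_left hsM1 (by linarith)
      push_cast
      nlinarith

/-- the powers separate points away from `0` -/
private theorem jen_sep (N : ℕ) {l s q : ℝ} (hl : 0 ≤ l) (hs : l ≤ s) (hq : l ≤ q) :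
    (s - q) ^ 2 * (l ^ N) ^ 2 ≤ (s ^ (N + 1) - q ^ (N + 1)) ^ 2 := by
  have key : ∀ s q : ℝ, l ≤ q → q ≤ s → (s - q) * l ^ N ≤ s ^ (N + 1) - q ^ (N + 1) := by
    intro s q hq hsq
    have hq0 : 0 ≤ q := hl.trans hq
    have hs0 : 0 ≤ s := hq0.trans hsq
    have h1 : q ^ N ≤ s ^ N := pow_le_pow_left₀ hq0 hsq N
    have h2 : l ^ N ≤ q ^ N := pow_le_pow_left₀ hl hq N
    have h3 : s * q ^ N ≤ s * s ^ N := mul_le_mul_of_nonneg_left h1 hs0
    have h4 : (s - q) * l ^ N ≤ (s - q) * q ^ N :=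
      mul_le_mul_of_nonneg_left h2 (by linarith)
    rw [pow_succ, pow_succ]
    nlinarith
  rw [← mul_pow]
  rcases le_total q s with h | h
  · have h1 := key s q hq h
    have h2 : 0 ≤ (s - q) * l ^ N := mul_nonneg (by linarith) (pow_nonneg hl N)
    exact pow_le_pow_left₀ h2 h1 2
  · have h1 := key q s hs h
    have h2 : 0 ≤ (q - s) * l ^ N := mul_nonneg (by linarith) (pow_nonneg hl N)
    have h3 := pow_le_pow_left₀ h2 h1 2
    nlinarith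

/-- the tangent inequality with a quadratic error -/
private theorem jen_two (k : ℕ) {l s q : ℝ} (hl : 0 < l) (hs : l ≤ s) (hs1 : s ≤ 1) (hq : l ≤ q)
    (hq1 : q ≤ 1) :
    ((k : ℝ) + 2) * q ^ (k + 1) + (s ^ (k + 2) - q ^ (k + 2)) * (((k : ℝ) + 1) / q)
        - (((k : ℝ) + 2) ^ 2 / (l * (l ^ (k + 1)) ^ 2)) * (s ^ (k + 2) - q ^ (k + 2)) ^ 2
      ≤ ((k : ℝ) + 2) * s ^ (k + 1) := by
  have hq0 : 0 < q := lt_of_lt_of_le hl hq
  have hs0 : 0 < s := lt_of_lt_of_le hl hs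
  obtain ⟨-, hP⟩ := jen_poly (k + 1) hs0.le hs1 hq0.le hq1
  have hS := jen_sep (k + 1) hl.le hs hq
  push_cast at hP
  have hlp : 0 < l ^ (k + 1) := pow_pos hl _
  have hk : (0 : ℝ) ≤ k := Nat.cast_nonneg k
  -- multiply by `q`
  have h1 : ((k : ℝ) + 2) * q ^ (k + 1) + (s ^ (k + 2) - q ^ (k + 2)) * (((k : ℝ) + 1) / q)
      - ((k : ℝ) + 2) * s ^ (k + 1)
      = (((k : ℝ) + 1) * s ^ (k + 1 + 1) - ((k : ℝ) + 1 + 1) * q * s ^ (k + 1)
          + q ^ (k + 1 + 1)) / q := by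
    rw [eq_div_iff hq0.ne']
    have h2 : (s ^ (k + 2) - q ^ (k + 2)) * (((k : ℝ) + 1) / q) * q
        = (s ^ (k + 2) - q ^ (k + 2)) * ((k : ℝ) + 1) := by
      field_simp
    have h3 : (((k : ℝ) + 2) * q ^ (k + 1) + (s ^ (k + 2) - q ^ (k + 2)) * (((k : ℝ) + 1) / q)
      - ((k : ℝ) + 2) * s ^ (k + 1)) * q
        = ((k : ℝ) + 2) * q ^ (k + 1) * q + (s ^ (k + 2) - q ^ (k + 2)) * (((k : ℝ) + 1) / q) * q
      - ((k : ℝ) + 2) * s ^ (k + 1) * q := by ring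
    rw [h3, h2]
    ring
  have h4 : (((k : ℝ) + 1) * s ^ (k + 1 + 1) - ((k : ℝ) + 1 + 1) * q * s ^ (k + 1)
          + q ^ (k + 1 + 1)) / q ≤ ((k : ℝ) + 1 + 1) ^ 2 * (s - q) ^ 2 / l := by
    calc _ ≤ ((k : ℝ) + 1 + 1) ^ 2 * (s - q) ^ 2 / q := div_le_div_of_nonneg_right hP hq0.le
      _ ≤ ((k : ℝ) + 1 + 1) ^ 2 * (s - q) ^ 2 / l :=
        div_le_div_of_nonneg_left (by positivity) hl hq
  have h5 : ((k : ℝ) + 1 + 1) ^ 2 * (s - q) ^ 2 / l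
      ≤ (((k : ℝ) + 2) ^ 2 / (l * (l ^ (k + 1)) ^ 2)) * (s ^ (k + 2) - q ^ (k + 2)) ^ 2 := by
    rw [div_mul_eq_mul_div, div_le_div_iff₀ hl (by positivity)]
    have h6 : (0 : ℝ) ≤ ((k : ℝ) + 2) ^ 2 * l := by positivity
    have h7 := mul_le_mul_of_nonneg_left hS h6
    calc ((k : ℝ) + 1 + 1) ^ 2 * (s - q) ^ 2 * (l * (l ^ (k + 1)) ^ 2)
        = ((k : ℝ) + 2) ^ 2 * l * ((s - q) ^ 2 * (l ^ (k + 1)) ^ 2) := by ring
      _ ≤ _ := h7
      _ = _ := by ring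
  linarith

/-- Jensen with a quadratic error in zone `k+1`. -/
theorem jensen_zone {k : ℕ} {r1 r2 : ℝ} (h1 : loR (k + 1) ≤ r1) (h2 : 0 ≤ r2)
    (h3 : r2 ≤ upR (k + 1)) :
    ∃ C : ℝ, 0 < C ∧ ∀ m : ℕ, 1 ≤ m → ∀ (x : Fin m → ℝ) (a Y : ℝ), r1 ^ (k + 2) ≤ a → Y ≤ r2 ^ (k + 2) →
      (∀ i, a ≤ x i ∧ x i ≤ Y) → G ((∑ i, x i) / m) - C * (Y - a) ^ 2 ≤ (∑ i, G (x i)) / m := by
  set l := loR (k + 1) with hl_def
  have hl : 0 < l := loR_pos (k + 1)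
  have hup : upR (k + 1) ≤ 1 / 2 := upR_le (by omega)
  have hr1 : 0 < r1 := lt_of_lt_of_le hl h1
  set C := ((k : ℝ) + 2) ^ 2 / (l * (l ^ (k + 1)) ^ 2) with hC
  have hC0 : 0 < C := by
    rw [hC]
    have hk : (0 : ℝ) ≤ k := Nat.cast_nonneg k
    positivity
  refine ⟨C, hC0, ?_⟩
  intro m hm x a Y ha hY hx
  have hm0 : (0 : ℝ) < m := by exact_mod_cast (by omega : 0 < m)
  -- roots of points in the interval
  have hroot : ∀ t : ℝ, a ≤ t → t ≤ Y → ∃ r : ℝ, l ≤ r ∧ r ≤ upR (k + 1) ∧ r ^ (k + 2) = t ∧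
      G t = ((k : ℝ) + 2) * r ^ (k + 1) := by
    intro t hat htY
    have ht0 : 0 ≤ t := (pow_nonneg hr1.le (k + 2)).trans (ha.trans hat)
    obtain ⟨r, hr0, hr⟩ := exists_root (k + 1) ht0
    have hlr : l ≤ r := by
      have h4 : l ^ (k + 2) ≤ r ^ (k + 2) := by
        calc l ^ (k + 2) ≤ r1 ^ (k + 2) := pow_le_pow_left₀ hl.le h1 _
          _ ≤ t := ha.trans hat
          _ = r ^ (k + 2) := hr.symm
      exact le_of_pow_le_pow_left₀ (by omega) hr0 h4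
    have hru : r ≤ upR (k + 1) := by
      have h5 : r ^ (k + 2) ≤ upR (k + 1) ^ (k + 2) := by
        calc r ^ (k + 2) = t := hr
          _ ≤ r2 ^ (k + 2) := htY.trans hY
          _ ≤ upR (k + 1) ^ (k + 2) := pow_le_pow_left₀ h2 h3 _
      exact le_of_pow_le_pow_left₀ (by omega) (h2.trans h3) h5
    refine ⟨r, hlr, hru, hr, ?_⟩
    have h6 := G_pow (k := k + 1) (by omega) hlr hru
    rw [hr] at h6
    rw [h6]
    push_cast
    ring
  -- the mean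
  set X := (∑ i, x i) / (m : ℝ) with hX
  have hXm : X * m = ∑ i, x i := by rw [hX]; field_simp
  have haX : a ≤ X := by
    rw [hX, le_div_iff₀ hm0]
    calc a * m = ∑ _i : Fin m, a := by rw [Finset.sum_const, Finset.card_univ, Fintype.card_fin, nsmul_eq_mul, mul_comm]
      _ ≤ _ := Finset.sum_le_sum fun i _ => (hx i).1
  have hXY : X ≤ Y := by
    rw [hX, div_le_iff₀ hm0]
    calc ∑ i, x i ≤ ∑ _i : Fin m, Y := Finset.sum_le_sum fun i _ => (hx i).2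
      _ = Y * m := by rw [Finset.sum_const, Finset.card_univ, Fintype.card_fin, nsmul_eq_mul, mul_comm]
  obtain ⟨q, hq1, hq2, hq3, hq4⟩ := hroot X haX hXY
  have hterm : ∀ i, G X + (x i - X) * (((k : ℝ) + 1) / q) - C * (Y - a) ^ 2 ≤ G (x i) := by
    intro i
    obtain ⟨s, hs1, hs2, hs3, hs4⟩ := hroot (x i) (hx i).1 (hx i).2
    have h7 := jen_two k hl hs1 (by linarith) hq1 (by linarith)
    rw [hq3, hs3, ← hq4, ← hs4, ← hC] at h7
    have h8 : (x i - X) ^ 2 ≤ (Y - a) ^ 2 := by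
      apply sq_le_sq'
      · linarith [(hx i).1]
      · linarith [(hx i).2]
    have h9 := mul_le_mul_of_nonneg_left h8 hC0.le
    linarith
  have hsum : ∑ i : Fin m, (G X + (x i - X) * (((k : ℝ) + 1) / q) - C * (Y - a) ^ 2) ≤ ∑ i, G (x i) :=
    Finset.sum_le_sum fun i _ => hterm i
  have hlhs : ∑ i : Fin m, (G X + (x i - X) * (((k : ℝ) + 1) / q) - C * (Y - a) ^ 2)
      = (G X - C * (Y - a) ^ 2) * m := by
    rw [Finset.sum_sub_distrib, Finset.sum_add_distrib, ← Finset.sum_mul, Finset.sum_sub_distrib]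
    simp only [Finset.sum_const, Finset.card_univ, Fintype.card_fin, nsmul_eq_mul]
    rw [← hXm]
    ring
  rw [le_div_iff₀ hm0, ← hlhs]
  exact hsum

end Pool.Agent.H86.ZN
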