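import Pool.Agent.H86.ZN.Par
import Pool.Agent.H86.Z1.Chord

/-!
# Project ZN: stability of `G`

See note 5103 (STABILITY) and helper42's note 5134. Chord slope `s ≥ 0`: `H = G - s id`, `T = H X`, `c = H a = H Y`, `y0 = (Y T - X c)/(T - c) ≥ Y`, `D = Y - a - (T - c)`,
`T D = (y0 - T)(T - c) + (X c - a T)`, `X c - a T = X G a - a G X ≥ a (X - a)` (`mul_sub_ge`), and `y0 - T ≥ y0 + X G y0/y0 - G X ≥ 0` (`two_pt`). A negative slope gives a large slack (`neg_slope`).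
Near minimizers of `y + X G y/y`: `near_upper`, `near_lower` (the line `X' ↦ y + X' (G y/y)` is at least `G` at a point `X'` on the other side, and its slope is compared with the slope of `G`),
`near_mid` (`y ≤ (25/18) X` is excluded).
Number of small entries: `G (x i) - chord ≥ (T - c) (x i - a) (Y - x i)` (`chord_gap`, `count_small`).

`stab_om` is used for tuples with mean `x ≤ ρ1^(k+1)` that reach `Y ≥ σ^(k+1)` (`ρ1 < σ`): either slack, or `Y ≤ σ^k` and many small entries.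
`stab_zone` for tuples with mean in zone `k+1`, i.e. `x = r^(k+2)`: slack, or small range, or `Y` near `r^(k+1)` and many small entries.
-/

set_option autoImplicit false

namespace Pool.Agent.H86.ZN

open Finset Pool.Agent.H14RC

private lemma pow_tan (n : ℕ) {p t : ℝ} (hp : 0 ≤ p) (ht : 0 ≤ t) :
    p ^ (n + 1) + ((n : ℝ) + 1) * p ^ n * (t - p) ≤ t ^ (n + 1) := by
  induction n with
  | zero => simp
  | succ n ih =>
    have h1 := mul_le_mul_of_nonneg_left ih ht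
    have h2 : 0 ≤ ((n : ℝ) + 1) * p ^ n * (t - p) ^ 2 := by positivity
    have e1 : t * t ^ (n + 1) = t ^ (n + 1 + 1) := by ring
    rw [e1] at h1
    push_cast
    have e2 : p ^ (n + 1 + 1) + ((n : ℝ) + 1 + 1) * p ^ (n + 1) * (t - p) =
        t * (p ^ (n + 1) + ((n : ℝ) + 1) * p ^ n * (t - p)) - ((n : ℝ) + 1) * p ^ n * (t - p) ^ 2 := by
      ring
    linarith

/-- The strict AM-GM inequality. -/
private lemma amgm_sq (n : ℕ) {p t : ℝ} (hp : 0 ≤ p) (ht : 0 ≤ t) :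
    ((n : ℝ) + 1) * p ^ n * (t - p) ^ 2 ≤ t ^ (n + 2) - ((n : ℝ) + 2) * p ^ (n + 1) * t + ((n : ℝ) + 1) * p ^ (n + 2) := by
  have h1 := mul_le_mul_of_nonneg_left (pow_tan n hp ht) ht
  have e1 : t * t ^ (n + 1) = t ^ (n + 2) := by ring
  rw [e1] at h1
  have e2 : t * (p ^ (n + 1) + ((n : ℝ) + 1) * p ^ n * (t - p)) - ((n : ℝ) + 2) * p ^ (n + 1) * t +
      ((n : ℝ) + 1) * p ^ (n + 2) = ((n : ℝ) + 1) * p ^ n * (t - p) ^ 2 := by ring
  linarith

private lemma upR_lt_one {k : ℕ} (hk : 1 ≤ k) : upR k < 1 := by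
  have := upR_le hk
  linarith

/-- Upper side: `y ≥ σ^k` is not a near minimizer for `X ≤ ρ^(k+1)`. -/
private lemma near_upper (n : ℕ) {ρ σ X y : ℝ} (hρ : loR (n + 1) < ρ) (hρσ : ρ < σ) (hσ : σ ≤ upR (n + 1))
    (hX0 : 0 ≤ X) (hX : X ≤ ρ ^ (n + 2)) (hy : σ ^ (n + 1) ≤ y) (hy1 : y ≤ 1) :
    G X + ((n : ℝ) + 1) * ρ ^ n * (σ - ρ) ^ 2 ≤ y + X * (G y / y) := by
  have hlo := loR_pos (n + 1)
  have hρ0 : 0 < ρ := by linarith
  have hσ0 : 0 < σ := by linarith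
  have hσ1 : σ < 1 := lt_of_le_of_lt hσ (upR_lt_one (by omega))
  have hp : 0 < σ ^ (n + 1) := by positivity
  have hy0 : 0 < y := by linarith
  have hX2 : σ ^ (n + 2) ≤ y := by
    have : σ ^ (n + 2) = σ * σ ^ (n + 1) := by ring
    rw [this]
    nlinarith
  have hX12 : ρ ^ (n + 2) ≤ σ ^ (n + 2) := pow_le_pow_left₀ hρ0.le hρσ.le _
  -- the line through key
  have hkey := key' (x := σ ^ (n + 2)) (b := y) (by positivity) hX2 hy0 hy1
  have hG2 : G (σ ^ (n + 2)) = ((n : ℝ) + 2) * σ ^ (n + 1) := by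
    have h := G_pow (k := n + 1) (by omega) (r := σ) (by linarith) hσ
    rw [h]
    push_cast
    ring
  have hG1 : G (ρ ^ (n + 2)) = ((n : ℝ) + 2) * ρ ^ (n + 1) := by
    have h := G_pow (k := n + 1) (by omega) (r := ρ) (by linarith) (by linarith)
    rw [h]
    push_cast
    ring
  have hGs : G (σ ^ (n + 1)) ≤ ((n : ℝ) + 1) * σ ^ n := by
    have h := G_le n (x := σ ^ (n + 1)) hp.le (by linarith)
    rwa [a_pow n hσ0.le] at h
  have hcon := G_conc3 (u := 0) (v := σ ^ (n + 1)) (w := y) le_rfl hp.le hy hy1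
  rw [G_zero] at hcon
  have hg : G y / y ≤ ((n : ℝ) + 1) / σ := by
    rw [div_le_div_iff₀ hy0 hσ0]
    have h1 : σ ^ (n + 1) * G y ≤ y * (((n : ℝ) + 1) * σ ^ n) := by
      have := mul_le_mul_of_nonneg_left hGs hy0.le
      linarith
    have h2 : σ ^ n * (G y * σ) ≤ σ ^ n * (((n : ℝ) + 1) * y) := by
      have e : σ ^ n * (G y * σ) = σ ^ (n + 1) * G y := by ring
      rw [e]
      linarith
    exact le_of_mul_le_mul_left h2 (by positivity)
  have hkey2 : G (σ ^ (n + 2)) ≤ σ ^ (n + 2) * (G y / y) + y := by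
    have e : σ ^ (n + 2) * (G y / y) + y = (σ ^ (n + 2) * G y + y ^ 2) / y := by
      field_simp
    rw [e, le_div_iff₀ hy0]
    linarith
  have hsl := G_slope_ge (k := n + 1) (by omega) (r := ρ) hρ (by linarith) (x := X) (y := ρ ^ (n + 2)) hX0 hX
    (by simp)
  push_cast at hsl
  have hsl2 : (ρ ^ (n + 2) - X) * (((n : ℝ) + 1) / σ) ≤ (ρ ^ (n + 2) - X) * (((n : ℝ) + 1) / ρ) := by
    apply mul_le_mul_of_nonneg_left _ (by linarith)
    exact div_le_div_of_nonneg_left (by positivity) hρ0 hρσ.le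
  have h3 : (σ ^ (n + 2) - X) * (G y / y) ≤ (σ ^ (n + 2) - X) * (((n : ℝ) + 1) / σ) :=
    mul_le_mul_of_nonneg_left hg (by linarith)
  have h4 := amgm_sq n hρ0.le hσ0.le
  -- divide by σ
  have h5 : ((n : ℝ) + 1) * ρ ^ n * (σ - ρ) ^ 2 ≤
      ((n : ℝ) + 2) * σ ^ (n + 1) - ((n : ℝ) + 2) * ρ ^ (n + 1) - (σ ^ (n + 2) - ρ ^ (n + 2)) * (((n : ℝ) + 1) / σ) := by
    have e : ((n : ℝ) + 2) * σ ^ (n + 1) - ((n : ℝ) + 2) * ρ ^ (n + 1) - (σ ^ (n + 2) - ρ ^ (n + 2)) * (((n : ℝ) + 1) / σ)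
        = (σ ^ (n + 2) - ((n : ℝ) + 2) * ρ ^ (n + 1) * σ + ((n : ℝ) + 1) * ρ ^ (n + 2)) / σ := by
      field_simp
      ring
    rw [e, le_div_iff₀ hσ0]
    have h6 : 0 ≤ ((n : ℝ) + 1) * ρ ^ n * (σ - ρ) ^ 2 := by positivity
    nlinarith
  rw [hG2] at hkey2
  rw [hG1] at hsl
  nlinarith

/-- Lower side: `y ≤ σ^K` is not a near minimizer for `X = q^(K+1)`, `σ < r1 ≤ q`, `K = n + 1`. -/
private lemma near_lower (n : ℕ) {σ r1 q y : ℝ} (hσ : loR (n + 1) ≤ σ) (hσ1 : σ ≤ upR (n + 1)) (hr : σ < r1)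
    (hq : r1 ≤ q) (hq1 : q ≤ 1) (hXy : q ^ (n + 2) ≤ y) (hy : y ≤ σ ^ (n + 1)) :
    G (q ^ (n + 2)) + ((n : ℝ) + 1) * r1 ^ n * (r1 - σ) ^ 2 ≤ y + q ^ (n + 2) * (G y / y) := by
  have hlo := loR_pos (n + 1)
  have hσ0 : 0 < σ := by linarith
  have hr0 : 0 < r1 := by linarith
  have hq0 : 0 < q := by linarith
  have hσl1 : σ < 1 := lt_of_le_of_lt hσ1 (upR_lt_one (by omega))
  have hy0 : 0 < y := lt_of_lt_of_le (by positivity) hXy
  have hp1 : σ ^ (n + 1) ≤ 1 := pow_le_one₀ hσ0.le hσl1.le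
  have hy1 : y ≤ 1 := hy.trans hp1
  have hX2 : σ ^ (n + 2) ≤ q ^ (n + 2) := pow_le_pow_left₀ hσ0.le (by linarith) _
  have hkey := key' (x := σ ^ (n + 2)) (b := y) (by positivity) (hX2.trans hXy) hy0 hy1
  have hG2 : G (σ ^ (n + 2)) = ((n : ℝ) + 2) * σ ^ (n + 1) := by
    have h := G_pow (k := n + 1) (by omega) (r := σ) hσ hσ1
    rw [h]
    push_cast
    ring
  have hGs : ((n : ℝ) + 1) * σ ^ n ≤ G (σ ^ (n + 1)) := by
    rcases Nat.eq_zero_or_pos n with h0 | h0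
    · subst h0
      have h1 : loR 1 = 8 / 27 := by
        unfold loR
        norm_num
      have h2 : (8 : ℝ) / 27 ≤ σ := by
        rw [← h1]
        exact hσ
      have h3 := upR_le (le_refl 1)
      have h4 := Pool.Agent.H86.Z1.G_ge_one (x := σ) (by linarith) (by
        have : σ ≤ 1 / 2 := hσ1.trans h3
        linarith)
      simpa using h4
    · have h := G_pow (k := n) h0 (r := σ) ((loR_mono (by omega)).le.trans hσ)
        (hσ1.trans (upR_anti (by omega)).le)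
      rw [h]
  have hGq : G (q ^ (n + 2)) ≤ ((n : ℝ) + 2) * q ^ (n + 1) := by
    have h := G_le (n + 1) (x := q ^ (n + 2)) (by positivity) (pow_le_one₀ hq0.le hq1)
    rw [a_pow (n + 1) hq0.le] at h
    push_cast at h
    linarith
  have hcon := G_conc3 (u := 0) (v := y) (w := σ ^ (n + 1)) le_rfl hy0.le hy hp1
  rw [G_zero] at hcon
  have hg : ((n : ℝ) + 1) / σ ≤ G y / y := by
    rw [div_le_div_iff₀ hσ0 hy0]
    have h3 := mul_le_mul_of_nonneg_left hGs hy0.le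
    have h2 : σ ^ n * (((n : ℝ) + 1) * y) ≤ σ ^ n * (G y * σ) := by
      have e : σ ^ n * (G y * σ) = σ ^ (n + 1) * G y := by ring
      rw [e]
      linarith
    exact le_of_mul_le_mul_left h2 (by positivity)
  have hkey2 : G (σ ^ (n + 2)) ≤ σ ^ (n + 2) * (G y / y) + y := by
    have e : σ ^ (n + 2) * (G y / y) + y = (σ ^ (n + 2) * G y + y ^ 2) / y := by
      field_simp
    rw [e, le_div_iff₀ hy0]
    linarith
  have h3 : (q ^ (n + 2) - σ ^ (n + 2)) * (((n : ℝ) + 1) / σ) ≤ (q ^ (n + 2) - σ ^ (n + 2)) * (G y / y) :=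
    mul_le_mul_of_nonneg_left hg (by linarith)
  have h4 := amgm_sq n hq0.le hσ0.le
  have h5 : ((n : ℝ) + 1) * q ^ n * (q - σ) ^ 2 ≤
      ((n : ℝ) + 2) * σ ^ (n + 1) - ((n : ℝ) + 2) * q ^ (n + 1) + (q ^ (n + 2) - σ ^ (n + 2)) * (((n : ℝ) + 1) / σ) := by
    have e : ((n : ℝ) + 2) * σ ^ (n + 1) - ((n : ℝ) + 2) * q ^ (n + 1) + (q ^ (n + 2) - σ ^ (n + 2)) * (((n : ℝ) + 1) / σ)
        = (σ ^ (n + 2) - ((n : ℝ) + 2) * q ^ (n + 1) * σ + ((n : ℝ) + 1) * q ^ (n + 2)) / σ := by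
      field_simp
      ring
    rw [e, le_div_iff₀ hσ0]
    have h6 : 0 ≤ ((n : ℝ) + 1) * q ^ n * (q - σ) ^ 2 := by positivity
    have h7 : (q - σ) ^ 2 = (σ - q) ^ 2 := by ring
    have h8 : ((n : ℝ) + 1) * q ^ n * (q - σ) ^ 2 ≤
        σ ^ (n + 2) - ((n : ℝ) + 2) * q ^ (n + 1) * σ + ((n : ℝ) + 1) * q ^ (n + 2) := by
      rw [h7]
      exact h4
    nlinarith
  have h9 : ((n : ℝ) + 1) * r1 ^ n * (r1 - σ) ^ 2 ≤ ((n : ℝ) + 1) * q ^ n * (q - σ) ^ 2 := by
    have h10 : r1 ^ n ≤ q ^ n := pow_le_pow_left₀ hr0.le hq _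
    have h11 : (r1 - σ) ^ 2 ≤ (q - σ) ^ 2 := pow_le_pow_left₀ (by linarith) (by linarith) 2
    have h12 : r1 ^ n * (r1 - σ) ^ 2 ≤ q ^ n * (q - σ) ^ 2 :=
      mul_le_mul h10 h11 (by positivity) (by positivity)
    have := mul_le_mul_of_nonneg_left h12 (by positivity : (0 : ℝ) ≤ (n : ℝ) + 1)
    linarith
  rw [hG2] at hkey2
  nlinarith

/-- Every `y ∈ (0, 1/4]` lies in a closed zone. -/
private lemma exists_zone {y : ℝ} (hy0 : 0 < y) (hy1 : y ≤ 1 / 4) :
    ∃ (j : ℕ) (t : ℝ), 1 ≤ j ∧ loR j ≤ t ∧ t ≤ upR j ∧ t ^ (j + 1) = y := by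
  classical
  have hex : ∃ j : ℕ, loR (j + 1) ^ (j + 2) ≤ y := by
    obtain ⟨n, hn⟩ := exists_pow_lt_of_lt_one hy0 (show (1 / 2 : ℝ) < 1 by norm_num)
    refine ⟨n, ?_⟩
    have h1 : loR (n + 1) ≤ 1 / 2 := (loR_lt_upR (n + 1) 1).le.trans (upR_le le_rfl)
    have h2 : loR (n + 1) ^ (n + 2) ≤ (1 / 2 : ℝ) ^ (n + 2) := pow_le_pow_left₀ (loR_pos _).le h1 _
    have h3 : (1 / 2 : ℝ) ^ (n + 2) ≤ (1 / 2) ^ n := pow_le_pow_of_le_one (by norm_num) (by norm_num) (by omega)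
    linarith
  obtain ⟨j, hj1, hj2⟩ : ∃ j : ℕ, loR (j + 1) ^ (j + 2) ≤ y ∧ ∀ i, i < j → y < loR (i + 1) ^ (i + 2) :=
    ⟨Nat.find hex, Nat.find_spec hex, fun i hi => not_le.1 (Nat.find_min hex hi)⟩
  obtain ⟨t, ht0, ht⟩ := exists_root (j + 1) hy0.le
  have ht' : t ^ (j + 2) = y := ht
  refine ⟨j + 1, t, by omega, ?_, ?_, ht⟩
  · rw [← ht'] at hj1
    exact le_of_pow_le_pow_left₀ (by omega) ht0 hj1
  · have hup : y ≤ upR (j + 1) ^ (j + 2) := by
      rcases Nat.eq_zero_or_pos j with h | h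
      · subst h
        unfold upR
        norm_num
        linarith
      · have h1 := hj2 (j - 1) (by omega)
        have e : j - 1 + 1 = j := by omega
        have e2 : j - 1 + 2 = j + 1 := by omega
        rw [e, e2] at h1
        have e3 : loR j ^ (j + 1) = upR (j + 1) ^ (j + 2) := by
          unfold loR upR
          rw [← pow_mul, ← pow_mul]
          push_cast
          have e4 : (j : ℝ) + 1 + 1 = j + 2 := by ring
          rw [e4]
          congr 1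
          ring
        rw [← e3]
        exact h1.le
    rw [← ht'] at hup
    exact le_of_pow_le_pow_left₀ (by omega) (pow_nonneg (div_nonneg (by positivity) (by positivity)) _) hup

/-- `y` close to `X` is not a near minimizer. -/
private lemma near_mid {X y : ℝ} (hX0 : 0 < X) (hX : X ≤ 1 / 4) (hXy : X ≤ y) (hy : y ≤ 25 / 18 * X) :
    G X + y / 100 ≤ y + X * (G y / y) := by
  have hy0 : 0 < y := by linarith
  rcases le_or_gt y (1 / 4) with h4 | h4
  · obtain ⟨j, t, hj, ht1, ht2, ht⟩ := exists_zone hy0 h4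
    have hlo1 : (8 : ℝ) / 27 ≤ loR j := by
      have h1 : loR 1 = 8 / 27 := by
        unfold loR
        norm_num
      rcases Nat.lt_or_ge 1 j with h | h
      · rw [← h1]
        exact (loR_mono h).le
      · have : j = 1 := by omega
        rw [this, h1]
    have ht0 : 0 < t := by linarith
    have hG := G_pow hj ht1 ht2
    obtain ⟨p, hp0, hp⟩ := exists_root j hX0.le
    have hGX := G_le j hX0.le (by linarith)
    rw [← hp, a_pow j hp0, hp] at hGX
    have htan := pow_tan j hp0 ht0.le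
    rw [ht] at hG
    rw [hp, ht] at htan
    have e1 : X * (G y / y) = ((j : ℝ) + 1) * X / t := by
      rw [hG, ← ht]
      have h1 : t ^ (j + 1) = t * t ^ j := by ring
      rw [h1]
      field_simp
    rw [e1]
    -- `(j+1) p^j t ≤ (y - X) + (j+1) X`
    have h2 : ((j : ℝ) + 1) * p ^ j * t ≤ (y - X) + ((j : ℝ) + 1) * X := by
      have h3 : ((j : ℝ) + 1) * p ^ j * p = ((j : ℝ) + 1) * X := by
        rw [← hp]
        ring
      nlinarith
    have h4 : ((j : ℝ) + 1) * p ^ j ≤ (y - X) / t + ((j : ℝ) + 1) * X / t := by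
      rw [← add_div, le_div_iff₀ ht0]
      exact h2
    have h5 : (y - X) / t ≤ 27 / 8 * (y - X) := by
      rw [div_le_iff₀ ht0]
      nlinarith
    linarith
  · have hG1 : 1 ≤ G y := Pool.Agent.H86.Z1.G_ge_one h4.le (by linarith)
    have hGX := Pool.Agent.H86.Z1.G_le_sqrt hX0.le (by linarith)
    have hu0 := Real.sqrt_nonneg X
    have hu := Real.sq_sqrt hX0.le
    set u := √X with hudef
    have h1 : X / y ≤ X * (G y / y) := by
      rw [div_eq_mul_one_div]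
      apply mul_le_mul_of_nonneg_left _ hX0.le
      exact div_le_div_of_nonneg_right hG1 hy0.le
    have h2 : 11 / 10 * y ≤ u := by
      by_contra hcon
      push Not at hcon
      nlinarith
    have h3 : 2 * u + y / 100 ≤ y + X / y := by
      have e : y + X / y = (y ^ 2 + u ^ 2) / y := by
        rw [hu]
        field_simp
      rw [e, le_div_iff₀ hy0]
      nlinarith
    linarith

private lemma mul_sub_ge {u v : ℝ} (hu : 0 < u) (huv : u ≤ v) (hv : v ≤ 1) : u * (v - u) ≤ v * G u - u * G v := by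
  have hv0 : 0 < v := by linarith
  have hl0 : 0 < u / v := div_pos hu hv0
  have h := Pool.Agent.H86.FM.G_scale (l := u / v) (x := v) hl0 (by rwa [div_le_one hv0]) hv0.le hv
  have e : u / v * v = u := by field_simp
  rw [e] at h
  have hlog : 1 - u / v ≤ Real.log (1 / (u / v)) := by
    have h1 := Real.log_le_sub_one_of_pos hl0
    rw [one_div, Real.log_inv]
    linarith
  have h2 : u / v * (1 - u / v) * v ≤ u / v * Real.log (1 / (u / v)) * v := by
    apply mul_le_mul_of_nonneg_right _ hv0.le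
    exact mul_le_mul_of_nonneg_left hlog hl0.le
  have h3 : u / v * G v + u / v * (1 - u / v) * v ≤ G u := by linarith
  have h4 := mul_le_mul_of_nonneg_left h3 hv0.le
  have e2 : v * (u / v * G v + u / v * (1 - u / v) * v) = u * G v + u * (v - u) := by
    field_simp
  linarith

/-- The two-point inequality with its slack `D` (nonnegative slope). -/
private lemma two_pt {a X Y s D γ : ℝ} (ha : 0 ≤ a) (haX : a ≤ X) (hXY : X ≤ Y) (hY : Y ≤ 1) (hX0 : 0 < X)
    (hγ : 0 < γ) (hGX : G X ≤ 1 - γ) (hs : 0 ≤ s) (hslope : G Y = G a + s * (Y - a))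
    (hD : D = G a + s * (X - a) + (Y - a) - G X) (hD1 : D ≤ 1 / 2 * (Y - a)) (haY : a < Y) :
    a * (X - a) ≤ D ∧ ∃ y0 : ℝ, Y ≤ y0 ∧ (Y - a) / 2 * (y0 - Y) ≤ G a ∧
      (y0 ≤ 1 → (Y - a) / 2 * (y0 + X * (G y0 / y0) - G X) ≤ D) ∧ (1 < y0 → (Y - a) / 2 * γ ≤ D) := by
  have hX1 : X ≤ 1 := hXY.trans hY
  have hY0 : 0 < Y := by linarith
  obtain ⟨T, hT⟩ : ∃ T, T = G X - s * X := ⟨_, rfl⟩
  obtain ⟨c, hc⟩ : ∃ c, c = G a - s * a := ⟨_, rfl⟩
  have hcY : c = G Y - s * Y := by rw [hslope, hc]; ring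
  have hTc : T - c = (Y - a) - D := by rw [hT, hc, hD]; ring
  have hTc2 : (Y - a) / 2 ≤ T - c := by linarith
  have hd : 0 < T - c := by linarith
  have hXltY : X < Y := by
    rcases eq_or_lt_of_le hXY with h | h
    · exfalso
      rw [hcY, hT, h] at hd
      linarith
    · exact h
  have h1 : a * T ≤ X * c := by
    have := G_conc3 (u := 0) (v := a) (w := X) le_rfl ha haX hX1
    rw [G_zero] at this
    rw [hT, hc]
    nlinarith
  have hTpos : 0 < T := by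
    by_contra hneg
    push Not at hneg
    nlinarith [mul_nonneg (show 0 ≤ X - a by linarith) (show 0 ≤ -T by linarith)]
  have hc0 : 0 ≤ c := by
    by_contra hneg
    push Not at hneg
    nlinarith [mul_nonneg ha hTpos.le]
  have hT9 : T ≤ 1 - γ := by
    rw [hT]
    nlinarith [mul_nonneg hs hX0.le]
  have hcG : c ≤ G a := by
    rw [hc]
    nlinarith [mul_nonneg hs ha]
  have hxa : a * (X - a) ≤ X * c - a * T := by
    have e : X * c - a * T = X * G a - a * G X := by rw [hT, hc]; ring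
    rw [e]
    rcases eq_or_lt_of_le ha with h | h
    · rw [← h]
      simp only [zero_mul, sub_zero]
      exact mul_nonneg hX0.le (G_nonneg le_rfl zero_le_one)
    · exact mul_sub_ge h haX hX1
  obtain ⟨y0, hy0⟩ : ∃ y0, y0 = (Y * T - X * c) / (T - c) := ⟨_, rfl⟩
  have hy0mul : y0 * (T - c) = Y * T - X * c := by
    rw [hy0]; field_simp
  have hyY : (T - c) * (y0 - Y) = c * (Y - X) := by linear_combination hy0mul
  have hby0 : Y ≤ y0 := by
    by_contra hneg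
    push Not at hneg
    have : 0 < (T - c) * (Y - y0) := mul_pos hd (by linarith)
    nlinarith [mul_nonneg hc0 (show 0 ≤ Y - X by linarith)]
  -- identity
  have hid : T * D = (y0 - T) * (T - c) + (X * c - a * T) := by
    have e : D = (Y - a) - (T - c) := by linarith
    rw [e]
    linear_combination (-1 : ℝ) * hy0mul
  have hTy0 : y0 ≤ 1 → y0 + X * (G y0 / y0) - G X ≤ y0 - T := by
    intro h
    have h2 := G_conc3 (u := X) (v := Y) (w := y0) hX0.le hXY hby0 h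
    have hGb : G Y = c + s * Y := by linarith
    have hGx : G X = T + s * X := by rw [hT]; ring
    rw [hGb, hGx] at h2
    have h3 : (Y - X) * (G y0 - s * y0) ≤ 0 := by nlinarith
    have h4 : G y0 - s * y0 ≤ 0 := by
      by_contra hneg
      push Not at hneg
      nlinarith [mul_pos (show 0 < Y - X by linarith) hneg]
    have hy0pos : 0 < y0 := by linarith
    have h5 : G y0 / y0 ≤ s := by
      rw [div_le_iff₀ hy0pos]
      linarith
    have h6 := mul_le_mul_of_nonneg_left h5 hX0.le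
    rw [hGx]
    linarith
  have hkey : y0 ≤ 1 → 0 ≤ y0 - T := by
    intro h
    have h5 := key' (x := X) (b := y0) hX0.le (hXY.trans hby0) (by linarith) h
    have hy0pos : 0 < y0 := by linarith
    have h6 : G X ≤ y0 + X * (G y0 / y0) := by
      have e : y0 + X * (G y0 / y0) = (X * G y0 + y0 ^ 2) / y0 := by
        field_simp
        ring
      rw [e, le_div_iff₀ hy0pos]
      linarith
    linarith [hTy0 h]
  have hyT : 0 ≤ y0 - T := by
    rcases le_or_gt y0 1 with h | h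
    · exact hkey h
    · linarith
  have hD0 : 0 ≤ D := by
    have h2 : 0 ≤ T * D := by
      rw [hid]
      have := mul_nonneg hyT hd.le
      nlinarith [mul_nonneg ha (show 0 ≤ X - a by linarith)]
    by_contra hneg
    push Not at hneg
    nlinarith
  have hTD : T * D ≤ D := by nlinarith
  refine ⟨?_, y0, hby0, ?_, ?_, ?_⟩
  · have := mul_nonneg hyT hd.le
    linarith
  · have h2 : (Y - a) / 2 * (y0 - Y) ≤ (T - c) * (y0 - Y) := mul_le_mul_of_nonneg_right hTc2 (by linarith)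
    have h3 : c * (Y - X) ≤ c := by nlinarith
    linarith
  · intro h
    have h2 : (Y - a) / 2 * (y0 + X * (G y0 / y0) - G X) ≤ (Y - a) / 2 * (y0 - T) :=
      mul_le_mul_of_nonneg_left (hTy0 h) (by linarith)
    have h3 : (Y - a) / 2 * (y0 - T) ≤ (T - c) * (y0 - T) := mul_le_mul_of_nonneg_right hTc2 hyT
    have h4 : 0 ≤ X * c - a * T := by nlinarith
    nlinarith
  · intro h
    have h2 : (Y - a) / 2 * γ ≤ (Y - a) / 2 * (y0 - T) :=
      mul_le_mul_of_nonneg_left (by linarith) (by linarith)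
    have h3 : (Y - a) / 2 * (y0 - T) ≤ (T - c) * (y0 - T) := mul_le_mul_of_nonneg_right hTc2 hyT
    have h4 : 0 ≤ X * c - a * T := by nlinarith
    nlinarith

/-- Negative slope: a large slack. -/
private lemma neg_slope {a X Y C γ : ℝ} (ha : 0 ≤ a) (haX : a ≤ X) (hXY : X ≤ Y) (hY : Y ≤ 1) (hX0 : 0 < X) (hX : X ≤ 1 / 4)
    (hγ : γ ≤ 1 / 3) (hGX : G X ≤ 1 - γ) (haY : a < Y) (hlt : G Y < G a)
    (hC : (Y - a) * C = (Y - X) * G a + (X - a) * G Y) : G X + γ ≤ C + (Y - a) := by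
  have hYa : 1 - a < Y := by
    by_contra hneg
    push Not at hneg
    have h := G_conc3 (u := a) (v := Y) (w := 1 - a) ha haY.le hneg (by linarith)
    rw [G_symm] at h
    have h2 : (1 - a - a) * G a ≤ (1 - a - a) * G Y := by linarith
    have h3 := le_of_mul_le_mul_left h2 (by linarith)
    linarith
  have hGa : a * G X ≤ X * G a := by
    have := G_conc3 (u := 0) (v := a) (w := X) le_rfl ha haX (by linarith)
    rw [G_zero] at this
    linarith
  have hGX0 := G_nonneg hX0.le (by linarith : X ≤ 1)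
  have hGX4 := Pool.Agent.H86.Z1.G_ge_four hX0.le hX
  have hGa0 := G_nonneg ha (by linarith : a ≤ 1)
  have hGY0 := G_nonneg (by linarith : 0 ≤ Y) hY
  have h1 : (1 - X) * (Y - a) ≤ Y - X := by
    have h : (Y - X) - (1 - X) * (Y - a) = X * (Y - (1 - a)) + a * (1 - 2 * X) := by ring
    have h' : 0 ≤ X * (Y - (1 - a)) := mul_nonneg hX0.le (by linarith)
    have h'' : 0 ≤ a * (1 - 2 * X) := mul_nonneg ha (by linarith)
    linarith
  have h2 : (1 - X) * (Y - a) * G a ≤ (Y - a) * C := by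
    rw [hC]
    have := mul_le_mul_of_nonneg_right h1 hGa0
    nlinarith [mul_nonneg (show 0 ≤ X - a by linarith) hGY0]
  have hd : 0 < Y - a := by linarith
  have h3 : (1 - X) * G a ≤ C := by
    have e : (1 - X) * (Y - a) * G a = (Y - a) * ((1 - X) * G a) := by ring
    rw [e] at h2
    exact le_of_mul_le_mul_left h2 hd
  have h4 : 3 * (a * G X) ≤ (1 - X) * G a := by
    have h5 : X * (3 * (a * G X)) ≤ X * ((1 - X) * G a) := by
      have h6 : X * (3 * (a * G X)) ≤ (1 - X) * (a * G X) := by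
        have h7 : 0 ≤ a * G X := mul_nonneg ha hGX0
        nlinarith
      have h8 : (1 - X) * (a * G X) ≤ (1 - X) * (X * G a) := mul_le_mul_of_nonneg_left hGa (by linarith)
      linarith
    exact le_of_mul_le_mul_left h5 hX0
  rcases le_total (2 / 3) (G X) with h | h
  · have h5 : a * (2 / 3) ≤ a * G X := mul_le_mul_of_nonneg_left h ha
    linarith
  · have h6 : a ≤ G X / 4 := by linarith
    have h7 : a * (2 - 3 * G X) ≤ G X / 4 * (2 - 3 * G X) := mul_le_mul_of_nonneg_right h6 (by linarith)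
    nlinarith [mul_nonneg hGX0 (show 0 ≤ 2 / 3 - G X by linarith)]

/-- Concavity of `G` against its chord, quantitatively. -/
private lemma chord_gap {a X Y s t : ℝ} (ha : 0 ≤ a) (haX : a ≤ X) (hXY : X ≤ Y) (hY : Y ≤ 1)
    (haY : a < Y) (hslope : G Y = G a + s * (Y - a)) (hd : 0 ≤ G X - (G a + s * (X - a))) (hat : a ≤ t) (htY : t ≤ Y) :
    (G X - (G a + s * (X - a))) * ((t - a) * (Y - t)) ≤ G t - (G a + s * (t - a)) := by
  obtain ⟨d, hdd⟩ : ∃ d, d = G X - (G a + s * (X - a)) := ⟨_, rfl⟩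
  obtain ⟨h, hh⟩ : ∃ h, h = G t - (G a + s * (t - a)) := ⟨_, rfl⟩
  rw [← hdd] at hd
  rw [← hdd, ← hh]
  have hh0 : 0 ≤ h := by
    have h1 := G_conc3 (u := a) (v := t) (w := Y) ha hat htY hY
    rw [hslope] at h1
    have h2 : 0 ≤ (Y - a) * h := by
      rw [hh]
      nlinarith
    by_contra hneg
    push Not at hneg
    have h3 : (Y - a) * h < 0 := mul_neg_of_pos_of_neg (by linarith) hneg
    linarith
  have hta : 0 ≤ t - a := by linarith
  have hYt : 0 ≤ Y - t := by linarith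
  rcases le_total t X with htX | htX
  · have h1 := G_conc3 (u := a) (v := t) (w := X) ha hat htX (hXY.trans hY)
    have h2 : (t - a) * d ≤ (X - a) * h := by
      rw [hh, hdd]
      nlinarith
    have h3 : (X - a) * h ≤ 1 * h := mul_le_mul_of_nonneg_right (by linarith) hh0
    have h4 : d * ((t - a) * (Y - t)) ≤ d * ((t - a) * 1) := by
      apply mul_le_mul_of_nonneg_left _ hd
      exact mul_le_mul_of_nonneg_left (by linarith) hta
    linarith
  · have h1 := G_conc3 (u := X) (v := t) (w := Y) (ha.trans haX) htX htY hY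
    rw [hslope] at h1
    have h2 : (Y - t) * d ≤ (Y - X) * h := by
      rw [hh, hdd]
      nlinarith
    have h3 : (Y - X) * h ≤ 1 * h := mul_le_mul_of_nonneg_right (by linarith) hh0
    have h4 : d * ((t - a) * (Y - t)) ≤ d * (1 * (Y - t)) := by
      apply mul_le_mul_of_nonneg_left _ hd
      exact mul_le_mul_of_nonneg_right (by linarith) hYt
    linarith

private lemma count_small {m : ℕ} (hm : 1 ≤ m) (x : Fin m → ℝ) {a Y c0 : ℝ} (ha : 0 ≤ a) (hc0 : 0 < c0)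
    (hac : a ≤ c0 / 2) (hx : ∀ i, a ≤ x i ∧ x i ≤ Y) (hXY : (∑ i, x i) / m ≤ 73 / 100 * Y)
    (hcard : ((univ.filter (fun i => x i ≤ c0)).card : ℝ) < (m : ℝ) / 4) :
    m * (c0 * Y / 100) ≤ ∑ i, (x i - a) * (Y - x i) := by
  have hm0 : (0 : ℝ) < m := by exact_mod_cast hm
  have hX : ∑ i, x i ≤ 73 / 100 * Y * m := (div_le_iff₀ hm0).1 hXY
  have hY0 : 0 ≤ Y := by
    have h := hx ⟨0, by omega⟩
    linarith [h.1, h.2]
  have hpt : ∀ i, c0 / 2 * (Y - x i) - (if x i ≤ c0 then c0 / 2 * Y else 0) ≤ (x i - a) * (Y - x i) := by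
    intro i
    obtain ⟨h1, h2⟩ := hx i
    split_ifs with h
    · have h3 : 0 ≤ (x i - a) * (Y - x i) := mul_nonneg (by linarith) (by linarith)
      have h4 : 0 ≤ c0 / 2 * x i := mul_nonneg (by linarith) (by linarith)
      linarith
    · push Not at h
      have h3 : c0 / 2 * (Y - x i) ≤ (x i - a) * (Y - x i) := mul_le_mul_of_nonneg_right (by linarith) (by linarith)
      linarith
  have hsum := Finset.sum_le_sum fun i (_ : i ∈ (univ : Finset (Fin m))) => hpt i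
  rw [Finset.sum_sub_distrib, ← Finset.mul_sum, Finset.sum_sub_distrib, Finset.sum_const, Finset.card_univ,
    Fintype.card_fin, nsmul_eq_mul, ← Finset.sum_filter, Finset.sum_const, nsmul_eq_mul] at hsum
  have h5 : ((univ.filter (fun i => x i ≤ c0)).card : ℝ) * (c0 / 2 * Y) ≤ (m : ℝ) / 4 * (c0 / 2 * Y) :=
    mul_le_mul_of_nonneg_right hcard.le (mul_nonneg (by linarith) hY0)
  have h6 : c0 / 2 * (m * Y - ∑ i, x i) ≥ c0 / 2 * (m * Y - 73 / 100 * Y * m) :=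
    mul_le_mul_of_nonneg_left (by linarith) (by linarith)
  nlinarith

private lemma stab_core {ε c0 η0 γ : ℝ} (hε : 0 < ε) (hc0 : 0 < c0) (hη0 : 0 < η0) (hγ : 0 < γ) (hγ1 : γ ≤ 1 / 3) :
    ∃ δ : ℝ, 0 < δ ∧ ∀ m : ℕ, 1 ≤ m → ∀ (x : Fin m → ℝ) (a Y : ℝ), 0 ≤ a → Y ≤ 1 → (∀ i, a ≤ x i ∧ x i ≤ Y) →
      0 < (∑ i, x i) / m → (∑ i, x i) / m ≤ 1 / 4 → G ((∑ i, x i) / m) ≤ 1 - γ → ε ≤ Y - a →
      G ((∑ i, x i) / m) + δ ≤ (∑ i, G (x i)) / m + (Y - a) ∨
        ∃ y0 : ℝ, Y ≤ y0 ∧ y0 ≤ 1 ∧ y0 ≤ Y + η0 ∧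
          y0 + (∑ i, x i) / m * (G y0 / y0) < G ((∑ i, x i) / m) + η0 ∧
          ((∑ i, x i) / m ≤ 73 / 100 * Y → (m : ℝ) / 4 ≤ ((univ.filter (fun i => x i ≤ c0)).card : ℝ)) := by
  obtain ⟨η1, hη1, hη1c, hη1e⟩ : ∃ η1 : ℝ, 0 < η1 ∧ η1 ≤ c0 / 2 ∧ η1 ≤ (ε * η0 / 4) ^ 2 :=
    ⟨min (c0 / 2) ((ε * η0 / 4) ^ 2), lt_min (by linarith) (by positivity), min_le_left _ _, min_le_right _ _⟩
  obtain ⟨δ, hδ, d1, d2, d3, d4, d5, d6⟩ : ∃ δ : ℝ, 0 < δ ∧ δ ≤ ε / 2 ∧ δ ≤ ε / 2 * η1 ^ 2 ∧ δ ≤ ε / 2 * γ ∧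
      δ ≤ ε / 2 * η0 ∧ δ ≤ ε / 2 * (c0 * ε / 100) ∧ δ ≤ γ := by
    refine ⟨min (min (min (ε / 2) (ε / 2 * η1 ^ 2)) (min (ε / 2 * γ) (ε / 2 * η0))) (min (ε / 2 * (c0 * ε / 100)) γ),
      lt_min (lt_min (lt_min (by positivity) (by positivity)) (lt_min (by positivity) (by positivity)))
        (lt_min (by positivity) hγ), ?_, ?_, ?_, ?_, ?_, ?_⟩
    · exact (min_le_left _ _).trans ((min_le_left _ _).trans (min_le_left _ _))
    · exact (min_le_left _ _).trans ((min_le_left _ _).trans (min_le_right _ _))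
    · exact (min_le_left _ _).trans ((min_le_right _ _).trans (min_le_left _ _))
    · exact (min_le_left _ _).trans ((min_le_right _ _).trans (min_le_right _ _))
    · exact (min_le_right _ _).trans (min_le_left _ _)
    · exact (min_le_right _ _).trans (min_le_right _ _)
  refine ⟨δ, hδ, ?_⟩
  intro m hm x a Y ha hY hx hX0 hX14 hGX hεY
  have hm0 : (0 : ℝ) < m := by exact_mod_cast hm
  obtain ⟨haX, hXY⟩ := Pool.Agent.H86.Z1.mean_mem hm x hx
  by_cases hbig : G ((∑ i, x i) / m) + δ ≤ (∑ i, G (x i)) / m + (Y - a)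
  · exact Or.inl hbig
  right
  push Not at hbig
  have hsumX : ∑ i, x i = m * ((∑ i, x i) / m) := by field_simp
  obtain ⟨X, hX⟩ : ∃ X, X = (∑ i, x i) / m := ⟨_, rfl⟩
  rw [← hX] at hX0 hX14 hGX haX hXY hbig hsumX ⊢
  have haY : a < Y := by linarith
  have hYa : 0 < Y - a := by linarith
  obtain ⟨s, hs⟩ : ∃ s, s = (G Y - G a) / (Y - a) := ⟨_, rfl⟩
  have hslope : G Y = G a + s * (Y - a) := by
    rw [hs]
    field_simp
    ring
  obtain ⟨C, hC⟩ : ∃ C, C = G a + s * (X - a) := ⟨_, rfl⟩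
  have hCeq : (Y - a) * C = (Y - X) * G a + (X - a) * G Y := by
    rw [hC, hslope]
    ring
  have hsumlin : ∑ i, (G a + s * (x i - a)) = m * C := by
    rw [Finset.sum_add_distrib, ← Finset.mul_sum, Finset.sum_sub_distrib, Finset.sum_const, Finset.sum_const,
      Finset.card_univ, Fintype.card_fin, nsmul_eq_mul, nsmul_eq_mul, hsumX, hC]
    ring
  have havg : C ≤ (∑ i, G (x i)) / m := by
    rw [le_div_iff₀ hm0]
    have h1 : ∑ i, (G a + s * (x i - a)) ≤ ∑ i, G (x i) := by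
      apply Finset.sum_le_sum
      intro i _
      obtain ⟨h1, h2⟩ := hx i
      have h3 := G_conc3 (u := a) (v := x i) (w := Y) ha h1 h2 hY
      rw [hslope] at h3
      have h4 : (Y - a) * (G a + s * (x i - a)) ≤ (Y - a) * G (x i) := by nlinarith
      exact le_of_mul_le_mul_left h4 hYa
    linarith
  have hDlt : G a + s * (X - a) + (Y - a) - G X < δ := by linarith
  have hs0 : 0 ≤ s := by
    by_contra hneg
    push Not at hneg
    have hlt : G Y < G a := by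
      rw [hslope]
      nlinarith
    have h := neg_slope ha haX hXY hY hX0 hX14 hγ1 hGX haY hlt hCeq
    linarith
  obtain ⟨D, hD⟩ : ∃ D, D = G a + s * (X - a) + (Y - a) - G X := ⟨_, rfl⟩
  rw [← hD] at hDlt
  obtain ⟨p1, y0, p2, p3, p4, p5⟩ := two_pt ha haX hXY hY hX0 hγ hGX hs0 hslope hD (by linarith) haY
  have hD0 : 0 ≤ D := (mul_nonneg ha (by linarith)).trans p1
  have hdge : ε / 2 ≤ G X - (G a + s * (X - a)) := by linarith
  have haη : a < η1 := by
    by_contra hneg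
    push Not at hneg
    have ha0 : 0 < a := by linarith
    have h1 := G_conc3 (u := 0) (v := a) (w := X) le_rfl ha haX (by linarith)
    rw [G_zero] at h1
    have h2 := G_le_one ha (by linarith : a ≤ 1)
    have h3 : a * (G X - (G a + s * (X - a))) ≤ X - a := by
      have h4 : 0 ≤ a * (s * (X - a)) := mul_nonneg ha (mul_nonneg hs0 (by linarith))
      have h5 : (X - a) * G a ≤ X - a := by nlinarith
      nlinarith
    have h6 : a * (a * (G X - (G a + s * (X - a)))) ≤ a * (X - a) := mul_le_mul_of_nonneg_left h3 ha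
    have h7 : η1 ^ 2 * (ε / 2) ≤ a * (a * (G X - (G a + s * (X - a)))) := by
      have h8 : η1 ^ 2 ≤ a ^ 2 := pow_le_pow_left₀ hη1.le hneg 2
      have h9 : η1 ^ 2 * (ε / 2) ≤ a ^ 2 * (G X - (G a + s * (X - a))) :=
        mul_le_mul h8 hdge (by linarith) (by positivity)
      linarith
    linarith
  have hεY2 : ε / 2 ≤ (Y - a) / 2 := by linarith
  have hy1 : y0 ≤ 1 := by
    by_contra hneg
    push Not at hneg
    have h1 := p5 hneg
    have h2 : ε / 2 * γ ≤ (Y - a) / 2 * γ := mul_le_mul_of_nonneg_right hεY2 hγ.le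
    linarith
  have hyη : y0 ≤ Y + η0 := by
    have h1 : G a ≤ ε / 2 * η0 := by
      refine (Pool.Agent.H86.Z1.G_le_sqrt ha (by linarith)).trans ?_
      have h2 : √a ≤ ε * η0 / 4 := Real.sqrt_le_iff.2 ⟨by positivity, haη.le.trans hη1e⟩
      linarith
    by_contra hneg
    push Not at hneg
    have h3 : ε / 2 * η0 < (Y - a) / 2 * (y0 - Y) := by
      have h4 : ε / 2 * η0 < ε / 2 * (y0 - Y) := mul_lt_mul_of_pos_left (by linarith) (by linarith)
      have h5 : ε / 2 * (y0 - Y) ≤ (Y - a) / 2 * (y0 - Y) := mul_le_mul_of_nonneg_right hεY2 (by linarith)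
      linarith
    linarith
  refine ⟨y0, p2, hy1, hyη, ?_, ?_⟩
  · by_contra hneg
    push Not at hneg
    have h1 := p4 hy1
    have h2 : ε / 2 * η0 ≤ (Y - a) / 2 * (y0 + X * (G y0 / y0) - G X) := by
      have h4 : ε / 2 * η0 ≤ (Y - a) / 2 * η0 := mul_le_mul_of_nonneg_right hεY2 hη0.le
      have h5 : (Y - a) / 2 * η0 ≤ (Y - a) / 2 * (y0 + X * (G y0 / y0) - G X) :=
        mul_le_mul_of_nonneg_left (by linarith) (by linarith)
      linarith
    linarith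
  · intro hX73
    by_contra hneg
    push Not at hneg
    have h1 := count_small hm x ha hc0 (haη.le.trans hη1c) hx (by rw [← hX]; exact hX73) hneg
    have h2 : ∑ i, ((G a + s * (x i - a)) + (G X - (G a + s * (X - a))) * ((x i - a) * (Y - x i))) ≤ ∑ i, G (x i) := by
      apply Finset.sum_le_sum
      intro i _
      have := chord_gap ha haX hXY hY haY hslope (by linarith) (hx i).1 (hx i).2
      linarith
    rw [Finset.sum_add_distrib, hsumlin, ← Finset.mul_sum] at h2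
    have h3 : (G X - (G a + s * (X - a))) * (m * (c0 * Y / 100)) ≤
        (G X - (G a + s * (X - a))) * ∑ i, (x i - a) * (Y - x i) := mul_le_mul_of_nonneg_left h1 (by linarith)
    have h4 : ε / 2 * (m * (c0 * ε / 100)) ≤ (G X - (G a + s * (X - a))) * (m * (c0 * Y / 100)) := by
      apply mul_le_mul hdge _ (by positivity) (by linarith)
      apply mul_le_mul_of_nonneg_left _ hm0.le
      have : c0 * ε ≤ c0 * Y := mul_le_mul_of_nonneg_left (by linarith) hc0.le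
      linarith
    have h5 : C + ε / 2 * (c0 * ε / 100) ≤ (∑ i, G (x i)) / m := by
      rw [le_div_iff₀ hm0]
      nlinarith
    linarith

theorem stab_om {k : ℕ} (hk : 1 ≤ k) {ρ1 σ b0 c0 : ℝ} (h1 : loR (k + 1) ≤ ρ1) (h2 : ρ1 < σ) (h3 : σ ≤ upR (k + 1))
    (hb0 : 0 < b0) (hc0 : 0 < c0) :
    ∃ δ : ℝ, 0 < δ ∧ ∀ m : ℕ, 1 ≤ m → ∀ (x : Fin m → ℝ) (a Y : ℝ), 0 ≤ a → Y ≤ 1 → (∀ i, a ≤ x i ∧ x i ≤ Y) →
      b0 ≤ (∑ i, x i) / m → (∑ i, x i) / m ≤ ρ1 ^ (k + 1) → σ ^ (k + 1) ≤ Y →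
      G ((∑ i, x i) / m) + δ ≤ (∑ i, G (x i)) / m + (Y - a) ∨
        (Y ≤ σ ^ k ∧ (m : ℝ) / 4 ≤ ((univ.filter (fun i => x i ≤ c0)).card : ℝ)) := by
  obtain ⟨n, rfl⟩ : ∃ n, k = n + 1 := ⟨k - 1, by omega⟩
  have hlo := loR_pos (n + 1 + 1)
  have hρ0 : 0 < ρ1 := by linarith
  have hσ0 : 0 < σ := by linarith
  have hρlo : loR (n + 1) < ρ1 := lt_of_lt_of_le (loR_mono (by omega)) h1
  have hσup : σ ≤ upR (n + 1) := h3.trans (upR_anti (by omega)).le
  have hε : 0 < σ ^ (n + 2) - ρ1 ^ (n + 2) := by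
    have := pow_lt_pow_left₀ h2 hρ0.le (show n + 2 ≠ 0 by omega)
    linarith
  have hκ : 0 < ((n : ℝ) + 1) * ρ1 ^ n * (σ - ρ1) ^ 2 := by
    have : 0 < σ - ρ1 := by linarith
    positivity
  obtain ⟨η0, hη0, e1, e2⟩ : ∃ η0 : ℝ, 0 < η0 ∧ η0 ≤ ((n : ℝ) + 1) * ρ1 ^ n * (σ - ρ1) ^ 2 ∧ η0 ≤ b0 / 100 :=
    ⟨min (((n : ℝ) + 1) * ρ1 ^ n * (σ - ρ1) ^ 2) (b0 / 100), lt_min hκ (by linarith), min_le_left _ _, min_le_right _ _⟩
  obtain ⟨δ, hδ, hmain⟩ := stab_core (ε := σ ^ (n + 2) - ρ1 ^ (n + 2)) (c0 := c0) (η0 := η0) (γ := 1 / 9)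
    hε hc0 hη0 (by norm_num) (by norm_num)
  refine ⟨δ, hδ, ?_⟩
  intro m hm x a Y ha hY hx hX1 hX2 hσY
  obtain ⟨haX, hXY⟩ := Pool.Agent.H86.Z1.mean_mem hm x hx
  have hup49 : upR (n + 1 + 1) ≤ 4 / 9 := upR_le' (by omega)
  have hX49 : (∑ i, x i) / m ≤ (4 / 9) ^ 2 := by
    have h4 : ρ1 ^ (n + 1 + 1) ≤ (4 / 9 : ℝ) ^ (n + 1 + 1) := pow_le_pow_left₀ hρ0.le (by linarith) _
    have h5 : (4 / 9 : ℝ) ^ (n + 1 + 1) ≤ (4 / 9) ^ 2 := pow_le_pow_of_le_one (by norm_num) (by norm_num) (by omega)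
    linarith
  have hX0 : 0 < (∑ i, x i) / m := by linarith
  have hX14 : (∑ i, x i) / m ≤ 1 / 4 := hX49.trans (by norm_num)
  have hGX : G ((∑ i, x i) / m) ≤ 1 - 1 / 9 := by
    refine (Pool.Agent.H86.Z1.G_le_sqrt hX0.le (by linarith)).trans ?_
    have : √((∑ i, x i) / m) ≤ 4 / 9 := Real.sqrt_le_iff.2 ⟨by norm_num, hX49⟩
    linarith
  have hXρ : (∑ i, x i) / m ≤ ρ1 ^ (n + 2) := hX2
  have hσY' : σ ^ (n + 2) ≤ Y := hσY
  rcases hmain m hm x a Y ha hY hx hX0 hX14 hGX (by linarith) with h | ⟨y0, q1, q2, q3, q4, q5⟩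
  · exact Or.inl h
  right
  have hy0σ : y0 < σ ^ (n + 1) := by
    by_contra hneg
    push Not at hneg
    have := near_upper n hρlo h2 hσup hX0.le hXρ hneg q2
    linarith
  have hy0X : 25 / 18 * ((∑ i, x i) / m) < y0 := by
    by_contra hneg
    push Not at hneg
    have := near_mid hX0 hX14 (hXY.trans q1) hneg
    linarith
  exact ⟨q1.trans hy0σ.le, q5 (by linarith)⟩

theorem stab_zone {k : ℕ} {r1 r2 η c0 ε : ℝ} (h1 : loR (k + 1) < r1) (h2 : r1 < r2) (h3 : r2 < upR (k + 1))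
    (hη : 0 < η) (hη1 : η ≤ r1) (hc0 : 0 < c0) (hε : 0 < ε) :
    ∃ δ : ℝ, 0 < δ ∧ ∀ m : ℕ, 1 ≤ m → ∀ (x : Fin m → ℝ) (a Y : ℝ), 0 ≤ a → Y ≤ 1 → (∀ i, a ≤ x i ∧ x i ≤ Y) →
      r1 ^ (k + 2) ≤ (∑ i, x i) / m → (∑ i, x i) / m ≤ r2 ^ (k + 2) →
      G ((∑ i, x i) / m) + δ ≤ (∑ i, G (x i)) / m + (Y - a) ∨ Y - a < ε ∨
        ((r1 - η) ^ (k + 1) ≤ Y ∧ Y ≤ (r2 + η) ^ (k + 1) ∧
          (m : ℝ) / 4 ≤ ((univ.filter (fun i => x i ≤ c0)).card : ℝ)) := by
  have hlo := loR_pos (k + 1)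
  have hr10 : 0 < r1 := by linarith
  have hr20 : 0 < r2 := by linarith
  have hup2 : upR (k + 1) ≤ 1 / 2 := upR_le (by omega)
  obtain ⟨σu, hσu1, hσu2, hσu3⟩ : ∃ σu : ℝ, r2 < σu ∧ σu ≤ upR (k + 1) ∧ σu ≤ r2 + η :=
    ⟨min (upR (k + 1)) (r2 + η), lt_min h3 (by linarith), min_le_left _ _, min_le_right _ _⟩
  obtain ⟨σl, hσl1, hσl2, hσl3⟩ : ∃ σl : ℝ, σl < r1 ∧ loR (k + 1) ≤ σl ∧ r1 - η / 2 ≤ σl :=
    ⟨max (loR (k + 1)) (r1 - η / 2), max_lt h1 (by linarith), le_max_left _ _, le_max_right _ _⟩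
  have hκ1 : 0 < ((k : ℝ) + 1) * r2 ^ k * (σu - r2) ^ 2 := by
    have : 0 < σu - r2 := by linarith
    positivity
  have hκ2 : 0 < ((k : ℝ) + 1) * r1 ^ k * (r1 - σl) ^ 2 := by
    have : 0 < r1 - σl := by linarith
    positivity
  have hκ3 : 0 < (r1 - η / 2) ^ (k + 1) - (r1 - η) ^ (k + 1) := by
    have := pow_lt_pow_left₀ (show r1 - η < r1 - η / 2 by linarith) (by linarith) (show k + 1 ≠ 0 by omega)
    linarith
  have hb0 : 0 < r1 ^ (k + 2) := by positivity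
  obtain ⟨η0, hη0, e1, e2, e3, e4⟩ : ∃ η0 : ℝ, 0 < η0 ∧ η0 ≤ ((k : ℝ) + 1) * r2 ^ k * (σu - r2) ^ 2 ∧
      η0 ≤ ((k : ℝ) + 1) * r1 ^ k * (r1 - σl) ^ 2 ∧ η0 ≤ (r1 - η / 2) ^ (k + 1) - (r1 - η) ^ (k + 1) ∧
      η0 ≤ r1 ^ (k + 2) / 100 :=
    ⟨min (min (((k : ℝ) + 1) * r2 ^ k * (σu - r2) ^ 2) (((k : ℝ) + 1) * r1 ^ k * (r1 - σl) ^ 2))
      (min ((r1 - η / 2) ^ (k + 1) - (r1 - η) ^ (k + 1)) (r1 ^ (k + 2) / 100)),
      lt_min (lt_min hκ1 hκ2) (lt_min hκ3 (by linarith)),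
      (min_le_left _ _).trans (min_le_left _ _), (min_le_left _ _).trans (min_le_right _ _),
      (min_le_right _ _).trans (min_le_left _ _), (min_le_right _ _).trans (min_le_right _ _)⟩
  obtain ⟨γ, hγ, hγ1, hγ2⟩ : ∃ γ : ℝ, 0 < γ ∧ γ ≤ 1 / 3 ∧ γ ≤ 1 - 2 * r2 :=
    ⟨min (1 / 3) (1 - 2 * r2), lt_min (by norm_num) (by linarith), min_le_left _ _, min_le_right _ _⟩
  obtain ⟨δ, hδ, hmain⟩ := stab_core (ε := ε) (c0 := c0) (η0 := η0) (γ := γ) hε hc0 hη0 hγ hγ1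
  refine ⟨δ, hδ, ?_⟩
  intro m hm x a Y ha hY hx hX1 hX2
  obtain ⟨haX, hXY⟩ := Pool.Agent.H86.Z1.mean_mem hm x hx
  have hX0 : 0 < (∑ i, x i) / m := by linarith
  have hXr2 : (∑ i, x i) / m ≤ r2 ^ 2 := by
    have h5 : r2 ^ (k + 2) ≤ r2 ^ 2 := pow_le_pow_of_le_one hr20.le (by linarith) (by omega)
    linarith
  have hX14 : (∑ i, x i) / m ≤ 1 / 4 := by nlinarith
  have hGX : G ((∑ i, x i) / m) ≤ 1 - γ := by
    refine (Pool.Agent.H86.Z1.G_le_sqrt hX0.le (by linarith)).trans ?_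
    have : √((∑ i, x i) / m) ≤ r2 := Real.sqrt_le_iff.2 ⟨hr20.le, hXr2⟩
    linarith
  by_cases hYε : Y - a < ε
  · exact Or.inr (Or.inl hYε)
  push Not at hYε
  rcases hmain m hm x a Y ha hY hx hX0 hX14 hGX hYε with h | ⟨y0, q1, q2, q3, q4, q5⟩
  · exact Or.inl h
  right; right
  have hy0σ : y0 < σu ^ (k + 1) := by
    by_contra hneg
    push Not at hneg
    have := near_upper k (ρ := r2) (σ := σu) (by linarith) hσu1 hσu2 hX0.le hX2 hneg q2
    linarith
  have hy0σl : σl ^ (k + 1) < y0 := by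
    by_contra hneg
    push Not at hneg
    obtain ⟨q, hq0, hq⟩ := exists_root (k + 1) hX0.le
    have hq' : q ^ (k + 2) = (∑ i, x i) / m := hq
    have hrq : r1 ≤ q := by
      rw [← hq'] at hX1
      exact le_of_pow_le_pow_left₀ (by omega) hq0 hX1
    have hq1 : q ≤ 1 := by
      by_contra h
      push Not at h
      have := one_lt_pow₀ h (show k + 2 ≠ 0 by omega)
      linarith
    have := near_lower k (σ := σl) (r1 := r1) (q := q) (y := y0) hσl2 (by linarith) hσl1 hrq hq1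
      (by rw [hq']; exact hXY.trans q1) hneg
    rw [hq'] at this
    linarith
  have hy0X : 25 / 18 * ((∑ i, x i) / m) < y0 := by
    by_contra hneg
    push Not at hneg
    have := near_mid hX0 hX14 (hXY.trans q1) hneg
    linarith
  refine ⟨?_, ?_, q5 (by linarith)⟩
  · have h5 : (r1 - η / 2) ^ (k + 1) ≤ σl ^ (k + 1) := pow_le_pow_left₀ (by linarith) hσl3 _
    linarith
  · have h5 : σu ^ (k + 1) ≤ (r2 + η) ^ (k + 1) := pow_le_pow_left₀ (by linarith) hσu3 _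
    linarith

end Pool.Agent.H86.ZN
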