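import Pool.Agent.H86.ZN.CtxP
import Pool.Agent.H86.ZN.Stb
import Pool.Agent.H86.ZN.Grp
import Pool.Agent.H86.ZN.Jen

/-!
# Project ZN: the clauses `tri` and `near` of `ZCtx` for large `m`

Proof sketches.
* `ctx_tri`: `r1 = (ρ2 + ρL)/2`, `r2 = (ρR + ρ3)/2`, `η` with `ρ2 + η < r1 - η`... (e.g. `η = min ((r1 - ρ2)/2, (ρ3 - r2)/2)`, also `η ≤ r1`), `v0 = ρ2^(k+1)`, `c0` from `group_FQ v0`, `stab_zone` with `r1, r2, η, c0, ε`.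
  For large `m`: `r1^(k+2) ≤ uL` (`pL/m ≥ ρL - 1/m ≥ r1`), `uR ≤ r2^(k+2)`. First alternative of `stab_zone`: times `m`, `δ m ≥ 2`, `G ≤ F` (`G_le_F`). Third: `v t2 = (p2/m)^(k+1) ≤ (r1 - η)^(k+1) ≤ hi`,
  `hi ≤ (r2 + η)^(k+1) ≤ (p3/m)^(k+1) = v t3`; `A = univ.filter (x i ≤ c0)`, `x i ≤ c0 ≤ v0 ≤ v t2`, `card A ≥ m/4 ≥ m/5 + 15`; `group_FQ` for the face `v t ≥ v t2 ≥ v0` (`vq_mono`) with `b = lo`.
* `ctx_near`: `C` from `jensen_zone` with the same `r1, r2`; `ε ≤ a0/(8 C)`. `u = hi - lo < ε`: `m G(mean) ≤ ∑ G (x i) + m C u^2 ≤ ∑ F (x i) + m C u^2`, `m u - m C u^2 = m u (1 - C u) ≥ (v t + a0) (1 - a0/8) ≥ v t + a0/2` (`v t ≤ 1`, `a0 ≤ 1/4`).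
-/

set_option autoImplicit false

namespace Pool.Agent.H86.ZN

open Finset Pool.Agent.H14RC Pool.Agent.H86.FM

/-- The outer radii. -/
private theorem radii {k m p0 p2 pL pP pQ pR p3 : ℕ} {s1 s2 ρ2 ρL ρR ρ3 : ℝ} (hm0 : (0 : ℝ) < m)
    (hρ2 : 0 < ρ2) (I : Idx k m p0 p2 pL pP pQ pR p3 s1 s2 ρ2 ρL ρR ρ3) :
    ρL - 1 / m ≤ (pL : ℝ) / m ∧ (pR : ℝ) / m ≤ ρR + 1 / m ∧ ρ2 ≤ (p2 : ℝ) / m ∧ (p2 : ℝ) / m ≤ ρ2 + 1 / m ∧
      ρ3 - 1 / m ≤ (p3 : ℝ) / m := by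
  have e1 : ∀ r : ℝ, r - 1 / m = (r * m - 1) / m := fun r => by field_simp
  have e2 : ∀ r : ℝ, r + 1 / m = (r * m + 1) / m := fun r => by field_simp
  have e3 : ρ2 = ρ2 * m / m := by field_simp
  refine ⟨?_, ?_, ?_, ?_, ?_⟩
  · rw [e1]; exact div_le_div_of_nonneg_right I.xL hm0.le
  · rw [e2]; exact div_le_div_of_nonneg_right I.xR' hm0.le
  · rw [e3]; exact div_le_div_of_nonneg_right I.x2 hm0.le
  · rw [e2]; exact div_le_div_of_nonneg_right I.x2' hm0.le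
  · rw [e1]; exact div_le_div_of_nonneg_right I.x3 hm0.le

theorem ctx_tri {k : ℕ} {s1 s2 ρ2 ρL ρR ρ3 a0 : ℝ} (P : Prm k s1 s2 ρ2 ρL ρR ρ3 a0) {ε : ℝ} (hε : 0 < ε) :
    ∃ M : ℕ, ∀ m : ℕ, M ≤ m → ∀ p0 p2 pL pP pQ pR p3 : ℕ, Idx k m p0 p2 pL pP pQ pR p3 s1 s2 ρ2 ρL ρR ρ3 →
      (∀ t, (k + 1) * p2 ≤ t → t ≤ (k + 1) * p3 → Face m (vq m (k + 1) t)) →
      ∀ (x : Fin m → ℝ) (lo hi : ℝ), 0 ≤ lo → hi ≤ 1 → (∀ i, lo ≤ x i ∧ x i ≤ hi) →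
      vq m (k + 2) ((k + 2) * pL) + ε ≤ (∑ i, x i) / m → (∑ i, x i) / m ≤ vq m (k + 2) ((k + 2) * pR) - ε →
      m * G ((∑ i, x i) / m) + 2 ≤ ∑ i, F m (x i) + m * (hi - lo) ∨ hi - lo < ε ∨
      (vq m (k + 1) ((k + 1) * p2) ≤ hi ∧ hi ≤ vq m (k + 1) ((k + 1) * p3) ∧
        ∃ A : Finset (Fin m), (∀ i ∈ A, x i ≤ vq m (k + 1) ((k + 1) * p2)) ∧
        ∀ t, (k + 1) * p2 ≤ t → t ≤ (k + 1) * p3 →
          FQ m (vq m (k + 1) t) (∑ i ∈ A, x i) + m * lo ≤ ∑ i ∈ A, F m (x i)) := by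
  have hρ2 : 0 < ρ2 := (loR_pos (k + 1)).trans P.h1
  have hL := P.h2
  have hR := P.h6
  have h7 := P.h7
  have h34 := P.h3.trans (P.h4.trans P.h5)
  have h1' := P.h1
  obtain ⟨r1, hr1⟩ : ∃ r1, r1 = (ρ2 + ρL) / 2 := ⟨_, rfl⟩
  obtain ⟨r2, hr2⟩ : ∃ r2, r2 = (ρR + ρ3) / 2 := ⟨_, rfl⟩
  obtain ⟨η, hη⟩ : ∃ η, η = min ((r1 - ρ2) / 2) ((ρ3 - r2) / 2) := ⟨_, rfl⟩
  have hη0 : 0 < η := by rw [hη]; exact lt_min (by linarith) (by linarith)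
  have hη1 : η ≤ (r1 - ρ2) / 2 := by rw [hη]; exact min_le_left _ _
  have hη2 : η ≤ (ρ3 - r2) / 2 := by rw [hη]; exact min_le_right _ _
  obtain ⟨v0, hv0⟩ : ∃ v0, v0 = ρ2 ^ (k + 1) := ⟨_, rfl⟩
  have hv0p : 0 < v0 := by rw [hv0]; positivity
  obtain ⟨c0, hc0, hc0v, hc01, hgr⟩ := group_FQ hv0p
  obtain ⟨δ, hδ, hst⟩ := stab_zone (k := k) (r1 := r1) (r2 := r2) (η := η) (c0 := c0) (ε := ε)
    (by linarith) (by linarith) (by linarith) hη0 (hη1 := by linarith) hc0 hε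
  refine ⟨max 1000000 (max ⌈1 / η⌉₊ (max ⌈2 / (ρL - ρ2)⌉₊ (max ⌈2 / (ρ3 - ρR)⌉₊ ⌈2 / δ⌉₊))), ?_⟩
  intro m hm p0 p2 pL pP pQ pR p3 I hface x lo hi hlo hhi hx hm1 hm2
  have hm6 : 1000000 ≤ m := le_trans (by simp) hm
  have hM1 : 1 / η ≤ m := (Nat.le_ceil _).trans (by exact_mod_cast le_trans (by simp) hm)
  have hM2 : 2 / (ρL - ρ2) ≤ m := (Nat.le_ceil _).trans (by exact_mod_cast le_trans (by simp) hm)
  have hM3 : 2 / (ρ3 - ρR) ≤ m := (Nat.le_ceil _).trans (by exact_mod_cast le_trans (by simp) hm)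
  have hM4 : 2 / δ ≤ m := (Nat.le_ceil _).trans (by exact_mod_cast le_trans (by simp) hm)
  have hmR : (1000000 : ℝ) ≤ m := by exact_mod_cast hm6
  have hm0 : (0 : ℝ) < m := by linarith
  have hm2' : 2 ≤ m := by omega
  have hN1 : 1 / (m : ℝ) ≤ η := by
    rw [div_le_iff₀ hη0] at hM1
    rw [div_le_iff₀ hm0]; linarith
  have hN2 : 1 / (m : ℝ) ≤ (ρL - ρ2) / 2 := by
    rw [div_le_iff₀ (by linarith)] at hM2
    rw [div_le_iff₀ hm0]; linarith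
  have hN3 : 1 / (m : ℝ) ≤ (ρ3 - ρR) / 2 := by
    rw [div_le_iff₀ (by linarith)] at hM3
    rw [div_le_iff₀ hm0]; linarith
  obtain ⟨q1, q2, q3, q4, q5⟩ := radii hm0 hρ2 I
  have hx0 : ∀ i, 0 ≤ x i ∧ x i ≤ 1 := fun i => ⟨hlo.trans (hx i).1, (hx i).2.trans hhi⟩
  have hFG : ∑ i, G (x i) ≤ ∑ i, F m (x i) := sum_le_sum fun i _ => G_le_F hm2' (hx0 i).1 (hx0 i).2
  have hr1p : 0 < r1 := by linarith
  rw [vq_cube (by omega) (by omega)] at hm1 hm2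
  have a1 : r1 ^ (k + 2) ≤ ((pL : ℝ) / m) ^ (k + 2) := pow_le_pow_left₀ hr1p.le (by linarith) _
  have a2 : ((pR : ℝ) / m) ^ (k + 2) ≤ r2 ^ (k + 2) := pow_le_pow_left₀ (by positivity) (by linarith) _
  rw [vq_cube (by omega) (by omega), vq_cube (by omega) (by omega)]
  rcases hst m (by omega) x lo hi hlo hhi hx (by linarith) (by linarith) with h | h | ⟨h, h', h''⟩
  · left
    have h5 : m * (G ((∑ i, x i) / m) + δ) ≤ m * ((∑ i, G (x i)) / m + (hi - lo)) :=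
      mul_le_mul_of_nonneg_left h hm0.le
    have e1 : (m : ℝ) * ((∑ i, G (x i)) / m + (hi - lo)) = ∑ i, G (x i) + m * (hi - lo) := by
      field_simp
    rw [e1] at h5
    have h6 : 2 ≤ m * δ := by
      rw [div_le_iff₀ hδ] at hM4
      exact hM4
    linarith
  · right; left; exact h
  · right; right
    have b2 : ρ2 ^ (k + 1) ≤ ((p2 : ℝ) / m) ^ (k + 1) := pow_le_pow_left₀ hρ2.le q3 _
    refine ⟨le_trans (pow_le_pow_left₀ (by positivity) (by linarith) _) h,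
      h'.trans (pow_le_pow_left₀ (by linarith) (by linarith) _),
      univ.filter (fun i => x i ≤ c0), ?_, ?_⟩
    · intro i hi
      have := (mem_filter.1 hi).2
      linarith
    · intro t ht1 ht2
      refine hgr c0 le_rfl m hm6 _ (hface t ht1 ht2) ?_ _ x lo hlo
        (fun i hi => ⟨(hx i).1, (mem_filter.1 hi).2⟩) (by linarith)
      have := vq_mono (m := m) (by omega) (k + 1) ht1
      rw [vq_cube (by omega) (by omega)] at this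
      linarith

theorem ctx_near {k : ℕ} {s1 s2 ρ2 ρL ρR ρ3 a0 : ℝ} (P : Prm k s1 s2 ρ2 ρL ρR ρ3 a0) :
    ∃ ε0 : ℝ, 0 < ε0 ∧ ∀ ε : ℝ, 0 < ε → ε ≤ ε0 →
    ∃ M : ℕ, ∀ m : ℕ, M ≤ m → ∀ p0 p2 pL pP pQ pR p3 : ℕ, Idx k m p0 p2 pL pP pQ pR p3 s1 s2 ρ2 ρL ρR ρ3 →
      ∀ (x : Fin m → ℝ) (lo hi : ℝ), vq m (k + 2) ((k + 2) * pL) ≤ lo → hi ≤ vq m (k + 2) ((k + 2) * pR) →
      (∀ i, lo ≤ x i ∧ x i ≤ hi) → hi - lo < ε → ∀ v : ℝ, 0 ≤ v → v ≤ 1 → v + a0 ≤ m * (hi - lo) →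
      m * G ((∑ i, x i) / m) + v + a0 / 2 ≤ ∑ i, F m (x i) + m * (hi - lo) := by
  have hρ2 : 0 < ρ2 := (loR_pos (k + 1)).trans P.h1
  have hL := P.h2
  have hR := P.h6
  have h7 := P.h7
  have h34 := P.h3.trans (P.h4.trans P.h5)
  have h1' := P.h1
  have ha0 := P.a0pos
  have ha1 := P.a0le
  obtain ⟨r1, hr1⟩ : ∃ r1, r1 = (ρ2 + ρL) / 2 := ⟨_, rfl⟩
  obtain ⟨r2, hr2⟩ : ∃ r2, r2 = (ρR + ρ3) / 2 := ⟨_, rfl⟩
  obtain ⟨C, hC, hJ⟩ := jensen_zone (k := k) (r1 := r1) (r2 := r2) (by linarith) (by linarith) (by linarith)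
  refine ⟨a0 / (8 * C), by positivity, ?_⟩
  intro ε hε hε1
  refine ⟨max 2 (max ⌈2 / (ρL - ρ2)⌉₊ ⌈2 / (ρ3 - ρR)⌉₊), ?_⟩
  intro m hm p0 p2 pL pP pQ pR p3 I x lo hi hlo hhi hx hu v hv0 hv1 hvu
  have hm2' : 2 ≤ m := le_trans (by simp) hm
  have hM2 : 2 / (ρL - ρ2) ≤ m := (Nat.le_ceil _).trans (by exact_mod_cast le_trans (by simp) hm)
  have hM3 : 2 / (ρ3 - ρR) ≤ m := (Nat.le_ceil _).trans (by exact_mod_cast le_trans (by simp) hm)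
  have hm0 : (0 : ℝ) < m := by exact_mod_cast (by omega : 0 < m)
  have hN2 : 1 / (m : ℝ) ≤ (ρL - ρ2) / 2 := by
    rw [div_le_iff₀ (by linarith)] at hM2
    rw [div_le_iff₀ hm0]; linarith
  have hN3 : 1 / (m : ℝ) ≤ (ρ3 - ρR) / 2 := by
    rw [div_le_iff₀ (by linarith)] at hM3
    rw [div_le_iff₀ hm0]; linarith
  obtain ⟨q1, q2, q3, q4, q5⟩ := radii hm0 hρ2 I
  have hr1p : 0 < r1 := by linarith
  rw [vq_cube (by omega) (by omega)] at hlo hhi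
  have a1 : r1 ^ (k + 2) ≤ ((pL : ℝ) / m) ^ (k + 2) := pow_le_pow_left₀ hr1p.le (by linarith) _
  have a2 : ((pR : ℝ) / m) ^ (k + 2) ≤ r2 ^ (k + 2) := pow_le_pow_left₀ (by positivity) (by linarith) _
  have a3 : ((pR : ℝ) / m) ^ (k + 2) ≤ 1 := by
    refine pow_le_one₀ (by positivity) ?_
    have := upR_le (k := k + 1) (by omega)
    linarith
  have a4 : 0 ≤ ((pL : ℝ) / m) ^ (k + 2) := by positivity
  have hx0 : ∀ i, 0 ≤ x i ∧ x i ≤ 1 := fun i => ⟨by linarith [(hx i).1], by linarith [(hx i).2]⟩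
  have hFG : ∑ i, G (x i) ≤ ∑ i, F m (x i) := sum_le_sum fun i _ => G_le_F hm2' (hx0 i).1 (hx0 i).2
  have h := hJ m (by omega) x lo hi (by linarith) (by linarith) hx
  have h5 : m * (G ((∑ i, x i) / m) - C * (hi - lo) ^ 2) ≤ m * ((∑ i, G (x i)) / m) :=
    mul_le_mul_of_nonneg_left h hm0.le
  have e1 : (m : ℝ) * ((∑ i, G (x i)) / m) = ∑ i, G (x i) := by field_simp
  rw [e1] at h5
  obtain ⟨u, hu'⟩ : ∃ u, u = hi - lo := ⟨_, rfl⟩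
  rw [← hu'] at h5 hu hvu ⊢
  have hmu : 0 < (m : ℝ) * u := by linarith
  have hu0 : 0 < u := by
    by_contra hcon
    push Not at hcon
    nlinarith
  have hCu : C * u ≤ a0 / 8 := by
    have h6 : C * u ≤ C * (a0 / (8 * C)) := mul_le_mul_of_nonneg_left (by linarith) hC.le
    have e2 : C * (a0 / (8 * C)) = a0 / 8 := by field_simp
    linarith
  have h6 : (m * u) * (C * u) ≤ (m * u) * (a0 / 8) := mul_le_mul_of_nonneg_left hCu hmu.le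
  have h7' : (m : ℝ) * (C * u ^ 2) = (m * u) * (C * u) := by ring
  have h8 : (v + a0) * (1 - a0 / 8) ≤ (m * u) * (1 - a0 / 8) :=
    mul_le_mul_of_nonneg_right hvu (by linarith)
  have h9 : (v + a0) * a0 ≤ 5 / 4 * a0 := mul_le_mul_of_nonneg_right (by linarith) ha0.le
  have h10 : m * (G ((∑ i, x i) / m) - C * u ^ 2) = m * G ((∑ i, x i) / m) - m * (C * u ^ 2) := by ring
  rw [h10, h7'] at h5
  have h11 : (v + a0) * (1 - a0 / 8) = v + a0 - (v + a0) * a0 / 8 := by ring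
  have h12 : (m * u) * (1 - a0 / 8) = m * u - (m * u) * (a0 / 8) := by ring
  rw [h11, h12] at h8
  linarith

end Pool.Agent.H86.ZN
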