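import Pool.Agent.H86.ZN.CtxA
import Pool.Agent.H86.ZN.CtxB
import Pool.Agent.H86.ZN.CtxC

/-!
# Project ZN: `ZCtx` holds for large `m`

Assembly of `prm_exists`, `idx_exists`, `ctx_chain`, `ctx_ineq`, `ctx_exc`, `ctx_lineL`, `ctx_lineR`, `ctx_tri`, `ctx_near`: `ε = min` of the three `ε0`, `e = C/m`, `m` large: `e + 6/m ≤ a0/2`, `≤ 1`, `m ≥ 1000000`.
-/

set_option autoImplicit false

namespace Pool.Agent.H86.ZN

open Finset Pool.Agent.H14RC Pool.Agent.H86.FM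

theorem ctx_of_chain {k : ℕ} {s1 s2 ρ2 ρL ρR ρ3 a0 : ℝ} (P : Prm k s1 s2 ρ2 ρL ρR ρ3 a0)
    (hch : ∃ M : ℕ, ∀ m : ℕ, M ≤ m → ∀ p0 p2 pL pP pQ pR p3 : ℕ, Idx k m p0 p2 pL pP pQ pR p3 s1 s2 ρ2 ρL ρR ρ3 →
      Chain m (vq m (k + 1)) (wk m k) (Nk k) ((k + 1) * p0) ((k + 1) * p3) ∧
      (∀ t, (k + 1) * p2 ≤ t → t ≤ (k + 1) * p3 → Face m (vq m (k + 1) t)) ∧
      (∀ t, (k + 1) * p2 ≤ t → t ≤ (k + 1) * p3 → F m (vq m (k + 1) t) = vq m (k + 1) t * Sq m (k + 1) t) ∧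
      vq m (k + 1) ((k + 1) * p3) ≤ wk m k ((k + 1) * p0)) :
    ∃ M : ℕ, ∀ m : ℕ, M ≤ m → ∃ (t0 t2 t3 pL pP pQ pR : ℕ) (a0 ε e : ℝ), ZCtx m k t0 t2 t3 pL pP pQ pR a0 ε e ∧
      (pP : ℝ) ≤ s1 * m ∧ s2 * m ≤ (pQ : ℝ) := by
  obtain ⟨M1, hM1⟩ := hch
  obtain ⟨M2, hM2⟩ := ctx_ineq P
  obtain ⟨C, hC, hexc⟩ := ctx_exc k
  obtain ⟨M3, hM3⟩ := hexc s1 s2 ρ2 ρL ρR ρ3 a0 P
  obtain ⟨ε1, hε1, hl1⟩ := ctx_lineL P
  obtain ⟨ε2, hε2, hl2⟩ := ctx_lineR P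
  obtain ⟨ε3, hε3, hl3⟩ := ctx_near P
  obtain ⟨ε, hε, g1, g2, g3⟩ : ∃ ε : ℝ, 0 < ε ∧ ε ≤ ε1 ∧ ε ≤ ε2 ∧ ε ≤ ε3 :=
    ⟨min ε1 (min ε2 ε3), lt_min hε1 (lt_min hε2 hε3), min_le_left _ _,
      (min_le_right _ _).trans (min_le_left _ _), (min_le_right _ _).trans (min_le_right _ _)⟩
  obtain ⟨M4, hM4⟩ := hl1 ε hε g1
  obtain ⟨M5, hM5⟩ := hl2 ε hε g2
  obtain ⟨M6, hM6⟩ := hl3 ε hε g3
  obtain ⟨M7, hM7⟩ := ctx_tri P hε
  obtain ⟨M8, hM8⟩ := exists_nat_ge (2 * (C + 6) / a0)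
  have ha0 := P.a0pos
  have ha4 := P.a0le
  refine ⟨M1 + M2 + M3 + M4 + M5 + M6 + M7 + M8 + 1000000, fun m hm => ?_⟩
  have hm0 : (0 : ℝ) < m := by exact_mod_cast (by omega : 0 < m)
  have he : C / m + 6 / m ≤ a0 / 2 := by
    have h4 : (M8 : ℝ) ≤ m := by exact_mod_cast (by omega : M8 ≤ m)
    have h5 : 2 * (C + 6) / a0 ≤ m := hM8.trans h4
    rw [div_le_iff₀ ha0] at h5
    rw [← add_div, div_le_iff₀ hm0]
    linarith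
  obtain ⟨p0, p2, pL, pP, pQ, pR, p3, I⟩ := idx_exists P m
  obtain ⟨c1, c2, c3, c4⟩ := hM1 m (by omega) p0 p2 pL pP pQ pR p3 I
  obtain ⟨b0, b1, b2, b3, b4, b5, b6, b7, b8, b9, b10, b11, b12, b13, b14⟩ :=
    hM2 m (by omega) p0 p2 pL pP pQ pR p3 I
  have e1 := hM3 m (by omega) p0 p2 pL pP pQ pR p3 I
  obtain ⟨l1, l2⟩ := hM4 m (by omega) p0 p2 pL pP pQ pR p3 I
  obtain ⟨l3, l4⟩ := hM5 m (by omega) p0 p2 pL pP pQ pR p3 I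
  have n1 := hM6 m (by omega) p0 p2 pL pP pQ pR p3 I
  have n2 := hM7 m (by omega) p0 p2 pL pP pQ pR p3 I c2
  have q1 : (k + 1) * pL ≤ (k + 1) * p3 := by
    have : (k + 1) * pL ≤ (k + 1) * (pR + 1) := Nat.mul_le_mul_left _ (by omega)
    omega
  have q2 : (k + 1) * p2 ≤ (k + 1) * pR := by
    have : (k + 1) * pL ≤ (k + 1) * pR := Nat.mul_le_mul_left _ (by omega)
    omega
  have q3 : (k + 1) * pR ≤ (k + 1) * p3 := by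
    have : (k + 1) * pR ≤ (k + 1) * (pR + 1) := Nat.mul_le_mul_left _ (by omega)
    omega
  have hvL := (c2 ((k + 1) * pL) (by omega) q1).le
  have hvR := (c2 ((k + 1) * pR) q2 q3).le
  refine ⟨(k + 1) * p0, (k + 1) * p2, (k + 1) * p3, pL, pP, pQ, pR, a0, ε, C / m, ?_, I.xP', I.xQ⟩
  refine
    { hm := by omega
      chain := c1
      h02 := b0
      face := c2
      val := c3
      hW := c4
      i1 := b1
      i2 := b2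
      i3 := b3
      i4 := b4
      i5 := b5
      i6 := b6
      a0pos := ha0
      a1 := b7
      a2 := b8
      a3 := b9
      a4 := b10
      a5 := b11
      a6 := b12
      a7 := b13
      eps := hε
      he0 := by positivity
      he := by linarith
      uR1 := b14
      exc := e1
      lineL := l1
      lineL' := ?_
      lineR := l3
      lineR' := ?_
      tri := n2
      near := ?_ }
  · intro x hx0 hx1
    obtain ⟨h4, h5⟩ := l2 x hx0 hx1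
    exact ⟨h4, by linarith⟩
  · intro x hx0 hx1
    obtain ⟨h4, h5⟩ := l4 x hx0 hx1
    exact ⟨h4, by linarith⟩
  · intro x lo hi hlo hhi hx hlt t ht2 ht3 hR
    have h4 := c2 t ht2 ht3
    have h5 := n1 x lo hi hlo hhi hx hlt (vq m (k + 1) t) h4.pos.le h4.le hR
    linarith

theorem ctx_exists {k : ℕ} (hk : 1 ≤ k) {s1 s2 : ℝ} (h1 : loR (k + 1) < s1) (h2 : s1 < s2) (h3 : s2 < upR (k + 1))
    (h : ZZ k (loR (k + 1)) (upR (k + 1))) :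
    ∃ M : ℕ, ∀ m : ℕ, M ≤ m → ∃ (t0 t2 t3 pL pP pQ pR : ℕ) (a0 ε e : ℝ), ZCtx m k t0 t2 t3 pL pP pQ pR a0 ε e ∧
      (pP : ℝ) ≤ s1 * m ∧ s2 * m ≤ (pQ : ℝ) := by
  obtain ⟨ρ2, ρL, ρR, ρ3, a0, P⟩ := prm_exists h1 h2 h3
  exact ctx_of_chain P (ctx_chain hk P h)

end Pool.Agent.H86.ZN
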