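import Pool.Agent.H86.ZN.Ctx

/-!
# Project ZN: real parameters and integer parameters of the zone step

`Prm`: the real parameters, `Idx`: the integer parameters for a given `m`, `t0 = (k+1) p0`, `t2 = (k+1) p2`, `t3 = (k+1) p3`.

Proof sketches.
* `prm_exists`: `ρ2 = (loR (k+1) + s1)/2`, `ρ3 = (s2 + upR (k+1))/2`, `a0 > 0` with `loR (k+1)^(k+1) + 4 a0 ≤ ρ2^(k+1)`... (e.g. `4 a0 = min (1, ρ2^(k+1) - loR^(k+1), ρ3^(k+1) - s2^(k+1))`), then `ρL ∈ (ρ2, s1)` close to `s1`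
  and `ρR ∈ (s2, ρ3)` close to `s2` by continuity of `r^(k+1)` (`s1^(k+1) - ρL^(k+1) < a0`, `ρR^(k+1) - s2^(k+1) < a0`).
* `idx_exists`: `Nat.ceil`, `Nat.floor`.
-/

set_option autoImplicit false

namespace Pool.Agent.H86.ZN

open Finset Pool.Agent.H14RC Pool.Agent.H86.FM

structure Prm (k : ℕ) (s1 s2 ρ2 ρL ρR ρ3 a0 : ℝ) : Prop where
  h1 : loR (k + 1) < ρ2
  h2 : ρ2 < ρL
  h3 : ρL < s1
  h4 : s1 < s2
  h5 : s2 < ρR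
  h6 : ρR < ρ3
  h7 : ρ3 < upR (k + 1)
  a0pos : 0 < a0
  a0le : a0 ≤ 1 / 4
  b1 : loR (k + 1) ^ (k + 1) + 2 * a0 < ρL ^ (k + 1)
  b2 : ρR ^ (k + 1) + a0 < ρ3 ^ (k + 1)
  b3 : 2 * ρR ^ (k + 1) + a0 < 1
  b4 : s1 ^ (k + 1) < ρL ^ (k + 1) + a0
  b5 : ρR ^ (k + 1) < s2 ^ (k + 1) + a0

structure Idx (k m p0 p2 pL pP pQ pR p3 : ℕ) (s1 s2 ρ2 ρL ρR ρ3 : ℝ) : Prop where
  x0 : loR (k + 1) * m ≤ p0
  x0' : (p0 : ℝ) ≤ loR (k + 1) * m + 1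
  x2 : ρ2 * m ≤ p2
  x2' : (p2 : ℝ) ≤ ρ2 * m + 1
  xL : ρL * m - 1 ≤ pL
  xL' : (pL : ℝ) ≤ ρL * m
  xP : s1 * m - 1 ≤ pP
  xP' : (pP : ℝ) ≤ s1 * m
  xQ : s2 * m ≤ pQ
  xQ' : (pQ : ℝ) ≤ s2 * m + 1
  xR : ρR * m ≤ pR
  xR' : (pR : ℝ) ≤ ρR * m + 1
  x3 : ρ3 * m - 1 ≤ p3
  x3' : (p3 : ℝ) ≤ ρ3 * m

private theorem pow_diff (n : ℕ) {r s : ℝ} (hr : 0 ≤ r) (hrs : r ≤ s) (hs : s ≤ 1) :
    s ^ (n + 1) - r ^ (n + 1) ≤ ((n : ℝ) + 1) * (s - r) := by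
  induction n with
  | zero => simp
  | succ n ih =>
    have h1 : s ^ (n + 1 + 1) - r ^ (n + 1 + 1) =
        s * (s ^ (n + 1) - r ^ (n + 1)) + r ^ (n + 1) * (s - r) := by
      rw [pow_succ s (n + 1), pow_succ r (n + 1)]
      ring
    have h2 : r ^ (n + 1) ≤ 1 := pow_le_one₀ hr (hrs.trans hs)
    have h3 : 0 ≤ s ^ (n + 1) - r ^ (n + 1) := by
      have := pow_le_pow_left₀ hr hrs (n + 1)
      linarith
    have h4 : s * (s ^ (n + 1) - r ^ (n + 1)) ≤ 1 * (s ^ (n + 1) - r ^ (n + 1)) :=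
      mul_le_mul_of_nonneg_right hs h3
    have h5 : r ^ (n + 1) * (s - r) ≤ 1 * (s - r) := mul_le_mul_of_nonneg_right h2 (by linarith)
    rw [h1]
    push_cast
    linarith

theorem prm_exists {k : ℕ} {s1 s2 : ℝ} (h1 : loR (k + 1) < s1) (h2 : s1 < s2) (h3 : s2 < upR (k + 1)) :
    ∃ ρ2 ρL ρR ρ3 a0 : ℝ, Prm k s1 s2 ρ2 ρL ρR ρ3 a0 := by
  have hl := loR_pos (k + 1)
  have hu : upR (k + 1) ≤ 1 / 2 := upR_le (by omega)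
  have g2a : loR (k + 1) < (loR (k + 1) + s1) / 2 := by linarith
  have g2b : (loR (k + 1) + s1) / 2 < s1 := by linarith
  have g3a : s2 < (s2 + upR (k + 1)) / 2 := by linarith
  have g3b : (s2 + upR (k + 1)) / 2 < upR (k + 1) := by linarith
  set ρ2 := (loR (k + 1) + s1) / 2 with hρ2
  set ρ3 := (s2 + upR (k + 1)) / 2 with hρ3
  have d1 : loR (k + 1) ^ (k + 1) < ρ2 ^ (k + 1) := pow_lt_pow_left₀ g2a hl.le (by omega)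
  have d3 : s2 ^ (k + 1) < ρ3 ^ (k + 1) := pow_lt_pow_left₀ g3a (by linarith) (by omega)
  set a0 : ℝ := min (1 / 4) (min ((ρ2 ^ (k + 1) - loR (k + 1) ^ (k + 1)) / 4)
    ((ρ3 ^ (k + 1) - s2 ^ (k + 1)) / 4)) with ha0
  have ha0pos : 0 < a0 := lt_min (by norm_num) (lt_min (by linarith) (by linarith))
  have a1 : a0 ≤ 1 / 4 := min_le_left _ _
  have a2 : a0 ≤ (ρ2 ^ (k + 1) - loR (k + 1) ^ (k + 1)) / 4 := (min_le_right _ _).trans (min_le_left _ _)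
  have a3 : a0 ≤ (ρ3 ^ (k + 1) - s2 ^ (k + 1)) / 4 := (min_le_right _ _).trans (min_le_right _ _)
  have hk1 : (0 : ℝ) < (k : ℝ) + 1 := by positivity
  set η : ℝ := a0 / (2 * ((k : ℝ) + 1)) with hη
  have hη0 : 0 < η := by positivity
  have hη1 : ((k : ℝ) + 1) * η = a0 / 2 := by
    rw [hη]
    field_simp
  have L1 : ρ2 < max ((ρ2 + s1) / 2) (s1 - η) := lt_of_lt_of_le (by linarith) (le_max_left _ _)
  have L2 : max ((ρ2 + s1) / 2) (s1 - η) < s1 := max_lt (by linarith) (by linarith)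
  have L3 : s1 - η ≤ max ((ρ2 + s1) / 2) (s1 - η) := le_max_right _ _
  have R1 : s2 < min ((s2 + ρ3) / 2) (s2 + η) := lt_min (by linarith) (by linarith)
  have R2 : min ((s2 + ρ3) / 2) (s2 + η) < ρ3 := lt_of_le_of_lt (min_le_left _ _) (by linarith)
  have R3 : min ((s2 + ρ3) / 2) (s2 + η) ≤ s2 + η := min_le_right _ _
  set ρL := max ((ρ2 + s1) / 2) (s1 - η) with hρL
  set ρR := min ((s2 + ρ3) / 2) (s2 + η) with hρR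
  have e1 : ρ2 ^ (k + 1) < ρL ^ (k + 1) := pow_lt_pow_left₀ L1 (by linarith) (by omega)
  have e2 := pow_diff k (by linarith : 0 ≤ ρL) L2.le (by linarith)
  have e3 := pow_diff k (by linarith : 0 ≤ s2) R1.le (by linarith)
  have e4 : ((k : ℝ) + 1) * (s1 - ρL) ≤ ((k : ℝ) + 1) * η :=
    mul_le_mul_of_nonneg_left (by linarith) hk1.le
  have e5 : ((k : ℝ) + 1) * (ρR - s2) ≤ ((k : ℝ) + 1) * η :=
    mul_le_mul_of_nonneg_left (by linarith) hk1.le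
  have e6 : ρ3 ^ (k + 1) ≤ 1 / 2 := by
    have : ρ3 ^ (k + 1) ≤ ρ3 ^ 1 := pow_le_pow_of_le_one (by linarith) (by linarith) (by omega)
    rw [pow_one] at this
    linarith
  refine ⟨ρ2, ρL, ρR, ρ3, a0, ?_⟩
  constructor
  all_goals first | assumption | linarith

theorem idx_exists {k : ℕ} {s1 s2 ρ2 ρL ρR ρ3 a0 : ℝ} (P : Prm k s1 s2 ρ2 ρL ρR ρ3 a0) (m : ℕ) :
    ∃ p0 p2 pL pP pQ pR p3 : ℕ, Idx k m p0 p2 pL pP pQ pR p3 s1 s2 ρ2 ρL ρR ρ3 := by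
  have hl := loR_pos (k + 1)
  have q1 := P.h1
  have q2 := P.h2
  have q3 := P.h3
  have q4 := P.h4
  have q5 := P.h5
  have q6 := P.h6
  have hm : (0 : ℝ) ≤ m := Nat.cast_nonneg m
  have up : ∀ a : ℝ, 0 ≤ a → a * m ≤ (⌈a * m⌉₊ : ℝ) ∧ (⌈a * m⌉₊ : ℝ) ≤ a * m + 1 := fun a ha =>
    ⟨Nat.le_ceil _, (Nat.ceil_lt_add_one (mul_nonneg ha hm)).le⟩
  have dn : ∀ a : ℝ, 0 ≤ a → a * m - 1 ≤ (⌊a * m⌋₊ : ℝ) ∧ (⌊a * m⌋₊ : ℝ) ≤ a * m := fun a ha =>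
    ⟨(Nat.sub_one_lt_floor _).le, Nat.floor_le (mul_nonneg ha hm)⟩
  have u0 := up (loR (k + 1)) (by linarith)
  have u2 := up ρ2 (by linarith)
  have uL := dn ρL (by linarith)
  have uP := dn s1 (by linarith)
  have uQ := up s2 (by linarith)
  have uR := up ρR (by linarith)
  have u3 := dn ρ3 (by linarith)
  exact ⟨⌈loR (k + 1) * m⌉₊, ⌈ρ2 * m⌉₊, ⌊ρL * m⌋₊, ⌊s1 * m⌋₊, ⌈s2 * m⌉₊, ⌈ρR * m⌉₊, ⌊ρ3 * m⌋₊,
    ⟨u0.1, u0.2, u2.1, u2.2, uL.1, uL.2, uP.1, uP.2, uQ.1, uQ.2, uR.1, uR.2, u3.1, u3.2⟩⟩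

end Pool.Agent.H86.ZN
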