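import Pool.Agent.H14.ZN.Cover
import Pool.Agent.H86.Z1.Top

/-!
# Project ZN: the effective form of the recursion in zone `1`
-/

set_option autoImplicit false

namespace Pool.Agent.H86.ZN

open Finset Pool.Agent.H14RC Pool.Agent.H86.FM Pool.Agent.H86.Z1 Pool.Agent.H14.ZN

theorem eff_one {m : ℕ} (hm : 1000000000 ≤ m) {x : ℝ} (h0 : 901 / 10000 ≤ x) (h1 : x ≤ 249 / 1000) : Rec m 1 x := by
  have hmR : (1000000000 : ℝ) ≤ m := by exact_mod_cast hm
  have hm0 : (0 : ℝ) < m := by linarith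
  have hm2 : (0 : ℝ) < (m : ℝ) ^ 2 := by positivity
  refine ⟨cell_exists (by omega) ?_, ?_⟩
  · have h2 : (1 : ℝ) ≤ (m : ℝ) ^ 2 * (901 / 10000) := by nlinarith
    have h3 : (m : ℝ) ^ 2 * (901 / 10000) ≤ (m : ℝ) ^ 2 * x := mul_le_mul_of_nonneg_left h0 hm2.le
    calc (1 : ℝ) ≤ (m : ℝ) ^ 2 * (901 / 10000) := h2
      _ ≤ (m : ℝ) ^ (1 + 1) * x := h3
  intro p i hi hp0 hp1
  have hpp : (0 : ℝ) ≤ p := Nat.cast_nonneg p
  obtain rfl | rfl : i = 0 ∨ i = 1 := by omega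
  · simp only [Nat.sub_zero, pow_zero, mul_one, zero_add, pow_one, Nat.reduceAdd, Nat.cast_zero, sub_zero, Nat.cast_one,
      zero_mul, add_zero] at hp0 hp1 ⊢
    -- `p^2 ≤ m^2 x ≤ p (p+1)`
    have hlow : 3 * (m : ℝ) ≤ 10 * p := by
      by_contra hcon
      push Not at hcon
      have h4 : (p : ℝ) * (p + 1) ≤ (3 / 10 * m) * (3 / 10 * m + 1) := by
        apply mul_le_mul (by linarith) (by linarith) (by linarith) (by linarith)
      have h5 : (m : ℝ) ^ 2 * (901 / 10000) ≤ (m : ℝ) ^ 2 * x := mul_le_mul_of_nonneg_left h0 hm2.le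
      nlinarith
    have hup : 1000 * (p : ℝ) ≤ 499 * m := by
      by_contra hcon
      push Not at hcon
      have h4 : (499 / 1000 * m : ℝ) ^ 2 ≤ (p : ℝ) ^ 2 := pow_le_pow_left₀ (by positivity) (by linarith) 2
      have h5 : (m : ℝ) ^ 2 * x ≤ (m : ℝ) ^ 2 * (249 / 1000) := mul_le_mul_of_nonneg_left h1 hm2.le
      nlinarith
    have h6 := (zone_one (m := m) hm (q := p) (by exact_mod_cast hlow) (by exact_mod_cast hup) (x := x)).2
      (by rw [div_le_iff₀ hm2]; linarith) (by rw [le_div_iff₀ hm2]; linarith)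
    rw [h6]
    field_simp
    ring
  · simp only [Nat.reduceAdd, Nat.reduceSub, pow_one, Nat.sub_self, pow_zero, one_mul, Nat.cast_one, mul_one, zero_mul,
      add_sub_cancel_right] at hp0 hp1 ⊢
    -- `p (p+1) ≤ m^2 x ≤ (p+1)^2`
    have hlow : 3 * (m : ℝ) ≤ 10 * (p + 1) := by
      by_contra hcon
      push Not at hcon
      have h4 : ((p : ℝ) + 1) ^ 2 ≤ (3 / 10 * m) ^ 2 := pow_le_pow_left₀ (by linarith) (by linarith) 2
      have h5 : (m : ℝ) ^ 2 * (901 / 10000) ≤ (m : ℝ) ^ 2 * x := mul_le_mul_of_nonneg_left h0 hm2.le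
      nlinarith
    have hup : 1000 * ((p : ℝ) + 1) ≤ 499 * m := by
      by_contra hcon
      push Not at hcon
      have h4 : (499 / 1000 * m - 1 : ℝ) ≤ p := by linarith
      have h4' : (499 / 1000 * m - 1 : ℝ) * (499 / 1000 * m - 1 + 1) ≤ (p : ℝ) * (p + 1) := by
        apply mul_le_mul h4 (by linarith) (by linarith) hpp
      have h5 : (m : ℝ) ^ 2 * x ≤ (m : ℝ) ^ 2 * (249 / 1000) := mul_le_mul_of_nonneg_left h1 hm2.le
      nlinarith
    have h6 := (zone_one (m := m) hm (q := p + 1) (by exact_mod_cast hlow) (by exact_mod_cast hup) (x := x)).1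
      (by rw [div_le_iff₀ hm2]; push_cast; linarith) (by rw [le_div_iff₀ hm2]; push_cast; linarith)
    rw [h6]
    push_cast
    have e : ((p : ℝ) + 1) * ((p : ℝ) + 1 - 1) / m = (p : ℝ) * (p + 1) / m := by ring
    rw [e]
    ring_nf

end Pool.Agent.H86.ZN
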