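import Pool.Agent.H86.ZN.Eff
import Pool.Agent.H14.ZN.Res

/-!
# Project ZN: the effective form of the step in zone `1`
-/

set_option autoImplicit false

namespace Pool.Agent.H86.ZN

open Finset Pool.Agent.H14RC Pool.Agent.H14.ZN

theorem eff_step {m : ℕ} (hm : 1000000000 ≤ m) {x : ℝ} (h0 : 901 / 10000 ≤ min x (1 - x))
    (h1 : min x (1 - x) ≤ 249 / 1000) :
    ∃ v y : ℝ, Step m 1 x v y ∧ 0 ≤ y ∧ y ≤ 1 ∧ F m x = v + F m y / m := by
  have hx0 : 0 ≤ x := by
    have := min_le_left x (1 - x)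
    linarith
  have hx1 : x ≤ 1 := by
    have := min_le_right x (1 - x)
    linarith
  have hb2 : bk (1 + 1) < min x (1 - x) := by
    refine lt_of_lt_of_le ?_ h0
    unfold bk
    norm_num
  have hb1 : min x (1 - x) < bk 1 := by
    rw [bk_one]
    linarith
  obtain ⟨v, y, hs, hy0, hy1, hF, -⟩ := step_of_rec (by omega) hx0 hx1 hb2 hb1 (eff_one hm h0 h1)
  exact ⟨v, y, hs, hy0, hy1, hF⟩

end Pool.Agent.H86.ZN
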