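import Pool.Agent.H86.ZN.ZStep
import Pool.Agent.H50.ZNFin
import Pool.Agent.H14.ZN.FinPos

/-!
# Project ZN: the final statement

Zone `K` is `(((K+1)/(K+2))^((K+1)(K+2)), (K/(K+1))^(K(K+1)))` (cut at `3/4` for `K = 0`). Cell `(p, i)`, `0 ≤ i ≤ K`: `p^(K+1-i) (p+1)^i ≤ m^(K+1) x ≤ p^(K-i) (p+1)^(i+1)`.

Proof sketches.
* `cell_exists`: `p = ⌊m x^(1/(K+1))⌋` (e.g. `Nat.findGreatest` of `p^(K+1) ≤ m^(K+1) x`, `p ≤ m`), then the largest `i ≤ K` with `p^(K+1-i) (p+1)^i ≤ m^(K+1) x`.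
* `final_zero` (`K = 0`): `Z1.mid`: `F m x = 1 + Ft m (m x)/m`, `Ft m (p + y) = F m y` for `0 ≤ y ≤ 1`.
* `final_pos` (`K ≥ 1`): `α = r1^(K+1)`, `β = r2^(K+1)` (`exists_root`), `s1` between `loR K` and `r1`, `s2` between `r2` and `upR K`; `zz_all`; `t = (K+1) p + i`, `Nk K t = p`, `p + 1 ≥ r1 m` and `p ≤ r2 m`
  (`(p+1)^(K+1) ≥ m^(K+1) x`, `p^(K+1) ≤ m^(K+1) x`), so `s1 m ≤ p`, `p + 1 ≤ s2 m` for large `m`. `Link.ex` with `y = m (x - v) ∈ [0, w]`, `F v = v Sq` (`node_val`),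
  `v Sq = ((K+1-i) p^(K-i) (p+1)^i + i p^(K+1-i) (p+1)^(i-1))/m^K`.
-/

set_option autoImplicit false

namespace Pool.Agent.H86.ZN

open Finset Pool.Agent.H14RC Pool.Agent.H86.FM

theorem final (K : ℕ) {α β : ℝ} (h1 : (((K : ℝ) + 1) / ((K : ℝ) + 2)) ^ ((K + 1) * (K + 2)) < α)
    (h2 : β < ((K : ℝ) / ((K : ℝ) + 1)) ^ (K * (K + 1))) (h3 : β < 3 / 4) :
    ∃ M : ℕ, ∀ m : ℕ, M ≤ m → ∀ x : ℝ, α ≤ x → x ≤ β →
      (∃ p i : ℕ, 1 ≤ p ∧ i ≤ K ∧ (p : ℝ) ^ (K + 1 - i) * ((p : ℝ) + 1) ^ i ≤ (m : ℝ) ^ (K + 1) * x ∧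
        (m : ℝ) ^ (K + 1) * x < (p : ℝ) ^ (K - i) * ((p : ℝ) + 1) ^ (i + 1)) ∧
      ∀ p i : ℕ, i ≤ K → (p : ℝ) ^ (K + 1 - i) * ((p : ℝ) + 1) ^ i ≤ (m : ℝ) ^ (K + 1) * x →
        (m : ℝ) ^ (K + 1) * x ≤ (p : ℝ) ^ (K - i) * ((p : ℝ) + 1) ^ (i + 1) →
        F m x = (((K : ℝ) + 1 - i) * (p : ℝ) ^ (K - i) * ((p : ℝ) + 1) ^ i +
            i * (p : ℝ) ^ (K + 1 - i) * ((p : ℝ) + 1) ^ (i - 1)) / (m : ℝ) ^ K +
          F m (m * x - (p : ℝ) ^ (K + 1 - i) * ((p : ℝ) + 1) ^ i / (m : ℝ) ^ K) / m := by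
  have e1 : (((K : ℝ) + 1) / ((K : ℝ) + 2)) ^ ((K + 1) * (K + 2)) = loR K ^ (K + 1) := by
    unfold loR
    rw [← pow_mul, mul_comm (K + 2) (K + 1)]
  have e2 : ((K : ℝ) / ((K : ℝ) + 1)) ^ (K * (K + 1)) = upR K ^ (K + 1) := by
    unfold upR
    rw [← pow_mul]
  rw [e1] at h1
  rw [e2] at h2
  have hα : 0 < α := (pow_pos (loR_pos K) _).trans h1
  obtain ⟨M0, hM0⟩ := exists_nat_ge (1 / α)
  have hcell : ∀ m : ℕ, M0 + 1 ≤ m → ∀ x : ℝ, α ≤ x → 1 ≤ (m : ℝ) ^ (K + 1) * x := by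
    intro m hm x hx
    have hm1 : (1 : ℝ) ≤ m := by exact_mod_cast (by omega : 1 ≤ m)
    have h4 : (M0 : ℝ) ≤ m := by exact_mod_cast (by omega : M0 ≤ m)
    have h5 : 1 ≤ (m : ℝ) * x := by
      have h6 : 1 / α ≤ m := hM0.trans h4
      rw [div_le_iff₀ hα] at h6
      have h7 : (m : ℝ) * α ≤ m * x := mul_le_mul_of_nonneg_left hx (by linarith)
      linarith
    have h8 : (1 : ℝ) ≤ (m : ℝ) ^ K := one_le_pow₀ hm1
    rw [pow_succ, mul_assoc]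
    nlinarith
  rcases Nat.eq_zero_or_pos K with hK | hK
  · subst hK
    have h1' : 1 / 4 < α := by
      have : loR 0 = 1 / 4 := by unfold loR; norm_num
      rw [this] at h1
      simpa using h1
    obtain ⟨M, hM⟩ := final_zero h1' h3
    refine ⟨M + M0 + 1, fun m hm x hx0 hx1 => ⟨cell_exists (by omega) (hcell m (by omega) x hx0), ?_⟩⟩
    intro p i hi hp0 hp1
    obtain rfl : i = 0 := by omega
    have h4 := hM m (by omega) x hx0 hx1 p (by simpa using hp0) (by simpa using hp1)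
    rw [h4]
    simp
  · obtain ⟨M, hM⟩ := final_pos hK h1 h2
    refine ⟨M + M0 + 1, fun m hm x hx0 hx1 => ⟨cell_exists (by omega) (hcell m (by omega) x hx0), ?_⟩⟩
    intro p i hi hp0 hp1
    exact hM m (by omega) x hx0 hx1 p i hi hp0 hp1

end Pool.Agent.H86.ZN
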