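import Pool.Agent.H86.ZN.Face

/-!
# Project ZN: links

`Link m v v' w N`: `v = N w/m`, `v' = (N+1) w/m`, `w` a face, `F v = w + N F w/m`, `F (v + y/m) = F v + F y/m` on `[0, w]`.
Consequences (`joint`): `(N+1) v = N v'`, `(N+1) F v + m v = N F v' + m v'` (`F v' = F v + F w/m`).
Model: `Pool/Agent/H86/Z1/Tq.lean` (there `v = q/m`, `v' = (q+1)/m`, `w = 1`, `N = q`).

Proof sketches.
* `T_ge` (`N v' ≤ X`): `Y = X - N v' ≥ 0`; `TT v X = m v + (N+1) F v + FQ v Y` (`N v' = (N+1) v`), `TT v' X = m v' + N F v' + FQ v' Y`, `joint` and `FQ_mono_pos`.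
* `T_le` (`0 ≤ X ≤ N v'`): `X = n v' + a`, `0 ≤ a < v'`. If `n ≥ N` then `X = N v'` and both sides are equal. Otherwise `n + 1 ≤ N`, `TT v' X = m v' + n F v' + F a`,
  `X = n v + (n w/m + a)`, `TT v X = m v + n F v + FQ v (n w/m + a)`, so to prove `FQ v (n w/m + a) ≤ w + n F w/m + F a` (`v' - v = w/m`, `F v' - F v = F w/m`).
  `a ≤ v`: `FQ v (n w/m + a) ≤ F (n w/m) + F a` (`FQ_qsub`, `FQ_mem`, `n w/m ≤ v`) and `F (n w/m) ≤ w + n F w/m` (`F_le_T` for the face `w`: `TT w (n w) = m w + n F w`, `n w/m ≤ w`).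
  `a = v + y/m`, `0 ≤ y ≤ w`: `FQ v (n w/m + a) = F v + FQ v ((n w + y)/m)`, `(n w + y)/m ≤ N w/m = v`, `F ((n w + y)/m) ≤ (m w + n F w + F y)/m` (`F_le_T`, `FQ w (n w + y) ≤ n F w + F y`),
  `F a = F v + F y/m` (`Link.ex`).
* `F_le_T'`: for `x ≤ v` `F_le_T`; for `x = v + y/m`: `F x = F v + F y/m`, `FQ v (m x) = m F v + FQ v y` and `F y ≤ FQ v y` (`F_le_FQ`).
* `top_merge`: `t i = m (x i - v) ∈ [0, τ]`, `τ = m (hi - v) ≤ w`, `F (x i) = F v + F (t i)/m`; `F_tuple` for `t i` (`i ∈ P`), `0` (others), bounds `0`, `τ`.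
* `exch_few0`, `exch_many0`: as `exch_few`, `exch_many` of `Pool/Agent/H86/Z1/Exch.lean` with `lo = 0`, without the set `A`: few: `μ = ∑_P x i - |P| v ≤ N w/m = v`, everything is merged by
  `FQ_qsub v`. Many: a subset `P` of exactly `N + 1` elements, `μ ≤ (N+1) w/m = v'`, `(N+1) F v + m v = N F v' + m v'`, `(N+1) v = N v'`, merge by `FQ_qsub v'`.
* `exch_few`, `exch_many`: the same with a set `A` of entries and a real number `c` with `FQ V (∑_A x i) + m lo ≤ ∑_A F (x i)`, `V = v` or `v'` (hypothesis `hA`), `x i ≤ v` for `i ∈ A`.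
  (`exch_few0` is the case `A = ∅`, `lo = 0`.)
-/

set_option autoImplicit false

namespace Pool.Agent.H86.ZN

open Finset Pool.Agent.H14RC Pool.Agent.H86.FM Pool.Agent.H86.Z1

structure Link (m : ℕ) (v v' w : ℝ) (N : ℕ) : Prop where
  face : Face m w
  pos : 1 ≤ N
  lt : N + 1 ≤ m
  hv : m * v = N * w
  hv' : m * v' = (N + 1) * w
  hF : m * F m v = m * w + N * F m w
  ex : ∀ y : ℝ, 0 ≤ y → y ≤ w → F m (v + y / m) = F m v + F m y / m

theorem Link.joint {m : ℕ} (hm : 2 ≤ m) {v v' w : ℝ} {N : ℕ} (h : Link m v v' w N) :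
    ((N : ℝ) + 1) * v = N * v' ∧ ((N : ℝ) + 1) * F m v + m * v = N * F m v' + m * v' ∧
      F m v' = F m v + F m w / m ∧ v' = v + w / m := by
  have hm0 : (0 : ℝ) < m := by
    have : 0 < m := by omega
    exact_mod_cast this
  have e1 : v' = v + w / m := by
    have h1 : (m : ℝ) * v' = m * (v + w / m) := by
      rw [h.hv', mul_add, h.hv]
      field_simp
    exact mul_left_cancel₀ hm0.ne' h1
  have e2 : F m v' = F m v + F m w / m := by
    rw [e1]
    exact h.ex w h.face.pos.le (le_refl w)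
  have e3 : ((N : ℝ) + 1) * v = N * v' := by
    have h1 : (m : ℝ) * (((N : ℝ) + 1) * v) = m * (N * v') := by
      linear_combination ((N : ℝ) + 1) * h.hv - (N : ℝ) * h.hv'
    exact mul_left_cancel₀ hm0.ne' h1
  refine ⟨e3, ?_, e2, e1⟩
  have h1 : F m v = w + N * (F m w / m) := by
    have h2 : (m : ℝ) * F m v = m * (w + N * (F m w / m)) := by
      rw [h.hF]
      field_simp
    exact mul_left_cancel₀ hm0.ne' h2
  have h2 : (m : ℝ) * v' = m * v + w := by
    rw [h.hv, h.hv']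
    ring
  rw [e2]
  linear_combination h1 - h2

private theorem link_le {m : ℕ} (hm : 2 ≤ m) {v v' w : ℝ} {N : ℕ} (h : Link m v v' w N) : v ≤ v' := by
  rw [(h.joint hm).2.2.2]
  have hm0 : (0 : ℝ) ≤ m := Nat.cast_nonneg m
  have := div_nonneg h.face.pos.le hm0
  linarith

private theorem FQ_add_int {m : ℕ} (hm : 2 ≤ m) {v : ℝ} (hv : Face m v) (X : ℝ) (n : ℤ) :
    FQ m v (X + n * v) = FQ m v X + n * F m v := (FQ_qsub hm hv).int X n

theorem T_ge {m : ℕ} (hm : 2 ≤ m) {v v' w : ℝ} {N : ℕ} (h : Link m v v' w N) (hv : Face m v) (hv' : Face m v') {X : ℝ}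
    (hX : (N : ℝ) * v' ≤ X) : TT m v' X ≤ TT m v X := by
  obtain ⟨j1, j2, -, -⟩ := h.joint hm
  have h1 := FQ_mono_pos hm hv hv' (link_le hm h) (y := X - N * v') (by linarith)
  have h2 := FQ_add_int hm hv (X - N * v') ((N : ℤ) + 1)
  have h3 := FQ_add_int hm hv' (X - N * v') (N : ℤ)
  have h4 : X - N * v' + (((N : ℤ) + 1 : ℤ) : ℝ) * v = X := by
    push_cast
    linear_combination j1
  have h5 : X - N * v' + ((N : ℤ) : ℝ) * v' = X := by
    push_cast
    ring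
  rw [h4] at h2
  rw [h5] at h3
  unfold TT
  rw [h2, h3]
  push_cast
  linarith

theorem T_le {m : ℕ} (hm : 2 ≤ m) {v v' w : ℝ} {N : ℕ} (h : Link m v v' w N) (hv : Face m v) (hv' : Face m v') {X : ℝ}
    (hX0 : 0 ≤ X) (hX : X ≤ (N : ℝ) * v') : TT m v X ≤ TT m v' X := by
  obtain ⟨j1, j2, -, -⟩ := h.joint hm
  have h1 := FQ_mono_neg hm hv hv' (link_le hm h) (y := N * v' - X) (by linarith)
  have h2 := FQ_add_int hm hv (-(N * v' - X)) ((N : ℤ) + 1)
  have h3 := FQ_add_int hm hv' (-(N * v' - X)) (N : ℤ)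
  have h4 : -(N * v' - X) + (((N : ℤ) + 1 : ℤ) : ℝ) * v = X := by
    push_cast
    linear_combination j1
  have h5 : -(N * v' - X) + ((N : ℤ) : ℝ) * v' = X := by
    push_cast
    ring
  rw [h4] at h2
  rw [h5] at h3
  unfold TT
  rw [h2, h3]
  push_cast
  linarith

theorem F_le_T' {m : ℕ} (hm : 2 ≤ m) {v v' w : ℝ} {N : ℕ} (h : Link m v v' w N) (hv : Face m v) {x : ℝ}
    (h0 : 0 ≤ x) (h1 : x ≤ v') : m * F m x ≤ TT m v (m * x) := by
  rcases le_total x v with h2 | h2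
  · exact F_le_T hm hv.pos hv.le h0 h2
  · have hm0 : (0 : ℝ) < m := by
      have : 0 < m := by omega
      exact_mod_cast this
    have hy0 : 0 ≤ m * (x - v) := mul_nonneg hm0.le (by linarith)
    have hy1 : m * (x - v) ≤ w := by
      have h3 : (m : ℝ) * v' = m * v + w := by
        rw [h.hv, h.hv']
        ring
      have h4 : (m : ℝ) * x ≤ m * v' := mul_le_mul_of_nonneg_left h1 hm0.le
      linarith
    have h3 := h.ex (m * (x - v)) hy0 hy1
    have h4 : v + m * (x - v) / m = x := by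
      field_simp
      ring
    rw [h4] at h3
    have h5 := F_le_FQ hm hv.pos hv.le hy0 (hy1.trans h.face.le)
    have h6 := FQ_add_int hm hv (m * (x - v)) (m : ℤ)
    have h7 : (m : ℝ) * (x - v) + ((m : ℤ) : ℝ) * v = m * x := by
      push_cast
      ring
    rw [h7] at h6
    unfold TT
    rw [h6, h3]
    have h8 : (m : ℝ) * (F m v + F m (m * (x - v)) / m) = m * F m v + F m (m * (x - v)) := by
      field_simp
    have h9 : 0 < (m : ℝ) * v := mul_pos hm0 hv.pos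
    rw [h8]
    push_cast
    linarith

theorem top_merge {m : ℕ} (hm : 2 ≤ m) {v v' w : ℝ} {N : ℕ} (h : Link m v v' w N)
    (x : Fin m → ℝ) (P : Finset (Fin m)) {hi : ℝ} (hP : ∀ i ∈ P, v ≤ x i ∧ x i ≤ hi) (h1 : v ≤ hi) (h2 : hi ≤ v') :
    P.card * F m v + F m (∑ i ∈ P, x i - P.card * v) ≤ ∑ i ∈ P, F m (x i) + m * (hi - v) := by
  classical
  have hm0 : (0 : ℝ) < m := by
    have : 0 < m := by omega
    exact_mod_cast this
  have hw : (m : ℝ) * v' = m * v + w := by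
    rw [h.hv, h.hv']
    ring
  have hτ0 : 0 ≤ m * (hi - v) := mul_nonneg hm0.le (by linarith)
  have hτ1 : m * (hi - v) ≤ w := by
    have h4 : (m : ℝ) * hi ≤ m * v' := mul_le_mul_of_nonneg_left h2 hm0.le
    linarith
  have ht : ∀ i ∈ P, 0 ≤ m * (x i - v) ∧ m * (x i - v) ≤ m * (hi - v) := fun i hi' =>
    ⟨mul_nonneg hm0.le (by linarith [(hP i hi').1]),
      mul_le_mul_of_nonneg_left (by linarith [(hP i hi').2]) hm0.le⟩
  have key := F_tuple hm (fun i => if i ∈ P then m * (x i - v) else 0) (le_refl 0)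
    (hτ1.trans h.face.le) (by
      intro i
      show 0 ≤ (if i ∈ P then m * (x i - v) else 0) ∧ (if i ∈ P then m * (x i - v) else 0) ≤ _
      split_ifs with hi'
      · exact ht i hi'
      · exact ⟨le_refl _, hτ0⟩)
  have e1 : (∑ i, if i ∈ P then m * (x i - v) else 0) = m * (∑ i ∈ P, x i - P.card * v) := by
    rw [Finset.sum_ite_mem, Finset.univ_inter, ← Finset.mul_sum, Finset.sum_sub_distrib,
      Finset.sum_const, nsmul_eq_mul]
  have e2 : (∑ i, F m (if i ∈ P then m * (x i - v) else 0)) = ∑ i ∈ P, F m (m * (x i - v)) := by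
    have h3 : ∀ i, F m (if i ∈ P then m * (x i - v) else 0) =
        if i ∈ P then F m (m * (x i - v)) else 0 := by
      intro i
      split_ifs
      · rfl
      · exact F_zero hm
    rw [Finset.sum_congr rfl (fun i _ => h3 i), Finset.sum_ite_mem, Finset.univ_inter]
  have e3 : ∑ i ∈ P, F m (x i) = P.card * F m v + (∑ i ∈ P, F m (m * (x i - v))) / m := by
    rw [Finset.sum_div, ← nsmul_eq_mul, ← Finset.sum_const, ← Finset.sum_add_distrib]
    refine Finset.sum_congr rfl fun i hi' => ?_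
    have h3 := h.ex (m * (x i - v)) (ht i hi').1 ((ht i hi').2.trans hτ1)
    have h4 : v + m * (x i - v) / m = x i := by
      field_simp
      ring
    rwa [h4] at h3
  rw [e1, e2, mul_div_cancel_left₀ _ hm0.ne', sub_zero] at key
  rw [e3]
  linarith

theorem exch_few {m : ℕ} (hm : 2 ≤ m) {v v' w : ℝ} {N : ℕ} (h : Link m v v' w N) (hv : Face m v)
    (x : Fin m → ℝ) (A : Finset (Fin m)) {lo hi : ℝ} (hx : ∀ i, 0 ≤ x i ∧ x i ≤ hi) (h1 : v ≤ hi) (h2 : hi ≤ v')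
    (hAv : ∀ i ∈ A, x i ≤ v) (hA : FQ m v (∑ i ∈ A, x i) + m * lo ≤ ∑ i ∈ A, F m (x i))
    (hfew : (univ.filter (fun i => v < x i)).card ≤ N) :
    TT m v (∑ i, x i) ≤ ∑ i, F m (x i) + m * (hi - lo) := by
  classical
  have hm0 : (0 : ℝ) < m := by
    have : 0 < m := by omega
    exact_mod_cast this
  obtain ⟨j1, j2, -, j4⟩ := h.joint hm
  set P := univ.filter (fun i => v < x i) with hPd
  have hPm : ∀ i ∈ P, v ≤ x i ∧ x i ≤ hi := fun i hi' =>
    ⟨(Finset.mem_filter.1 hi').2.le, (hx i).2⟩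
  have hdis : Disjoint A P := by
    rw [Finset.disjoint_left]
    intro i hiA hiP
    exact absurd (Finset.mem_filter.1 hiP).2 (not_lt.2 (hAv i hiA))
  have htop := top_merge hm h x P hPm h1 h2
  set μ := ∑ i ∈ P, x i - P.card * v with hμ
  have hμ0 : 0 ≤ μ := by
    have h3 : ∑ i ∈ P, v ≤ ∑ i ∈ P, x i := Finset.sum_le_sum fun i hi' => (hPm i hi').1
    rw [Finset.sum_const, nsmul_eq_mul] at h3
    rw [hμ]
    linarith
  have hμ1 : μ ≤ v := by
    have h3 : ∑ i ∈ P, x i ≤ ∑ i ∈ P, v' := Finset.sum_le_sum fun i hi' => (hPm i hi').2.trans h2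
    rw [Finset.sum_const, nsmul_eq_mul] at h3
    have h4 : (P.card : ℝ) ≤ N := by exact_mod_cast hfew
    have h5 : (P.card : ℝ) * v' - P.card * v = P.card * (w / m) := by
      rw [j4]
      ring
    have h6 : (P.card : ℝ) * (w / m) ≤ N * (w / m) :=
      mul_le_mul_of_nonneg_right h4 (div_nonneg h.face.pos.le hm0.le)
    have h7 : (N : ℝ) * (w / m) = v := by
      rw [← mul_div_assoc, ← h.hv]
      field_simp
    rw [hμ]
    linarith
  set B := univ \ (A ∪ P) with hBd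
  have hsplit : ∀ f : Fin m → ℝ, ∑ i, f i = ∑ i ∈ A, f i + ∑ i ∈ P, f i + ∑ i ∈ B, f i := by
    intro f
    rw [hBd, ← Finset.sum_sdiff (Finset.subset_univ (A ∪ P)), Finset.sum_union hdis]
    ring
  have hB : ∑ i ∈ B, F m (x i) = ∑ i ∈ B, FQ m v (x i) := by
    refine Finset.sum_congr rfl fun i hi' => ?_
    have h3 : x i ≤ v := by
      by_contra hcon
      push Not at hcon
      have h4 : i ∈ P := Finset.mem_filter.2 ⟨Finset.mem_univ i, hcon⟩
      exact (Finset.mem_sdiff.1 hi').2 (Finset.mem_union_right _ h4)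
    exact (FQ_mem hm hv.pos (hx i).1 h3).symm
  have hs := FQ_qsub hm hv
  have k1 := hs.sum B x
  have k2 := hs.sub (∑ i ∈ A, x i) (μ + (P.card : ℤ) * v)
  have k3 := FQ_add_int hm hv μ (P.card : ℤ)
  have k4 := hs.sub (∑ i ∈ A, x i + (μ + (P.card : ℤ) * v)) (∑ i ∈ B, x i)
  have k5 : ∑ i, x i = ∑ i ∈ A, x i + (μ + ((P.card : ℤ) : ℝ) * v) + ∑ i ∈ B, x i := by
    rw [hsplit x, hμ]
    push_cast
    ring
  have k6 : FQ m v μ = F m μ := FQ_mem hm hv.pos hμ0 hμ1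
  have k7 := hsplit (fun i => F m (x i))
  unfold TT
  rw [k5, k7]
  push_cast at k2 k3 k4 ⊢
  linarith

theorem exch_many {m : ℕ} (hm : 2 ≤ m) {v v' w : ℝ} {N : ℕ} (h : Link m v v' w N) (hv : Face m v) (hv' : Face m v')
    (x : Fin m → ℝ) (A : Finset (Fin m)) {lo hi : ℝ} (hx : ∀ i, 0 ≤ x i ∧ x i ≤ hi) (h1 : v ≤ hi) (h2 : hi ≤ v')
    (hAv : ∀ i ∈ A, x i ≤ v) (hA : FQ m v' (∑ i ∈ A, x i) + m * lo ≤ ∑ i ∈ A, F m (x i))
    (hmany : N + 1 ≤ (univ.filter (fun i => v < x i)).card) :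
    TT m v' (∑ i, x i) ≤ ∑ i, F m (x i) + m * (hi - lo) := by
  classical
  have hm0 : (0 : ℝ) < m := by
    have : 0 < m := by omega
    exact_mod_cast this
  obtain ⟨j1, j2, -, j4⟩ := h.joint hm
  obtain ⟨P, hPs, hPc⟩ := Finset.exists_subset_card_eq hmany
  have hPv : ∀ i ∈ P, v < x i := fun i hi' => (Finset.mem_filter.1 (hPs hi')).2
  have hPm : ∀ i ∈ P, v ≤ x i ∧ x i ≤ hi := fun i hi' => ⟨(hPv i hi').le, (hx i).2⟩
  have hdis : Disjoint A P := by
    rw [Finset.disjoint_left]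
    intro i hiA hiP
    exact absurd (hPv i hiP) (not_lt.2 (hAv i hiA))
  have htop := top_merge hm h x P hPm h1 h2
  have hPc' : (P.card : ℝ) = N + 1 := by
    rw [hPc]
    push_cast
    ring
  rw [hPc'] at htop
  set μ := ∑ i ∈ P, x i - ((N : ℝ) + 1) * v with hμ
  have hμ0 : 0 ≤ μ := by
    have h3 : ∑ i ∈ P, v ≤ ∑ i ∈ P, x i := Finset.sum_le_sum fun i hi' => (hPm i hi').1
    rw [Finset.sum_const, nsmul_eq_mul, hPc'] at h3
    rw [hμ]
    linarith
  have hμ1 : μ ≤ v' := by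
    have h3 : ∑ i ∈ P, x i ≤ ∑ i ∈ P, v' := Finset.sum_le_sum fun i hi' => (hPm i hi').2.trans h2
    rw [Finset.sum_const, nsmul_eq_mul, hPc'] at h3
    rw [hμ]
    linarith
  set B := univ \ (A ∪ P) with hBd
  have hsplit : ∀ f : Fin m → ℝ, ∑ i, f i = ∑ i ∈ A, f i + ∑ i ∈ P, f i + ∑ i ∈ B, f i := by
    intro f
    rw [hBd, ← Finset.sum_sdiff (Finset.subset_univ (A ∪ P)), Finset.sum_union hdis]
    ring
  have hB : ∑ i ∈ B, F m (x i) = ∑ i ∈ B, FQ m v' (x i) := by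
    refine Finset.sum_congr rfl fun i _ => ?_
    exact (FQ_mem hm hv'.pos (hx i).1 ((hx i).2.trans h2)).symm
  have hs := FQ_qsub hm hv'
  have k1 := hs.sum B x
  have k2 := hs.sub (∑ i ∈ A, x i) (μ + (N : ℤ) * v')
  have k3 := FQ_add_int hm hv' μ (N : ℤ)
  have k4 := hs.sub (∑ i ∈ A, x i + (μ + (N : ℤ) * v')) (∑ i ∈ B, x i)
  have k5 : ∑ i, x i = ∑ i ∈ A, x i + (μ + ((N : ℤ) : ℝ) * v') + ∑ i ∈ B, x i := by
    rw [hsplit x, hμ]
    push_cast
    linear_combination j1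
  have k6 : FQ m v' μ = F m μ := FQ_mem hm hv'.pos hμ0 hμ1
  have k7 := hsplit (fun i => F m (x i))
  unfold TT
  rw [k5, k7]
  push_cast at k2 k3 k4 ⊢
  linarith

end Pool.Agent.H86.ZN
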