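import Pool.Agent.H86.ZN.Face
import Pool.Agent.H86.Z1.Om

/-!
# Project ZN: the monotonicity inequality for a face `W`, by maximality

Model: `Pool/Agent/H86/Z1/Om.lean` (the case `W = 1`, `FQ 1 = Ft`, `V = 3/4 - 5/m`, `e1 = 1/4 + 5/m`).

`Kw b = sSup {y | ∃ D, 0 ≤ D ∧ D ≤ m b ∧ y = F (b - D/m) - FQ W (-D)/m}` for `b < e1`, `= F b` for `b ≥ e1`.
Bounded: `F ≤ m/(m-1) ≤ 2` and `FQ_lower` (`D ≤ m b ≤ m`).
Proof sketch: as in `Z1/Om` (`om_set` can be reused). Lowering inequality: `F (x - D/m) - FQ W (-D)/m ≤ Kw x` for `0 ≤ x ≤ V`, `0 ≤ D ≤ m x` (definition or `hmid`).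
Tuple with mean `w < e1`, `0 ≤ D ≤ m w`, `e = D/m`:
* `hi ≤ V`, all `x i ≥ e`: `F_tuple` for `x i - e`.
* `hi ≤ V`, some `x i < e`: `Z`, `j` from `om_set`, `e' = ∑_Z (e - x i) ≤ x j - e`; the tuple `0` (`i ∈ Z`), `x j - e - e'`, `x i - e` (others), bounds `0`, `hi - e`:
  `∑ F ≤ ∑_{i ∉ Z} Kw (x i) + (m - |Z|) FQ W (-D)/m + FQ W (-m e')/m` (subadditivity of `FQ W`), `-m e' = -|Z| D + ∑_Z m x i`,
  `FQ W (-m e') ≤ |Z| FQ W (-D) + m ∑_Z F (x i)` (`FQ_mul`: `x i < e ≤ w < e1 ≤ V ≤ W`), and `F (x i) ≤ Kw (x i)`.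
* `hi > V`: `hfar`.
Mean `w ≥ e1`: `F_tuple`, `F ≤ Kw`. So `Kw ≤ F` (`le_F_of`), which is the claim for `b < e1`; for `b ≥ e1` it is `hmid`.
-/

set_option autoImplicit false

namespace Pool.Agent.H86.ZN

open Finset Pool.Agent.H14RC Pool.Agent.H86.FM Pool.Agent.H86.Z1

private theorem F_le_two {m : ℕ} (hm : 3 ≤ m) {x : ℝ} (h0 : 0 ≤ x) (h1 : x ≤ 1) : F m x ≤ 2 := by
  have hmR : (3 : ℝ) ≤ m := by exact_mod_cast hm
  refine (F_le_sup (m := m) (by omega) h0 h1).trans ?_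
  rw [div_le_iff₀ (by linarith)]
  linarith

private noncomputable def Kw (m : ℕ) (W e1 b : ℝ) : ℝ :=
  if b < e1 then sSup {y : ℝ | ∃ D : ℝ, 0 ≤ D ∧ D ≤ m * b ∧ y = F m (b - D / m) - FQ m W (-D) / m} else F m b

private theorem val_le {m : ℕ} (hm : 3 ≤ m) {W : ℝ} (hW : Face m W) {b D : ℝ} (_h0 : 0 ≤ b) (h1 : b ≤ 1)
    (hD0 : 0 ≤ D) (hD : D ≤ m * b) : F m (b - D / m) - FQ m W (-D) / m ≤ 4 + 2 / W := by
  have hmR : (3 : ℝ) ≤ m := by exact_mod_cast hm
  have hm0 : (0 : ℝ) < m := by linarith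
  have hDm : D / m ≤ b := by
    rw [div_le_iff₀ hm0]
    linarith
  have hDm0 : 0 ≤ D / m := by positivity
  have hF := F_le_two hm (x := b - D / m) (by linarith) (by linarith)
  have hFW := F_le_two hm hW.pos.le hW.le
  have hFW0 : 0 ≤ F m W := F_nonneg (by omega) hW.pos.le hW.le
  have hl := FQ_lower (m := m) (by omega) hW.pos hW.le hD0
  have hDm1 : D ≤ m := hD.trans (by nlinarith)
  have h2 : D / W * F m W ≤ m * (2 / W) := by
    have h3 : D / W ≤ m / W := div_le_div_of_nonneg_right hDm1 hW.pos.le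
    have h4 : D / W * F m W ≤ m / W * 2 := mul_le_mul h3 hFW hFW0 (by have := hW.pos; positivity)
    have h5 : (m : ℝ) / W * 2 = m * (2 / W) := by ring
    linarith
  have h6 : -(2 / W + 2) ≤ FQ m W (-D) / m := by
    rw [le_div_iff₀ hm0]
    linarith
  linarith

private theorem bdd {m : ℕ} (hm : 3 ≤ m) {W : ℝ} (hW : Face m W) {b : ℝ} (h0 : 0 ≤ b) (h1 : b ≤ 1) :
    BddAbove {y : ℝ | ∃ D : ℝ, 0 ≤ D ∧ D ≤ m * b ∧ y = F m (b - D / m) - FQ m W (-D) / m} := by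
  refine ⟨4 + 2 / W, ?_⟩
  rintro _ ⟨D, hD0, hD, rfl⟩
  exact val_le hm hW h0 h1 hD0 hD

private theorem kw_lt {m : ℕ} {W e1 b : ℝ} (h : b < e1) :
    Kw m W e1 b = sSup {y : ℝ | ∃ D : ℝ, 0 ≤ D ∧ D ≤ m * b ∧ y = F m (b - D / m) - FQ m W (-D) / m} := by
  unfold Kw
  rw [if_pos h]

private theorem kw_ge {m : ℕ} {W e1 b : ℝ} (h : e1 ≤ b) : Kw m W e1 b = F m b := by
  unfold Kw
  rw [if_neg (not_lt.2 h)]

private theorem F_le_Kw {m : ℕ} (hm : 3 ≤ m) {W e1 : ℝ} (hW : Face m W) {b : ℝ} (h0 : 0 ≤ b) (h1 : b ≤ 1) :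
    F m b ≤ Kw m W e1 b := by
  rcases lt_or_ge b e1 with h | h
  · rw [kw_lt h]
    refine le_csSup (bdd hm hW h0 h1) ⟨0, le_refl _, by positivity, ?_⟩
    rw [neg_zero, (FQ_qsub (by omega) hW).zero, zero_div, sub_zero, sub_zero]
  · rw [kw_ge h]

private theorem kw_nonempty {m : ℕ} {W b : ℝ} (h0 : 0 ≤ b) :
    {y : ℝ | ∃ D : ℝ, 0 ≤ D ∧ D ≤ m * b ∧ y = F m (b - D / m) - FQ m W (-D) / m}.Nonempty :=
  ⟨_, 0, le_refl _, by positivity, rfl⟩

private theorem kw_lower {m : ℕ} (hm : 3 ≤ m) {W V e1 : ℝ} (hW : Face m W) (hVW : V ≤ W)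
    (hmid : ∀ b D : ℝ, e1 ≤ b → b ≤ V → 0 ≤ D → D ≤ m * b → F m (b - D / m) ≤ F m b + FQ m W (-D) / m)
    {x D : ℝ} (h0 : 0 ≤ x) (h1 : x ≤ V) (hD0 : 0 ≤ D) (hD : D ≤ m * x) :
    F m (x - D / m) ≤ Kw m W e1 x + FQ m W (-D) / m := by
  rcases lt_or_ge x e1 with h | h
  · rw [kw_lt h]
    have := le_csSup (bdd hm hW h0 (h1.trans (hVW.trans hW.le))) ⟨D, hD0, hD, rfl⟩
    linarith
  · rw [kw_ge h]
    exact hmid x D h h1 hD0 hD

private theorem kw_low {m : ℕ} (hm : 3 ≤ m) {W V e1 : ℝ} (hW : Face m W) (hVW : V ≤ W)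
    (hmid : ∀ b D : ℝ, e1 ≤ b → b ≤ V → 0 ≤ D → D ≤ m * b → F m (b - D / m) ≤ F m b + FQ m W (-D) / m)
    (x : Fin m → ℝ) {lo hi D : ℝ} (hlo : 0 ≤ lo) (hhi : hi ≤ V) (hx : ∀ i, lo ≤ x i ∧ x i ≤ hi)
    (hD0 : 0 ≤ D) (hD : ∀ i, D / m ≤ x i) :
    F m ((∑ i, x i - D) / m) ≤ (∑ i, Kw m W e1 (x i)) / m + FQ m W (-D) / m + (hi - lo) := by
  have hmR : (3 : ℝ) ≤ m := by exact_mod_cast hm
  have hm0 : (0 : ℝ) < m := by linarith
  have hDm0 : 0 ≤ D / m := by positivity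
  have hV1 : V ≤ 1 := hVW.trans hW.le
  have h := F_tuple (m := m) (by omega) (fun i => x i - D / m) (lo := max lo (D / m) - D / m) (hi := hi - D / m)
    (by linarith [le_max_right lo (D / m)]) (by linarith)
    (fun i => ⟨by linarith [max_le (hx i).1 (hD i)], by linarith [(hx i).2]⟩)
  have hsum : ∑ i, (x i - D / m) = ∑ i, x i - D := by
    rw [Finset.sum_sub_distrib, Finset.sum_const, Finset.card_univ, Fintype.card_fin, nsmul_eq_mul]
    field_simp
  rw [hsum] at h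
  have hK : ∑ i, F m (x i - D / m) ≤ ∑ i, Kw m W e1 (x i) + FQ m W (-D) := by
    have h1 : ∑ i, F m (x i - D / m) ≤ ∑ i : Fin m, (Kw m W e1 (x i) + FQ m W (-D) / m) := by
      refine Finset.sum_le_sum fun i _ => ?_
      refine kw_lower hm hW hVW hmid (hlo.trans (hx i).1) ((hx i).2.trans hhi) hD0 ?_
      have := hD i
      rw [div_le_iff₀ hm0] at this
      linarith
    rw [Finset.sum_add_distrib, Finset.sum_const, Finset.card_univ, Fintype.card_fin, nsmul_eq_mul] at h1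
    have h2 : (m : ℝ) * (FQ m W (-D) / m) = FQ m W (-D) := by field_simp
    linarith
  have h3 := div_le_div_of_nonneg_right hK hm0.le
  rw [add_div] at h3
  linarith [le_max_left lo (D / m)]

private theorem kw_move {m : ℕ} (hm : 3 ≤ m) {W V e1 : ℝ} (hW : Face m W) (hVW : V ≤ W)
    (hmid : ∀ b D : ℝ, e1 ≤ b → b ≤ V → 0 ≤ D → D ≤ m * b → F m (b - D / m) ≤ F m b + FQ m W (-D) / m)
    (x : Fin m → ℝ) {lo hi D : ℝ} (hlo : 0 ≤ lo) (hhi : hi ≤ V) (hx : ∀ i, lo ≤ x i ∧ x i ≤ hi)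
    (hD0 : 0 ≤ D) (hD : D ≤ ∑ i, x i) (hex : ∃ i, x i < D / m) :
    F m ((∑ i, x i - D) / m) ≤ (∑ i, Kw m W e1 (x i)) / m + FQ m W (-D) / m + (hi - lo) := by
  classical
  have hmR : (3 : ℝ) ≤ m := by exact_mod_cast hm
  have hm0 : (0 : ℝ) < m := by linarith
  have hV1 : V ≤ 1 := hVW.trans hW.le
  have hq := FQ_qsub (m := m) (by omega) hW
  set e : ℝ := D / m with he
  have hme : (m : ℝ) * e = D := by rw [he]; field_simp
  have he0 : 0 ≤ e := by rw [he]; positivity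
  have hsum : ∑ i, (x i - e) = ∑ i, x i - D := by
    rw [Finset.sum_sub_distrib, Finset.sum_const, Finset.card_univ, Fintype.card_fin, nsmul_eq_mul, hme]
  obtain ⟨Z, j, hjZ, hZ, hZ0, hZ1⟩ := om_set x hex (by rw [hsum]; linarith)
  set e' : ℝ := ∑ i ∈ Z, (e - x i) with he'
  have hout : ∀ i, i ∉ Z → e ≤ x i := fun i hi' => by
    by_contra h
    exact hi' (hZ i (not_le.1 h))
  have hx0 : ∀ i, 0 ≤ x i := fun i => hlo.trans (hx i).1
  have hxV : ∀ i, x i ≤ V := fun i => (hx i).2.trans hhi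
  have hlohi : lo ≤ e := by
    obtain ⟨i, hi'⟩ := hex
    exact (hx i).1.trans hi'.le
  -- the new tuple
  set z : Fin m → ℝ := fun i => if i ∈ Z then 0 else if i = j then x j - e - e' else x i - e with hz
  have hzZ : ∀ i ∈ Z, z i = 0 := fun i hi' => by simp only [hz, if_pos hi']
  have hzj : z j = x j - e - e' := by simp only [hz, if_neg hjZ, if_true]
  have hzo : ∀ i, i ∉ Z → i ≠ j → z i = x i - e := fun i hi' hij => by simp only [hz, if_neg hi', if_neg hij]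
  have hehi : e ≤ hi := (hout j hjZ).trans (hx j).2
  have hzb : ∀ i, 0 ≤ z i ∧ z i ≤ hi - e := by
    intro i
    by_cases h1 : i ∈ Z
    · rw [hzZ i h1]
      exact ⟨le_refl _, by linarith⟩
    · by_cases h2 : i = j
      · subst h2
        rw [hzj]
        exact ⟨by linarith, by linarith [(hx i).2]⟩
      · rw [hzo i h1 h2]
        exact ⟨by linarith [hout i h1], by linarith [(hx i).2]⟩
  -- sums split over `Z`, `j`, the others
  have hjc : j ∈ Zᶜ := Finset.mem_compl.2 hjZ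
  have hsplit : ∀ f : Fin m → ℝ, ∑ i, f i = ∑ i ∈ Z, f i + (f j + ∑ i ∈ Zᶜ.erase j, f i) := by
    intro f
    rw [Finset.add_sum_erase _ _ hjc, Finset.sum_add_sum_compl]
  have hmemE : ∀ i ∈ Zᶜ.erase j, i ∉ Z ∧ i ≠ j := fun i hi' => by
    rw [Finset.mem_erase, Finset.mem_compl] at hi'
    exact ⟨hi'.2, hi'.1⟩
  have hsz : ∑ i, z i = ∑ i, x i - D := by
    rw [← hsum, hsplit z, hsplit (fun i => x i - e), Finset.sum_eq_zero hzZ, hzj,
      Finset.sum_congr rfl (fun i hi' => hzo i (hmemE i hi').1 (hmemE i hi').2)]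
    have : ∑ i ∈ Z, (x i - e) = -e' := by
      rw [he', ← Finset.sum_neg_distrib]
      exact Finset.sum_congr rfl fun i _ => by ring
    rw [this]
    ring
  have h := F_tuple (m := m) (by omega) z (le_refl (0 : ℝ)) (by linarith) hzb
  rw [hsz] at h
  -- the values
  have hFo : ∀ i ∈ Zᶜ.erase j, F m (z i) ≤ Kw m W e1 (x i) + FQ m W (-D) / m := by
    intro i hi'
    rw [hzo i (hmemE i hi').1 (hmemE i hi').2, he]
    refine kw_lower hm hW hVW hmid (hx0 i) (hxV i) hD0 ?_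
    rw [← hme]
    exact mul_le_mul_of_nonneg_left (hout i (hmemE i hi').1) hm0.le
  have hFj : F m (z j) ≤ Kw m W e1 (x j) + (FQ m W (-D) / m + FQ m W (-(m * e')) / m) := by
    have h1 : z j = x j - (D + m * e') / m := by
      rw [hzj, add_div, mul_div_cancel_left₀ _ hm0.ne', ← he]
      ring
    rw [h1]
    have h2 := kw_lower hm hW hVW hmid (x := x j) (D := D + m * e') (hx0 j) (hxV j)
      (by positivity)
      (by
        rw [← hme, ← mul_add]
        exact mul_le_mul_of_nonneg_left (by linarith) hm0.le)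
    have h3 : FQ m W (-(D + m * e')) ≤ FQ m W (-D) + FQ m W (-(m * e')) := by
      rw [neg_add]
      exact hq.sub _ _
    have h4 := div_le_div_of_nonneg_right h3 hm0.le
    rw [add_div] at h4
    linarith
  have hFe : FQ m W (-(m * e')) ≤ Z.card * FQ m W (-D) + m * ∑ i ∈ Z, Kw m W e1 (x i) := by
    have h1 : -(m * e') = ∑ i ∈ Z, (-D + m * x i) := by
      rw [he', Finset.mul_sum, ← Finset.sum_neg_distrib]
      refine Finset.sum_congr rfl fun i _ => ?_
      rw [← hme]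
      ring
    rw [h1]
    refine (hq.sum Z _).trans ?_
    have h2 : ∑ i ∈ Z, FQ m W (-D + m * x i) ≤ ∑ i ∈ Z, (FQ m W (-D) + m * Kw m W e1 (x i)) := by
      refine Finset.sum_le_sum fun i _ => ?_
      refine (hq.sub _ _).trans ?_
      have h3 := FQ_mul (m := m) (by omega) hW (hx0 i) ((hxV i).trans hVW)
      have h4 : (m : ℝ) * F m (x i) ≤ m * Kw m W e1 (x i) :=
        mul_le_mul_of_nonneg_left (F_le_Kw hm hW (hx0 i) ((hxV i).trans hV1)) hm0.le
      linarith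
    refine h2.trans (le_of_eq ?_)
    rw [Finset.sum_add_distrib, Finset.sum_const, nsmul_eq_mul, Finset.mul_sum]
  have hcard : ((Zᶜ.erase j).card : ℝ) = m - Z.card - 1 := by
    have h1 : (Zᶜ.erase j).card + 1 = Zᶜ.card := Finset.card_erase_add_one hjc
    have h2 : Zᶜ.card + Z.card = m := by
      have := Finset.card_add_card_compl Z
      rw [Fintype.card_fin] at this
      omega
    have h3 : ((Zᶜ.erase j).card : ℝ) + 1 = (Zᶜ.card : ℝ) := by exact_mod_cast h1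
    have h4 : (Zᶜ.card : ℝ) + Z.card = m := by exact_mod_cast h2
    linarith
  have hFz : ∑ i, F m (z i) ≤ ∑ i, Kw m W e1 (x i) + FQ m W (-D) := by
    rw [hsplit (fun i => F m (z i)), hsplit (fun i => Kw m W e1 (x i))]
    have h1 : ∑ i ∈ Z, F m (z i) = 0 := by
      refine Finset.sum_eq_zero fun i hi' => ?_
      rw [hzZ i hi', F_zero (by omega)]
    have h2 : ∑ i ∈ Zᶜ.erase j, F m (z i) ≤
        ∑ i ∈ Zᶜ.erase j, Kw m W e1 (x i) + ((m : ℝ) - Z.card - 1) * (FQ m W (-D) / m) := by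
      refine (Finset.sum_le_sum hFo).trans (le_of_eq ?_)
      rw [Finset.sum_add_distrib, Finset.sum_const, nsmul_eq_mul, hcard]
    have h3 : FQ m W (-(m * e')) / m ≤ Z.card * (FQ m W (-D) / m) + ∑ i ∈ Z, Kw m W e1 (x i) := by
      rw [div_le_iff₀ hm0]
      have : (Z.card * (FQ m W (-D) / m) + ∑ i ∈ Z, Kw m W e1 (x i)) * m =
          Z.card * FQ m W (-D) + m * ∑ i ∈ Z, Kw m W e1 (x i) := by
        have hd : FQ m W (-D) / m * m = FQ m W (-D) := div_mul_cancel₀ _ hm0.ne'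
        linear_combination (Z.card : ℝ) * hd
      rw [this]
      exact hFe
    have h4 : (m : ℝ) * (FQ m W (-D) / m) = FQ m W (-D) := mul_div_cancel₀ _ hm0.ne'
    rw [h1]
    linarith
  have h5 := div_le_div_of_nonneg_right hFz hm0.le
  rw [add_div] at h5
  linarith

theorem om_general {m : ℕ} (hm : 3 ≤ m) {W V e1 : ℝ} (hW : Face m W) (hVW : V ≤ W) (he : 0 < e1) (heV : e1 ≤ V)
    (hmid : ∀ b D : ℝ, e1 ≤ b → b ≤ V → 0 ≤ D → D ≤ m * b → F m (b - D / m) ≤ F m b + FQ m W (-D) / m)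
    (hfar : ∀ (x : Fin m → ℝ) (lo hi D : ℝ), 0 ≤ lo → hi ≤ 1 → V ≤ hi → (∀ i, lo ≤ x i ∧ x i ≤ hi) →
      (∑ i, x i) / m < e1 → 0 ≤ D → D ≤ ∑ i, x i →
      m * F m ((∑ i, x i - D) / m) ≤ FQ m W (-D) + ∑ i, F m (x i) + m * (hi - lo)) :
    ∀ b D : ℝ, 0 ≤ b → b ≤ V → 0 ≤ D → D ≤ m * b → F m (b - D / m) ≤ F m b + FQ m W (-D) / m := by
  have hmR : (3 : ℝ) ≤ m := by exact_mod_cast hm
  have hm0 : (0 : ℝ) < m := by linarith
  have hV1 : V ≤ 1 := hVW.trans hW.le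
  have hq := FQ_qsub (m := m) (by omega) hW
  have hKF : ∀ y : ℝ, 0 ≤ y → y ≤ 1 → Kw m W e1 y ≤ F m y := by
    intro y hy0 hy1
    refine le_F_of (m := m) (by omega) ?_ ?_ ?_ ?_ hy0 hy1
    · rw [kw_lt he]
      refine csSup_le (kw_nonempty (le_refl _)) ?_
      rintro _ ⟨D, hD0, hD, rfl⟩
      have : D = 0 := le_antisymm (by simpa using hD) hD0
      rw [this, neg_zero, hq.zero, zero_div, sub_zero, sub_zero, F_zero (by omega)]
    · rw [kw_ge (heV.trans hV1), F_one (by omega)]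
    · refine ⟨4 + 2 / W, fun u hu0 hu1 => ?_⟩
      rcases lt_or_ge u e1 with h | h
      · rw [kw_lt h]
        refine csSup_le (kw_nonempty hu0) ?_
        rintro _ ⟨D, hD0, hD, rfl⟩
        exact val_le hm hW hu0 hu1 hD0 hD
      · rw [kw_ge h]
        have h1 := F_le_two hm hu0 hu1
        have h2 : 0 ≤ 2 / W := by have := hW.pos; positivity
        linarith
    · intro x lo hi hlo hhi hx
      have hFK : ∑ i, F m (x i) ≤ ∑ i, Kw m W e1 (x i) :=
        Finset.sum_le_sum fun i _ => F_le_Kw hm hW (hlo.trans (hx i).1) ((hx i).2.trans hhi)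
      have hFK' := div_le_div_of_nonneg_right hFK hm0.le
      rcases lt_or_ge ((∑ i, x i) / m) e1 with h | h
      · rw [kw_lt h]
        have hmean0 : 0 ≤ (∑ i, x i) / m :=
          div_nonneg (Finset.sum_nonneg fun i _ => hlo.trans (hx i).1) hm0.le
        refine csSup_le (kw_nonempty hmean0) ?_
        rintro _ ⟨D, hD0, hD, rfl⟩
        have hD' : D ≤ ∑ i, x i := by
          rwa [mul_div_cancel₀ _ hm0.ne'] at hD
        rw [← sub_div]
        rcases le_total V hi with hV | hV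
        · have h1 := hfar x lo hi D hlo hhi hV hx h hD0 hD'
          have h2 : F m ((∑ i, x i - D) / m) ≤ (FQ m W (-D) + ∑ i, F m (x i) + m * (hi - lo)) / m := by
            rw [le_div_iff₀ hm0]
            linarith
          rw [add_div, add_div, mul_div_cancel_left₀ _ hm0.ne'] at h2
          linarith
        · by_cases hall : ∀ i, D / m ≤ x i
          · have := kw_low (e1 := e1) hm hW hVW hmid x hlo hV hx hD0 hall
            linarith
          · have hex : ∃ i, x i < D / m := by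
              by_contra hne
              exact hall fun i => not_lt.1 fun hi' => hne ⟨i, hi'⟩
            have := kw_move (e1 := e1) hm hW hVW hmid x hlo hV hx hD0 hD' hex
            linarith
      · rw [kw_ge h]
        have h1 := F_tuple (m := m) (by omega) x hlo hhi hx
        linarith
  intro b D hb0 hbV hD0 hD
  have h1 := kw_lower hm hW hVW hmid hb0 hbV hD0 hD
  have h2 := hKF b hb0 (hbV.trans hV1)
  linarith

end Pool.Agent.H86.ZN
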