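import Pool.Agent.H86.ZN.ZZ
import Pool.Agent.H86.ZN.Grp

/-!
# Project ZN: the monotonicity inequality for the layers in zone `k` (`k ≥ 1` known, zone `k+1` to be proved)

`W = wk m k t`, `V = vq m (k+1) (t+1)`, `p = Nk k t`, `σ m ≤ p`, `ρ = p/m`, `ρ' = (p+1)/m ≤ upR (k+1)`. Facts: `V ≤ ρ'^(k+1)`, `V ≥ ρ^(k+1) ≥ σ^(k+1)` (`vq_upper`, `vq_lower`; the side of `t+1` is `≤ p+1`),
`W ≥ ρ^k ≥ σ^k` (the sides of `t - t/(k+1)` are `p` or `p+1`), `V ≤ W` (`V = (N+1) W/m`), `F W = W Sq W`, `Sq W ≤ k m/p = k/ρ` (all sides `≥ p`), `W` is a face.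

Proof sketches.
* `om_bound` : `m F (b - D/m) - FQ W (-D) ≤ m G (b - D/m) + D k/ρ + 8`: `F_le_G`, `FQ_lower`, `F W ≤ 2`, `F W / W = Sq W ≤ k/ρ`.
* `om_hmid`: `e1 = ρ1^(k+1) ≤ b ≤ V`. `t0 = (k+1) p0` with `loR (k+1) m ≤ p0 ≤ loR (k+1) m + 1`, `v t0 = (p0/m)^(k+1)` (`vq_cube`). If `v t0 ≤ b - D/m`: `Chain.down_le` (`W ≥` all lower layers, `wmono`).
  Otherwise `om_bound` and `F b ≥ G b`: with `δ = D/m`: `G b - G (b - δ) ≥ (b - e1) k/ρ' + (e1 - (b - δ)) k/ρ1` (`G_slope_ge` with `r = ρ'` and `r = ρ1`), and this is `≥ δ k/ρ + 8/m`, because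
  `(e1 - (b-δ)) (k/ρ1 - k/ρ) ≥ (e1 - (loR (k+1) + 1/m)^(k+1)) k (1/ρ1 - 1/σ) ≥ c > 0` and `(b - e1) (k/ρ - k/ρ') ≤ k/(m ρ²)`.
* `om_hfar`: mean `β < e1`, `hi ≥ V`. `om_bound` and `G β - G (β - δ) ≥ δ k/ρ1 ≥ δ k/ρ` (`G_slope_ge`): left side minus `FQ` is `≤ m G β + 8`.
  (1) `β ≤ b0`: `hi - lo ≥ V - β ≥ σ^(k+1) - b0`, `G β ≤ 2 √b0` (`G_le_sqrt`); `b0` with `σ^(k+1) - b0 - 2√b0 > 0`.
  (2) `β ≥ b0`: `stab_om`: slack `δ m ≥ 8`; or `hi ≤ σ^k ≤ W` and `A = {x i ≤ c0}` has `≥ m/4 ≥ m/5 + 15` elements. `s = ∑_A x i`.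
  (2a) `s > V`: `∑_A F ≥ κ s` (`G_ge_mul`), `m lo ≤ 5 s`, `∑_{not A} G + m hi ≥ m G ((∑ x - s)/m)` (`G_relaxed` in the form of `F_tuple`: `G_inClass`, tuple `0` on `A`), `m G β ≤ m G (β - s/m) + s/b0` (concavity). `κ ≥ 5 + 1/b0 + 8/V`.
  (2b) `s ≤ V ≤ hi`: `group`: `F s + m lo ≤ ∑_A F`; the tuple `y` = `s` at one element of `A`, `0` at the others, `x i` outside `A`; `remove_mass` (`hi ≤ W`).
* `om_zone`: `om_general` with `ρ1 = (loR (k+1) + σ)/2`.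
-/

set_option autoImplicit false

namespace Pool.Agent.H86.ZN

open Finset Pool.Agent.H14RC Pool.Agent.H86.FM Pool.Agent.H86.Z1

private theorem omb_div {k : ℕ} (hk : 1 ≤ k) (t : ℕ) : t / (k + 1) ≤ (t - t / (k + 1)) / k := by
  have ht : (k + 1) * (t / (k + 1)) + t % (k + 1) = t := Nat.div_add_mod t (k + 1)
  have e : (k + 1) * (t / (k + 1)) = k * (t / (k + 1)) + t / (k + 1) := by ring
  rw [Nat.le_div_iff_mul_le (by omega)]
  have e2 : t / (k + 1) * k = k * (t / (k + 1)) := Nat.mul_comm _ _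
  omega

theorem om_bound {k : ℕ} (hk : 1 ≤ k) {σ : ℝ} (hσ : loR (k + 1) < σ) (h : ZZ k (loR (k + 1)) (upR (k + 1))) :
    ∃ M : ℕ, ∀ m : ℕ, M ≤ m → ∀ t : ℕ, σ * m ≤ (Nk k t : ℝ) → (Nk k t : ℝ) + 1 ≤ upR (k + 1) * m →
    ∀ b D : ℝ, b ≤ 1 → 0 ≤ D → D ≤ m * b →
      m * F m (b - D / m) - FQ m (wk m k t) (-D) ≤ m * G (b - D / m) + D * (k / ((Nk k t : ℝ) / m)) + 8 := by
  obtain ⟨M, hM⟩ := h
  refine ⟨max M 2, fun m hm t hl hu b D hb hD0 hD => ?_⟩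
  have hm2 : 2 ≤ m := (le_max_right _ _).trans hm
  have hmR : (2 : ℝ) ≤ m := by exact_mod_cast hm2
  have hm0 : (0 : ℝ) < m := by linarith
  have hlo := loR_pos (k + 1)
  have hl' : loR (k + 1) * m ≤ (Nk k t : ℝ) := by
    have := mul_le_mul_of_nonneg_right hσ.le hm0.le
    linarith
  obtain ⟨hlink, hFW⟩ := hM m ((le_max_left _ _).trans hm) t hl' hu
  have hp0 : (0 : ℝ) < (Nk k t : ℝ) := lt_of_lt_of_le (by positivity) hl'
  have hp1 : 1 ≤ Nk k t := by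
    have : 0 < Nk k t := by exact_mod_cast hp0
    omega
  have hW := hlink.face
  have hDm : D / m ≤ b := by
    rw [div_le_iff₀ hm0]
    linarith
  have hDm0 : 0 ≤ D / m := by positivity
  have hF : F m (b - D / m) ≤ G (b - D / m) + 6 / m := F_le_G hm2 (by linarith) (by linarith)
  have hF' : m * F m (b - D / m) ≤ m * G (b - D / m) + 6 := by
    have h1 := mul_le_mul_of_nonneg_left hF hm0.le
    have h2 : (m : ℝ) * (G (b - D / m) + 6 / m) = m * G (b - D / m) + 6 := by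
      rw [mul_add, mul_div_cancel₀ _ hm0.ne']
    linarith
  have hlow := FQ_lower hm2 hW.pos hW.le hD0
  have hFW2 : F m (wk m k t) ≤ 2 := by
    refine (F_le_sup hm2 hW.pos.le hW.le).trans ?_
    rw [div_le_iff₀ (by linarith)]
    linarith
  have hS : Sq m k (t - t / (k + 1)) ≤ k / ((Nk k t : ℝ) / m) := by
    have h0 : t / (k + 1) ≤ (t - t / (k + 1)) / k := omb_div hk t
    have hp1' : 1 ≤ t / (k + 1) := hp1
    have h1 : k ≤ t - t / (k + 1) := by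
      have h2 : 1 * k ≤ t - t / (k + 1) := by
        rw [← Nat.le_div_iff_mul_le (by omega)]
        omega
      omega
    refine (Sq_upper (m := m) hk h1).trans ?_
    rw [div_div_eq_mul_div, mul_div_assoc]
    refine mul_le_mul_of_nonneg_left ?_ (by positivity)
    have h3 : (Nk k t : ℝ) ≤ (((t - t / (k + 1)) / k : ℕ) : ℝ) := by
      unfold Nk
      exact_mod_cast h0
    exact div_le_div_of_nonneg_left hm0.le hp0 h3
  have hDW : D / wk m k t * F m (wk m k t) ≤ D * (k / ((Nk k t : ℝ) / m)) := by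
    have h1 : D / wk m k t * F m (wk m k t) = D * Sq m k (t - t / (k + 1)) := by
      rw [hFW, div_mul_eq_mul_div, ← mul_assoc, mul_comm D, mul_assoc, mul_comm (wk m k t),
        mul_div_assoc, div_self hW.pos.ne', mul_one]
    rw [h1]
    exact mul_le_mul_of_nonneg_left hS hD0
  linarith

end Pool.Agent.H86.ZN
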