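import Pool.Agent.H86.ZN.Face

/-!
# Project ZN: removing mass from a tuple with lower bound `0`

Proof sketch: there are a set `L` and `j ∉ L` with `∑_L y ≤ D ≤ ∑_L y + y j` (or `D = ∑ y`, then the left side is `0`... in this case take `L = univ.erase j`): e.g. take `L` of maximal cardinality among the sets with
`∑_L y ≤ D`; if `L = univ` then `D = ∑ y`, `F 0 = 0` and `0 = FQ W (-D + ∑ y) ≤ FQ W (-D) + ∑ F (y i)`. Otherwise `j ∉ L`, `∑_L y + y j > D`. Tuple `0` on `L`, `z j = ∑_L y + y j - D ∈ [0, y j]`, `y i` elsewhere; `F_tuple` with bounds `0`, `hi`;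
`F (z j) = FQ W (z j) ≤ FQ W (-D) + ∑_{L ∪ j} FQ W (y i)` (`FQ_qsub`, `FQ_mem`).
-/

set_option autoImplicit false

namespace Pool.Agent.H86.ZN

open Finset Pool.Agent.H14RC Pool.Agent.H86.FM Pool.Agent.H86.Z1

private theorem Remove_choose {m : ℕ} (y : Fin m → ℝ) {D : ℝ} (hD0 : 0 ≤ D) :
    (∑ i, y i) ≤ D ∨ ∃ (L : Finset (Fin m)) (j : Fin m), j ∉ L ∧ ∑ i ∈ L, y i ≤ D ∧
      D < ∑ i ∈ insert j L, y i := by
  classical
  have hne : (univ.filter fun L : Finset (Fin m) => ∑ i ∈ L, y i ≤ D).Nonempty :=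
    ⟨∅, by simpa using hD0⟩
  obtain ⟨L, hL, hmax⟩ := exists_max_image _ (fun L : Finset (Fin m) => L.card) hne
  have hL' := (mem_filter.1 hL).2
  by_cases hu : L = univ
  · left
    rw [← hu]
    exact hL'
  · right
    obtain ⟨j, hj⟩ : ∃ j, j ∉ L := by
      by_contra hcon
      push Not at hcon
      exact hu (eq_univ_iff_forall.2 hcon)
    refine ⟨L, j, hj, hL', ?_⟩
    by_contra hcon
    have h := hmax (insert j L) (mem_filter.2 ⟨mem_univ _, not_lt.1 hcon⟩)
    rw [card_insert_of_notMem hj] at h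
    omega

theorem remove_mass {m : ℕ} (hm : 2 ≤ m) {W hi D : ℝ} (hW : Face m W) (hhi : hi ≤ W) (y : Fin m → ℝ)
    (hy : ∀ i, 0 ≤ y i ∧ y i ≤ hi) (hD0 : 0 ≤ D) (hD : D ≤ ∑ i, y i) :
    m * F m ((∑ i, y i - D) / m) ≤ FQ m W (-D) + ∑ i, F m (y i) + m * hi := by
  classical
  have hmR : (0 : ℝ) < m := by
    have : 0 < m := by omega
    exact_mod_cast this
  have hq := FQ_qsub hm hW
  have hhi0 : 0 ≤ hi := (hy ⟨0, by omega⟩).1.trans (hy ⟨0, by omega⟩).2
  have hmem : ∀ x, 0 ≤ x → x ≤ hi → FQ m W x = F m x := fun x h0 h1 =>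
    FQ_mem hm hW.pos h0 (h1.trans hhi)
  -- the quasi-periodic estimate for a subset
  have hsub : ∀ T : Finset (Fin m), FQ m W (-D + ∑ i ∈ T, y i) ≤ FQ m W (-D) + ∑ i ∈ T, F m (y i) := by
    intro T
    have h1 := hq.sub (-D) (∑ i ∈ T, y i)
    have h2 := hq.sum T y
    have h3 : ∑ i ∈ T, FQ m W (y i) = ∑ i ∈ T, F m (y i) :=
      sum_congr rfl fun i _ => hmem _ (hy i).1 (hy i).2
    rw [h3] at h2
    linarith
  rcases Remove_choose y hD0 with h | ⟨L, j, hj, hL, hjL⟩
  · have hDe : D = ∑ i, y i := le_antisymm hD h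
    have h1 := hsub univ
    have h2 : -D + ∑ i, y i = 0 := by linarith
    rw [h2, hq.zero] at h1
    have h3 : ∑ i, y i - D = 0 := by linarith
    rw [h3, zero_div, F_zero hm]
    have h4 : 0 ≤ (m : ℝ) * hi := by positivity
    linarith
  · rw [sum_insert hj] at hjL
    set t : ℝ := y j + ∑ i ∈ L, y i - D with ht
    have ht0 : 0 ≤ t := by linarith
    have ht1 : t ≤ y j := by linarith
    have hthi : t ≤ hi := ht1.trans (hy j).2
    let z : Fin m → ℝ := fun i => if i ∈ L then 0 else if i = j then t else y i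
    have hzj : z j = t := by simp only [z]; rw [if_neg hj, if_pos trivial]
    have hzL : ∀ i ∈ L, z i = 0 := fun i hi => by simp only [z]; rw [if_pos hi]
    have hzc : ∀ i ∈ (insert j L)ᶜ, z i = y i := by
      intro i hi
      rw [mem_compl, mem_insert, not_or] at hi
      simp only [z]
      rw [if_neg hi.2, if_neg hi.1]
    have hz : ∀ i, 0 ≤ z i ∧ z i ≤ hi := by
      intro i
      simp only [z]
      split_ifs
      · exact ⟨le_rfl, hhi0⟩
      · exact ⟨ht0, hthi⟩
      · exact hy i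
    have e1 : ∑ i, z i = ∑ i, y i - D := by
      rw [← sum_add_sum_compl (insert j L) z, ← sum_add_sum_compl (insert j L) y,
        sum_congr rfl hzc, sum_insert hj, sum_insert hj, hzj, sum_eq_zero hzL]
      linarith
    have e2 : ∑ i, F m (z i) = F m t + ∑ i ∈ (insert j L)ᶜ, F m (y i) := by
      rw [← sum_add_sum_compl (insert j L) (fun i => F m (z i)), sum_insert hj, hzj,
        sum_eq_zero (s := L) (f := fun i => F m (z i)) fun i hi => by rw [hzL i hi, F_zero hm],
        sum_congr rfl (fun i hi => by rw [hzc i hi] : ∀ i ∈ (insert j L)ᶜ, F m (z i) = F m (y i))]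
      ring
    have h1 := F_tuple hm z le_rfl (hhi.trans hW.le) hz
    rw [e1, e2, sub_zero] at h1
    have h2 := hsub (insert j L)
    have h3 : -D + ∑ i ∈ insert j L, y i = t := by rw [sum_insert hj]; linarith
    rw [h3, hmem t ht0 hthi] at h2
    have h4 := sum_add_sum_compl (insert j L) (fun i => F m (y i))
    have h5 := mul_le_mul_of_nonneg_left h1 hmR.le
    have h6 : (m : ℝ) * ((F m t + ∑ i ∈ (insert j L)ᶜ, F m (y i)) / m + hi) =
        F m t + ∑ i ∈ (insert j L)ᶜ, F m (y i) + m * hi := by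
      field_simp
    rw [h6] at h5
    linarith

end Pool.Agent.H86.ZN
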