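import Pool.Agent.H86.ZN.OmBound
import Pool.Agent.H86.ZN.Remove
import Pool.Agent.H86.ZN.Stb

/-!
# Project ZN: `om_hfar`

Proof sketch: see the module doc of `OmBound.lean`.
-/

set_option autoImplicit false

namespace Pool.Agent.H86.ZN

open Finset Pool.Agent.H14RC Pool.Agent.H86.FM Pool.Agent.H86.Z1

/-- Concavity: `G β ≤ G (β - τ) + 2 τ / b0` for `τ ≤ β/2`, `b0 ≤ β`. -/
private theorem G_drop {β τ b0 : ℝ} (hb0 : 0 < b0) (hβ : b0 ≤ β) (hβ1 : β ≤ 1) (hτ0 : 0 ≤ τ) (hτ : τ ≤ β / 2) :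
    G β ≤ G (β - τ) + 2 * τ / b0 := by
  have hu : β / 2 ≤ β - τ := by linarith
  have hu0 : 0 < β - τ := by linarith
  have h1 := G_conc3 (u := 0) (v := β - τ) (w := β) le_rfl hu0.le (by linarith) hβ1
  rw [G_zero] at h1
  have h2 : β * G (β - τ) ≥ (β - τ) * G β := by nlinarith
  have h3 : G (β - τ) ≤ 1 := G_le_one hu0.le (by linarith)
  have h4 : (β - τ) * G β ≤ (β - τ) * G (β - τ) + τ * G (β - τ) := by nlinarith
  have h5 : τ * G (β - τ) ≤ τ := by nlinarith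
  have h6 : τ ≤ (β - τ) * (2 * τ / b0) := by
    have h7 : b0 / 2 * (2 * τ / b0) ≤ (β - τ) * (2 * τ / b0) :=
      mul_le_mul_of_nonneg_right (by linarith) (by positivity)
    have h8 : b0 / 2 * (2 * τ / b0) = τ := by field_simp
    linarith
  have h9 : (β - τ) * G β ≤ (β - τ) * (G (β - τ) + 2 * τ / b0) := by
    rw [mul_add]; linarith
  exact le_of_mul_le_mul_left h9 hu0

/-- Many small entries. -/
private theorem hfar_many {m : ℕ} (hm : 1000000 ≤ m) {W lo hi D c0 κ b0 V0 β : ℝ} (hW : Face m W)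
    (hV0 : 0 < V0) (hb0 : 0 < b0) (hκ : κ = 5 + 2 / b0 + 8 / V0) (hc : c0 ≤ b0 / 2)
    (hG : ∀ y : ℝ, 0 ≤ y → y ≤ c0 → κ * y ≤ G y)
    (x : Fin m → ℝ) (hlo : 0 ≤ lo) (hhi : hi ≤ W) (hV : V0 ≤ hi) (hx : ∀ i, lo ≤ x i ∧ x i ≤ hi)
    (hβ : β = (∑ i, x i) / m) (hβ0 : b0 ≤ β) (hD0 : 0 ≤ D) (hD : D ≤ ∑ i, x i)
    (hcard : (m : ℝ) / 4 ≤ ((univ.filter (fun i => x i ≤ c0)).card : ℝ))
    (hup : m * F m ((∑ i, x i - D) / m) - FQ m W (-D) ≤ m * G β + 8) :
    m * F m ((∑ i, x i - D) / m) ≤ FQ m W (-D) + ∑ i, F m (x i) + m * (hi - lo) := by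
  classical
  have hm2 : 2 ≤ m := by omega
  have hmR : (1000000 : ℝ) ≤ m := by exact_mod_cast hm
  have hm0 : (0 : ℝ) < m := by linarith
  have hW1 := hW.le
  set A := univ.filter (fun i => x i ≤ c0) with hA
  have hx0 : ∀ i, 0 ≤ x i := fun i => hlo.trans (hx i).1
  have hmem : ∀ i ∈ A, x i ≤ c0 := fun i hi => (mem_filter.1 hi).2
  obtain ⟨s, hs⟩ : ∃ s, s = ∑ i ∈ A, x i := ⟨_, rfl⟩
  have hs0 : 0 ≤ s := by rw [hs]; exact sum_nonneg fun i _ => hx0 i
  have hsplit := sum_add_sum_compl A (fun i => F m (x i))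
  have hsplitx := sum_add_sum_compl A x
  have hβ1 : β ≤ 1 := by
    rw [hβ, div_le_one hm0]
    have : ∑ i, x i ≤ ∑ _i : Fin m, (1 : ℝ) := sum_le_sum fun i _ => ((hx i).2.trans hhi).trans hW1
    simpa using this
  have hne : A.Nonempty := by
    rw [← card_pos]
    have : (0 : ℝ) < (A.card : ℝ) := by linarith
    exact_mod_cast this
  obtain ⟨i0, hi0⟩ := hne
  -- the tuple with the mass of `A` at one entry
  let y : ℝ → Fin m → ℝ := fun r i => if i = i0 then r else if i ∈ A then 0 else x i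
  have hyc : ∀ r, ∀ i ∈ Aᶜ, y r i = x i := by
    intro r i hi
    rw [mem_compl] at hi
    have h1 : i ≠ i0 := by rintro rfl; exact hi hi0
    simp only [y]
    rw [if_neg h1, if_neg hi]
  have hyA : ∀ r, ∀ f : ℝ → ℝ, f 0 = 0 → ∑ i ∈ A, f (y r i) = f r := by
    intro r f hf
    rw [← add_sum_erase A _ hi0]
    have h1 : ∑ i ∈ A.erase i0, f (y r i) = 0 := by
      apply sum_eq_zero
      intro i hi
      simp only [y]
      rw [if_neg (ne_of_mem_erase hi), if_pos (mem_of_mem_erase hi), hf]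
    rw [h1, add_zero]
    simp [y]
  have hysum : ∀ r, ∑ i, y r i = ∑ i, x i - s + r := by
    intro r
    rw [← sum_add_sum_compl A (y r), sum_congr rfl (hyc r)]
    have := hyA r id rfl
    simp only [id] at this
    rw [this]
    linarith
  have hyF : ∀ r, ∑ i, F m (y r i) = F m r + ∑ i ∈ Aᶜ, F m (x i) := by
    intro r
    rw [← sum_add_sum_compl A (fun i => F m (y r i)), hyA r (F m) (F_zero hm2),
      sum_congr rfl fun i hi => by rw [hyc r i hi]]
  have hyb : ∀ r, 0 ≤ r → r ≤ hi → ∀ i, 0 ≤ y r i ∧ y r i ≤ hi := by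
    intro r hr0 hr1 i
    simp only [y]
    split_ifs
    · exact ⟨hr0, hr1⟩
    · exact ⟨le_rfl, by linarith⟩
    · exact ⟨hx0 i, (hx i).2⟩
  rcases lt_or_ge V0 s with hcase | hcase
  · -- the mass of the small entries is large
    have h1 : κ * s ≤ ∑ i ∈ A, F m (x i) := by
      rw [hs, mul_sum]
      refine sum_le_sum fun i hi => (hG _ (hx0 i) (hmem i hi)).trans ?_
      exact G_le_F hm2 (hx0 i) (((hx i).2.trans hhi).trans hW1)
    have h2 : (m : ℝ) * lo ≤ 4 * s := by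
      have h3 : (A.card : ℝ) * lo ≤ s := by
        rw [hs]
        have : ∑ _i ∈ A, lo ≤ ∑ i ∈ A, x i := sum_le_sum fun i _ => (hx i).1
        rwa [sum_const, nsmul_eq_mul] at this
      have h4 : (m : ℝ) / 4 * lo ≤ A.card * lo := mul_le_mul_of_nonneg_right hcard hlo
      linarith
    have h3 : s ≤ m * c0 := by
      have h4 : s ≤ A.card * c0 := by
        rw [hs]
        have : ∑ i ∈ A, x i ≤ ∑ _i ∈ A, c0 := sum_le_sum hmem
        rwa [sum_const, nsmul_eq_mul] at this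
      have hc0 : 0 ≤ c0 := (hx0 i0).trans (hmem i0 hi0)
      have h5 : (A.card : ℝ) ≤ m := by
        have := card_le_univ A
        rw [Fintype.card_fin] at this
        exact_mod_cast this
      exact h4.trans (mul_le_mul_of_nonneg_right h5 hc0)
    have h4 : s / m ≤ c0 := by rw [div_le_iff₀ hm0]; linarith
    have h5 := G_drop hb0 hβ0 hβ1 (τ := s / m) (by positivity) (by linarith)
    have h6 := F_tuple hm2 (y 0) le_rfl (hhi.trans hW1) (hyb 0 le_rfl (by linarith))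
    rw [hysum, hyF, F_zero hm2, zero_add, add_zero, sub_zero] at h6
    have e1 : (∑ i, x i - s) / m = β - s / m := by rw [hβ]; ring
    rw [e1] at h6
    have hsm : s ≤ ∑ i, x i := by
      have : 0 ≤ ∑ i ∈ Aᶜ, x i := sum_nonneg fun i _ => hx0 i
      linarith
    have h7 : G (β - s / m) ≤ F m (β - s / m) := by
      have h8 : 0 ≤ β - s / m := by rw [← e1]; exact div_nonneg (by linarith) hm0.le
      have h9 : 0 ≤ s / m := by positivity
      exact G_le_F hm2 h8 (by linarith)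
    have h8 : m * G β ≤ ∑ i ∈ Aᶜ, F m (x i) + m * hi + 2 * s / b0 := by
      have h9 : m * G β ≤ m * ((∑ i ∈ Aᶜ, F m (x i)) / m + hi + 2 * (s / m) / b0) :=
        mul_le_mul_of_nonneg_left (by linarith) hm0.le
      have e2 : (m : ℝ) * ((∑ i ∈ Aᶜ, F m (x i)) / m + hi + 2 * (s / m) / b0) =
          ∑ i ∈ Aᶜ, F m (x i) + m * hi + 2 * s / b0 := by
        field_simp
      rw [e2] at h9
      exact h9
    have h9 : 5 * s + 2 * s / b0 + 8 ≤ κ * s := by
      have h10 : 8 ≤ 8 / V0 * s := by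
        have : 8 / V0 * V0 ≤ 8 / V0 * s := mul_le_mul_of_nonneg_left hcase.le (by positivity)
        have e : 8 / V0 * V0 = 8 := by field_simp
        linarith
      rw [hκ]
      have e : (5 + 2 / b0 + 8 / V0) * s = 5 * s + 2 * s / b0 + 8 / V0 * s := by ring
      rw [e]
      linarith
    have e3 : (m : ℝ) * (hi - lo) = m * hi - m * lo := by ring
    rw [e3]
    linarith
  · -- the mass of the small entries fits
    have h1 := Pool.Agent.H86.FM.group hm A x hlo (fun i _ => (hx i).1) (by linarith) (by linarith)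
    have h2 := remove_mass hm2 hW hhi (y s) (hyb s hs0 (by linarith)) hD0 (by rw [hysum]; linarith)
    rw [hysum, hyF] at h2
    have e1 : ∑ i, x i - s + s = ∑ i, x i := by ring
    rw [e1] at h2
    rw [← hs] at h1
    have e3 : (m : ℝ) * (hi - lo) = m * hi - m * lo := by ring
    rw [e3]
    linarith

theorem om_hfar {k : ℕ} (hk : 1 ≤ k) {ρ1 σ : ℝ} (h1 : loR (k + 1) < ρ1) (h2 : ρ1 < σ) (h3 : σ ≤ upR (k + 1))
    (h : ZZ k (loR (k + 1)) (upR (k + 1))) :
    ∃ M : ℕ, ∀ m : ℕ, M ≤ m → ∀ t : ℕ, σ * m ≤ (Nk k t : ℝ) → (Nk k t : ℝ) + 1 ≤ upR (k + 1) * m →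
    ∀ (x : Fin m → ℝ) (lo hi D : ℝ), 0 ≤ lo → hi ≤ 1 → vq m (k + 1) (t + 1) ≤ hi → (∀ i, lo ≤ x i ∧ x i ≤ hi) →
      (∑ i, x i) / m < ρ1 ^ (k + 1) → 0 ≤ D → D ≤ ∑ i, x i →
      m * F m ((∑ i, x i - D) / m) ≤ FQ m (wk m k t) (-D) + ∑ i, F m (x i) + m * (hi - lo) := by
  obtain ⟨Mb, hMb⟩ := om_bound hk (h1.trans h2) h
  obtain ⟨Mz, hMz⟩ := h
  have hρ0 : 0 < ρ1 := (loR_pos (k + 1)).trans h1
  have hσ0 : 0 < σ := hρ0.trans h2
  have hup := upR_le (k := k + 1) (by omega)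
  have hupk : upR (k + 1) < upR k := upR_anti (by omega)
  have hlok : loR k < loR (k + 1) := loR_mono (by omega)
  obtain ⟨s0, hs0⟩ : ∃ s0, s0 = σ ^ (k + 1) := ⟨_, rfl⟩
  have hs0p : 0 < s0 := by rw [hs0]; positivity
  have hs01 : s0 ≤ 1 := by rw [hs0]; exact pow_le_one₀ hσ0.le (by linarith)
  obtain ⟨b0, hb0⟩ : ∃ b0, b0 = (s0 / 8) ^ 2 := ⟨_, rfl⟩
  have hb0p : 0 < b0 := by rw [hb0]; positivity
  obtain ⟨κ, hκ⟩ : ∃ κ, κ = 5 + 2 / b0 + 8 / s0 := ⟨_, rfl⟩
  obtain ⟨c1, hc1, hc11, hG1⟩ := G_ge_mul κ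
  obtain ⟨c0, hc0⟩ : ∃ c0, c0 = min c1 (b0 / 2) := ⟨_, rfl⟩
  have hc0p : 0 < c0 := by rw [hc0]; exact lt_min hc1 (by linarith)
  obtain ⟨δ, hδ, hst⟩ := stab_om hk h1.le h2 h3 hb0p hc0p
  refine ⟨max (max Mb Mz) (max 1000000 (max ⌈16 / s0⌉₊ ⌈8 / δ⌉₊)), ?_⟩
  intro m hm t ht1 ht2 x lo hi D hlo hhi hV hx hmean hD0 hD
  have hmb : Mb ≤ m := le_trans (by simp) hm
  have hmz : Mz ≤ m := le_trans (by simp) hm
  have hm6 : 1000000 ≤ m := le_trans (by simp) hm
  have hms : 16 / s0 ≤ m := (Nat.le_ceil _).trans (by exact_mod_cast le_trans (by simp) hm)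
  have hmd : 8 / δ ≤ m := (Nat.le_ceil _).trans (by exact_mod_cast le_trans (by simp) hm)
  have hm2 : 2 ≤ m := by omega
  have hmR : (1000000 : ℝ) ≤ m := by exact_mod_cast hm6
  have hm0 : (0 : ℝ) < m := by linarith
  have hx0 : ∀ i, 0 ≤ x i ∧ x i ≤ 1 := fun i => ⟨hlo.trans (hx i).1, (hx i).2.trans hhi⟩
  obtain ⟨β, hβ⟩ : ∃ β, β = (∑ i, x i) / m := ⟨_, rfl⟩
  have hmβ : (m : ℝ) * β = ∑ i, x i := by rw [hβ]; field_simp
  have hβ0 : 0 ≤ β := by rw [hβ]; exact div_nonneg (sum_nonneg fun i _ => (hx0 i).1) hm0.le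
  have hβ1 : β ≤ 1 := by
    rw [hβ, div_le_one hm0]
    have : ∑ i, x i ≤ ∑ _i : Fin m, (1 : ℝ) := sum_le_sum fun i _ => (hx0 i).2
    simpa using this
  rw [← hβ] at hmean
  have hloβ : lo ≤ β := by
    rw [hβ, le_div_iff₀ hm0]
    calc lo * m = ∑ _i : Fin m, lo := by simp [mul_comm]
      _ ≤ ∑ i, x i := sum_le_sum fun i _ => (hx i).1
  -- the upper bound
  have hpσ : σ ≤ (Nk k t : ℝ) / m := by rw [le_div_iff₀ hm0]; exact ht1
  have hB := hMb m hmb t ht1 ht2 β D hβ1 hD0 (by rw [hmβ]; exact hD)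
  have hyle : D / m ≤ β := by rw [div_le_iff₀ hm0, mul_comm, hmβ]; exact hD
  have hDm0 : 0 ≤ D / m := by positivity
  have hsl := G_slope_ge hk (r := ρ1) (by linarith) (by linarith) (x := β - D / m) (y := β) (by linarith)
    (by linarith) hmean.le
  have hk0 : (0 : ℝ) ≤ k := Nat.cast_nonneg k
  have hkρ : (k : ℝ) / ((Nk k t : ℝ) / m) ≤ k / ρ1 :=
    div_le_div_of_nonneg_left hk0 hρ0 (by linarith)
  have hup8 : m * F m ((∑ i, x i - D) / m) - FQ m (wk m k t) (-D) ≤ m * G β + 8 := by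
    have e1 : (∑ i, x i - D) / m = β - D / m := by rw [hβ]; ring
    rw [e1]
    have h4 : D * (k / ((Nk k t : ℝ) / m)) ≤ D * (k / ρ1) := mul_le_mul_of_nonneg_left hkρ hD0
    have h5 : m * ((β - (β - D / m)) * (k / ρ1)) ≤ m * (G β - G (β - D / m)) :=
      mul_le_mul_of_nonneg_left hsl hm0.le
    have e2 : (m : ℝ) * ((β - (β - D / m)) * (k / ρ1)) = D * (k / ρ1) := by
      rw [sub_sub_cancel]
      field_simp
    rw [e2] at h5
    linarith
  -- the face
  have hzz := hMz m hmz t (by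
    have : loR (k + 1) * (m : ℝ) ≤ σ * m := mul_le_mul_of_nonneg_right (by linarith) hm0.le
    linarith) ht2
  have hW : Face m (wk m k t) := hzz.1.face
  have hp0 : (0 : ℝ) ≤ (Nk k t : ℝ) := Nat.cast_nonneg _
  have hVs : s0 ≤ hi := by
    refine le_trans ?_ hV
    refine le_trans ?_ (vq_lower (by omega) (k + 1) (t + 1))
    rw [hs0]
    refine pow_le_pow_left₀ hσ0.le (hpσ.trans ?_) _
    have : Nk k t ≤ (t + 1) / (k + 1) := Nat.div_le_div_right (by omega)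
    have : ((Nk k t : ℕ) : ℝ) ≤ (((t + 1) / (k + 1) : ℕ) : ℝ) := by exact_mod_cast this
    gcongr
  have hFG : ∑ i, G (x i) ≤ ∑ i, F m (x i) := sum_le_sum fun i _ => G_le_F hm2 (hx0 i).1 (hx0 i).2
  have hFn : 0 ≤ ∑ i, F m (x i) := sum_nonneg fun i _ => F_nonneg hm2 (hx0 i).1 (hx0 i).2
  rcases lt_or_ge β b0 with hb | hb
  · -- small mean
    have h4 : G β ≤ 2 * √β := G_le_sqrt hβ0 hβ1
    have h5 : √β ≤ s0 / 8 := by
      rw [Real.sqrt_le_left (by positivity), ← hb0]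
      exact hb.le
    have h6 : b0 ≤ s0 / 8 := by rw [hb0]; nlinarith
    have h7 : 8 ≤ m * (s0 / 2) := by
      rw [div_le_iff₀ hs0p] at hms
      linarith
    have h8 : m * (G β + s0 / 2) ≤ m * (hi - lo) := mul_le_mul_of_nonneg_left (by linarith) hm0.le
    linarith
  · rcases hst m (by omega) x lo hi hlo hhi hx (by rw [← hβ]; exact hb) (by rw [← hβ]; exact hmean.le)
      (by rw [← hs0]; exact hVs) with h4 | ⟨h4, h5⟩
    · rw [← hβ] at h4
      have h5 : m * (G β + δ) ≤ m * ((∑ i, G (x i)) / m + (hi - lo)) := mul_le_mul_of_nonneg_left h4 hm0.le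
      have e1 : (m : ℝ) * ((∑ i, G (x i)) / m + (hi - lo)) = ∑ i, G (x i) + m * (hi - lo) := by
        field_simp
      rw [e1] at h5
      have h6 : 8 ≤ m * δ := by
        rw [div_le_iff₀ hδ] at hmd
        exact hmd
      linarith
    · refine hfar_many hm6 hW hs0p hb0p hκ (by rw [hc0]; exact min_le_right _ _)
        (fun y hy0 hy1 => hG1 y hy0 (hy1.trans (by rw [hc0]; exact min_le_left _ _)))
        x hlo ?_ hVs hx hβ hb hD0 hD h5 hup8
      refine h4.trans ?_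
      refine le_trans ?_ (vq_lower (by omega) k (t - t / (k + 1)))
      refine pow_le_pow_left₀ hσ0.le (hpσ.trans ?_) _
      have h6 : Nk k t ≤ (t - t / (k + 1)) / k := by
        rw [Nat.le_div_iff_mul_le (by omega)]
        unfold Nk
        have h7 := Nat.div_mul_le_self t (k + 1)
        have h8 : t / (k + 1) * (k + 1) = t / (k + 1) * k + t / (k + 1) := by ring
        omega
      have : ((Nk k t : ℕ) : ℝ) ≤ (((t - t / (k + 1)) / k : ℕ) : ℝ) := by exact_mod_cast h6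
      gcongr

end Pool.Agent.H86.ZN
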