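import Pool.Agent.H86.ZN.OmBound

/-!
# Project ZN: `om_hmid`

Proof sketch: see the module doc of `OmBound.lean`.
-/

set_option autoImplicit false

namespace Pool.Agent.H86.ZN

open Finset Pool.Agent.H14RC Pool.Agent.H86.FM Pool.Agent.H86.Z1

/-- The chain below the face `t + 1`. -/
private theorem omMid_chain {k : ℕ} {r1 r2 : ℝ} {m : ℕ} (hm1 : 1 ≤ m)
    (hM : ∀ t : ℕ, r1 * m ≤ (Nk k t : ℝ) → (Nk k t : ℝ) + 1 ≤ r2 * m →
      Link m (vq m (k + 1) t) (vq m (k + 1) (t + 1)) (wk m k t) (Nk k t) ∧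
      F m (wk m k t) = wk m k t * Sq m k (t - t / (k + 1))) {t0 t : ℕ}
    (h0 : r1 * m ≤ (Nk k t0 : ℝ)) (h3 : (Nk k t : ℝ) + 1 ≤ r2 * m) :
    Chain m (vq m (k + 1)) (wk m k) (Nk k) t0 (t + 1) := by
  have hN : ∀ s t : ℕ, s ≤ t → Nk k s ≤ Nk k t := fun s t hst => Nat.div_le_div_right hst
  refine ⟨fun s hs hs' => (hM s ?_ ?_).1, fun s u _ hsu _ => ?_, fun s u _ hsu _ => hN s u hsu⟩
  · have : (Nk k t0 : ℝ) ≤ Nk k s := by exact_mod_cast hN t0 s hs
    linarith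
  · have : (Nk k s : ℝ) ≤ Nk k t := by exact_mod_cast hN s t (by omega)
    linarith
  · exact vq_mono hm1 k (layer_mono k hsu)

theorem om_hmid {k : ℕ} (hk : 1 ≤ k) {ρ1 σ : ℝ} (h1 : loR (k + 1) < ρ1) (h2 : ρ1 < σ) (h3 : σ ≤ upR (k + 1))
    (h : ZZ k (loR (k + 1)) (upR (k + 1))) :
    ∃ M : ℕ, ∀ m : ℕ, M ≤ m → ∀ t : ℕ, σ * m ≤ (Nk k t : ℝ) → (Nk k t : ℝ) + 1 ≤ upR (k + 1) * m →
    ∀ b D : ℝ, ρ1 ^ (k + 1) ≤ b → b ≤ vq m (k + 1) (t + 1) → 0 ≤ D → D ≤ m * b →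
      F m (b - D / m) ≤ F m b + FQ m (wk m k t) (-D) / m := by
  obtain ⟨M1, hM1⟩ := om_bound hk (h1.trans h2) h
  obtain ⟨M2, hM2⟩ := h
  set L := loR (k + 1) with hLdef
  have hL0 : 0 < L := loR_pos _
  have hρ0 : 0 < ρ1 := hL0.trans h1
  have hσ0 : 0 < σ := hρ0.trans h2
  have hk0 : (0 : ℝ) < k := by exact_mod_cast hk
  set ρh := (L + ρ1) / 2 with hρh
  have hρh0 : 0 < ρh := by rw [hρh]; linarith
  have hρh1 : ρh < ρ1 := by rw [hρh]; linarith
  set gap := ρ1 ^ (k + 1) - ρh ^ (k + 1) with hgap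
  have hgap0 : 0 < gap := by
    have h4 : ρh ^ (k + 1) < ρ1 ^ (k + 1) := pow_lt_pow_left₀ hρh1 hρh0.le (Nat.succ_ne_zero k)
    rw [hgap]
    linarith
  have hkk : 0 < (k : ℝ) / ρ1 - k / σ := by
    have := div_lt_div_of_pos_left hk0 hρ0 h2
    linarith
  set c := gap * ((k : ℝ) / ρ1 - k / σ) with hc
  have hc0 : 0 < c := mul_pos hgap0 hkk
  set K : ℝ := 2 / (ρ1 - L) + (8 + k / σ ^ 2) / c with hK
  have hρL : 0 < ρ1 - L := by linarith
  refine ⟨max (max M1 M2) (max 2 ⌈K⌉₊), fun m hm t hσt hup b D hb1 hb2 hD0 hD1 => ?_⟩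
  have hmM1 : M1 ≤ m := ((le_max_left _ _).trans (le_max_left _ _)).trans hm
  have hmM2 : M2 ≤ m := ((le_max_right _ _).trans (le_max_left _ _)).trans hm
  have hm2 : 2 ≤ m := ((le_max_left _ _).trans (le_max_right _ _)).trans hm
  have hmK : K ≤ m := by
    have h4 : ⌈K⌉₊ ≤ m := ((le_max_right _ _).trans (le_max_right _ _)).trans hm
    exact (Nat.le_ceil K).trans (by exact_mod_cast h4)
  have hm1 : 1 ≤ m := by omega
  have hm0 : (0 : ℝ) < m := by exact_mod_cast (by omega : 0 < m)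
  have hA1 : 2 ≤ (m : ℝ) * (ρ1 - L) := by
    have h4 : 2 / (ρ1 - L) ≤ m := by
      have : 0 ≤ (8 + (k : ℝ) / σ ^ 2) / c := by positivity
      linarith
    rwa [div_le_iff₀ hρL] at h4
  have hA2 : 8 + (k : ℝ) / σ ^ 2 ≤ m * c := by
    have h4 : (8 + (k : ℝ) / σ ^ 2) / c ≤ m := by
      have : 0 ≤ 2 / (ρ1 - L) := by positivity
      linarith
    rwa [div_le_iff₀ hc0] at h4
  -- the index of the lowest face
  obtain ⟨p0, hp0a, hp0b⟩ : ∃ p0 : ℕ, L * m ≤ p0 ∧ (p0 : ℝ) < L * m + 1 :=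
    ⟨⌈L * m⌉₊, Nat.le_ceil _, Nat.ceil_lt_add_one (mul_pos hL0 hm0).le⟩
  have hpp : p0 ≤ Nk k t := by
    have h4 : (p0 : ℝ) ≤ Nk k t := by
      have h5 : (m : ℝ) * (ρ1 - L) ≤ m * (σ - L) := mul_le_mul_of_nonneg_left (by linarith) hm0.le
      nlinarith
    exact_mod_cast h4
  have hNt0 : Nk k ((k + 1) * p0) = p0 := Nat.mul_div_cancel_left _ (Nat.succ_pos k)
  have hch : Chain m (vq m (k + 1)) (wk m k) (Nk k) ((k + 1) * p0) (t + 1) :=
    omMid_chain hm1 (hM2 m hmM2) (by rw [hNt0]; exact hp0a) hup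
  have ht0t : (k + 1) * p0 ≤ t := by
    have h4 : (k + 1) * Nk k t ≤ t := Nat.mul_div_le t (k + 1)
    exact (Nat.mul_le_mul_left (k + 1) hpp).trans h4
  have hlk := hch.link t ht0t (Nat.lt_succ_self t)
  have hv0 : vq m (k + 1) ((k + 1) * p0) = ((p0 : ℝ) / m) ^ (k + 1) := vq_cube hm1 (Nat.succ_pos k) p0
  rcases le_or_gt (vq m (k + 1) ((k + 1) * p0)) (b - D / m) with hcase | hcase
  · exact hch.down_le hm2 hlk.face (s := t + 1) (by omega) le_rfl
      (fun u h4 h5 => hch.wmono u t h4 (by omega) (Nat.lt_succ_self t)) hD0 hb2 hcase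
  · -- far down: slack
    have hvle : vq m (k + 1) ((k + 1) * p0) ≤ ρh ^ (k + 1) := by
      rw [hv0]
      refine pow_le_pow_left₀ (by positivity) ?_ _
      rw [div_le_iff₀ hm0, hρh]
      nlinarith
    have hδ : 0 ≤ D / m := div_nonneg hD0 hm0.le
    have hx0 : 0 ≤ b - D / m := by
      rw [sub_nonneg, div_le_iff₀ hm0]
      linarith
    have hxe : b - D / m ≤ ρ1 ^ (k + 1) := by linarith
    -- the ratio `ρ' = (p + 1)/m`
    set p : ℝ := (Nk k t : ℝ) with hp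
    have hp0 : 0 < p := lt_of_lt_of_le (mul_pos hσ0 hm0) hσt
    set ρ := p / m with hρ
    have hρσ : σ ≤ ρ := by
      rw [hρ, le_div_iff₀ hm0]
      exact hσt
    have hρpos : 0 < ρ := by positivity
    set ρ' := (p + 1) / m with hρ'
    have hρ'ρ : ρ' = ρ + 1 / m := by
      rw [hρ', hρ, add_div]
    have hρ'up : ρ' ≤ upR (k + 1) := by
      rw [hρ', div_le_iff₀ hm0]
      exact hup
    have hρ'lt : ρ < ρ' := by
      rw [hρ'ρ]
      have : 0 < 1 / (m : ℝ) := by positivity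
      linarith
    have hV : vq m (k + 1) (t + 1) ≤ ρ' ^ (k + 1) := by
      have h4 : t + 1 ≤ (k + 1) * (Nk k t + 1) := by
        have h5 : t < (k + 1) * (t / (k + 1) + 1) := Nat.lt_mul_div_succ t (Nat.succ_pos k)
        exact h5
      have h6 := vq_mono hm1 (k + 1) h4
      rw [vq_cube hm1 (Nat.succ_pos k) (Nk k t + 1)] at h6
      rw [hρ', hp]
      push_cast at h6
      exact h6
    have hupk : upR (k + 1) < upR k := upR_anti (Nat.lt_succ_self k)
    have hlok : loR k < L := loR_mono (Nat.lt_succ_self k)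
    have hup1 : upR (k + 1) ≤ 1 / 2 := upR_le (by omega)
    have hb1' : b ≤ 1 := by
      have h4 : ρ' ^ (k + 1) ≤ 1 := pow_le_one₀ (by positivity) (by linarith)
      linarith
    -- slopes
    have s1 := G_slope_ge hk (r := ρ') (by linarith) (by linarith) (x := ρ1 ^ (k + 1)) (y := b)
      (by positivity) hb1 (hb2.trans hV)
    have s2 := G_slope_ge hk (r := ρ1) (by linarith) (by linarith) (x := b - D / m) (y := ρ1 ^ (k + 1))
      hx0 hxe le_rfl
    have s3 := G_le_F hm2 (x := b) (by linarith) hb1'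
    have s4 := hM1 m hmM1 t hσt hup b D hb1' hD0 hD1
    rw [← hp, ← hρ] at s4
    -- first error term
    have e1 : (b - ρ1 ^ (k + 1)) * (k / ρ - k / ρ') ≤ (k / σ ^ 2) / m := by
      have h4 : (k : ℝ) / ρ - k / ρ' = k * (1 / m) / (ρ * ρ') := by
        rw [hρ'ρ]
        have : ρ + 1 / (m : ℝ) ≠ 0 := by positivity
        field_simp
        ring
      have h5 : (k : ℝ) / ρ - k / ρ' ≤ (k / σ ^ 2) / m := by
        rw [h4]
        have h6 : σ ^ 2 ≤ ρ * ρ' := by nlinarith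
        calc (k : ℝ) * (1 / m) / (ρ * ρ') ≤ k * (1 / m) / σ ^ 2 :=
              div_le_div_of_nonneg_left (by positivity) (by positivity) h6
          _ = (k / σ ^ 2) / m := by
              field_simp
      have h7 : 0 ≤ (k : ℝ) / ρ - k / ρ' := by
        rw [h4]
        positivity
      have h8 : b - ρ1 ^ (k + 1) ≤ 1 := by
        have : 0 < ρ1 ^ (k + 1) := by positivity
        linarith
      calc (b - ρ1 ^ (k + 1)) * (k / ρ - k / ρ') ≤ 1 * (k / ρ - k / ρ') :=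
            mul_le_mul_of_nonneg_right h8 h7
        _ ≤ _ := by linarith
    -- main term
    have e2 : c ≤ (ρ1 ^ (k + 1) - (b - D / m)) * (k / ρ1 - k / ρ) := by
      have h4 : gap ≤ ρ1 ^ (k + 1) - (b - D / m) := by
        rw [hgap]
        linarith
      have h5 : (k : ℝ) / ρ1 - k / σ ≤ k / ρ1 - k / ρ := by
        have := div_le_div_of_nonneg_left hk0.le hσ0 hρσ
        linarith
      rw [hc]
      exact mul_le_mul h4 h5 hkk.le (by linarith)
    have e3 : 8 / m + (k / σ ^ 2) / m ≤ c := by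
      rw [← add_div, div_le_iff₀ hm0]
      linarith
    have e4 : F m (b - D / m) ≤ FQ m (wk m k t) (-D) / m + G (b - D / m) + D / m * (k / ρ) + 8 / m := by
      have h4 : F m (b - D / m) ≤ (FQ m (wk m k t) (-D) + m * G (b - D / m) + D * (k / ρ) + 8) / m := by
        rw [le_div_iff₀ hm0]
        linarith
      have h5 : (FQ m (wk m k t) (-D) + m * G (b - D / m) + D * (k / ρ) + 8) / m =
          FQ m (wk m k t) (-D) / m + G (b - D / m) + D / m * (k / ρ) + 8 / m := by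
        field_simp
      linarith
    have e5 : D / m = (b - ρ1 ^ (k + 1)) + (ρ1 ^ (k + 1) - (b - D / m)) := by ring
    have e6 : D / m * (k / ρ) = (b - ρ1 ^ (k + 1)) * (k / ρ) + (ρ1 ^ (k + 1) - (b - D / m)) * (k / ρ) := by
      rw [← add_mul, ← e5]
    have e7 : (b - ρ1 ^ (k + 1)) * (k / ρ - k / ρ') = (b - ρ1 ^ (k + 1)) * (k / ρ) - (b - ρ1 ^ (k + 1)) * (k / ρ') := by
      ring
    have e8 : (ρ1 ^ (k + 1) - (b - D / m)) * (k / ρ1 - k / ρ) =
        (ρ1 ^ (k + 1) - (b - D / m)) * (k / ρ1) - (ρ1 ^ (k + 1) - (b - D / m)) * (k / ρ) := by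
      ring
    rw [e7] at e1
    rw [e8] at e2
    linarith

end Pool.Agent.H86.ZN
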