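import Pool.Agent.H86.ZN.OmMid
import Pool.Agent.H86.ZN.OmHfar
import Pool.Agent.H86.ZN.OMG

/-!
# Project ZN: `om_zone`

Proof sketch: see the module doc of `OmBound.lean`.
-/

set_option autoImplicit false

namespace Pool.Agent.H86.ZN

open Finset Pool.Agent.H14RC Pool.Agent.H86.FM Pool.Agent.H86.Z1

theorem om_zone {k : ℕ} (hk : 1 ≤ k) {σ : ℝ} (hσ : loR (k + 1) < σ) (h : ZZ k (loR (k + 1)) (upR (k + 1))) :
    ∃ M : ℕ, ∀ m : ℕ, M ≤ m → ∀ t : ℕ, σ * m ≤ (Nk k t : ℝ) → (Nk k t : ℝ) + 1 ≤ upR (k + 1) * m →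
    ∀ b D : ℝ, 0 ≤ b → b ≤ vq m (k + 1) (t + 1) → 0 ≤ D → D ≤ m * b →
      F m (b - D / m) ≤ F m b + FQ m (wk m k t) (-D) / m := by
  by_cases hup : σ ≤ upR (k + 1)
  · set ρ1 : ℝ := (loR (k + 1) + σ) / 2 with hρ1
    have h1 : loR (k + 1) < ρ1 := by rw [hρ1]; linarith
    have h2 : ρ1 < σ := by rw [hρ1]; linarith
    have hρ10 : 0 < ρ1 := (loR_pos _).trans h1
    obtain ⟨M1, hM1⟩ := om_hmid hk h1 h2 hup h
    obtain ⟨M2, hM2⟩ := om_hfar hk h1 h2 hup h
    obtain ⟨M3, hM3⟩ := h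
    refine ⟨max (max M1 M2) (max M3 3), fun m hm t hl hu => ?_⟩
    have hm1 : M1 ≤ m := ((le_max_left _ _).trans (le_max_left _ _)).trans hm
    have hm2 : M2 ≤ m := ((le_max_right _ _).trans (le_max_left _ _)).trans hm
    have hm3 : M3 ≤ m := ((le_max_left _ _).trans (le_max_right _ _)).trans hm
    have hm4 : 3 ≤ m := ((le_max_right _ _).trans (le_max_right _ _)).trans hm
    have hmR : (3 : ℝ) ≤ m := by exact_mod_cast hm4
    have hm0 : (0 : ℝ) < m := by linarith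
    have hl' : loR (k + 1) * m ≤ (Nk k t : ℝ) := by
      have := mul_le_mul_of_nonneg_right hσ.le hm0.le
      linarith
    obtain ⟨hlink, -⟩ := hM3 m hm3 t hl' hu
    have hW := hlink.face
    have hVW : vq m (k + 1) (t + 1) ≤ wk m k t := by
      have h3 := hlink.hv'
      have h4 : ((Nk k t : ℝ) + 1) ≤ m := by exact_mod_cast hlink.lt
      have h5 : (m : ℝ) * vq m (k + 1) (t + 1) ≤ m * wk m k t := by
        rw [h3]
        exact mul_le_mul_of_nonneg_right h4 hW.pos.le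
      exact le_of_mul_le_mul_left h5 hm0
    have heV : ρ1 ^ (k + 1) ≤ vq m (k + 1) (t + 1) := by
      have h3 : ρ1 ≤ ((t / (k + 1) : ℕ) : ℝ) / m := by
        rw [le_div_iff₀ hm0]
        have h4 : ρ1 * m ≤ σ * m := mul_le_mul_of_nonneg_right h2.le hm0.le
        exact h4.trans hl
      have h4 := pow_le_pow_left₀ hρ10.le h3 (k + 1)
      exact h4.trans ((vq_lower (by omega) (k + 1) t).trans (vq_mono (by omega) (k + 1) (Nat.le_succ t)))
    exact om_general hm4 hW hVW (by positivity) heV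
      (fun b D hb0 hb1 hD0 hD => hM1 m hm1 t hl hu b D hb0 hb1 hD0 hD)
      (fun x lo hi D hlo hhi hV hx hmean hD0 hD => hM2 m hm2 t hl hu x lo hi D hlo hhi hV hx hmean hD0 hD)
  · refine ⟨1, fun m hm t hl hu => ?_⟩
    exfalso
    have hm0 : (0 : ℝ) < m := by
      have : 0 < m := by omega
      exact_mod_cast this
    have h3 : upR (k + 1) * m ≤ σ * m := mul_le_mul_of_nonneg_right (not_le.1 hup).le hm0.le
    linarith

end Pool.Agent.H86.ZN
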