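import Mathlib

/-!
# Project ZN: quasi-cubes

`qc k t = p^(k-i) (p+1)^i` for `t = k p + i`, `0 ≤ i < k` (`k = 0`: `qc 0 t = 1`), `vq m k t = qc k t / m^k`,
`Sq m k t = (k-i) m/p + i m/(p+1)` (the sum of the reciprocals of the sides).

Proof sketches.
* `qc_rec`: `t = (k+1) p + i`, `0 ≤ i ≤ k`, `t - p = k p + i`: for `i < k` `(t-p)/k = p`, `(t-p) % k = i`; for `i = k` `t - p = k (p+1)`, `qc k (t-p) = (p+1)^k` and `p (p+1)^k = qc (k+1) t`.
  (`k = 0` separately.) `qc_rec'` (for `t + 1`): the same.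
* `vq_rec`, `vq_rec'`: multiply by `m^(k+1)`. `Sq_rec`, `Sq_rec'`: the same case distinction.
* `vq_lower`, `vq_upper`: `p^k ≤ qc k t ≤ (p+1)^k`. `Sq_upper`, `Sq_lower`. `vq_mono`: `qc k` is monotone (`qc k (t+1) ≥ qc k t`; by induction on `k` from the recurrences or directly).
* `vq_cube`: `t = k p`. `layer_mono`: `t ↦ t - t/(k+1)` is monotone.
-/

set_option autoImplicit false

namespace Pool.Agent.H86.ZN

def qc (k t : ℕ) : ℕ := (t / k) ^ (k - t % k) * (t / k + 1) ^ (t % k)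

noncomputable def vq (m k t : ℕ) : ℝ := (qc k t : ℝ) / (m : ℝ) ^ k

noncomputable def Sq (m k t : ℕ) : ℝ :=
  ((k - t % k : ℕ) : ℝ) * ((m : ℝ) / (t / k : ℕ)) + ((t % k : ℕ) : ℝ) * ((m : ℝ) / ((t / k : ℕ) + 1))

private lemma qc_split {k p i : ℕ} (hi : i ≤ k) : qc k (k * p + i) = p ^ (k - i) * (p + 1) ^ i := by
  rcases Nat.eq_zero_or_pos k with rfl | hk
  · obtain rfl : i = 0 := Nat.le_zero.1 hi
    simp [qc]
  · rcases hi.lt_or_eq with hlt | rfl
    · have h1 : (k * p + i) / k = p := by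
        rw [Nat.mul_add_div hk, Nat.div_eq_of_lt hlt, add_zero]
      have h2 : (k * p + i) % k = i := by
        rw [Nat.mul_add_mod, Nat.mod_eq_of_lt hlt]
      unfold qc
      rw [h1, h2]
    · have h0 : i * p + i = i * (p + 1) := by ring
      have h1 : (i * (p + 1)) / i = p + 1 := Nat.mul_div_cancel_left _ hk
      have h2 : (i * (p + 1)) % i = 0 := Nat.mul_mod_right _ _
      unfold qc
      rw [h0, h1, h2]
      simp

private lemma Sq_split {m k p i : ℕ} (hk : 1 ≤ k) (hi : i ≤ k) :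
    Sq m k (k * p + i) = ((k - i : ℕ) : ℝ) * ((m : ℝ) / (p : ℝ)) +
      (i : ℝ) * ((m : ℝ) / ((p : ℝ) + 1)) := by
  rcases hi.lt_or_eq with hlt | rfl
  · have h1 : (k * p + i) / k = p := by
      rw [Nat.mul_add_div hk, Nat.div_eq_of_lt hlt, add_zero]
    have h2 : (k * p + i) % k = i := by
      rw [Nat.mul_add_mod, Nat.mod_eq_of_lt hlt]
    unfold Sq
    rw [h1, h2]
  · have h0 : i * p + i = i * (p + 1) := by ring
    have h1 : (i * (p + 1)) / i = p + 1 := Nat.mul_div_cancel_left _ hk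
    have h2 : (i * (p + 1)) % i = 0 := Nat.mul_mod_right _ _
    unfold Sq
    rw [h0, h1, h2]
    simp

/-- The decomposition `t = (k+1) p + i`. -/
private lemma split (k t : ℕ) : ∃ p i, i ≤ k ∧ t / (k + 1) = p ∧ t = (k + 1) * p + i ∧
    t - t / (k + 1) = k * p + i := by
  have h1 := Nat.div_add_mod t (k + 1)
  have h2 := Nat.mod_lt t (Nat.succ_pos k)
  refine ⟨t / (k + 1), t % (k + 1), Nat.lt_succ_iff.1 h2, rfl, h1.symm, ?_⟩
  obtain ⟨p, hp⟩ : ∃ p, p = t / (k + 1) := ⟨_, rfl⟩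
  rw [← hp] at h1 ⊢
  have h3 : (k + 1) * p = k * p + p := by ring
  omega

theorem qc_zero (t : ℕ) : qc 0 t = 1 := by
  simp [qc]

theorem vq_zero (m t : ℕ) : vq m 0 t = 1 := by
  simp [vq, qc_zero]

theorem vq_one (m t : ℕ) : vq m 1 t = (t : ℝ) / m := by
  simp [vq, qc, Nat.mod_one]

theorem qc_rec (k t : ℕ) : qc (k + 1) t = (t / (k + 1)) * qc k (t - t / (k + 1)) := by
  obtain ⟨p, i, hi, h1, h2, h3⟩ := split k t
  rw [h3, h1, qc_split hi]
  conv_lhs => rw [h2]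
  rw [qc_split (by omega : i ≤ k + 1), show k + 1 - i = (k - i) + 1 by omega, pow_succ]
  ring

theorem qc_rec' (k t : ℕ) : qc (k + 1) (t + 1) = (t / (k + 1) + 1) * qc k (t - t / (k + 1)) := by
  obtain ⟨p, i, hi, h1, h2, h3⟩ := split k t
  rw [h3, h1, qc_split hi]
  have h4 : t + 1 = (k + 1) * p + (i + 1) := by omega
  rw [h4, qc_split (by omega : i + 1 ≤ k + 1), show k + 1 - (i + 1) = k - i by omega, pow_succ]
  ring

theorem vq_rec {m : ℕ} (hm : 1 ≤ m) (k t : ℕ) :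
    m * vq m (k + 1) t = ((t / (k + 1) : ℕ) : ℝ) * vq m k (t - t / (k + 1)) := by
  have hm0 : (m : ℝ) ≠ 0 := by exact_mod_cast (by omega : m ≠ 0)
  unfold vq
  rw [qc_rec, Nat.cast_mul, pow_succ]
  field_simp

theorem vq_rec' {m : ℕ} (hm : 1 ≤ m) (k t : ℕ) :
    m * vq m (k + 1) (t + 1) = (((t / (k + 1) : ℕ) : ℝ) + 1) * vq m k (t - t / (k + 1)) := by
  have hm0 : (m : ℝ) ≠ 0 := by exact_mod_cast (by omega : m ≠ 0)
  unfold vq
  rw [qc_rec', Nat.cast_mul, Nat.cast_add, Nat.cast_one, pow_succ]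
  field_simp

theorem Sq_rec {m k t : ℕ} (hk : 1 ≤ k) (ht : k + 1 ≤ t) :
    Sq m (k + 1) t = (m : ℝ) / (t / (k + 1) : ℕ) + Sq m k (t - t / (k + 1)) := by
  obtain ⟨p, i, hi, h1, h2, h3⟩ := split k t
  rw [h3, h1, Sq_split hk hi]
  conv_lhs => rw [h2]
  rw [Sq_split (by omega) (by omega : i ≤ k + 1), show k + 1 - i = (k - i) + 1 by omega]
  push_cast
  ring

theorem Sq_rec' {m k t : ℕ} (hk : 1 ≤ k) (ht : k + 1 ≤ t) :
    Sq m (k + 1) (t + 1) = (m : ℝ) / ((t / (k + 1) : ℕ) + 1) + Sq m k (t - t / (k + 1)) := by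
  obtain ⟨p, i, hi, h1, h2, h3⟩ := split k t
  rw [h3, h1, Sq_split hk hi]
  have h4 : t + 1 = (k + 1) * p + (i + 1) := by omega
  rw [h4, Sq_split (by omega) (by omega : i + 1 ≤ k + 1), show k + 1 - (i + 1) = k - i by omega]
  push_cast
  ring

private lemma qc_lower (k t : ℕ) : (t / k) ^ k ≤ qc k t := by
  rcases Nat.eq_zero_or_pos k with rfl | hk
  · simp [qc]
  · have hi := (Nat.mod_lt t hk).le
    obtain ⟨i, hie⟩ : ∃ i, i = t % k := ⟨_, rfl⟩
    unfold qc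
    rw [← hie] at hi ⊢
    calc (t / k) ^ k = (t / k) ^ (k - i) * (t / k) ^ i := by
          rw [← pow_add, Nat.sub_add_cancel hi]
      _ ≤ _ := Nat.mul_le_mul_left _ (Nat.pow_le_pow_left (Nat.le_succ _) _)

private lemma qc_upper (k t : ℕ) : qc k t ≤ (t / k + 1) ^ k := by
  rcases Nat.eq_zero_or_pos k with rfl | hk
  · simp [qc]
  · have hi := (Nat.mod_lt t hk).le
    obtain ⟨i, hie⟩ : ∃ i, i = t % k := ⟨_, rfl⟩
    unfold qc
    rw [← hie] at hi ⊢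
    calc _ ≤ (t / k + 1) ^ (k - i) * (t / k + 1) ^ i :=
          Nat.mul_le_mul_right _ (Nat.pow_le_pow_left (Nat.le_succ _) _)
      _ = _ := by rw [← pow_add, Nat.sub_add_cancel hi]

theorem vq_lower {m : ℕ} (hm : 1 ≤ m) (k t : ℕ) : (((t / k : ℕ) : ℝ) / m) ^ k ≤ vq m k t := by
  have hm0 : (0 : ℝ) < (m : ℝ) ^ k := pow_pos (by exact_mod_cast hm) k
  unfold vq
  rw [div_pow, div_le_div_iff_of_pos_right hm0]
  exact_mod_cast qc_lower k t

theorem vq_upper {m : ℕ} (hm : 1 ≤ m) (k t : ℕ) : vq m k t ≤ ((((t / k : ℕ) : ℝ) + 1) / m) ^ k := by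
  have hm0 : (0 : ℝ) < (m : ℝ) ^ k := pow_pos (by exact_mod_cast hm) k
  unfold vq
  rw [div_pow, div_le_div_iff_of_pos_right hm0]
  exact_mod_cast qc_upper k t

private lemma Sq_le {m : ℕ} {p : ℕ} (hp : 1 ≤ p) : (m : ℝ) / ((p : ℝ) + 1) ≤ (m : ℝ) / (p : ℝ) := by
  have hp0 : (0 : ℝ) < (p : ℝ) := by exact_mod_cast hp
  exact div_le_div_of_nonneg_left (Nat.cast_nonneg m) hp0 (by linarith)

theorem Sq_upper {m k t : ℕ} (hk : 1 ≤ k) (ht : k ≤ t) : Sq m k t ≤ k * ((m : ℝ) / (t / k : ℕ)) := by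
  have hi := (Nat.mod_lt t hk).le
  have hp : 1 ≤ t / k := (Nat.one_le_div_iff hk).2 ht
  have h1 := Sq_le (m := m) hp
  unfold Sq
  rw [Nat.cast_sub hi]
  have h2 : (0 : ℝ) ≤ ((t % k : ℕ) : ℝ) := Nat.cast_nonneg _
  have h3 := mul_le_mul_of_nonneg_left h1 h2
  linarith

theorem Sq_lower {m k t : ℕ} (hk : 1 ≤ k) (ht : k ≤ t) : k * ((m : ℝ) / ((t / k : ℕ) + 1)) ≤ Sq m k t := by
  have hi := (Nat.mod_lt t hk).le
  have hp : 1 ≤ t / k := (Nat.one_le_div_iff hk).2 ht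
  have h1 := Sq_le (m := m) hp
  unfold Sq
  rw [Nat.cast_sub hi]
  have h2 : (0 : ℝ) ≤ (k : ℝ) - ((t % k : ℕ) : ℝ) := sub_nonneg.2 (by exact_mod_cast hi)
  have h3 := mul_le_mul_of_nonneg_left h1 h2
  linarith

private lemma qc_succ (k t : ℕ) : qc k t ≤ qc k (t + 1) := by
  rcases k with _ | k
  · simp [qc_zero]
  · rw [qc_rec, qc_rec']
    exact Nat.mul_le_mul_right _ (Nat.le_succ _)

theorem vq_mono {m : ℕ} (hm : 1 ≤ m) (k : ℕ) {s t : ℕ} (h : s ≤ t) : vq m k s ≤ vq m k t := by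
  have hm0 : (0 : ℝ) < (m : ℝ) ^ k := pow_pos (by exact_mod_cast hm) k
  unfold vq
  rw [div_le_div_iff_of_pos_right hm0]
  exact_mod_cast monotone_nat_of_le_succ (qc_succ k) h

theorem vq_cube {m : ℕ} (hm : 1 ≤ m) {k : ℕ} (hk : 1 ≤ k) (p : ℕ) : vq m k (k * p) = ((p : ℝ) / m) ^ k := by
  have h1 := qc_split (k := k) (p := p) (Nat.zero_le k)
  rw [add_zero, pow_zero, mul_one, Nat.sub_zero] at h1
  unfold vq
  rw [h1, div_pow, Nat.cast_pow]

theorem Sq_cube {m k : ℕ} (hk : 1 ≤ k) (p : ℕ) : Sq m k (k * p) = k * ((m : ℝ) / p) := by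
  have h1 := Sq_split (m := m) (p := p) hk (Nat.zero_le k)
  rw [add_zero, Nat.sub_zero, Nat.cast_zero, zero_mul, add_zero] at h1
  exact h1

theorem layer_mono (k : ℕ) {s t : ℕ} (h : s ≤ t) : s - s / (k + 1) ≤ t - t / (k + 1) := by
  have hstep : ∀ t : ℕ, t - t / (k + 1) ≤ (t + 1) - (t + 1) / (k + 1) := by
    intro t
    have h1 : (t + 1) / (k + 1) ≤ t / (k + 1) + 1 := by
      calc (t + 1) / (k + 1) ≤ (t + (k + 1)) / (k + 1) := Nat.div_le_div_right (by omega)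
        _ = t / (k + 1) + 1 := Nat.add_div_right t (by omega : 0 < k + 1)
    omega
  exact monotone_nat_of_le_succ (f := fun t : ℕ => t - t / (k + 1)) hstep h

/-- The layer of the first cell of the cube `((k+1) p)`: the cube of dimension `k`. -/
theorem layer_cube (k p : ℕ) : (k + 1) * p - ((k + 1) * p) / (k + 1) = k * p := by
  rw [Nat.mul_div_cancel_left _ (Nat.succ_pos k)]
  have h3 : (k + 1) * p = k * p + p := by ring
  omega

end Pool.Agent.H86.ZN
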