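import Pool.Agent.H86.ZN.ZoneB

/-!
# Project ZN: the exact recursion on the new cells, for fixed `m`

Proof sketch. `g`, `U`, `c` from `exists_g`, `xL = vq m (k+2) ((k+2) pL)`, `xR = vq m (k+2) ((k+2) pR)`. `max_argument`:
* `hbd`: `g (m x) ≤ m G x + 3 ≤ m + 3`.
* `hin`: if `m F x < g (m x)` then `m G x < g (m x)` (`G_le_F`), so `x ≥ xL + ε` and `x ≤ xR - ε` by the last two clauses of `exists_g`.
* `htri`: `C.tri`. First alternative: `g (m x) ≤ m G x + c + e + 6/m ≤ m G x + 2`. Third: `exch_chain` (with the set `A`): `Thc (∑ x) ≤ ∑ F + m (hi - lo)`, `g ≤ Thc`, `m * ((∑ x)/m) = ∑ x`.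
* `hnear`: `R = m (hi - lo)`, `j` the cell of the mean, `c (j+2) = vq m (k+1) s`. If `R ≥ c (j+2) + a0`: `C.near` for `s`. Otherwise `near_cells` for the tuple `m * x i`, bounds `m lo`, `m hi`; its hypotheses:
  `hW = C.hW`, `hlow`: `C.a1` and `c ≥ v ((k+1) pL)`, `hhigh`: `C.a2`, `hle2`: `C.a3`, `hratio`: `c (j+2) + a0 ≤ c (j+1) + 2 a0 ≤ c (j+1) + c j` (`C.a7`).
So `g (m x) ≤ m F x` on `[xL, xR]`. For `(k+2) pP ≤ t < (k+2) pQ`, `0 ≤ y ≤ f = wk m (k+1) t`, `x = u t + y/m`: `m F x ≥ Thc (m u t + y) = m f + N' F f + F y` (`Thc_true`), and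
`m F x ≤ TT f (m x) = m f + N' F f + F y` (`F_le_T`, `x ≤ f`: `m x ≤ (N'+1) f ≤ m f`, `N' + 1 ≤ m`). Hence `Link` (`hv`, `hv'`: `vq_rec`, `vq_rec'`; `hF`: `y = 0`; `pos`: `N' ≥ pP ≥ 1`; `lt`: `N' + 1 ≤ m` because
`(k+1) (pR + 1) + 1 ≤ t3` and the link of the chain below `t3` has `Nk + 1 ≤ m`).
-/

set_option autoImplicit false

namespace Pool.Agent.H86.ZN

open Finset Pool.Agent.H14RC Pool.Agent.H86.FM Pool.Agent.H86.Z1

private theorem zc_t23 {m k t0 t2 t3 pL pP pQ pR : ℕ} {a0 ε e : ℝ} (C : ZCtx m k t0 t2 t3 pL pP pQ pR a0 ε e) :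
    t2 < t3 := by
  have h1 := C.i1
  have h2 := C.i2
  have h3 := C.i3
  have h4 := C.i4
  have h5 := C.i5
  have h6 : (k + 1) * pL ≤ (k + 1) * (pR + 1) := Nat.mul_le_mul_left _ (by omega)
  omega

theorem ZCtx.g_le {m k t0 t2 t3 pL pP pQ pR : ℕ} {a0 ε e : ℝ} (C : ZCtx m k t0 t2 t3 pL pP pQ pR a0 ε e) {x : ℝ}
    (h0 : vq m (k + 2) ((k + 2) * pP) ≤ x) (h1 : x ≤ vq m (k + 2) ((k + 2) * pQ)) :
    Thc m (vq m (k + 1)) t2 t3 (m * x) ≤ m * F m x := by
  have hm6 := C.hm
  have hm2 : 2 ≤ m := by omega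
  have hm1 : 1 ≤ m := by omega
  have hm0 : (0 : ℝ) < m := by exact_mod_cast (by omega : 0 < m)
  have h23 := zc_t23 C
  have hε := C.eps
  have he0 := C.he0
  have he := C.he
  obtain ⟨g, U, c, hcells, hcv, hcb, hcj, hmid, hall⟩ := C.exists_g
  obtain ⟨xL, hxL⟩ : ∃ xL, xL = vq m (k + 2) ((k + 2) * pL) := ⟨_, rfl⟩
  obtain ⟨xR, hxR⟩ : ∃ xR, xR = vq m (k + 2) ((k + 2) * pR) := ⟨_, rfl⟩
  rw [← hxL, ← hxR] at hall
  have hL : 0 < xL := by
    rw [hxL, vq_cube hm1 (by omega) pL]
    have : (0 : ℝ) < pL := by exact_mod_cast C.i6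
    positivity
  have hR : xR < 1 / 2 := by rw [hxR]; exact C.uR1
  have hc1 : ∀ j, c j ≤ 1 := by
    intro j
    obtain ⟨s, hs2, hs3, hs⟩ := hcv j
    rw [hs]
    exact (C.face s hs2 hs3).le
  have hGone : ∀ x, xL ≤ x → x ≤ xR → g (m * x) ≤ m * G x + 2 := by
    intro x hx0 hx1
    obtain ⟨-, ⟨j, -, -, hj⟩, -, -⟩ := hall x hx0 hx1
    have := hc1 (j + 2)
    linarith
  have hmain : ∀ x : ℝ, xL ≤ x → x ≤ xR → g (m * x) ≤ m * F m x := by
    refine max_argument hm2 hL (by linarith) hε ?_ ?_ ?_ ?_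
    · refine ⟨m + 2, fun x hx0 hx1 => ?_⟩
      have h2 := hGone x hx0 hx1
      have h3 := G_le_one (x := x) (by linarith) (by linarith)
      have h4 : (m : ℝ) * G x ≤ m * 1 := mul_le_mul_of_nonneg_left h3 hm0.le
      linarith
    · intro x hx0 hx1 hlt
      obtain ⟨-, -, h3, h4⟩ := hall x hx0 hx1
      have h5 := G_le_F hm2 (x := x) (by linarith) (by linarith)
      have h6 : (m : ℝ) * G x ≤ m * F m x := mul_le_mul_of_nonneg_left h5 hm0.le
      constructor
      · by_contra hcon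
        push Not at hcon
        have := h3 hcon
        linarith
      · by_contra hcon
        push Not at hcon
        have := h4 hcon
        linarith
    · intro x lo hi hlo hhi hx hA hB
      have hmean0 : xL ≤ (∑ i, x i) / m := by linarith
      have hmean1 : (∑ i, x i) / m ≤ xR := by linarith
      rw [hxL] at hA
      rw [hxR] at hB
      rcases C.tri x lo hi hlo hhi hx hA hB with h2 | h2 | ⟨h2, h3, A, hA2, hA3⟩
      · left
        have := hGone _ hmean0 hmean1
        linarith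
      · right
        exact h2
      · left
        have hch : Chain m (vq m (k + 1)) (wk m k) (Nk k) t2 t3 :=
          ⟨fun t ht ht' => C.chain.link t (C.h02.trans ht) ht',
            fun s t hs hst ht => C.chain.wmono s t (C.h02.trans hs) hst ht,
            fun s t hs hst ht => C.chain.Nmono s t (C.h02.trans hs) hst ht⟩
        have h4 := exch_chain hm2 hch C.face h23 x A (lo := lo) (hi := hi)
          (fun i => ⟨hlo.trans (hx i).1, (hx i).2⟩) h2 h3 hA2 hA3
        have h5 := (hall _ hmean0 hmean1).1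
        have h6 : (m : ℝ) * ((∑ i, x i) / m) = ∑ i, x i := by field_simp
        rw [h6] at h5 ⊢
        linarith
    · intro x lo hi hx hlo hhi hlt hA hB
      have hmean0 : xL ≤ (∑ i, x i) / m := by linarith
      have hmean1 : (∑ i, x i) / m ≤ xR := by linarith
      obtain ⟨-, ⟨j, hj0, hj1, hj2⟩, -, -⟩ := hall _ hmean0 hmean1
      rcases le_or_gt (c (j + 2) + a0) (m * (hi - lo)) with h2 | h2
      · left
        obtain ⟨s, hs2, hs3, hs⟩ := hcv (j + 2)
        rw [hs] at h2 hj2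
        rw [hxL] at hlo
        rw [hxR] at hhi
        have := C.near x lo hi hlo hhi hx hlt s hs2 hs3 h2
        linarith
      · right
        have hmx : (∑ i, (m : ℝ) * x i) / m = m * ((∑ i, x i) / m) := by
          rw [← Finset.mul_sum]
          ring
        have h3 := near_cells hm2 hcells C.chain C.h02 h23 C.face C.a0pos C.hW hcv
          (fun j => by
            have h4 := C.a1
            have h5 := (hcb j).1
            linarith)
          (fun j => by
            have h4 := C.a2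
            have h5 := (hcb j).2
            linarith)
          (fun j => by
            have h4 := C.a3
            have h5 := (hcb j).2
            linarith) hcj
          (fun j => by
            have h4 := C.a7
            have h5 := (hcb j).1
            have h6 := hcj (j + 1)
            have h7 : c (j + 1 + 1) = c (j + 2) := rfl
            rw [h7] at h6
            linarith)
          (fun i => (m : ℝ) * x i) (lo := m * lo) (hi := m * hi)
          (fun i => ⟨mul_le_mul_of_nonneg_left (hx i).1 hm0.le, mul_le_mul_of_nonneg_left (hx i).2 hm0.le⟩) j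
          (by rw [hmx]; exact hj0) (by rw [hmx]; exact hj1) (by linarith)
        rw [hmx] at h3
        linarith
  have hx0 : xL ≤ x := by
    refine le_trans ?_ h0
    rw [hxL]
    exact vq_mono hm1 _ (Nat.mul_le_mul_left _ C.i2.le)
  have hx1 : x ≤ xR := by
    refine le_trans h1 ?_
    rw [hxR]
    exact vq_mono hm1 _ (Nat.mul_le_mul_left _ C.i4.le)
  have h2 := hmain x hx0 hx1
  rw [hmid x h0 h1] at h2
  exact h2

theorem ZCtx.link {m k t0 t2 t3 pL pP pQ pR : ℕ} {a0 ε e : ℝ} (C : ZCtx m k t0 t2 t3 pL pP pQ pR a0 ε e) {t : ℕ}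
    (h0 : (k + 2) * pP ≤ t) (h1 : t < (k + 2) * pQ) :
    Link m (vq m (k + 2) t) (vq m (k + 2) (t + 1)) (wk m (k + 1) t) (Nk (k + 1) t) ∧
    F m (wk m (k + 1) t) = wk m (k + 1) t * Sq m (k + 1) (t - t / (k + 2)) := by
  have hm6 := C.hm
  have hm2 : 2 ≤ m := by omega
  have hm1 : 1 ≤ m := by omega
  have hm0 : (0 : ℝ) < m := by exact_mod_cast (by omega : 0 < m)
  have g0 : (k + 2) * pL ≤ t := le_trans (Nat.mul_le_mul_left _ C.i2.le) h0
  have g1 : t < (k + 2) * (pR + 1) := lt_of_lt_of_le h1 (Nat.mul_le_mul_left _ (by have := C.i4; omega))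
  obtain ⟨s, hs1, hs2, hs3, hs4, hs5⟩ := C.idx g0 g1
  have hf : Face m (wk m (k + 1) t) := C.face (t - t / (k + 2)) (by omega) (by omega)
  have hN1 : 1 ≤ t / (k + 2) := by
    rw [Nat.le_div_iff_mul_le (by omega)]
    have h2 : 1 ≤ pP := by
      have := C.i2
      omega
    have h3 : (k + 2) * 1 ≤ (k + 2) * pP := Nat.mul_le_mul_left _ h2
    omega
  have hNm : t / (k + 2) + 1 ≤ m := by
    have h2 := (C.chain.link (s + 1) (by have := C.h02; omega) (by omega)).lt
    omega
  have hv : m * vq m (k + 2) t = ((t / (k + 2) : ℕ) : ℝ) * wk m (k + 1) t := vq_rec hm1 (k + 1) t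
  have hv' : m * vq m (k + 2) (t + 1) = (((t / (k + 2) : ℕ) : ℝ) + 1) * wk m (k + 1) t := vq_rec' hm1 (k + 1) t
  have key : ∀ y : ℝ, 0 ≤ y → y ≤ wk m (k + 1) t →
      m * F m (vq m (k + 2) t + y / m) =
        m * wk m (k + 1) t + ((t / (k + 2) : ℕ) : ℝ) * F m (wk m (k + 1) t) + F m y := by
    intro y hy0 hy1
    have hmx : (m : ℝ) * (vq m (k + 2) t + y / m) = m * vq m (k + 2) t + y := by
      field_simp
    have hu1 : vq m (k + 2) t + y / m ≤ vq m (k + 2) (t + 1) := by
      have h2 : (m : ℝ) * (vq m (k + 2) t + y / m) ≤ m * vq m (k + 2) (t + 1) := by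
        rw [hmx, hv', hv]
        linarith
      exact le_of_mul_le_mul_left h2 hm0
    have hy0' : 0 ≤ y / m := by positivity
    apply le_antisymm
    · have hx0 : 0 ≤ vq m (k + 2) t + y / m := by
        have : 0 ≤ vq m (k + 2) t := by unfold vq; positivity
        linarith
      have hxf : vq m (k + 2) t + y / m ≤ wk m (k + 1) t := by
        have h2 : (m : ℝ) * (vq m (k + 2) t + y / m) ≤ m * wk m (k + 1) t := by
          have h3 : (m : ℝ) * (vq m (k + 2) t + y / m) ≤ m * vq m (k + 2) (t + 1) :=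
            mul_le_mul_of_nonneg_left hu1 hm0.le
          have h4 : (((t / (k + 2) : ℕ) : ℝ) + 1) * wk m (k + 1) t ≤ m * wk m (k + 1) t :=
            mul_le_mul_of_nonneg_right (by exact_mod_cast hNm) hf.pos.le
          linarith
        exact le_of_mul_le_mul_left h2 hm0
      have h2 := F_le_T hm2 hf.pos hf.le hx0 hxf
      rw [hmx, hv] at h2
      unfold TT at h2
      have h3 := (FQ_qsub hm2 hf).int y ((t / (k + 2) : ℕ) : ℤ)
      have e1 : y + (((t / (k + 2) : ℕ) : ℤ) : ℝ) * wk m (k + 1) t =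
          ((t / (k + 2) : ℕ) : ℝ) * wk m (k + 1) t + y := by
        rw [Int.cast_natCast]
        ring
      rw [e1, FQ_mem hm2 hf.pos hy0 hy1] at h3
      rw [h3, Int.cast_natCast] at h2
      linarith
    · have h2 := C.g_le (x := vq m (k + 2) t + y / m)
        (by
          have := vq_mono hm1 (k + 2) h0
          linarith)
        (hu1.trans (vq_mono hm1 (k + 2) (by omega)))
      rw [hmx, (C.Thc_true g0 g1 hy0 hy1).1] at h2
      exact h2
  have hnode : m * F m (vq m (k + 2) t) =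
      m * wk m (k + 1) t + ((t / (k + 2) : ℕ) : ℝ) * F m (wk m (k + 1) t) := by
    have h2 := key 0 le_rfl hf.pos.le
    rw [zero_div, add_zero, F_zero hm2, add_zero] at h2
    exact h2
  refine ⟨⟨hf, hN1, hNm, hv, hv', hnode, ?_⟩, C.val (t - t / (k + 2)) (by omega) (by omega)⟩
  intro y hy0 hy1
  have h2 := key y hy0 hy1
  have h3 : (m : ℝ) * F m (vq m (k + 2) t + y / m) = m * (F m (vq m (k + 2) t) + F m y / m) := by
    rw [h2, mul_add, hnode]
    field_simp
  exact mul_left_cancel₀ hm0.ne' h3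

end Pool.Agent.H86.ZN
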