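import Pool.Agent.H86.ZN.Base0
import Pool.Agent.H86.ZN.ZoneC

/-!
# Project ZN: the zone step and the induction
-/

set_option autoImplicit false

namespace Pool.Agent.H86.ZN

open Finset Pool.Agent.H14RC Pool.Agent.H86.FM

private theorem zz_of_ctx {k : ℕ} {s1 s2 : ℝ}
    (h : ∃ M : ℕ, ∀ m : ℕ, M ≤ m → ∃ (t0 t2 t3 pL pP pQ pR : ℕ) (a0 ε e : ℝ), ZCtx m k t0 t2 t3 pL pP pQ pR a0 ε e ∧
      (pP : ℝ) ≤ s1 * m ∧ s2 * m ≤ (pQ : ℝ)) : ZZ (k + 1) s1 s2 := by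
  obtain ⟨M, hM⟩ := h
  refine ⟨M, fun m hm t ht0 ht1 => ?_⟩
  obtain ⟨t0, t2, t3, pL, pP, pQ, pR, a0, ε, e, C, hP, hQ⟩ := hM m hm
  have hN : Nk (k + 1) t = t / (k + 2) := rfl
  have h4 : pP ≤ t / (k + 2) := by
    have : (pP : ℝ) ≤ (t / (k + 2) : ℕ) := by rw [hN] at ht0; linarith
    exact_mod_cast this
  have h5 : t / (k + 2) + 1 ≤ pQ := by
    have : ((t / (k + 2) : ℕ) : ℝ) + 1 ≤ pQ := by rw [hN] at ht1; linarith
    exact_mod_cast this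
  have h6 : (k + 2) * pP ≤ t := (Nat.mul_le_mul_left _ h4).trans (Nat.mul_div_le t (k + 2))
  have h7 : t < (k + 2) * pQ := by
    have h8 : t < (k + 2) * (t / (k + 2) + 1) := by
      have := Nat.lt_mul_div_succ t (by omega : 0 < k + 2)
      simpa using this
    exact h8.trans_le (Nat.mul_le_mul_left _ h5)
  exact C.link h6 h7

theorem zz_step {k : ℕ} (hk : 1 ≤ k) {s1 s2 : ℝ} (h1 : loR (k + 1) < s1) (h2 : s1 < s2) (h3 : s2 < upR (k + 1))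
    (h : ZZ k (loR (k + 1)) (upR (k + 1))) : ZZ (k + 1) s1 s2 :=
  zz_of_ctx (ctx_exists hk h1 h2 h3 h)

theorem zz_one {s1 s2 : ℝ} (h1 : loR 1 < s1) (h2 : s1 < s2) (h3 : s2 < upR 1) : ZZ 1 s1 s2 :=
  zz_of_ctx (ctx_exists0 h1 h2 h3)

/-- All zones. -/
theorem zz_all : ∀ k : ℕ, 1 ≤ k → ∀ s1 s2 : ℝ, loR k < s1 → s1 < s2 → s2 < upR k → ZZ k s1 s2 := by
  intro k hk
  induction k, hk using Nat.le_induction with
  | base => exact fun s1 s2 h1 h2 h3 => zz_one h1 h2 h3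
  | succ k hk ih =>
    intro s1 s2 h1 h2 h3
    exact zz_step hk h1 h2 h3 (ih _ _ (loR_mono (by omega)) (loR_lt_upR _ _) (upR_anti (by omega)))

end Pool.Agent.H86.ZN
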