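import Pool.Agent.H86.ZN.Chain
import Pool.Agent.H86.ZN.QCube
import Pool.Agent.H86.ZN.Par

/-!
# Project ZN: the induction statement

`ZZ k r1 r2`: for all large `m`, the exact recursion on the cells of zone `k` with side ratios in `[r1, r2]`, and the value of `F` at the faces.

Proof sketches.
* `chain_of_ZZ`: for `t0 ≤ t < t3`: `r1 m ≤ t0/(k+1) ≤ t/(k+1)`, `t/(k+1) + 1 ≤ t3/(k+1) + 1 ≤ r2 m`; `wk`, `Nk` are monotone (`vq_mono`, `layer_mono`, `Nat.div_le_div_right`).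
* `node_val`: `m F v = m w + N F w`, `F w = w Sq w`, `m v = N w`, so `F v = v (m/N + Sq w) = v Sq v` (`Sq_rec`); for `v' = v (t+1)`: `F v' = F v + F w/m`, `m v' = (N+1) w` (`Sq_rec'`).
-/

set_option autoImplicit false

namespace Pool.Agent.H86.ZN

open Finset Pool.Agent.H14RC

/-- The layers. -/
noncomputable def wk (m k t : ℕ) : ℝ := vq m k (t - t / (k + 1))

/-- The number of the layers' copies. -/
def Nk (k t : ℕ) : ℕ := t / (k + 1)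

def ZZ (k : ℕ) (r1 r2 : ℝ) : Prop := ∃ M : ℕ, ∀ m : ℕ, M ≤ m → ∀ t : ℕ,
  r1 * m ≤ (Nk k t : ℝ) → (Nk k t : ℝ) + 1 ≤ r2 * m →
  Link m (vq m (k + 1) t) (vq m (k + 1) (t + 1)) (wk m k t) (Nk k t) ∧
  F m (wk m k t) = wk m k t * Sq m k (t - t / (k + 1))

theorem chain_of_ZZ {k : ℕ} {r1 r2 : ℝ} (h : ZZ k r1 r2) : ∃ M : ℕ, ∀ m : ℕ, M ≤ m → ∀ t0 t3 : ℕ,
    r1 * m ≤ (Nk k t0 : ℝ) → (Nk k t3 : ℝ) + 1 ≤ r2 * m → Chain m (vq m (k + 1)) (wk m k) (Nk k) t0 t3 := by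
  obtain ⟨M, hM⟩ := h
  refine ⟨max M 1, fun m hm t0 t3 h0 h3 => ?_⟩
  have hm1 : 1 ≤ m := (le_max_right M 1).trans hm
  have hN : ∀ s t : ℕ, s ≤ t → Nk k s ≤ Nk k t := fun s t hst => Nat.div_le_div_right hst
  refine ⟨fun t ht ht' => (hM m ((le_max_left M 1).trans hm) t ?_ ?_).1, fun s t _ hst _ => ?_,
    fun s t _ hst _ => hN s t hst⟩
  · have : (Nk k t0 : ℝ) ≤ Nk k t := by exact_mod_cast hN t0 t ht
    linarith
  · have : (Nk k t : ℝ) ≤ Nk k t3 := by exact_mod_cast hN t t3 ht'.le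
    linarith
  · exact vq_mono hm1 k (layer_mono k hst)

theorem node_val {k : ℕ} (hk : 1 ≤ k) {r1 r2 : ℝ} (hr1 : 0 < r1) (h : ZZ k r1 r2) : ∃ M : ℕ, ∀ m : ℕ, M ≤ m → ∀ t : ℕ,
    r1 * m ≤ (Nk k t : ℝ) → (Nk k t : ℝ) + 1 ≤ r2 * m →
    F m (vq m (k + 1) t) = vq m (k + 1) t * Sq m (k + 1) t ∧
    F m (vq m (k + 1) (t + 1)) = vq m (k + 1) (t + 1) * Sq m (k + 1) (t + 1) := by
  obtain ⟨M, hM⟩ := h
  refine ⟨max M 2, fun m hm t h0 h3 => ?_⟩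
  have hm2 : 2 ≤ m := (le_max_right M 2).trans hm
  have hm0 : (0 : ℝ) < m := by exact_mod_cast (by omega : 0 < m)
  obtain ⟨hl, hw⟩ := hM m ((le_max_left M 2).trans hm) t h0 h3
  have hN0 : (0 : ℝ) < (Nk k t : ℝ) := lt_of_lt_of_le (mul_pos hr1 hm0) h0
  have hN1 : 1 ≤ Nk k t := by exact_mod_cast (Nat.cast_pos.1 hN0)
  have ht : k + 1 ≤ t := by
    by_contra hlt
    have : Nk k t = 0 := Nat.div_eq_of_lt (by omega)
    omega
  have e1 : Sq m (k + 1) t = (m : ℝ) / (Nk k t : ℕ) + Sq m k (t - t / (k + 1)) := Sq_rec hk ht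
  have e2 : Sq m (k + 1) (t + 1) = (m : ℝ) / ((Nk k t : ℕ) + 1) + Sq m k (t - t / (k + 1)) := Sq_rec' hk ht
  obtain ⟨-, -, j3, -⟩ := hl.joint hm2
  have hv : vq m (k + 1) t = (Nk k t : ℝ) * wk m k t / m := by
    rw [eq_div_iff hm0.ne', mul_comm]
    exact hl.hv
  have hv' : vq m (k + 1) (t + 1) = ((Nk k t : ℝ) + 1) * wk m k t / m := by
    rw [eq_div_iff hm0.ne', mul_comm]
    exact hl.hv'
  have hF : F m (vq m (k + 1) t) = wk m k t + (Nk k t : ℝ) * F m (wk m k t) / m := by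
    have := hl.hF
    field_simp
    linarith
  have a1 : F m (vq m (k + 1) t) = vq m (k + 1) t * Sq m (k + 1) t := by
    rw [hF, hw, e1, hv]
    field_simp
  refine ⟨a1, ?_⟩
  rw [j3, hF, hw, e2, hv']
  field_simp
  ring

end Pool.Agent.H86.ZN
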