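import Pool.Agent.H86.ZN.Ctx

/-!
# Project ZN: the minimum `Thc` on the true cells

`C : ZCtx ...`, `v = vq m (k+1)`, `Thc = Thc m v t2 t3`, `u t = vq m (k+2) t`, `f t = wk m (k+1) t = v (t - t/(k+2))`, `N' = t/(k+2)`, so `m u t = N' f t`, `m u (t+1) = (N'+1) f t` (`vq_rec`, `vq_rec'`).

Proof sketches.
* `idx`: for `(k+2) pL ≤ t < (k+2)(pR+1)` the index `s' = t - t/(k+2)` satisfies `(k+1) pL ≤ s' ≤ (k+1)(pR+1)` (`layer_mono`, `layer_cube`), so `t2 + 1 ≤ s'`, `s' + 1 ≤ t3`; and, with `s' = s + 1`, `Nk k s ≤ N'` and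
  `N' ≤ Nk k (s+1)` (`t = (k+2) p + i`, `0 ≤ i ≤ k+1`: `N' = p`, `s' = (k+1) p + i`, `s'/(k+1) ≥ p`, `(s'-1)/(k+1) ≤ p`).
* `Thc_true`: `Thc_cell` with `s + 1 = s'`: `X = m u t + y ∈ [N' f, (N'+1) f]`, so `Nk k s * f ≤ X ≤ (Nk k (s+1) + 1) * f`: `Thc X = TT f X = m f + FQ f (N' f + y) = m f + N' F f + F y` (`FQ_qsub.int`, `FQ_mem`).
* `Thc_step`: consequence for `y = 0` and general `y`.
* `Thc_le_G`: `X = m x`, `u t ≤ x ≤ u (t+1)`: `Thc X = m f + N' F f + F y`, `F f = f Sq` (`val`), `F y ≤ y Sq + f + 6/m` (`osc`: `F y ≤ G y + 6/m`, `key'`: `f G y ≤ y G f + f²`, `G f ≤ F f`), `X = N' f + y`,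
  so `Thc X ≤ m (f + x Sq) + f + 6/m ≤ m G x + e + f + 6/m` (`exc`). At a node (`y = 0`) without `f + 6/m`: `Thc_node_le_G`.
* `FQ_neg_le`: `FQ f (-y) ≤ -(y Sq) + f + 6/m`, `FQ_pos_le`: `FQ f y ≤ y Sq + f + 6/m` for a face `f = v s` with `F f = f Sq` (`osc` for the remainder).
-/

set_option autoImplicit false

namespace Pool.Agent.H86.ZN

open Finset Pool.Agent.H14RC Pool.Agent.H86.FM Pool.Agent.H86.Z1

theorem ZCtx.idx {m k t0 t2 t3 pL pP pQ pR : ℕ} {a0 ε e : ℝ} (C : ZCtx m k t0 t2 t3 pL pP pQ pR a0 ε e) {t : ℕ}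
    (h0 : (k + 2) * pL ≤ t) (h1 : t < (k + 2) * (pR + 1)) :
    ∃ s, s + 1 = t - t / (k + 2) ∧ t2 ≤ s ∧ s + 2 ≤ t3 ∧ Nk k s ≤ t / (k + 2) ∧ t / (k + 2) ≤ Nk k (s + 1) := by
  have e1 := Nat.div_add_mod t (k + 2)
  have e2 := Nat.mod_lt t (by omega : 0 < k + 2)
  have h2 : pL ≤ t / (k + 2) := by
    rw [Nat.le_div_iff_mul_le (by omega)]
    linarith [mul_comm pL (k + 2)]
  have h3 : t / (k + 2) < pR + 1 := by
    rw [Nat.div_lt_iff_lt_mul (by omega)]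
    linarith [mul_comm (pR + 1) (k + 2)]
  obtain ⟨p, hp⟩ : ∃ p, p = t / (k + 2) := ⟨_, rfl⟩
  obtain ⟨i, hi⟩ : ∃ i, i = t % (k + 2) := ⟨_, rfl⟩
  rw [← hp, ← hi] at e1
  rw [← hi] at e2
  rw [← hp] at h2 h3 ⊢
  have e3 : (k + 2) * p = (k + 1) * p + p := by ring
  have e4 : t - p = (k + 1) * p + i := by omega
  have h4 : (k + 1) * pL ≤ (k + 1) * p := Nat.mul_le_mul_left _ h2
  have h5 : (k + 1) * p ≤ (k + 1) * pR := Nat.mul_le_mul_left _ (by omega)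
  have i1 := C.i1
  have i5 := C.i5
  have e5 : (k + 1) * (pR + 1) = (k + 1) * pR + k + 1 := by ring
  refine ⟨(k + 1) * p + i - 1, by omega, by omega, by omega, ?_, ?_⟩
  · unfold Nk
    have h6 : ((k + 1) * p + i - 1) / (k + 1) < p + 1 := by
      rw [Nat.div_lt_iff_lt_mul (by omega)]
      have e6 : (p + 1) * (k + 1) = (k + 1) * p + k + 1 := by ring
      omega
    omega
  · unfold Nk
    rw [Nat.le_div_iff_mul_le (by omega)]
    have e6 : p * (k + 1) = (k + 1) * p := by ring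
    omega

private theorem ZCtx.chain2 {m k t0 t2 t3 pL pP pQ pR : ℕ} {a0 ε e : ℝ} (C : ZCtx m k t0 t2 t3 pL pP pQ pR a0 ε e) :
    Chain m (vq m (k + 1)) (wk m k) (Nk k) t2 t3 :=
  ⟨fun t h h' => C.chain.link t (C.h02.trans h) h', fun s t h h' h'' => C.chain.wmono s t (C.h02.trans h) h' h'',
    fun s t h h' h'' => C.chain.Nmono s t (C.h02.trans h) h' h''⟩

theorem ZCtx.Thc_true {m k t0 t2 t3 pL pP pQ pR : ℕ} {a0 ε e : ℝ} (C : ZCtx m k t0 t2 t3 pL pP pQ pR a0 ε e) {t : ℕ}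
    (h0 : (k + 2) * pL ≤ t) (h1 : t < (k + 2) * (pR + 1)) {y : ℝ} (hy0 : 0 ≤ y) (hy1 : y ≤ wk m (k + 1) t) :
    Thc m (vq m (k + 1)) t2 t3 (m * vq m (k + 2) t + y) =
      m * wk m (k + 1) t + ((t / (k + 2) : ℕ) : ℝ) * F m (wk m (k + 1) t) + F m y ∧
    m * vq m (k + 2) (t + 1) = m * vq m (k + 2) t + wk m (k + 1) t := by
  have hm := C.hm
  obtain ⟨s, hs, hs1, hs2, hs3, hs4⟩ := C.idx h0 h1
  have r1 : (m : ℝ) * vq m (k + 2) t = ((t / (k + 2) : ℕ) : ℝ) * wk m (k + 1) t :=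
    vq_rec (by omega) (k + 1) t
  have r2 : (m : ℝ) * vq m (k + 2) (t + 1) = (((t / (k + 2) : ℕ) : ℝ) + 1) * wk m (k + 1) t :=
    vq_rec' (by omega) (k + 1) t
  have ew : wk m (k + 1) t = vq m (k + 1) (s + 1) := by
    unfold wk
    rw [hs]
  have hf : Face m (wk m (k + 1) t) := by
    rw [ew]
    exact C.face (s + 1) (by omega) (by omega)
  have hc : (Nk k s : ℝ) ≤ ((t / (k + 2) : ℕ) : ℝ) := by exact_mod_cast hs3
  have hc' : ((t / (k + 2) : ℕ) : ℝ) ≤ (Nk k (s + 1) : ℝ) := by exact_mod_cast hs4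
  refine ⟨?_, by rw [r1, r2]; ring⟩
  have h2 := Thc_cell (by omega) C.chain2 C.face hs1 hs2 (X := m * vq m (k + 2) t + y) (by
      rw [← ew, r1]
      have := mul_le_mul_of_nonneg_right hc hf.pos.le
      linarith) (by
      rw [← ew, r1]
      have := mul_le_mul_of_nonneg_right hc' hf.pos.le
      linarith)
  rw [← ew] at h2
  rw [h2]
  unfold TT
  have h3 := (FQ_qsub (by omega) hf).int y ((t / (k + 2) : ℕ) : ℤ)
  rw [Int.cast_natCast] at h3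
  have h4 : y + ((t / (k + 2) : ℕ) : ℝ) * wk m (k + 1) t = m * vq m (k + 2) t + y := by
    rw [r1]
    ring
  rw [h4, FQ_mem (by omega) hf.pos hy0 hy1] at h3
  rw [h3]
  ring

theorem ZCtx.Thc_step {m k t0 t2 t3 pL pP pQ pR : ℕ} {a0 ε e : ℝ} (C : ZCtx m k t0 t2 t3 pL pP pQ pR a0 ε e) {t : ℕ}
    (h0 : (k + 2) * pL ≤ t) (h1 : t < (k + 2) * (pR + 1)) {y : ℝ} (hy0 : 0 ≤ y) (hy1 : y ≤ wk m (k + 1) t) :
    Thc m (vq m (k + 1)) t2 t3 (m * vq m (k + 2) t + y) =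
      Thc m (vq m (k + 1)) t2 t3 (m * vq m (k + 2) t) + F m y := by
  have h2 := (C.Thc_true h0 h1 hy0 hy1).1
  have h3 := (C.Thc_true h0 h1 (le_refl 0) (hy0.trans hy1)).1
  rw [add_zero, F_zero (by have := C.hm; omega), add_zero] at h3
  rw [h2, h3]

theorem ZCtx.osc {m k t0 t2 t3 pL pP pQ pR : ℕ} {a0 ε e : ℝ} (C : ZCtx m k t0 t2 t3 pL pP pQ pR a0 ε e) {s : ℕ}
    (h0 : t2 ≤ s) (h1 : s ≤ t3) {y : ℝ} (hy0 : 0 ≤ y) (hy1 : y ≤ vq m (k + 1) s) :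
    F m y ≤ y * Sq m (k + 1) s + vq m (k + 1) s + 6 / m := by
  have hm := C.hm
  have hf := C.face s h0 h1
  have hv := C.val s h0 h1
  have h2 := F_le_G (m := m) (by omega) hy0 (hy1.trans hf.le)
  have h3 := key' hy0 hy1 hf.pos hf.le
  have h4 := G_le_F (m := m) (by omega) hf.pos.le hf.le
  rw [hv] at h4
  have h5 : vq m (k + 1) s * G y ≤ vq m (k + 1) s * (y * Sq m (k + 1) s + vq m (k + 1) s) := by
    have := mul_le_mul_of_nonneg_left h4 hy0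
    nlinarith
  have h6 := le_of_mul_le_mul_left h5 hf.pos
  linarith

theorem ZCtx.FQ_le {m k t0 t2 t3 pL pP pQ pR : ℕ} {a0 ε e : ℝ} (C : ZCtx m k t0 t2 t3 pL pP pQ pR a0 ε e) {s : ℕ}
    (h0 : t2 ≤ s) (h1 : s ≤ t3) (X : ℝ) :
    FQ m (vq m (k + 1) s) X ≤ X * Sq m (k + 1) s + vq m (k + 1) s + 6 / m := by
  have hf := C.face s h0 h1
  have hv := C.val s h0 h1
  have h3 := Int.floor_le (X / vq m (k + 1) s)
  rw [le_div_iff₀ hf.pos] at h3
  have h4 := Int.lt_floor_add_one (X / vq m (k + 1) s)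
  rw [div_lt_iff₀ hf.pos] at h4
  have h5 := C.osc h0 h1 (y := X - (⌊X / vq m (k + 1) s⌋ : ℝ) * vq m (k + 1) s) (by linarith) (by linarith)
  unfold FQ
  rw [hv]
  linarith

theorem ZCtx.Thc_node_le_G {m k t0 t2 t3 pL pP pQ pR : ℕ} {a0 ε e : ℝ} (C : ZCtx m k t0 t2 t3 pL pP pQ pR a0 ε e) {t : ℕ}
    (h0 : (k + 2) * pL ≤ t) (h1 : t < (k + 2) * pR) :
    Thc m (vq m (k + 1)) t2 t3 (m * vq m (k + 2) t) ≤ m * G (vq m (k + 2) t) + e := by
  have hm := C.hm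
  have hR : (k + 2) * (pR + 1) = (k + 2) * pR + k + 2 := by ring
  have h1' : t < (k + 2) * (pR + 1) := by omega
  obtain ⟨s, hs, hs1, hs2, -, -⟩ := C.idx h0 h1'
  have ew : wk m (k + 1) t = vq m (k + 1) (s + 1) := by
    unfold wk
    rw [hs]
  have hf : Face m (wk m (k + 1) t) := by
    rw [ew]
    exact C.face (s + 1) (by omega) (by omega)
  have hv : F m (wk m (k + 1) t) = wk m (k + 1) t * Sq m (k + 1) (t - t / (k + 2)) := by
    rw [ew, C.val (s + 1) (by omega) (by omega), hs]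
  have r1 : (m : ℝ) * vq m (k + 2) t = ((t / (k + 2) : ℕ) : ℝ) * wk m (k + 1) t :=
    vq_rec (by omega) (k + 1) t
  have h3 := (C.Thc_true h0 h1' (le_refl 0) hf.pos.le).1
  rw [add_zero, F_zero (by omega), add_zero, hv] at h3
  have h4 := C.exc t h0 h1 (vq m (k + 2) t) (le_refl _) (vq_mono (by omega) (k + 2) (by omega))
  rw [h3]
  have h5 : (m : ℝ) * (wk m (k + 1) t + vq m (k + 2) t * Sq m (k + 1) (t - t / (k + 2))) =
      m * wk m (k + 1) t + (m * vq m (k + 2) t) * Sq m (k + 1) (t - t / (k + 2)) := by ring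
  rw [h5, r1] at h4
  linarith

theorem ZCtx.Thc_le_G {m k t0 t2 t3 pL pP pQ pR : ℕ} {a0 ε e : ℝ} (C : ZCtx m k t0 t2 t3 pL pP pQ pR a0 ε e) {t : ℕ}
    (h0 : (k + 2) * pL ≤ t) (h1 : t < (k + 2) * pR) {x : ℝ} (hx0 : vq m (k + 2) t ≤ x) (hx1 : x ≤ vq m (k + 2) (t + 1)) :
    Thc m (vq m (k + 1)) t2 t3 (m * x) ≤ m * G x + wk m (k + 1) t + e + 6 / m := by
  have hm := C.hm
  have hm0 : (0 : ℝ) < m := by
    have : 0 < m := by omega
    exact_mod_cast this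
  have hR : (k + 2) * (pR + 1) = (k + 2) * pR + k + 2 := by ring
  have h1' : t < (k + 2) * (pR + 1) := by omega
  obtain ⟨s, hs, hs1, hs2, -, -⟩ := C.idx h0 h1'
  have ew : wk m (k + 1) t = vq m (k + 1) (s + 1) := by
    unfold wk
    rw [hs]
  have hf : Face m (wk m (k + 1) t) := by
    rw [ew]
    exact C.face (s + 1) (by omega) (by omega)
  have hv : F m (wk m (k + 1) t) = wk m (k + 1) t * Sq m (k + 1) (t - t / (k + 2)) := by
    rw [ew, C.val (s + 1) (by omega) (by omega), hs]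
  have r1 : (m : ℝ) * vq m (k + 2) t = ((t / (k + 2) : ℕ) : ℝ) * wk m (k + 1) t :=
    vq_rec (by omega) (k + 1) t
  have r2 : (m : ℝ) * vq m (k + 2) (t + 1) = (((t / (k + 2) : ℕ) : ℝ) + 1) * wk m (k + 1) t :=
    vq_rec' (by omega) (k + 1) t
  have hy0 : 0 ≤ m * (x - vq m (k + 2) t) := mul_nonneg hm0.le (by linarith)
  have hy1 : m * (x - vq m (k + 2) t) ≤ wk m (k + 1) t := by
    have := mul_le_mul_of_nonneg_left hx1 hm0.le
    linarith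
  have h3 := (C.Thc_true h0 h1' hy0 hy1).1
  have ex : (m : ℝ) * vq m (k + 2) t + m * (x - vq m (k + 2) t) = m * x := by ring
  rw [ex, hv] at h3
  have h4 := C.exc t h0 h1 x hx0 hx1
  have h5 := C.osc (s := s + 1) (by omega) (by omega) hy0 (by rw [← ew]; exact hy1)
  rw [← ew, hs] at h5
  rw [h3]
  have h6 : (m : ℝ) * (wk m (k + 1) t + x * Sq m (k + 1) (t - t / (k + 2))) =
      m * wk m (k + 1) t + (m * vq m (k + 2) t) * Sq m (k + 1) (t - t / (k + 2)) +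
      m * (x - vq m (k + 2) t) * Sq m (k + 1) (t - t / (k + 2)) := by ring
  rw [h6, r1] at h4
  linarith

end Pool.Agent.H86.ZN
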