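import Pool.Agent.H86.ZN.ZoneA

/-!
# Project ZN: the tapered function `g`

`J0` constant cells `fL = vq m (k+1) ((k+1) pL)`, then the true cells `wk m (k+1) t`, `(k+2) pP ≤ t < (k+2) pQ`, then constant cells `fR = vq m (k+1) ((k+1) pR)`:
`cc j = fL` for `j < J0`, `= wk m (k+1) ((k+2) pP + (j - J0))` for `J0 ≤ j < J0 + (k+2)(pQ - pP)`, `= fR` beyond. `U J0 = m u ((k+2) pP) =: P`, `Q = m u ((k+2) pQ)`.

Proof sketches.
* `cc_*`: `wk m (k+1) t = vq m (k+1) (t - t/(k+2))`, `vq_mono`, `layer_mono`, `layer_cube`; `(k+1) pL ≤ (k+1) pP ≤ t - t/(k+2) ≤ (k+1) pQ ≤ (k+1) pR`; consecutive true cells are equal or neighbours `s, s+1` (`a6`).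
* `exists_g`: `exists_cells` with `U0 = P - J0 fL`, `J0` so large that `P - (J0 - 2) fL ≤ m u ((k+2) pL)`, and the constant `e0` chosen so that `g P = Thc P` (`g P = e0 + J0 F fL`).
  Middle: `g X = Thc X` for `P ≤ X ≤ Q` (induction over the cells, `Thc_step`). Left: `g (P - y) = Thc P + FQ fL (-y)` (`cells_left`), right: `g (Q + y) = Thc Q + FQ fR y` (`cells_right`).
  `g ≤ Thc` on `[m u ((k+2) pL), m u ((k+2) pR)]`: `cell_down` (`f0 = fL`, cells `t` from `(k+2) pL` to `(k+2) pP`) and `cell_up`.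
  Bound by `G`: middle `Thc_le_G` (the cell of `U` is the true cell); left: `g (P - y) ≤ Thc P - y Sq + fL + 6/m ≤ m (G uP - (uP - x) Sq) + e + fL + 6/m` (`FQ_le`, `Thc_node_le_G`, `y = m (uP - x)`) and `lineL`, `lineL'`;
  right: the same with `lineR`, `lineR'`.
-/

set_option autoImplicit false

namespace Pool.Agent.H86.ZN

open Finset Pool.Agent.H14RC Pool.Agent.H86.FM Pool.Agent.H86.Z1

/-- The cells of the tapered function. -/
private noncomputable def cc (fL fR : ℝ) (f : ℕ → ℝ) (J n T : ℕ) (j : ℕ) : ℝ :=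
  if j < J then fL else if j < J + n then f (T + (j - J)) else fR

private theorem cc_left {fL fR : ℝ} {f : ℕ → ℝ} {J n T j : ℕ} (h : j < J) : cc fL fR f J n T j = fL := by
  unfold cc
  rw [if_pos h]

private theorem cc_mid {fL fR : ℝ} {f : ℕ → ℝ} {J n T i : ℕ} (h : i < n) : cc fL fR f J n T (J + i) = f (T + i) := by
  unfold cc
  rw [if_neg (by omega), if_pos (by omega), Nat.add_sub_cancel_left]

private theorem cc_right {fL fR : ℝ} {f : ℕ → ℝ} {J n T j : ℕ} (h : J + n ≤ j) : cc fL fR f J n T j = fR := by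
  unfold cc
  rw [if_neg (by omega), if_neg (by omega)]

private theorem cc_all {fL fR : ℝ} {f : ℕ → ℝ} {J n T : ℕ} (P : ℝ → Prop) (h1 : P fL) (h2 : ∀ i, i < n → P (f (T + i)))
    (h3 : P fR) (j : ℕ) : P (cc fL fR f J n T j) := by
  rcases lt_or_ge j J with hj | hj
  · rw [cc_left hj]; exact h1
  · obtain ⟨i, rfl⟩ := Nat.exists_eq_add_of_le hj
    rcases lt_or_ge i n with hi | hi
    · rw [cc_mid hi]; exact h2 i hi
    · rw [cc_right (by omega)]; exact h3

private theorem cc_rel {fL fR : ℝ} {f : ℕ → ℝ} {J n T : ℕ} (hn : 1 ≤ n) (R : ℝ → ℝ → Prop) (h1 : R fL fL) (h2 : R fL (f T))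
    (h3 : ∀ i, i + 1 < n → R (f (T + i)) (f (T + (i + 1)))) (h4 : R (f (T + (n - 1))) fR) (h5 : R fR fR) (j : ℕ) :
    R (cc fL fR f J n T j) (cc fL fR f J n T (j + 1)) := by
  rcases lt_or_ge j J with hj | hj
  · rw [cc_left hj]
    rcases Nat.lt_or_ge (j + 1) J with hj1 | hj1
    · rw [cc_left hj1]; exact h1
    · have e : j + 1 = J + 0 := by omega
      rw [e, cc_mid (by omega)]
      exact h2
  · obtain ⟨i, rfl⟩ := Nat.exists_eq_add_of_le hj
    rcases lt_or_ge i n with hi | hi
    · rw [cc_mid hi]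
      rcases lt_or_ge (i + 1) n with hi1 | hi1
      · rw [add_assoc, cc_mid hi1]
        exact h3 i hi1
      · rw [cc_right (by omega)]
        have e : i = n - 1 := by omega
        rw [e]
        exact h4
    · rw [cc_right (by omega), cc_right (by omega)]; exact h5

/-- The cell of a point. -/
private theorem loc {U : ℕ → ℝ} {a b : ℕ} (hab : a < b) {X : ℝ} (h0 : U a ≤ X) (h1 : X ≤ U b) :
    ∃ j, a ≤ j ∧ j < b ∧ U j ≤ X ∧ X ≤ U (j + 1) := by
  obtain ⟨n, rfl⟩ := Nat.exists_eq_add_of_lt hab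
  clear hab
  induction n with
  | zero => exact ⟨a, le_rfl, by omega, h0, h1⟩
  | succ n ih =>
    rcases le_total (U (a + n + 1)) X with h | h
    · exact ⟨a + n + 1, by omega, by omega, h, h1⟩
    · obtain ⟨j, j1, j2, j3, j4⟩ := ih h
      exact ⟨j, j1, by omega, j3, j4⟩

private theorem layer_pred (k p : ℕ) (hp : 1 ≤ p) : (k + 1) * p - 1 - ((k + 1) * p - 1) / (k + 1) = k * p := by
  obtain ⟨q, rfl⟩ := Nat.exists_eq_add_of_le' hp
  have e : (k + 1) * (q + 1) - 1 = (k + 1) * q + k := by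
    have : (k + 1) * (q + 1) = (k + 1) * q + k + 1 := by ring
    omega
  rw [e, Nat.mul_add_div (Nat.succ_pos k), Nat.div_eq_of_lt (Nat.lt_succ_self k), add_zero]
  have h1 : (k + 1) * q = k * q + q := by ring
  have h2 : k * (q + 1) = k * q + k := by ring
  omega

private theorem layer_succ (k t : ℕ) : (t + 1) - (t + 1) / (k + 1) = t - t / (k + 1) ∨
    (t + 1) - (t + 1) / (k + 1) = (t - t / (k + 1)) + 1 := by
  have h1 : t / (k + 1) ≤ (t + 1) / (k + 1) := Nat.div_le_div_right (Nat.le_succ t)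
  have h2 : t / (k + 1) ≤ t := Nat.div_le_self t (k + 1)
  have h3 : (t + 1) / (k + 1) ≤ t / (k + 1) + 1 := by
    calc (t + 1) / (k + 1) ≤ (t + (k + 1)) / (k + 1) := Nat.div_le_div_right (by omega)
      _ = t / (k + 1) + 1 := Nat.add_div_right t (by omega : 0 < k + 1)
  omega

theorem ZCtx.exists_g {m k t0 t2 t3 pL pP pQ pR : ℕ} {a0 ε e : ℝ} (C : ZCtx m k t0 t2 t3 pL pP pQ pR a0 ε e) :
    ∃ (g : ℝ → ℝ) (U c : ℕ → ℝ), Cells m g U c ∧
      (∀ j, ∃ s, t2 ≤ s ∧ s ≤ t3 ∧ c j = vq m (k + 1) s) ∧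
      (∀ j, vq m (k + 1) ((k + 1) * pL) ≤ c j ∧ c j ≤ vq m (k + 1) ((k + 1) * pR)) ∧
      (∀ j, c (j + 1) ≤ c j + a0) ∧
      (∀ x, vq m (k + 2) ((k + 2) * pP) ≤ x → x ≤ vq m (k + 2) ((k + 2) * pQ) →
        g (m * x) = Thc m (vq m (k + 1)) t2 t3 (m * x)) ∧
      (∀ x, vq m (k + 2) ((k + 2) * pL) ≤ x → x ≤ vq m (k + 2) ((k + 2) * pR) →
        g (m * x) ≤ Thc m (vq m (k + 1)) t2 t3 (m * x) ∧
        (∃ j, U (j + 2) ≤ m * x ∧ m * x ≤ U (j + 2) + c (j + 2) ∧ g (m * x) ≤ m * G x + c (j + 2) + e + 6 / m) ∧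
        (x < vq m (k + 2) ((k + 2) * pL) + ε → g (m * x) ≤ m * G x) ∧
        (vq m (k + 2) ((k + 2) * pR) - ε < x → g (m * x) ≤ m * G x)) := by
  have hm2 : 2 ≤ m := by have := C.hm; omega
  have hm1 : 1 ≤ m := by omega
  have hm0 : (0 : ℝ) < m := by exact_mod_cast (by omega : 0 < m)
  have i1 := C.i1
  have i2 := C.i2
  have i3 := C.i3
  have i4 := C.i4
  have i5 := C.i5
  have i6 := C.i6
  -- the indices
  have q1 : (k + 2) * pL < (k + 2) * pP := Nat.mul_lt_mul_of_pos_left i2 (by omega)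
  have q2 : (k + 2) * pP < (k + 2) * pQ := Nat.mul_lt_mul_of_pos_left i3 (by omega)
  have q3 : (k + 2) * pQ < (k + 2) * pR := Nat.mul_lt_mul_of_pos_left i4 (by omega)
  have q4 : (k + 2) * pR < (k + 2) * (pR + 1) := Nat.mul_lt_mul_of_pos_left (by omega) (by omega)
  have r1 : (k + 1) * pL < (k + 1) * pP := Nat.mul_lt_mul_of_pos_left i2 (by omega)
  have r2 : (k + 1) * pP < (k + 1) * pQ := Nat.mul_lt_mul_of_pos_left i3 (by omega)
  have r3 : (k + 1) * pQ < (k + 1) * pR := Nat.mul_lt_mul_of_pos_left i4 (by omega)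
  have r4 : (k + 1) * pR < (k + 1) * (pR + 1) := Nat.mul_lt_mul_of_pos_left (by omega) (by omega)
  have lL : (k + 2) * pL - ((k + 2) * pL) / (k + 2) = (k + 1) * pL := layer_cube (k + 1) pL
  have lP : (k + 2) * pP - ((k + 2) * pP) / (k + 2) = (k + 1) * pP := layer_cube (k + 1) pP
  have lR : (k + 2) * pR - ((k + 2) * pR) / (k + 2) = (k + 1) * pR := layer_cube (k + 1) pR
  have lQ : (k + 2) * pQ - 1 - ((k + 2) * pQ - 1) / (k + 2) = (k + 1) * pQ := layer_pred (k + 1) pQ (by omega)
  have hwk : ∀ t, wk m (k + 1) t = vq m (k + 1) (t - t / (k + 2)) := fun t => rfl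
  -- names
  obtain ⟨Th, hTh⟩ : ∃ Th, Th = Thc m (vq m (k + 1)) t2 t3 := ⟨_, rfl⟩
  obtain ⟨fL, hfL⟩ : ∃ fL, fL = vq m (k + 1) ((k + 1) * pL) := ⟨_, rfl⟩
  obtain ⟨fR, hfR⟩ : ∃ fR, fR = vq m (k + 1) ((k + 1) * pR) := ⟨_, rfl⟩
  obtain ⟨f, hf⟩ : ∃ f, f = wk m (k + 1) := ⟨_, rfl⟩
  obtain ⟨u, hu⟩ : ∃ u, u = vq m (k + 2) := ⟨_, rfl⟩
  have faL : Face m fL := by rw [hfL]; exact C.face _ (by omega) (by omega)
  have faR : Face m fR := by rw [hfR]; exact C.face _ (by omega) (by omega)
  have lowf : ∀ t, (k + 2) * pL ≤ t → fL ≤ f t := by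
    intro t ht
    have h := layer_mono (k + 1) ht
    rw [hfL, hf, hwk]
    refine vq_mono hm1 (k + 1) ?_
    rw [← lL]
    exact h
  have upf : ∀ t, t ≤ (k + 2) * pR → f t ≤ fR := by
    intro t ht
    have h := layer_mono (k + 1) ht
    rw [hfR, hf, hwk]
    refine vq_mono hm1 (k + 1) ?_
    rw [← lR]
    exact h
  have idx : ∀ t, (k + 2) * pL ≤ t → t < (k + 2) * (pR + 1) → t2 ≤ t - t / (k + 2) ∧ t - t / (k + 2) < t3 := by
    intro t h0 h1
    obtain ⟨s, s1, s2, s3, -, -⟩ := C.idx h0 h1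
    omega
  have facef : ∀ t, (k + 2) * pL ≤ t → t < (k + 2) * (pR + 1) → Face m (f t) := by
    intro t h0 h1
    obtain ⟨s2, s3⟩ := idx t h0 h1
    rw [hf, hwk]
    exact C.face _ s2 s3.le
  have stepu : ∀ t, (k + 2) * pL ≤ t → t < (k + 2) * (pR + 1) → (m : ℝ) * u (t + 1) = m * u t + f t := by
    intro t h0 h1
    have h := (C.Thc_true h0 h1 le_rfl (by rw [← hf]; exact (facef t h0 h1).pos.le)).2
    rw [← hu, ← hf] at h
    exact h
  have stepT : ∀ t, (k + 2) * pL ≤ t → t < (k + 2) * (pR + 1) → ∀ y : ℝ, 0 ≤ y → y ≤ f t →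
      Th (m * u t + y) = Th (m * u t) + F m y := by
    intro t h0 h1 y y0 y1
    have h := C.Thc_step h0 h1 y0 (by rw [← hf]; exact y1)
    rw [← hu, ← hTh] at h
    exact h
  -- the number of the cells
  obtain ⟨n, hn⟩ : ∃ n, (k + 2) * pQ = (k + 2) * pP + n := Nat.exists_eq_add_of_le q2.le
  have hn1 : 1 ≤ n := by omega
  obtain ⟨N, hN1, hN⟩ : ∃ N : ℕ, 1 ≤ N ∧ m * u ((k + 2) * pP) - N * fL ≤ m * u ((k + 2) * pL) := by
    obtain ⟨N, hN⟩ := exists_nat_gt ((m * u ((k + 2) * pP) - m * u ((k + 2) * pL)) / fL)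
    rw [div_lt_iff₀ faL.pos] at hN
    refine ⟨N + 1, by omega, ?_⟩
    push_cast
    have := faL.pos
    linarith
  obtain ⟨J, hJ⟩ : ∃ J, J = N + 2 := ⟨_, rfl⟩
  obtain ⟨c, hc⟩ : ∃ c, c = cc fL fR f J n ((k + 2) * pP) := ⟨_, rfl⟩
  have cL : ∀ j, j < J → c j = fL := by
    intro j hj
    rw [hc]
    exact cc_left hj
  have cM : ∀ i, i < n → c (J + i) = f ((k + 2) * pP + i) := by
    intro i hi
    rw [hc]
    exact cc_mid hi
  have cR : ∀ j, J + n ≤ j → c j = fR := by
    intro j hj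
    rw [hc]
    exact cc_right hj
  have cface : ∀ j, Face m (c j) := by
    intro j
    rw [hc]
    exact cc_all (fun r => Face m r) faL (fun i hi => facef _ (by omega) (by omega)) faR j
  have cmono : ∀ i j, i ≤ j → c i ≤ c j := by
    intro i j hij
    refine monotone_nat_of_le_succ (f := c) (fun j => ?_) hij
    rw [hc]
    refine cc_rel hn1 (fun a b => a ≤ b) le_rfl (lowf _ q1.le) (fun i hi => ?_) (upf _ (by omega)) le_rfl j
    rw [hf]
    show wk m (k + 1) ((k + 2) * pP + i) ≤ wk m (k + 1) ((k + 2) * pP + (i + 1))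
    rw [hwk, hwk]
    exact vq_mono hm1 (k + 1) (layer_mono (k + 1) (by omega))
  obtain ⟨g, U, hcells, hU0, hg0⟩ := exists_cells hm2 c cface cmono (m * u ((k + 2) * pP) - J * fL)
    (Th (m * u ((k + 2) * pP)) + FQ m fL (-(J * fL)))
  -- the nodes
  have UL : ∀ j, j ≤ J → U j = m * u ((k + 2) * pP) - ((J : ℝ) - j) * fL := by
    intro j
    induction j with
    | zero => intro _; rw [hU0, Nat.cast_zero, sub_zero]
    | succ j ih =>
      intro hj
      rw [hcells.step j, cL j (by omega), ih (by omega)]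
      push_cast
      ring
  have UJ : U J = m * u ((k + 2) * pP) := by
    rw [UL J le_rfl]; ring
  have UM : ∀ i, i ≤ n → U (J + i) = m * u ((k + 2) * pP + i) := by
    intro i
    induction i with
    | zero => intro _; exact UJ
    | succ i ih =>
      intro hi
      rw [← add_assoc, hcells.step (J + i), cM i (by omega), ih (by omega), ← add_assoc,
        stepu _ (by omega) (by omega)]
  have UQ : U (J + n) = m * u ((k + 2) * pQ) := by
    rw [UM n le_rfl, hn]
  have UR : ∀ i : ℕ, U (J + n + i) = m * u ((k + 2) * pQ) + i * fR := by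
    intro i
    induction i with
    | zero => rw [Nat.cast_zero, zero_mul, add_zero, add_zero, UQ]
    | succ i ih =>
      rw [← add_assoc, hcells.step (J + n + i), cR _ (by omega), ih]
      push_cast
      ring
  -- the values at the nodes
  have gJ : g (U J) = Th (m * u ((k + 2) * pP)) := by
    have h := cells_left hm2 hcells cL (y := J * fL) (mul_nonneg (Nat.cast_nonneg _) faL.pos.le) le_rfl
    rw [UJ, hg0] at h
    rw [UJ]
    linarith
  have gM : ∀ i, i ≤ n → g (U (J + i)) = Th (m * u ((k + 2) * pP + i)) := by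
    intro i
    induction i with
    | zero => intro _; exact gJ
    | succ i ih =>
      intro hi
      have fp := (facef ((k + 2) * pP + i) (by omega) (by omega)).pos.le
      have h1 := hcells.val (J + i) (f ((k + 2) * pP + i)) fp (by rw [cM i (by omega)])
      have h2 := stepT ((k + 2) * pP + i) (by omega) (by omega) _ fp le_rfl
      have h3 := hcells.step (J + i)
      rw [cM i (by omega)] at h3
      rw [← add_assoc, h3, h1, ih (by omega), ← add_assoc, stepu _ (by omega) (by omega), h2]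
  have gQ : g (U (J + n)) = Th (m * u ((k + 2) * pQ)) := by
    rw [gM n le_rfl, hn]
  have gmid : ∀ i, i < n → ∀ y : ℝ, 0 ≤ y → y ≤ f ((k + 2) * pP + i) →
      g (m * u ((k + 2) * pP + i) + y) = Th (m * u ((k + 2) * pP + i) + y) := by
    intro i hi y y0 y1
    rw [← UM i hi.le, hcells.val (J + i) y y0 (by rw [cM i hi]; exact y1), gM i hi.le, UM i hi.le,
      stepT _ (by omega) (by omega) y y0 y1]
  -- the three parts
  have mid : ∀ x, u ((k + 2) * pP) ≤ x → x ≤ u ((k + 2) * pQ) → ∃ i, i < n ∧ u ((k + 2) * pP + i) ≤ x ∧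
      x ≤ u ((k + 2) * pP + (i + 1)) ∧ g (m * x) = Th (m * x) := by
    intro x x0 x1
    obtain ⟨i, -, hi, h0, h1⟩ := loc (U := fun i => u ((k + 2) * pP + i)) (a := 0) (b := n) (X := x) (by omega)
      x0 (by rw [← hn]; exact x1)
    refine ⟨i, hi, h0, h1, ?_⟩
    have h2 := stepu ((k + 2) * pP + i) (by omega) (by omega)
    have h0' := mul_le_mul_of_nonneg_left h0 hm0.le
    have h1' := mul_le_mul_of_nonneg_left h1 hm0.le
    have e : (m : ℝ) * x = m * u ((k + 2) * pP + i) + (m * x - m * u ((k + 2) * pP + i)) := by ring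
    rw [e]
    refine gmid i hi _ (by linarith) ?_
    rw [← add_assoc] at h1'
    linarith
  have left : ∀ x, u ((k + 2) * pL) ≤ x → x ≤ u ((k + 2) * pP) →
      g (m * x) = Th (m * u ((k + 2) * pP)) + FQ m fL (-(m * u ((k + 2) * pP) - m * x)) := by
    intro x x0 x1
    have h0' := mul_le_mul_of_nonneg_left x0 hm0.le
    have h1' := mul_le_mul_of_nonneg_left x1 hm0.le
    have h := cells_left hm2 hcells cL (y := m * u ((k + 2) * pP) - m * x) (by linarith) (by
      rw [hJ]; push_cast; have := faL.pos; linarith)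
    rw [UJ] at h
    have e : (m : ℝ) * x = m * u ((k + 2) * pP) - (m * u ((k + 2) * pP) - m * x) := by ring
    rw [UJ] at gJ
    rw [gJ] at h
    rw [← h]
    congr 1
  have right : ∀ x, u ((k + 2) * pQ) ≤ x →
      g (m * x) = Th (m * u ((k + 2) * pQ)) + FQ m fR (m * x - m * u ((k + 2) * pQ)) := by
    intro x x0
    have h0' := mul_le_mul_of_nonneg_left x0 hm0.le
    have h := cells_right hm2 hcells cR (y := m * x - m * u ((k + 2) * pQ)) (by linarith)
    rw [gQ, UQ] at h
    rw [← h]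
    congr 1
    ring
  -- the bounds
  have bL : ∀ x, u ((k + 2) * pL) ≤ x → x ≤ u ((k + 2) * pP) →
      g (m * x) ≤ m * (G (u ((k + 2) * pP)) - (u ((k + 2) * pP) - x) * Sq m (k + 1) ((k + 1) * pL)) + fL + e + 6 / m := by
    intro x x0 x1
    rw [left x x0 x1]
    have h1 := C.FQ_le (s := (k + 1) * pL) (by omega) (by omega) (-(m * u ((k + 2) * pP) - m * x))
    have h2 := C.Thc_node_le_G (t := (k + 2) * pP) q1.le (by omega)
    rw [← hu, ← hTh] at h2
    rw [← hfL] at h1
    have e1 : -(m * u ((k + 2) * pP) - m * x) * Sq m (k + 1) ((k + 1) * pL) =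
      -(m * ((u ((k + 2) * pP) - x) * Sq m (k + 1) ((k + 1) * pL))) := by ring
    rw [e1] at h1
    rw [mul_sub]
    linarith
  have bR : ∀ x, u ((k + 2) * pQ) ≤ x →
      g (m * x) ≤ m * (G (u ((k + 2) * pQ)) + (x - u ((k + 2) * pQ)) * Sq m (k + 1) ((k + 1) * pR)) + fR + e + 6 / m := by
    intro x x0
    rw [right x x0]
    have h1 := C.FQ_le (s := (k + 1) * pR) (by omega) (by omega) (m * x - m * u ((k + 2) * pQ))
    have h2 := C.Thc_node_le_G (t := (k + 2) * pQ) (by omega) q3
    rw [← hu, ← hTh] at h2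
    rw [← hfR] at h1
    have e1 : (m * x - m * u ((k + 2) * pQ)) * Sq m (k + 1) ((k + 1) * pR) =
      m * ((x - u ((k + 2) * pQ)) * Sq m (k + 1) ((k + 1) * pR)) := by ring
    rw [e1] at h1
    rw [mul_add]
    linarith
  have tL := C.lineL
  have tL' := C.lineL'
  have tR := C.lineR
  have tR' := C.lineR'
  rw [← hu] at tL tL' tR tR'
  rw [← hfL] at tL'
  rw [← hfR] at tR'
  rw [← hfL, ← hfR, ← hu, ← hTh]
  refine ⟨g, U, c, hcells, ?_, ?_, ?_, ?_, ?_⟩
  · intro j
    rw [hc]
    refine cc_all (fun r => ∃ s, t2 ≤ s ∧ s ≤ t3 ∧ r = vq m (k + 1) s) ⟨_, by omega, by omega, hfL⟩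
      (fun i hi => ?_) ⟨_, by omega, by omega, hfR⟩ j
    obtain ⟨s2, s3⟩ := idx ((k + 2) * pP + i) (by omega) (by omega)
    exact ⟨_, s2, s3.le, by rw [hf, hwk]⟩
  · intro j
    have h12 : fL ≤ fR := (lowf _ q1.le).trans (upf _ (by omega))
    rw [hc]
    exact cc_all (fun r => fL ≤ r ∧ r ≤ fR) ⟨le_rfl, h12⟩ (fun i hi => ⟨lowf _ (by omega), upf _ (by omega)⟩)
      ⟨h12, le_rfl⟩ j
  · intro j
    have ha := C.a0pos
    rw [hc]
    refine cc_rel hn1 (fun a b => b ≤ a + a0) (by linarith) ?_ (fun i hi => ?_) ?_ (by linarith) j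
    · show f ((k + 2) * pP) ≤ fL + a0
      rw [hf, hwk, lP, hfL]
      exact C.a4
    · show f ((k + 2) * pP + (i + 1)) ≤ f ((k + 2) * pP + i) + a0
      obtain ⟨s2, s3⟩ := idx ((k + 2) * pP + i) (by omega) (by omega)
      rw [hf, hwk, hwk]
      have h6 := C.a6 _ s2 s3
      rcases layer_succ (k + 1) ((k + 2) * pP + i) with h | h
      · have h' : (k + 2) * pP + (i + 1) - ((k + 2) * pP + (i + 1)) / (k + 2) =
          (k + 2) * pP + i - ((k + 2) * pP + i) / (k + 2) := h
        rw [h']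
        linarith
      · have h' : (k + 2) * pP + (i + 1) - ((k + 2) * pP + (i + 1)) / (k + 2) =
          (k + 2) * pP + i - ((k + 2) * pP + i) / (k + 2) + 1 := h
        rw [h']
        exact h6
    · show fR ≤ f ((k + 2) * pP + (n - 1)) + a0
      have e1 : (k + 2) * pP + (n - 1) = (k + 2) * pQ - 1 := by omega
      rw [e1, hf, hwk, lQ, hfR]
      exact C.a5
  · intro x x0 x1
    obtain ⟨i, -, -, -, h⟩ := mid x x0 x1
    exact h
  · intro x x0 x1
    refine ⟨?_, ?_, ?_, ?_⟩
    · rcases le_total x (u ((k + 2) * pP)) with h | h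
      · rw [left x x0 h]
        have h0' := mul_le_mul_of_nonneg_left x0 hm0.le
        have h1' := mul_le_mul_of_nonneg_left h hm0.le
        have := cell_down hm2 (h := Th) (A := fun i => m * u i) (f := f) q1.le
          (fun i a b => stepu i a (by omega)) (fun i a b => facef i a (by omega))
          (fun i a b => stepT i a (by omega)) faL (fun i a b => lowf i a)
          (y := m * u ((k + 2) * pP) - m * x) (by linarith) (by linarith)
        rwa [sub_sub_cancel] at this
      · rcases le_total x (u ((k + 2) * pQ)) with h' | h'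
        · obtain ⟨i, -, -, -, h⟩ := mid x h h'
          exact h.le
        · rw [right x h']
          have h0' := mul_le_mul_of_nonneg_left h' hm0.le
          have h1' := mul_le_mul_of_nonneg_left x1 hm0.le
          have := cell_up hm2 (h := Th) (A := fun i => m * u i) (f := f) q3.le
            (fun i a b => stepu i (by omega) (by omega)) (fun i a b => facef i (by omega) (by omega))
            (fun i a b => stepT i (by omega) (by omega)) faR (fun i a b => upf i (by omega))
            (y := m * x - m * u ((k + 2) * pQ)) (by linarith) (by linarith)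
          rwa [add_sub_cancel] at this
    · rcases le_total x (u ((k + 2) * pP)) with h | h
      · have h0' := mul_le_mul_of_nonneg_left x0 hm0.le
        have h1' := mul_le_mul_of_nonneg_left h hm0.le
        obtain ⟨j, j1, j2, j3, j4⟩ := loc (U := U) (a := 2) (b := J) (X := m * x) (by omega)
          (by
            rw [UL 2 (by omega), hJ]
            push_cast
            linarith)
          (by rw [UJ]; exact h1')
        obtain ⟨i, rfl⟩ := Nat.exists_eq_add_of_le' j1
        rw [hcells.step] at j4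
        refine ⟨i, j3, j4, ?_⟩
        rw [cL _ j2]
        have h2 := bL x x0 h
        have h3 := mul_le_mul_of_nonneg_left (tL x x0 h) hm0.le
        linarith
      · rcases le_total x (u ((k + 2) * pQ)) with h' | h'
        · obtain ⟨i, hi, i0, i1', hg⟩ := mid x h h'
          have h0' := mul_le_mul_of_nonneg_left i0 hm0.le
          have h1' := mul_le_mul_of_nonneg_left i1' hm0.le
          have h2 := C.Thc_le_G (t := (k + 2) * pP + i) (by omega) (by omega) (x := x)
            (by rw [← hu]; exact i0) (by rw [← hu]; exact i1')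
          rw [← hTh, ← hf] at h2
          have h3 := stepu ((k + 2) * pP + i) (by omega) (by omega)
          rw [← add_assoc] at h1'
          have e1 : N + i + 2 = J + i := by omega
          refine ⟨N + i, ?_, ?_, ?_⟩
          · rw [e1, UM i hi.le]; exact h0'
          · rw [e1, UM i hi.le, cM i hi]; linarith
          · rw [e1, cM i hi, hg]; exact h2
        · have h0' := mul_le_mul_of_nonneg_left h' hm0.le
          obtain ⟨M, hM⟩ := exists_nat_gt ((m * x - m * u ((k + 2) * pQ)) / fR)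
          rw [div_lt_iff₀ faR.pos] at hM
          obtain ⟨j, j1, j2, j3, j4⟩ := loc (U := U) (a := J + n) (b := J + n + (M + 1)) (X := m * x) (by omega)
            (by rw [UQ]; exact h0')
            (by
              rw [UR (M + 1)]
              push_cast
              have := faR.pos
              linarith)
          obtain ⟨i, rfl⟩ := Nat.exists_eq_add_of_le' (by omega : 2 ≤ j)
          rw [hcells.step] at j4
          refine ⟨i, j3, j4, ?_⟩
          rw [cR _ j1]
          have h2 := bR x h'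
          have h3 := mul_le_mul_of_nonneg_left (tR x h' x1) hm0.le
          linarith
    · intro hx
      obtain ⟨h1, h2⟩ := tL' x x0 hx
      exact (bL x x0 h1).trans h2
    · intro hx
      obtain ⟨h1, h2⟩ := tR' x x1 hx
      exact (bR x h1).trans h2

end Pool.Agent.H86.ZN
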